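import Pool.Agent.Lib.MP_879916_ag.Lang

/-! Points over constant extensions of degree prime to `l`. -/

namespace Pool.Agent.PrimeToL

open Module MvPolynomial Pool.Agent.ZeroCyc
open scoped IntermediateField Polynomial

/-- the union of the extensions of degree prime to `l` of a finite field -/
theorem exists_PL (F : Type) [Field F] [Finite F] {l : ℕ} (hl : l.Prime) :
    ∃ (p r : ℕ) (_ : Fact p.Prime) (_ : CharP (AlgebraicClosure F) p)
      (k : IntermediateField F (AlgebraicClosure F)), Nat.card F = p ^ r ∧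
      PL k (AlgebraicClosure F) p r l := by
  obtain ⟨p, hp⟩ := CharP.exists F
  have := Fintype.ofFinite F
  obtain ⟨r, hp', hr⟩ := FiniteField.card F p
  have := Fact.mk hp'
  have : CharP (AlgebraicClosure F) p := charP_of_injective_algebraMap
    (algebraMap F (AlgebraicClosure F)).injective p
  have two : ∀ {x y : AlgebraicClosure F}, (∃ m, ¬ l ∣ m ∧ fr _ p (r * m) x = x) →
      (∃ m, ¬ l ∣ m ∧ fr _ p (r * m) y = y) →
      ∃ m, ¬ l ∣ m ∧ fr _ p (r * m) x = x ∧ fr _ p (r * m) y = y := by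
    rintro x y ⟨m, hm, hx⟩ ⟨n, hn, hy⟩
    refine ⟨m * n, fun e => (hl.dvd_mul.1 e).elim hm hn, ?_, ?_⟩
    · rw [← mul_assoc]
      exact fr_fixed_mul hx n
    · rw [mul_comm m, ← mul_assoc]
      exact fr_fixed_mul hy m
  let k : IntermediateField F (AlgebraicClosure F) :=
    { carrier := {x | ∃ m, ¬ l ∣ m ∧ fr _ p (r * m) x = x}
      mul_mem' := fun hx hy => (two hx hy).imp fun m h => ⟨h.1, by rw [map_mul, h.2.1, h.2.2]⟩
      add_mem' := fun hx hy => (two hx hy).imp fun m h => ⟨h.1, by rw [map_add, h.2.1, h.2.2]⟩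
      algebraMap_mem' := fun x => ⟨1, hl.not_dvd_one, by
        rw [mul_one, fr_apply, ← map_pow, ← hr, FiniteField.pow_card]⟩
      inv_mem' := fun x hx => hx.imp fun m h => ⟨h.1, by rw [map_inv₀, h.2]⟩ }
  refine ⟨p, r, inferInstance, inferInstance, k, by rw [Nat.card_eq_fintype_card, hr],
    fun x => ?_, r.2, hl, fun x => ⟨?_, fun h => ⟨⟨x, h⟩, rfl⟩⟩⟩
  · have hx := Algebra.IsIntegral.isIntegral (R := F) x
    have h1 := Polynomial.aeval_eq_zero_of_dvd_aeval_eq_zero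
      ((minpoly.irreducible hx).natDegree_dvd_iff_dvd_X_pow_card_pow_sub_X.1 dvd_rfl)
      (minpoly.aeval F x)
    refine ⟨r * (minpoly F x).natDegree, Nat.mul_pos r.2 (minpoly.natDegree_pos hx), ?_⟩
    rw [pow_mul, ← hr, ← Nat.card_eq_fintype_card]
    simpa [sub_eq_zero] using h1
  · rintro ⟨x, rfl⟩
    exact x.2

theorem main (F K : Type) [Field F] [Finite F] [Field K] [Algebra F K] [Algebra (RatFunc F) K]
    [IsScalarTower F (RatFunc F) K] [FiniteDimensional (RatFunc F) K] (hK : Reg F K)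
    {l : ℕ} (hl : l.Prime) {σ ι : Type} [Fintype σ] [Fintype ι] {w : σ → ℕ} (hw : ∀ j, 0 < w j)
    {d : ι → ℕ} (hd : ∀ i, 0 < d i) {f : ι → MvPolynomial σ K}
    (hf : ∀ i, (f i).IsWeightedHomogeneous w (d i))
    (hlt : ∑ i, d i * l ^ padicValNat l (d i) < ∑ j, w j * l ^ padicValNat l (w j)) :
    ∃ ζ : AlgebraicClosure K, IsAlgebraic F ζ ∧ FiniteDimensional K K⟮ζ⟯ ∧
      ¬ l ∣ finrank K K⟮ζ⟯ ∧ ∃ x : σ → K⟮ζ⟯, x ≠ 0 ∧ ∀ i, aeval x (f i) = 0 := by
  obtain ⟨p, r, _, _, k, hq, h⟩ := exists_PL F hl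
  obtain ⟨n, N, u, H, hu, hH, h1, h2⟩ := exists_sections (F := F)
    (fun d => l ^ padicValNat l d) hf hlt
  obtain ⟨ξ, hξ, h3⟩ := h.forms (σ := Σ j, Fin (n j)) (ι := Σ i, Fin (N i))
    (w := fun q => w q.1) (fun q => hw q.1) (d := fun q => d q.1) (fun q => hd q.1)
    (f := fun q => map (algebraMap F k) (H q.1 q.2))
    (fun q m hm => hH q.1 q.2 fun e => hm (by rw [coeff_map, e, map_zero]))
    (by simpa [Fintype.sum_sigma] using h1)
  obtain ⟨ζ, hζ, h4, h5⟩ := exists_prim (K := F) (fun q => (ξ q : AlgebraicClosure F))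
    fun q => Algebra.IsSeparable.isSeparable F _
  obtain ⟨m, hm, h6⟩ := (h.mem ζ).1 ⟨⟨ζ, IntermediateField.adjoin_le_iff.2 (by
    rintro _ ⟨q, rfl⟩
    exact (ξ q).2) h4⟩, rfl⟩
  let j : AlgebraicClosure F →ₐ[F] AlgebraicClosure K := IsAlgClosed.lift
  have hi : IsIntegral F (j ζ) := hζ.isIntegral.map j
  have hmem : ∀ q, j (ξ q) ∈ K⟮j ζ⟯ := fun q => by
    have h7 : F⟮ζ⟯ ≤ (K⟮j ζ⟯.restrictScalars F).comap j :=
      IntermediateField.adjoin_simple_le_iff.2 (IntermediateField.mem_adjoin_simple_self K _)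
    exact h7 (h5 q)
  refine ⟨j ζ, hi.isAlgebraic, IntermediateField.adjoin.finiteDimensional hi.tower_top, ?_,
    fun a => ⟨∑ s, j (ξ ⟨a, s⟩) * algebraMap K _ (u a s),
      sum_mem fun s _ => mul_mem (hmem _) (IntermediateField.algebraMap_mem _ _)⟩,
    fun e => hξ ?_, fun i => ?_⟩
  · rw [IntermediateField.adjoin.finrank hi.tower_top, hK.minpoly_eq hi, Polynomial.natDegree_map,
      minpoly.algHom_eq j j.injective]
    refine fun e => hm (e.trans ((minpoly.irreducible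
      hζ.isIntegral).natDegree_dvd_of_dvd_X_pow_card_pow_sub_X (minpoly.dvd F ζ ?_)))
    rw [fr_apply, pow_mul, ← hq] at h6
    simp [h6]
  · funext ⟨a, s⟩
    exact Subtype.ext (hK.indep j (hu a) Finset.univ (fun s => ξ ⟨a, s⟩)
      (congrArg Subtype.val (congrFun e a)) s (Finset.mem_univ s))
  · have h7 := h2 (AlgebraicClosure K) (fun q => j (ξ q)) (fun i β => by
      have h8 := congrArg (j.comp k.val) (h3 ⟨i, β⟩)
      rwa [map_zero, eval_map, ← aeval_def, ← AlgHom.comp_apply, comp_aeval] at h8) i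
    apply K⟮j ζ⟯.val.injective
    rw [map_zero, ← h7]
    change K⟮j ζ⟯.val _ = _
    rw [← AlgHom.comp_apply, comp_aeval]
    rfl

end Pool.Agent.PrimeToL
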