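import Mathlib

/-! Extensions in which the ground field is algebraically closed. -/

namespace Pool.Agent.PrimeToL

open Module Polynomial
open scoped IntermediateField

/-- `k` is algebraically closed in `L` -/
def Reg (k L : Type) [Field k] [Field L] [Algebra k L] : Prop :=
  ∀ β : L, IsIntegral k β → β ∈ (algebraMap k L).range

variable {k L Λ : Type} [Field k] [Field L] [Field Λ] [Algebra k L] [Algebra k Λ] [Algebra L Λ]
  [IsScalarTower k L Λ]

theorem Reg.minpoly_eq (h : Reg k L) {γ : Λ} (hγ : IsIntegral k γ) :
    minpoly L γ = (minpoly k γ).map (algebraMap k L) := by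
  have hL : IsIntegral L γ := hγ.tower_top
  have hd := minpoly.dvd_map_of_isScalarTower k L γ
  have h1 : minpoly L γ ∈ lifts (algebraMap k L) := by
    rw [lifts_iff_coeff_lifts]
    exact fun n => h _ (isIntegral_coeff_of_dvd _ _ (minpoly.monic hγ) (minpoly.monic hL) hd n)
  obtain ⟨g, hg⟩ := (mem_lifts _).1 h1
  have h2 : minpoly k γ ∣ g := minpoly.dvd k γ (by
    rw [← aeval_map_algebraMap L, hg, minpoly.aeval])
  refine eq_of_monic_of_associated (minpoly.monic hL) ((minpoly.monic hγ).map _)
    (associated_of_dvd_dvd hd ?_)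
  rw [← hg]
  exact Polynomial.map_dvd _ h2

theorem Reg.linearDisjoint (h : Reg k L) {γ : Λ} (hγ : IsIntegral k γ) :
    k⟮γ⟯.LinearDisjoint L := by
  refine IntermediateField.LinearDisjoint.of_basis_left
    (IntermediateField.adjoin.powerBasis hγ).basis ?_
  have h1 := linearIndependent_pow (K := L) γ
  rw [h.minpoly_eq hγ, natDegree_map] at h1
  have h2 : (k⟮γ⟯.val ∘ (IntermediateField.adjoin.powerBasis hγ).basis) =
      fun i : Fin (minpoly k γ).natDegree => γ ^ (i : ℕ) := by
    ext i
    simp
  rw [h2]
  exact h1

/-- a finite set of separable elements lies in a simple separable extension -/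
theorem exists_prim {K E : Type} [Field K] [Field E] [Algebra K E] {ι : Type} [Finite ι]
    (x : ι → E) (hx : ∀ i, IsSeparable K (x i)) :
    ∃ θ : E, IsSeparable K θ ∧ θ ∈ IntermediateField.adjoin K (Set.range x) ∧
      ∀ i, x i ∈ K⟮θ⟯ := by
  have : FiniteDimensional K (IntermediateField.adjoin K (Set.range x)) :=
    IntermediateField.finiteDimensional_adjoin (by
      rintro _ ⟨i, rfl⟩
      exact (hx i).isIntegral)
  have : Algebra.IsSeparable K (IntermediateField.adjoin K (Set.range x)) :=
    (IntermediateField.isSeparable_adjoin_iff_isSeparable K E).2 (by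
      rintro _ ⟨i, rfl⟩
      exact hx i)
  obtain ⟨α, hα⟩ := Field.exists_primitive_element K (IntermediateField.adjoin K (Set.range x))
  refine ⟨α, ?_, α.2, fun i => ?_⟩
  · exact (Algebra.IsSeparable.isSeparable K α).map
      (IntermediateField.adjoin K (Set.range x)).val Subtype.val_injective
  · have h1 := congrArg (IntermediateField.lift (F := IntermediateField.adjoin K (Set.range x))) hα
    rw [IntermediateField.lift_adjoin_simple, IntermediateField.lift_top] at h1
    rw [h1]
    exact IntermediateField.subset_adjoin _ _ ⟨i, rfl⟩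

/-- independent families stay independent after a separable extension of the constants -/
theorem Reg.indep (h : Reg k L) {κ : Type} [Field κ] [Algebra k κ] [Algebra.IsSeparable k κ]
    (j : κ →ₐ[k] Λ) {ι : Type} {b : ι → L} (hb : LinearIndependent k b) (s : Finset ι)
    (c : ι → κ) (h0 : ∑ i ∈ s, j (c i) * algebraMap L Λ (b i) = 0) : ∀ i ∈ s, c i = 0 := by
  obtain ⟨γ, hγ, -, hc⟩ := exists_prim (K := k) (fun i : s => j (c i)) fun i =>
    (Algebra.IsSeparable.isSeparable k (c i)).map j j.injective
  have h1 := (h.linearDisjoint hγ.isIntegral).linearIndependent_right'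
    (hb.comp (Subtype.val : s → ι) Subtype.val_injective)
  rw [Fintype.linearIndependent_iff] at h1
  intro i hi
  have h2 := h1 (fun i => ⟨_, hc i⟩) (by
    rw [← h0, ← Finset.sum_coe_sort s]
    rfl) ⟨i, hi⟩
  exact j.injective ((congrArg Subtype.val h2).trans (map_zero j).symm)

/-- the minimal polynomial of an integral function on a geometrically integral variety is
absolutely irreducible -/
theorem Reg.irreducible (h : Reg k L) {κ : Type} [Field κ] [Algebra k κ] [Algebra.IsSeparable k κ]
    {σ : Type} [Fintype σ] [Algebra (MvPolynomial σ k) L] [IsScalarTower k (MvPolynomial σ k) L]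
    [FaithfulSMul (MvPolynomial σ k) L] {θ : L} (hθ : IsIntegral (MvPolynomial σ k) θ) :
    Irreducible ((minpoly (MvPolynomial σ k) θ).map (MvPolynomial.map (algebraMap k κ))) := by
  classical
  let j : κ →ₐ[k] AlgebraicClosure L := IsAlgClosed.lift
  let y : σ → L := fun i => algebraMap (MvPolynomial σ k) L (MvPolynomial.X i)
  let J : MvPolynomial σ κ →+* AlgebraicClosure L :=
    MvPolynomial.eval₂Hom (j : κ →+* _) fun i => algebraMap L _ (y i)
  have hJ : J.comp (MvPolynomial.map (algebraMap k κ)) =
      (algebraMap L _).comp (algebraMap (MvPolynomial σ k) L) := by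
    refine MvPolynomial.ringHom_ext (fun r => ?_) fun i => by simp [J, y]
    simp only [J, RingHom.comp_apply, MvPolynomial.map_C, MvPolynomial.eval₂Hom_C,
      RingHom.coe_coe, AlgHom.commutes]
    rw [← MvPolynomial.algebraMap_eq, ← IsScalarTower.algebraMap_apply,
      ← IsScalarTower.algebraMap_apply]
  have hm := minpoly.monic hθ
  have hi : LinearIndependent (MvPolynomial σ k)
      fun i : Fin (minpoly (MvPolynomial σ k) θ).natDegree => θ ^ (i : ℕ) := by
    let := FractionRing.liftAlgebra (MvPolynomial σ k) L
    have h1 := linearIndependent_pow (K := FractionRing (MvPolynomial σ k)) θ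
    rw [minpoly.isIntegrallyClosed_eq_field_fractions' _ hθ, hm.natDegree_map] at h1
    exact h1.restrict_scalars' _
  have hb := linearIndependent_smul (MvPolynomial.basisMonomials σ k).linearIndependent hi
  have key : ∀ g : (MvPolynomial σ κ)[X], g.Monic →
      g.natDegree < (minpoly (MvPolynomial σ k) θ).natDegree →
      g.eval₂ J (algebraMap L _ θ) ≠ 0 := by
    intro g hg hlt h0
    have h1 := h.indep j hb (((Finset.range (minpoly (MvPolynomial σ k) θ).natDegree).biUnion
      fun i => (g.coeff i).support) ×ˢ Finset.univ) (fun q => (g.coeff q.2).coeff q.1) (by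
        rw [← h0, eval₂_eq_sum_range' _ hlt, Finset.sum_product_right,
          ← Fin.sum_univ_eq_sum_range fun i => J (g.coeff i) * algebraMap L _ θ ^ i]
        refine Finset.sum_congr rfl fun i _ => ?_
        rw [MvPolynomial.coe_eval₂Hom, MvPolynomial.eval₂_eq', Finset.sum_mul]
        refine (Finset.sum_subset_zero_on_sdiff
          (Finset.subset_biUnion_of_mem (fun i => (g.coeff i).support)
            (Finset.mem_range.2 i.2)) (fun m hm => ?_) fun m _ => ?_).symm
        · rw [MvPolynomial.notMem_support_iff.1 (Finset.mem_sdiff.1 hm).2, map_zero, zero_mul]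
        · simp [y, Algebra.smul_def, MvPolynomial.monomial_eq, Finsupp.prod_fintype, mul_assoc])
    have h2 := h1 (0, ⟨g.natDegree, hlt⟩) (by
      rw [Finset.mem_product, Finset.mem_biUnion]
      refine ⟨⟨g.natDegree, Finset.mem_range.2 hlt, ?_⟩, Finset.mem_univ _⟩
      rw [hg.coeff_natDegree]
      simp)
    rw [hg.coeff_natDegree] at h2
    simp at h2
  have hm' := hm.map (MvPolynomial.map (σ := σ) (algebraMap k κ))
  have hd := minpoly.natDegree_pos hθ
  rw [hm'.irreducible_iff_natDegree]
  refine ⟨fun e => ?_, fun f g hf hg e => ?_⟩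
  · have h1 := congrArg natDegree e
    rw [hm.natDegree_map, natDegree_one] at h1
    omega
  · have h1 := congrArg natDegree e
    rw [hm.natDegree_map, hf.natDegree_mul hg] at h1
    have h2 := congrArg (eval₂ J (algebraMap L _ θ)) e
    rw [eval₂_mul, eval₂_map, hJ, ← hom_eval₂, ← aeval_def, minpoly.aeval, map_zero] at h2
    by_contra h3
    push Not at h3
    rcases mul_eq_zero.1 h2 with h4 | h4
    · exact key f hf (by omega) h4
    · exact key g hg (by omega) h4

end Pool.Agent.PrimeToL
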