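import Pool.Agent.Lib.MP_796ce4_ag.ZY.FfM
import Pool.Agent.Lib.MP_879916_ag.Reg

/-! Points over the union of the extensions of degree prime to `l` of a finite field. -/

namespace Pool.Agent.PrimeToL

open Module Polynomial Pool.Agent.ZeroCyc
open scoped IntermediateField

set_option linter.unusedSectionVars false

/-- `k` is the union of the fields with `p ^ (r m)` elements, `m` prime to `l` -/
structure PL (k κ : Type) [Field k] [Field κ] [Algebra k κ] (p : ℕ) [Fact p.Prime] [CharP κ p]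
    (r l : ℕ) : Prop where
  alg : AlgP κ p
  pos : 0 < r
  prime : l.Prime
  mem : ∀ x : κ, x ∈ (algebraMap k κ).range ↔ ∃ m, ¬ l ∣ m ∧ fr κ p (r * m) x = x

theorem poly_fix {l : ℕ} (hl : l.Prime) {R S : Type} [CommRing R] [CommRing S] (ι : R →+* S)
    (F : ℕ → S →+* S) (h : ∀ x, ∃ m, ¬ l ∣ m ∧ ∀ n, F (m * n) (ι x) = ι x) (a : R[X]) :
    ∃ m, ¬ l ∣ m ∧ ∀ n, mapRingHom (F (m * n)) (mapRingHom ι a) = mapRingHom ι a := by
  induction a using Polynomial.induction_on' with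
  | add a b ha hb =>
    obtain ⟨m, hm, ha⟩ := ha
    obtain ⟨m', hm', hb⟩ := hb
    refine ⟨m * m', fun e => (hl.dvd_mul.1 e).elim hm hm', fun n => ?_⟩
    rw [map_add, map_add]
    congr 1
    · rw [mul_assoc, ha]
    · rw [mul_comm m, mul_assoc, hb]
  | monomial i x =>
    obtain ⟨m, hm, hx⟩ := h x
    exact ⟨m, hm, fun n => by simp [hx]⟩

theorem exists_factor {l : ℕ} {K : Type} [Field K] (f : K[X]) : ¬ l ∣ f.natDegree →
    ∃ g, Irreducible g ∧ g ∣ f ∧ ¬ l ∣ g.natDegree := by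
  induction f using WfDvdMonoid.induction_on_irreducible with
  | zero => simp
  | unit u hu => simp [natDegree_eq_zero_of_isUnit hu]
  | mul a i ha hi ih =>
    intro h
    by_cases h1 : l ∣ i.natDegree
    · obtain ⟨g, h2, h3, h4⟩ := ih fun h2 => h (by
        rw [natDegree_mul hi.ne_zero ha]
        exact dvd_add h1 h2)
      exact ⟨g, h2, h3.mul_left _, h4⟩
    · exact ⟨i, hi, dvd_mul_right _ _, h1⟩

/-- lying over for homomorphisms to an algebraically closed field -/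
theorem exists_ext {R A Λ : Type} [CommRing R] [CommRing A] [Field Λ] [IsAlgClosed Λ]
    {φ : R →+* A} (hφ : φ.IsIntegral) (ψ : R →+* Λ) (hk : RingHom.ker φ ≤ RingHom.ker ψ) :
    ∃ ψ' : A →+* Λ, ψ'.comp φ = ψ := by
  let := φ.toAlgebra
  have : Algebra.IsIntegral R A := ⟨hφ⟩
  have := RingHom.ker_isPrime ψ
  obtain ⟨Q, -, hQ, hQc⟩ := Ideal.exists_ideal_over_prime_of_isIntegral (RingHom.ker ψ)
    (⊥ : Ideal A) hk
  have : (Q.comap (algebraMap R A)).IsPrime := hQc ▸ RingHom.ker_isPrime ψ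
  let χ : R ⧸ Q.comap (algebraMap R A) →+* Λ :=
    Ideal.Quotient.lift _ ψ fun a ha => by rw [hQc] at ha; exact ha
  have hχ : Function.Injective χ := by
    rw [injective_iff_map_eq_zero]
    intro a ha
    obtain ⟨a, rfl⟩ := Ideal.Quotient.mk_surjective a
    rw [Ideal.Quotient.eq_zero_iff_mem, hQc]
    exact ha
  let := χ.toAlgebra
  have : IsTorsionFree (R ⧸ Q.comap (algebraMap R A)) Λ :=
    Module.isTorsionFree_iff_algebraMap_injective.2 hχ
  have : IsTorsionFree (R ⧸ Q.comap (algebraMap R A)) (A ⧸ Q) :=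
    Module.isTorsionFree_iff_algebraMap_injective.2 Ideal.quotientMap_injective
  let l : (A ⧸ Q) →ₐ[R ⧸ Q.comap (algebraMap R A)] Λ := IsAlgClosed.lift
  refine ⟨(l : (A ⧸ Q) →+* Λ).comp (Ideal.Quotient.mk Q), RingHom.ext fun r => ?_⟩
  exact l.commutes (Ideal.Quotient.mk _ r)

variable {k κ : Type} [Field k] [Field κ] [Algebra k κ] [IsAlgClosed κ] {p : ℕ} [Fact p.Prime]
  [CharP κ p] {r l : ℕ}

theorem PL.fix (h : PL k κ p r l) (x : k) :
    ∃ m, ¬ l ∣ m ∧ ∀ n, fr κ p (r * (m * n)) (algebraMap k κ x) = algebraMap k κ x := by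
  obtain ⟨m, hm, hx⟩ := (h.mem _).1 ⟨x, rfl⟩
  exact ⟨m, hm, fun n => by rw [← mul_assoc]; exact fr_fixed_mul hx n⟩

theorem PL.big (h : PL k κ p r l) {m : ℕ} (hm : ¬ l ∣ m) (N : ℕ) :
    ∃ n, ¬ l ∣ m * n ∧ N ≤ r * (m * n) := by
  have h1 := h.pos
  have h2 : 0 < m := Nat.pos_of_ne_zero fun e => hm (e ▸ dvd_zero l)
  have h3 := h.prime.pos
  refine ⟨l * N + 1, fun e => (h.prime.dvd_mul.1 e).elim hm fun e' =>
    h.prime.not_dvd_one ((Nat.dvd_add_right (dvd_mul_right l N)).1 e'), ?_⟩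
  calc N ≤ l * N + 1 := (Nat.le_mul_of_pos_left N h3).trans (Nat.le_succ _)
    _ ≤ m * (l * N + 1) := Nat.le_mul_of_pos_left _ h2
    _ ≤ _ := Nat.le_mul_of_pos_left _ h1

theorem PL.sep (h : PL k κ p r l) : Algebra.IsSeparable k κ := ⟨fun x => by
  obtain ⟨n, hn, hx⟩ := h.alg x
  have : CharP k p := (algebraMap k κ).charP (algebraMap k κ).injective p
  exact (galois_poly_separable p (p ^ n) (dvd_pow_self p hn.ne')).of_dvd
    (minpoly.dvd k x (by simp [hx]))⟩

theorem PL.root (h : PL k κ p r l) {x : κ} {N : ℕ} (hx : x ^ p ^ N ∈ (algebraMap k κ).range) :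
    x ∈ (algebraMap k κ).range := by
  obtain ⟨m, hm, h1⟩ := (h.mem _).1 hx
  refine (h.mem _).2 ⟨m, hm, (fr κ p N).injective ?_⟩
  rw [fr_apply N, fr_apply N, ← map_pow, h1]

/-- polynomials of degree prime to `l` have a root -/
theorem PL.reg (h : PL k κ p r l) {L : Type} [Field L] [Algebra k L]
    (hL : ∀ β : L, IsIntegral k β → ¬ l ∣ (minpoly k β).natDegree) : Reg k L := by
  intro β hβ
  obtain ⟨m, hm, h1⟩ := poly_fix h.prime (algebraMap k κ) (fun n => fr κ p (r * n)) h.fix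
    (minpoly k β)
  have h2 := h1 1
  rw [mul_one] at h2
  let F := (fr κ p (r * m)).eqLocusField (RingHom.id κ)
  have hm0 : 0 < r * m := Nat.mul_pos h.pos (Nat.pos_of_ne_zero fun e => hm (e ▸ dvd_zero l))
  have hF : Nat.card F = p ^ (r * m) := ffs_card_base (𝕜 := κ) hm0
  have : Finite F := Nat.finite_of_card_ne_zero (by
    rw [hF]
    exact pow_ne_zero _ (Fact.out : p.Prime).ne_zero)
  obtain ⟨μ, hμ⟩ := (mem_lifts (f := F.subtype) ((minpoly k β).map (algebraMap k κ))).1 (by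
    rw [lifts_iff_coeff_lifts]
    intro n
    refine ⟨⟨_, ?_⟩, rfl⟩
    have h3 := congrArg (fun a => coeff a n) h2
    simp only [coe_mapRingHom] at h3
    rw [coeff_map] at h3
    exact h3)
  obtain ⟨g, hg, hd, hl⟩ := exists_factor (l := l) μ (by
    rw [← natDegree_map F.subtype, hμ, natDegree_map]
    exact hL β hβ)
  obtain ⟨α, hα⟩ := IsAlgClosed.exists_eval₂_eq_zero F.subtype g (degree_pos_of_irreducible hg).ne'
  have h4 := eval₂_eq_zero_of_dvd_of_eval₂_eq_zero F.subtype α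
    (hg.natDegree_dvd_iff_dvd_X_pow_card_pow_sub_X.1 dvd_rfl) hα
  rw [eval₂_sub, eval₂_X_pow, eval₂_X, hF, ← pow_mul, sub_eq_zero, mul_assoc] at h4
  obtain ⟨a, rfl⟩ := (h.mem α).2 ⟨_, fun e => (h.prime.dvd_mul.1 e).elim hm hl, h4⟩
  have h5 := eval₂_eq_zero_of_dvd_of_eval₂_eq_zero F.subtype _ hd hα
  rw [← eval_map, hμ, eval_map, eval₂_hom, map_eq_zero] at h5
  exact minpoly.mem_range_of_degree_eq_one k β
    (degree_eq_one_of_irreducible_of_root (minpoly.irreducible hβ) h5)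

theorem PL.eval_ne (h : PL k κ p r l) {σ : Type} [Finite σ] {Θ : MvPolynomial σ κ} (h0 : Θ ≠ 0) :
    ∃ x : σ → k, MvPolynomial.eval (fun i => algebraMap k κ (x i)) Θ ≠ 0 := by
  obtain ⟨N, hN⟩ := exists_fixed_eval_ne (p := p) h0
  obtain ⟨n, hn, h1⟩ := h.big h.prime.not_dvd_one N
  obtain ⟨x, hx, h2⟩ := hN _ h1
  choose y hy using fun i => (h.mem (x i)).2 ⟨_, hn, hx i⟩
  exact ⟨y, by rwa [show (fun i => algebraMap k κ (y i)) = x from funext hy]⟩

/-- points on absolutely irreducible plane curves -/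
theorem PL.curve (h : PL k κ p r l) (c : Cv k) (hρ : c.ρ ≠ 0)
    (hi : Irreducible (mp (algebraMap k κ) c.χ)) : ∃ Q, c.Gp Q := by
  obtain ⟨m, hm, h1⟩ := poly_fix h.prime (algebraMap k κ) (fun n => fr κ p (r * n)) h.fix c.ρ
  obtain ⟨m', hm', h2⟩ := poly_fix h.prime (mapRingHom (algebraMap k κ))
    (fun n => mapRingHom (fr κ p (r * n)))
    (poly_fix h.prime (algebraMap k κ) (fun n => fr κ p (r * n)) h.fix) c.χ
  let c' := c.map (algebraMap k κ)
  obtain ⟨n, hn, h3⟩ := h.big (m := m * m') (fun e => (h.prime.dvd_mul.1 e).elim hm hm')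
    ((c'.c0 + c'.δ * (1 + 1)) ^ 2 + 1)
  have hF : c'.Inv (fr κ p (r * (m * m' * n))) := by
    constructor
    · rw [mul_comm m, mul_assoc]
      exact h2 _
    · rw [mul_assoc]
      exact h1 _
  obtain ⟨P, hP, -⟩ := ff_many (c := c') (M := 1)
    ((Polynomial.map_ne_zero_iff (algebraMap k κ).injective).2 hρ) hi h.alg (by omega) hF
    (le_trans (by omega) (Nat.lt_pow_self (Fact.out : p.Prime).one_lt).le) 0
  obtain ⟨⟨hon, hr⟩, hfix, -⟩ := hP 0
  obtain ⟨t, ht⟩ := (h.mem (P 0).1).2 ⟨_, hn, congrArg Prod.fst hfix⟩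
  obtain ⟨η, hη⟩ := (h.mem (P 0).2).2 ⟨_, hn, congrArg Prod.snd hfix⟩
  have hQ : P 0 = pm (algebraMap k κ) (t, η) := Prod.ext ht.symm hη.symm
  refine ⟨(t, η), ?_, fun e => hr ?_⟩
  · apply (algebraMap k κ).injective
    rw [map_ee, ← hQ, map_zero]
    exact hon
  · change (c.ρ.map _).eval _ = 0
    rw [← ht, eval_map, eval₂_hom, e, map_zero]

/-- points on absolutely irreducible hypersurfaces -/
theorem PL.hyper (h : PL k κ p r l) {d : ℕ} {χ α β : MP d k} {ρ : MvPolynomial (Fin d) k}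
    (hm : χ.Monic) (hi : Irreducible (mq (algebraMap k κ) χ)) (hρ : ρ ≠ 0)
    (hb : C ρ = α * χ + β * derivative χ) :
    ∃ (y : Fin d → k) (η : k), ev2 (RingHom.id k) y η χ = 0 ∧ MvPolynomial.eval y ρ ≠ 0 := by
  have hinj := MvPolynomial.map_injective (σ := Fin d) _ (algebraMap k κ).injective
  obtain ⟨y, hy⟩ := h.eval_ne ((map_ne_zero_iff _ hinj).2 hρ)
  have hw : ∀ i, (χ.coeff i).totalDegree ≤
      (∑ j ∈ Finset.range χ.natDegree, (χ.coeff j).totalDegree) * (χ.natDegree - i) := by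
    intro i
    rcases lt_trichotomy i χ.natDegree with h1 | h1 | h1
    · exact (Finset.single_le_sum (f := fun j => (χ.coeff j).totalDegree)
        (fun _ _ => Nat.zero_le _) (Finset.mem_range.2 h1)).trans
        (Nat.le_mul_of_pos_right _ (by omega))
    · simp [h1, hm.coeff_natDegree]
    · simp [coeff_eq_zero_of_natDegree_lt h1]
  generalize (∑ j ∈ Finset.range χ.natDegree, (χ.coeff j).totalDegree) = b at hw
  obtain ⟨Θ, hΘ, h1⟩ := bertini (χ := mq (algebraMap k κ) χ) (b := b) (hm.map _) (fun i => by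
      rw [coe_mapRingHom, hm.natDegree_map, coeff_map]
      exact (Finset.sup_mono (MvPolynomial.support_map_subset _ _)).trans (hw i)) hi
    (fun i => algebraMap k κ (y i)) fun η h1 h2 => hy (by
      have h3 := congrArg (fun f => ev2 (RingHom.id κ) (fun i => algebraMap k κ (y i)) η
        (mq (algebraMap k κ) f)) hb
      simp only [map_add, map_mul] at h3
      rw [h1, coe_mapRingHom, ← derivative_map, map_C, ev2_C] at *
      rw [h2] at h3
      simpa using h3)
  obtain ⟨e, he⟩ := h.eval_ne hΘ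
  have h2 := h1 _ he
  let lam : Fin d → k[X] := fun i => C (y i) + C (e i) * X
  have hlam : ∀ i, (lam i).natDegree ≤ 1 := fun i => by
    simp only [lam]
    compute_degree
  obtain ⟨M, hM⟩ := exists_WL (b * 1) (b * 1 * χ.natDegree) (cv (RingHom.id k) lam β)
  let ρ' : k[X] := MvPolynomial.eval₂Hom (C.comp (RingHom.id k)) lam ρ
  have hρ' : ∀ t, ρ'.eval t = MvPolynomial.eval (fun i => (lam i).eval t) ρ := fun t => by
    have h3 := ee_cv (RingHom.id k) lam (t, 0) (C ρ)
    rw [ev2_C, cv, coe_mapRingHom, map_C, ee_C] at h3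
    exact h3
  let c : Cv k :=
    { χ := cv (RingHom.id k) lam χ
      α := cv (RingHom.id k) lam α
      β := cv (RingHom.id k) lam β
      ρ := ρ'
      δ := χ.natDegree
      b := b * 1
      w := ρ'.natDegree + M
      wt := wt_cv _ hlam hm hw
      rho := by
        rw [← cv_derivative, ← map_mul, ← map_mul, ← map_add, ← hb, cv, coe_mapRingHom, map_C]
      deg := Nat.le_add_right _ _
      wβ := hM.mono (by omega) }
  obtain ⟨Q, hQ, hQ'⟩ := h.curve c (fun e => hy (by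
      have h3 := hρ' 0
      rw [show ρ' = 0 from e, eval_zero] at h3
      have h4 : (fun i => (lam i).eval 0) = y := funext fun i => by simp [lam]
      rw [h4] at h3
      rw [MvPolynomial.eval_map]
      exact (MvPolynomial.eval₂_comp (algebraMap k κ) y ρ).symm.trans (by rw [← h3, map_zero])))
    (by
      change Irreducible (mp _ (cv _ lam χ))
      rw [cv_mq] at h2
      rw [mp_cv]
      simpa [lam] using h2)
  exact ⟨_, Q.2, (ee_cv _ lam Q χ).symm.trans hQ, hρ' Q.1 ▸ hQ'⟩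

end Pool.Agent.PrimeToL
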