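import Pool.Agent.Lib.MP_879916_ag.Hilb

/-! Weighted forms whose degrees have small `l`-part. -/

namespace Pool.Agent.PrimeToL

open Module MvPolynomial
open scoped PowerSeries Polynomial

attribute [local instance] MvPolynomial.weightedGradedAlgebra

variable {l : ℕ} [Fact l.Prime]

theorem one_sub_pow_fac {d : ℕ} (hd : 0 < d) : ∃ Q : (ZMod l)[X], Q.eval 1 ≠ 0 ∧
    1 - Polynomial.X ^ d = Q * (Polynomial.X - Polynomial.C 1) ^ l ^ padicValNat l d := by
  obtain ⟨m, hm⟩ := pow_padicValNat_dvd (p := l) (n := d)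
  have hl : ¬ l ∣ m := fun ⟨c, hc⟩ => pow_succ_padicValNat_not_dvd (p := l) hd.ne'
    ⟨c, by conv_lhs => rw [hm, hc]
           ring⟩
  refine ⟨(-∑ i ∈ Finset.range m, Polynomial.X ^ i) ^ l ^ padicValNat l d, ?_, ?_⟩
  · rw [Polynomial.eval_pow]
    refine pow_ne_zero _ ?_
    rw [Polynomial.eval_neg, Polynomial.eval_finsetSum]
    simpa [ZMod.natCast_eq_zero_iff] using hl
  · rw [← mul_pow, neg_mul, map_one, geom_sum_mul, neg_sub, sub_pow_char_pow, one_pow, ← pow_mul,
      mul_comm m, ← hm]

theorem prod_fac {ι : Type} (S : Finset ι) {d : ι → ℕ} (hd : ∀ i, 0 < d i) :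
    ∃ Q : (ZMod l)[X], Q.eval 1 ≠ 0 ∧ ∏ i ∈ S, (1 - Polynomial.X ^ d i) =
      Q * (Polynomial.X - Polynomial.C 1) ^ ∑ i ∈ S, l ^ padicValNat l (d i) := by
  choose Q h1 h2 using fun i => one_sub_pow_fac (l := l) (hd i)
  refine ⟨∏ i ∈ S, Q i, ?_, ?_⟩
  · rw [Polynomial.eval_prod]
    exact Finset.prod_ne_zero_iff.2 fun i _ => h1 i
  · rw [← Finset.prod_pow_eq_pow_sum, ← Finset.prod_mul_distrib]
    exact Finset.prod_congr rfl fun i _ => h2 i

variable {k σ : Type} [Field k] [Fintype σ] {w : σ → ℕ}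

theorem wfin (hw : ∀ j, 0 < w j) (n : ℕ) :
    FiniteDimensional k (weightedHomogeneousSubmodule k w n) :=
  Module.Finite.iff_fg.2 (weightedHomogeneousSubmodule_fg k w (fun j => (hw j).ne') n)

theorem mem_span_X {n : ℕ} (hn : 1 ≤ n) {x : MvPolynomial σ k}
    (hx : x ∈ weightedHomogeneousSubmodule k w n) :
    x ∈ Ideal.span (X '' (Finset.univ : Finset σ) : Set (MvPolynomial σ k)) := by
  rw [mem_ideal_span_X_image]
  intro m hm
  by_contra h
  push Not at h
  have h1 : m = 0 := Finsupp.ext fun i => h i (by simp)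
  have h2 := hx (MvPolynomial.mem_support_iff.1 hm)
  rw [h1, map_zero] at h2
  omega

theorem hq_span_X (hw : ∀ j, 0 < w j) (s : Finset σ) :
    (∏ j ∈ s, (1 - PowerSeries.X ^ w j)) * hq (weightedHomogeneousSubmodule k w) l ⊥ =
      hq (weightedHomogeneousSubmodule k w) l (Ideal.span (X '' (s : Set σ))) := by
  classical
  induction s using Finset.induction_on with
  | empty => simp
  | insert j s hj ih =>
    have hJ : (Ideal.span (X '' (s : Set σ) : Set (MvPolynomial σ k))).IsHomogeneous
        (weightedHomogeneousSubmodule k w) := Ideal.homogeneous_span _ _ (by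
      rintro _ ⟨i, -, rfl⟩
      exact ⟨w i, isWeightedHomogeneous_X k w i⟩)
    have h1 := hq_exact (l := l) (wfin hw) hJ (a := X j) (isWeightedHomogeneous_X k w j)
      (X_ne_zero j)
    have h2 : (Ideal.span (X '' (s : Set σ) : Set (MvPolynomial σ k))).colon {X j} =
        Ideal.span (X '' (s : Set σ)) := by
      ext x
      rw [Submodule.mem_colon_singleton, smul_eq_mul]
      refine ⟨fun h => ?_, fun h => Ideal.mul_mem_right _ _ h⟩
      rw [mem_ideal_span_X_image] at h ⊢
      intro m hm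
      obtain ⟨i, hi, h3⟩ := h (m + Finsupp.single j 1) (by
        rw [MvPolynomial.mem_support_iff, coeff_mul_X]
        exact MvPolynomial.mem_support_iff.1 hm)
      have h4 : j ≠ i := fun e => hj (e ▸ hi)
      exact ⟨i, hi, by simpa [Finsupp.single_apply, h4] using h3⟩
    rw [h2] at h1
    rw [Finset.prod_insert hj, mul_assoc, ih, Finset.coe_insert, Set.image_insert_eq,
      Ideal.span_insert, sup_comm]
    linear_combination h1

theorem hq_max (hw : ∀ j, 0 < w j) : hq (weightedHomogeneousSubmodule k w) l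
    (Ideal.span (X '' (Finset.univ : Finset σ) : Set (MvPolynomial σ k))) = 1 := by
  classical
  ext n
  simp only [hq, hs, map_sub, PowerSeries.coeff_mk, PowerSeries.coeff_one]
  have h0 : ∀ x ∈ weightedHomogeneousSubmodule k w 0, x = C (coeff 0 x) := fun x hx => by
    rw [← weightedHomogeneousComponent_zero x fun j => (hw j).ne']
    exact (IsWeightedHomogeneous.weightedHomogeneousComponent_same hx).symm
  split_ifs with hn
  · subst hn
    have h1 : pc (weightedHomogeneousSubmodule k w) ⊤ 0 = Submodule.span k {1} := by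
      refine le_antisymm (fun x hx => ?_) ?_
      · rw [h0 x hx.1, Submodule.mem_span_singleton]
        exact ⟨coeff 0 x, by rw [C_eq_smul_one]⟩
      · rw [Submodule.span_le, Set.singleton_subset_iff]
        exact ⟨isWeightedHomogeneous_one k w, trivial⟩
    have h2 : pc (weightedHomogeneousSubmodule k w)
        (Ideal.span (X '' (Finset.univ : Finset σ) : Set (MvPolynomial σ k))) 0 = ⊥ := by
      rw [eq_bot_iff]
      intro x hx
      have h3 : coeff 0 x = 0 := by
        by_contra h
        obtain ⟨i, -, hi⟩ := mem_ideal_span_X_image.1 hx.2 0 (MvPolynomial.mem_support_iff.2 h)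
        exact hi rfl
      rw [h0 x hx.1, h3, map_zero]
      exact Submodule.zero_mem _
    rw [h1, h2, finrank_span_singleton one_ne_zero, finrank_bot]
    simp
  · have h1 : pc (weightedHomogeneousSubmodule k w) ⊤ n = pc (weightedHomogeneousSubmodule k w)
        (Ideal.span (X '' (Finset.univ : Finset σ) : Set (MvPolynomial σ k))) n :=
      le_antisymm (fun x hx => ⟨hx.1, mem_span_X (by omega) hx.1⟩) fun x hx => ⟨hx.1, trivial⟩
    rw [h1, sub_self]

/-- The cone cut out by forms whose degrees have small `l`-part contains an irreducible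
subvariety other than the vertex with no constants of degree divisible by `l`. -/
theorem exists_prime (hw : ∀ j, 0 < w j) {ι : Type} [Fintype ι] {d : ι → ℕ} (hd : ∀ i, 0 < d i)
    {f : ι → MvPolynomial σ k} (hf : ∀ i, (f i).IsWeightedHomogeneous w (d i))
    (h : ∑ i, l ^ padicValNat l (d i) < ∑ j, l ^ padicValNat l (w j)) :
    ∃ (P : Ideal (MvPolynomial σ k)) (_ : P.IsPrime), (∀ i, f i ∈ P) ∧ (∃ j, X j ∉ P) ∧
      ∀ β : FractionRing (MvPolynomial σ k ⧸ P), IsIntegral k β →
        ¬ l ∣ (minpoly k β).natDegree := by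
  by_contra hc
  push Not at hc
  obtain ⟨Q, hQ⟩ := devissage (l := l) (wfin hw) f d hf (fun P hP _ hf => by
    by_cases hX : ∃ j, X j ∉ P
    · exact Or.inr (hc P hP hf hX)
    · push Not at hX
      refine Or.inl ⟨1, fun n hn x hx => Ideal.span_le.2 ?_ (mem_span_X hn hx)⟩
      rintro _ ⟨j, -, rfl⟩
      exact hX j) ⊥ (Ideal.IsHomogeneous.bot _) Finset.univ (by simp)
  have h1 := hq_span_X (k := k) (l := l) hw Finset.univ
  rw [hq_max hw] at h1
  have h2 : (∏ i, (1 - Polynomial.X ^ d i) : (ZMod l)[X]) =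
      (∏ j, (1 - Polynomial.X ^ w j)) * Q := by
    apply Polynomial.coe_injective (ZMod l)
    rw [← Polynomial.coeToPowerSeries.ringHom_apply, ← Polynomial.coeToPowerSeries.ringHom_apply,
      map_mul, hQ, map_prod, map_prod]
    simp only [map_sub, map_one, map_pow, Polynomial.coeToPowerSeries.ringHom_apply,
      Polynomial.coe_X]
    rw [mul_left_comm, h1, mul_one]
  obtain ⟨A, hA, hA'⟩ := prod_fac (l := l) Finset.univ hd
  obtain ⟨B, -, hB'⟩ := prod_fac (l := l) Finset.univ hw
  obtain ⟨c, hc'⟩ := Nat.exists_eq_add_of_lt h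
  rw [hA', hB', hc'] at h2
  have h3 : A = B * (Polynomial.X - Polynomial.C 1) ^ (c + 1) * Q := by
    refine mul_right_cancel₀ (pow_ne_zero (∑ i, l ^ padicValNat l (d i))
      (Polynomial.X_sub_C_ne_zero (1 : ZMod l))) ?_
    rw [h2]
    ring
  apply hA
  rw [h3]
  simp

end Pool.Agent.PrimeToL
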