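import Pool.Agent.Lib.MP_879916_ag.Pac
import Pool.Agent.Lib.MP_879916_ag.Forms

/-! Zeros of weighted forms over the extensions of degree prime to `l` of a finite field. -/

namespace Pool.Agent.PrimeToL

open Module Polynomial Pool.Agent.ZeroCyc
open scoped IntermediateField

set_option linter.unusedSectionVars false

theorem clear_den {B K : Type} [CommRing B] [IsDomain B] [Field K] [Algebra B K]
    [IsFractionRing B K] (g : K[X]) :
    ∃ (D : B) (G : B[X]), D ≠ 0 ∧ G.map (algebraMap B K) = C (algebraMap B K D) * g := by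
  obtain ⟨b, hb, h⟩ := IsLocalization.integerNormalization_spec (nonZeroDivisors B) g
  exact ⟨b, _, nonZeroDivisors.ne_zero hb, by rw [h, Algebra.smul_def]; rfl⟩

/-- a plane model: an integral separable element that generates given separable elements -/
theorem exists_model {B K L : Type} [CommRing B] [IsDomain B] [IsIntegrallyClosed B] [Field K]
    [Field L] [Algebra B K] [IsFractionRing B K] [Algebra B L] [Algebra K L] [IsScalarTower B K L]
    {σ : Type} [Finite σ] (x : σ → L) (hx : ∀ j, IsSeparable K (x j)) :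
    ∃ θ : L, IsIntegral B θ ∧ (∃ (ρ : B) (α β : B[X]), ρ ≠ 0 ∧
      C ρ = α * minpoly B θ + β * derivative (minpoly B θ)) ∧
      ∀ j, ∃ (D : B) (G : B[X]), D ≠ 0 ∧ algebraMap B L D * x j = aeval θ G := by
  obtain ⟨θ₀, h1, -, h2⟩ := exists_prim (K := K) x hx
  have hinj := IsFractionRing.injective B K
  obtain ⟨y, hy, hθ⟩ := ((IsFractionRing.isAlgebraic_iff B K L).2
    h1.isIntegral.isAlgebraic).exists_integral_multiple
  have hy' : algebraMap B K y ≠ 0 := (map_ne_zero_iff _ hinj).2 hy
  have e : y • θ₀ = algebraMap K L (algebraMap B K y) * θ₀ := by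
    rw [Algebra.smul_def, IsScalarTower.algebraMap_apply B K L]
  have hsep : IsSeparable K (y • θ₀) := by
    rw [e]
    exact Field.isSeparable_mul (isSeparable_algebraMap _) h1
  refine ⟨y • θ₀, hθ, ?_, fun j => ?_⟩
  · rw [IsSeparable, minpoly.isIntegrallyClosed_eq_field_fractions' K hθ] at hsep
    obtain ⟨a, b, hab⟩ := hsep
    obtain ⟨D, A, hD, hA⟩ := clear_den (B := B) a
    obtain ⟨D', A', hD', hA'⟩ := clear_den (B := B) b
    refine ⟨D * D', C D' * A, C D * A', mul_ne_zero hD hD', map_injective _ hinj ?_⟩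
    simp only [Polynomial.map_add, Polynomial.map_mul, map_C, hA, hA', map_mul, ← derivative_map]
    linear_combination (-C (algebraMap B K D) * C (algebraMap B K D')) * hab
  · have h3 : K⟮θ₀⟯ ≤ K⟮y • θ₀⟯ := by
      rw [IntermediateField.adjoin_simple_le_iff]
      have h4 : θ₀ = (algebraMap B K y)⁻¹ • (y • θ₀) := by
        rw [e, Algebra.smul_def, ← mul_assoc, ← map_mul, inv_mul_cancel₀ hy', map_one, one_mul]
      have h5 := K⟮y • θ₀⟯.smul_mem (IntermediateField.mem_adjoin_simple_self K (y • θ₀))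
        (x := (algebraMap B K y)⁻¹)
      rwa [← h4] at h5
    have h4 : x j ∈ K⟮y • θ₀⟯.toSubalgebra := h3 (h2 j)
    rw [IntermediateField.adjoin_simple_toSubalgebra_of_isAlgebraic hsep.isIntegral.isAlgebraic,
      Algebra.adjoin_singleton_eq_range_aeval] at h4
    obtain ⟨g, hg⟩ := h4
    obtain ⟨D, G, hD, hG⟩ := clear_den (B := B) g
    refine ⟨D, G, hD, ?_⟩
    rw [← aeval_map_algebraMap K, hG, map_mul, aeval_C, ← IsScalarTower.algebraMap_apply]
    exact congrArg _ hg.symm

variable {k κ : Type} [Field k] [Field κ] [Algebra k κ] [IsAlgClosed κ] {p : ℕ} [Fact p.Prime]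
  [CharP κ p] {r l : ℕ}

/-- points on geometrically integral varieties, in terms of a Noether normalisation -/
theorem PL.point (h : PL k κ p r l) {L : Type} [Field L] [Algebra k L] (hL : Reg k L) {d : ℕ}
    [Algebra (MvPolynomial (Fin d) k) L] [IsScalarTower k (MvPolynomial (Fin d) k) L]
    [FaithfulSMul (MvPolynomial (Fin d) k) L] [Algebra.IsAlgebraic (MvPolynomial (Fin d) k) L]
    {σ : Type} [Fintype σ] (x : σ → integralClosure (MvPolynomial (Fin d) k) L)
    {a : integralClosure (MvPolynomial (Fin d) k) L} (ha : a ≠ 0) :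
    ∃ ψ : integralClosure (MvPolynomial (Fin d) k) L →+* κ,
      (∀ c : k, ψ (algebraMap (MvPolynomial (Fin d) k) _ (MvPolynomial.C c)) = algebraMap k κ c) ∧
      (∀ j, ψ (x j) ∈ (algebraMap k κ).range) ∧ ψ a ≠ 0 := by
  classical
  let := FractionRing.liftAlgebra (MvPolynomial (Fin d) k) L
  have := h.sep
  have : CharP k p := (algebraMap k κ).charP (algebraMap k κ).injective p
  have : Algebra.IsAlgebraic (FractionRing (MvPolynomial (Fin d) k)) L :=
    ⟨fun z => (IsFractionRing.isAlgebraic_iff (MvPolynomial (Fin d) k) _ L).1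
      (Algebra.IsAlgebraic.isAlgebraic z)⟩
  obtain ⟨N, hN⟩ : ∃ N, ∀ j,
      IsSeparable (FractionRing (MvPolynomial (Fin d) k)) ((x j : L) ^ p ^ N) := by
    have : ExpChar (separableClosure (FractionRing (MvPolynomial (Fin d) k)) L) p := by
      have : CharP (separableClosure (FractionRing (MvPolynomial (Fin d) k)) L) p :=
        charP_of_injective_ringHom ((algebraMap (FractionRing (MvPolynomial (Fin d) k)) _).comp
          (algebraMap k (FractionRing (MvPolynomial (Fin d) k)))).injective p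
      exact ExpChar.prime Fact.out
    choose n hn using fun a : L =>
      IsPurelyInseparable.pow_mem (separableClosure (FractionRing (MvPolynomial (Fin d) k)) L) p a
    refine ⟨Finset.univ.sup fun j => n (x j), fun j => ?_⟩
    obtain ⟨c, hc⟩ := Nat.exists_eq_add_of_le
      (Finset.le_sup (f := fun j => n (x j)) (Finset.mem_univ j))
    obtain ⟨b, hb⟩ := hn (x j)
    rw [hc, pow_add, pow_mul, ← hb, ← mem_separableClosure_iff]
    exact pow_mem b.2 _
  obtain ⟨θ, hθ, ⟨ρ, α, β, hρ, hb⟩, hD⟩ := exists_model (B := MvPolynomial (Fin d) k) _ hN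
  choose D G hD hG using hD
  obtain ⟨n, hn, hn0⟩ := Submodule.exists_mem_ne_zero_of_ne_bot
    (Ideal.comap_ne_bot_of_integral_mem (R := MvPolynomial (Fin d) k) ha
      (Ideal.mem_span_singleton_self a) (integralClosure.isIntegral a))
  obtain ⟨a', ha'⟩ := Ideal.mem_span_singleton'.1 hn
  obtain ⟨y, η, h1, h2⟩ := h.hyper (χ := minpoly (MvPolynomial (Fin d) k) θ)
    (α := C (n * ∏ j, D j) * α) (β := C (n * ∏ j, D j) * β) (ρ := (n * ∏ j, D j) * ρ)
    (minpoly.monic hθ) (hL.irreducible hθ)
    (mul_ne_zero (mul_ne_zero hn0 (Finset.prod_ne_zero_iff.2 fun j _ => hD j)) hρ)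
    (by rw [C_mul (b := ρ), hb]; ring)
  rw [map_mul, map_mul, map_prod] at h2
  have h3 := left_ne_zero_of_mul (left_ne_zero_of_mul h2)
  have h4 := Finset.prod_ne_zero_iff.1 (right_ne_zero_of_mul (left_ne_zero_of_mul h2))
  let θ' : integralClosure (MvPolynomial (Fin d) k) L := ⟨θ, hθ⟩
  have hval : ∀ g : (MvPolynomial (Fin d) k)[X], ((aeval θ' g : integralClosure _ L) : L) =
      aeval θ g := fun g =>
    (aeval_algHom_apply (integralClosure (MvPolynomial (Fin d) k) L).val θ' g).symm
  obtain ⟨ψ, hψ⟩ := exists_ext (φ := (aeval (R := MvPolynomial (Fin d) k) θ').toRingHom)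
    (RingHom.IsIntegral.tower_top C _ (by
      have e : (aeval (R := MvPolynomial (Fin d) k) θ').toRingHom.comp C = algebraMap _ _ :=
        RingHom.ext fun b => aeval_C θ' b
      rw [e]
      exact integralClosure.isIntegral))
    ((algebraMap k κ).comp (ev2 (RingHom.id k) y η)) (fun g hg => by
      have h5 : aeval θ g = 0 := by
        rw [← hval]
        exact congrArg Subtype.val ((RingHom.mem_ker).1 hg)
      obtain ⟨g', rfl⟩ := minpoly.isIntegrallyClosed_dvd hθ h5
      rw [RingHom.mem_ker, RingHom.comp_apply, map_mul, h1, zero_mul, map_zero])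
  have h5 : ∀ g, ψ (aeval θ' g) = algebraMap k κ (ev2 (RingHom.id k) y η g) := fun g =>
    DFunLike.congr_fun hψ g
  have h6 : ∀ b, ψ (algebraMap (MvPolynomial (Fin d) k) _ b) =
      algebraMap k κ (MvPolynomial.eval y b) := fun b => by
    rw [← aeval_C θ', h5, ev2_C]
    rfl
  refine ⟨ψ, fun c => by rw [h6, MvPolynomial.eval_C], fun j => h.root (N := N) ?_, fun e => ?_⟩
  · have h7 : algebraMap (MvPolynomial (Fin d) k) _ (D j) * x j ^ p ^ N = aeval θ' (G j) :=
      Subtype.ext ((hG j).trans (hval _).symm)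
    have h8 := congrArg ψ h7
    rw [map_mul, h6, h5, map_pow] at h8
    refine ⟨ev2 (RingHom.id k) y η (G j) / MvPolynomial.eval y (D j), ?_⟩
    rw [map_div₀, ← h8, mul_div_cancel_left₀ _ ((_root_.map_ne_zero _).2 (h4 j (Finset.mem_univ j)))]
  · have h7 := congrArg ψ ha'
    rw [map_mul, e, mul_zero, h6] at h7
    exact (_root_.map_ne_zero _).2 h3 h7.symm

/-- points on geometrically integral varieties -/
theorem PL.variety (h : PL k κ p r l) {σ : Type} [Fintype σ] (P : Ideal (MvPolynomial σ k))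
    [P.IsPrime] (hP : Reg k (FractionRing (MvPolynomial σ k ⧸ P))) {a : MvPolynomial σ k}
    (ha : a ∉ P) : ∃ z : σ → k, (∀ g ∈ P, MvPolynomial.eval z g = 0) ∧
      MvPolynomial.eval z a ≠ 0 := by
  obtain ⟨d, g, hg, hi⟩ := exists_integral_inj_algHom_of_fg k (MvPolynomial σ k ⧸ P)
  let := g.toRingHom.toAlgebra
  have : IsScalarTower k (MvPolynomial (Fin d) k) (MvPolynomial σ k ⧸ P) :=
    IsScalarTower.of_algebraMap_eq fun c => (g.commutes c).symm
  have : Algebra.IsIntegral (MvPolynomial (Fin d) k) (MvPolynomial σ k ⧸ P) := ⟨hi⟩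
  have : FaithfulSMul (MvPolynomial (Fin d) k) (FractionRing (MvPolynomial σ k ⧸ P)) := by
    rw [faithfulSMul_iff_algebraMap_injective, IsScalarTower.algebraMap_eq _ (MvPolynomial σ k ⧸ P)]
    exact (IsFractionRing.injective (MvPolynomial σ k ⧸ P) _).comp hg
  have : Algebra.IsAlgebraic (MvPolynomial (Fin d) k) (FractionRing (MvPolynomial σ k ⧸ P)) :=
    have := IsLocalization.isAlgebraic (FractionRing (MvPolynomial σ k ⧸ P))
      (nonZeroDivisors (MvPolynomial σ k ⧸ P))
    Algebra.IsAlgebraic.trans _ (MvPolynomial σ k ⧸ P) _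
  let π : MvPolynomial σ k →+*
      integralClosure (MvPolynomial (Fin d) k) (FractionRing (MvPolynomial σ k ⧸ P)) :=
    ((algebraMap (MvPolynomial σ k ⧸ P) (FractionRing (MvPolynomial σ k ⧸ P))).comp
      (Ideal.Quotient.mk P)).codRestrict _ fun z =>
        (Algebra.IsIntegral.isIntegral (Ideal.Quotient.mk P z)).algebraMap
  have hπ : ∀ z, π z = 0 ↔ z ∈ P := fun z => by
    rw [← Ideal.Quotient.eq_zero_iff_mem, Subtype.ext_iff]
    exact map_eq_zero_iff _ (IsFractionRing.injective (MvPolynomial σ k ⧸ P) _)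
  obtain ⟨ψ, h1, h2, h3⟩ := h.point hP (fun j => π (MvPolynomial.X j)) (mt (hπ a).1 ha)
  choose z hz using h2
  have h4 : ψ.comp π = (algebraMap k κ).comp (MvPolynomial.eval z) := by
    refine MvPolynomial.ringHom_ext (fun c => ?_) fun j => by simp [hz]
    rw [RingHom.comp_apply, RingHom.comp_apply, MvPolynomial.eval_C, ← h1]
    congr 1
    apply Subtype.ext
    change _ = algebraMap (MvPolynomial σ k ⧸ P) _ (g (algebraMap k _ c))
    rw [g.commutes]
    rfl
  have h5 : ∀ g, ψ (π g) = algebraMap k κ (MvPolynomial.eval z g) := fun g =>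
    DFunLike.congr_fun h4 g
  refine ⟨z, fun g hg => (algebraMap k κ).injective ?_, fun e => h3 ?_⟩
  · rw [← h5, (hπ g).2 hg, map_zero, map_zero]
  · rw [h5, e, map_zero]

/-- weighted forms whose degrees have small `l`-part have a non-trivial zero -/
theorem PL.forms (h : PL k κ p r l) {σ ι : Type} [Fintype σ] [Fintype ι] {w : σ → ℕ}
    (hw : ∀ j, 0 < w j) {d : ι → ℕ} (hd : ∀ i, 0 < d i) {f : ι → MvPolynomial σ k}
    (hf : ∀ i, (f i).IsWeightedHomogeneous w (d i))
    (hlt : ∑ i, l ^ padicValNat l (d i) < ∑ j, l ^ padicValNat l (w j)) :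
    ∃ z : σ → k, z ≠ 0 ∧ ∀ i, MvPolynomial.eval z (f i) = 0 := by
  have := Fact.mk h.prime
  obtain ⟨P, _, h1, ⟨j, hj⟩, h2⟩ := exists_prime hw hd hf hlt
  obtain ⟨z, h3, h4⟩ := h.variety P (h.reg h2) hj
  exact ⟨z, fun e => h4 (by simp [e]), fun i => h3 _ (h1 i)⟩

end Pool.Agent.PrimeToL
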