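import Pool.Agent.Lib.MP_879916_ag.DgDefs

/-! Basic facts: polynomials of bounded degree, orthogonality, annihilators. -/

set_option linter.unusedSectionVars false

noncomputable section

namespace Pool.Agent.Lib.MP_879916_ag.Dg

open Polynomial Finset
open scoped Classical

variable {F : Type} [Field F] [Fintype F]

lemma Ev_coeff {R : Type} [Semiring R] {d : ℕ} (c : Fin d → R) (l : ℕ) :
    (Ev c).coeff l = if h : l < d then c ⟨l, h⟩ else 0 := by
  unfold Ev
  rw [finsetSum_coeff]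
  split_ifs with h
  · rw [Finset.sum_eq_single (⟨l, h⟩ : Fin d)]
    · simp
    · intro b _ hb
      rw [coeff_monomial, if_neg]
      intro hbl
      exact hb (Fin.ext hbl)
    · simp
  · refine Finset.sum_eq_zero fun b _ => ?_
    rw [coeff_monomial, if_neg]
    intro hbl
    exact h (hbl ▸ b.2)

lemma Ev_degree_lt {R : Type} [Semiring R] {d : ℕ} (c : Fin d → R) :
    (Ev c).degree < (d : WithBot ℕ) := by
  rw [degree_lt_iff_coeff_zero]
  intro m hm
  rw [Ev_coeff, dif_neg (by omega)]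

lemma Ev_injective {R : Type} [Semiring R] {d : ℕ} :
    Function.Injective (Ev : (Fin d → R) → R[X]) := by
  intro c c' h
  funext l
  have := congrArg (fun p : R[X] => p.coeff l) h
  simpa [Ev_coeff, l.2] using this

lemma Ev_coeff_eq {R : Type} [Semiring R] {d : ℕ} {f : R[X]} (h : f.degree < (d : WithBot ℕ)) :
    Ev (fun l : Fin d => f.coeff l) = f := by
  ext l
  rw [Ev_coeff]
  split_ifs with hl
  · rfl
  · exact ((degree_lt_iff_coeff_zero f d).1 h l (by omega)).symm

lemma mem_PL {n : ℕ} {f : F[X]} : f ∈ PL F n ↔ f.degree < (n : WithBot ℕ) := by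
  unfold PL
  rw [Finset.mem_image]
  constructor
  · rintro ⟨c, -, rfl⟩
    exact Ev_degree_lt c
  · intro h
    exact ⟨_, Finset.mem_univ _, Ev_coeff_eq h⟩

lemma mem_PL_succ {n : ℕ} {f : F[X]} : f ∈ PL F (n + 1) ↔ f.natDegree ≤ n := by
  rw [mem_PL, natDegree_le_iff_degree_le]
  rcases eq_or_ne f 0 with rfl | hf
  · simp
  · rw [degree_eq_natDegree hf]
    norm_cast
    omega

lemma card_PL (n : ℕ) : (PL F n).card = Fintype.card F ^ n := by
  unfold PL
  rw [Finset.card_image_of_injective _ Ev_injective]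
  simp

lemma PL_zero : PL F 0 = {0} := by
  ext f
  rw [mem_PL, Finset.mem_singleton]
  simp [Nat.WithBot.lt_zero_iff]

lemma zero_mem_PL (n : ℕ) : (0 : F[X]) ∈ PL F n := by
  rw [mem_PL]; simp

lemma add_mem_PL {n : ℕ} {f g : F[X]} (hf : f ∈ PL F n) (hg : g ∈ PL F n) : f + g ∈ PL F n := by
  rw [mem_PL] at *
  exact lt_of_le_of_lt (degree_add_le _ _) (max_lt hf hg)

lemma sub_mem_PL {n : ℕ} {f g : F[X]} (hf : f ∈ PL F n) (hg : g ∈ PL F n) : f - g ∈ PL F n := by
  rw [mem_PL] at *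
  exact lt_of_le_of_lt (degree_sub_le _ _) (max_lt hf hg)

lemma smul_mem_PL {n : ℕ} {f : F[X]} (c : F) (hf : f ∈ PL F n) : c • f ∈ PL F n := by
  rw [mem_PL] at *
  exact lt_of_le_of_lt (degree_smul_le _ _) hf

lemma PL_mono {n m : ℕ} (h : n ≤ m) : PL F n ⊆ PL F m := by
  intro f hf
  rw [mem_PL] at *
  exact lt_of_lt_of_le hf (by exact_mod_cast h)

lemma mul_mem_PL {a b : ℕ} {f g : F[X]} (hf : f.natDegree ≤ a) (hg : g ∈ PL F b) :
    f * g ∈ PL F (a + b) := by
  rcases eq_or_ne g 0 with rfl | hg0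
  · simpa using zero_mem_PL _
  rcases eq_or_ne f 0 with rfl | hf0
  · simpa using zero_mem_PL _
  rw [mem_PL] at *
  rw [degree_eq_natDegree hg0] at hg
  rw [degree_eq_natDegree (mul_ne_zero hf0 hg0), natDegree_mul hf0 hg0]
  have : g.natDegree < b := by exact_mod_cast hg
  exact_mod_cast (by omega : f.natDegree + g.natDegree < a + b)

lemma modByMonic_mem_PL {μ : F[X]} (hμ : μ.Monic) (x : F[X]) : x %ₘ μ ∈ PL F μ.natDegree := by
  rw [mem_PL, ← degree_eq_natDegree hμ.ne_zero]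
  exact degree_modByMonic_lt x hμ

lemma eq_of_dvd_sub_of_mem_PL {μ x y : F[X]} (hx : x ∈ PL F μ.natDegree)
    (hy : y ∈ PL F μ.natDegree) (h : μ ∣ x - y) : x = y := by
  have h1 := mem_PL.1 (sub_mem_PL hx hy)
  rcases eq_or_ne μ 0 with rfl | hμ
  · exact sub_eq_zero.1 (zero_dvd_iff.1 h)
  · rw [← degree_eq_natDegree hμ] at h1
    exact sub_eq_zero.1 (eq_zero_of_dvd_of_degree_lt h h1)

lemma sum_PL_shift {A : Type} [AddCommMonoid A] {M : ℕ} {w : F[X]} (hw : w ∈ PL F M)
    (φ : F[X] → A) : ∑ x ∈ PL F M, φ (x + w) = ∑ x ∈ PL F M, φ x := by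
  refine Finset.sum_bij' (fun x _ => x + w) (fun x _ => x - w) ?_ ?_ ?_ ?_ ?_
  · intro x hx; exact add_mem_PL hx hw
  · intro x hx; exact sub_mem_PL hx hw
  · intro x _; simp
  · intro x _; simp
  · intro x _; rfl

lemma sum_PL_split {A : Type} [AddCommMonoid A] {μ : F[X]} (hμ : μ.Monic) {M : ℕ}
    (h : μ.natDegree ≤ M) (φ : F[X] → A) :
    ∑ x ∈ PL F M, φ x =
      ∑ x₁ ∈ PL F μ.natDegree, ∑ x₂ ∈ PL F (M - μ.natDegree), φ (x₁ + μ * x₂) := by
  rw [← Finset.sum_product']
  symm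
  refine Finset.sum_bij' (fun p _ => p.1 + μ * p.2) (fun x _ => (x %ₘ μ, x /ₘ μ)) ?_ ?_ ?_ ?_ ?_
  · intro p hp
    rw [Finset.mem_product] at hp
    refine add_mem_PL (PL_mono h hp.1) ?_
    have := mul_mem_PL (le_refl μ.natDegree) hp.2
    rwa [Nat.add_sub_cancel' h] at this
  · intro x hx
    rw [Finset.mem_product]
    refine ⟨modByMonic_mem_PL hμ x, ?_⟩
    rcases eq_or_ne (x /ₘ μ) 0 with h0 | h0
    · simpa [h0] using zero_mem_PL _
    have hx0 : x ≠ 0 := by rintro rfl; simp at h0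
    rw [mem_PL] at *
    rw [degree_eq_natDegree hx0] at hx
    simp only
    rw [degree_eq_natDegree h0, natDegree_divByMonic x hμ]
    have h1 : x.natDegree < M := by exact_mod_cast hx
    have h2 : μ.natDegree ≤ x.natDegree := by
      by_contra hc
      apply h0
      rw [divByMonic_eq_zero_iff hμ]
      exact degree_lt_degree (by omega)
    exact_mod_cast (by omega : x.natDegree - μ.natDegree < M - μ.natDegree)
  · intro p hp
    rw [Finset.mem_product] at hp
    have := div_modByMonic_unique (f := p.1 + μ * p.2) p.2 p.1 hμ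
      ⟨rfl, by rw [degree_eq_natDegree hμ.ne_zero]; exact mem_PL.1 hp.1⟩
    exact Prod.ext this.2 this.1
  · intro x _
    exact modByMonic_add_div x μ
  · intro p _; rfl

lemma two_le_card : 2 ≤ Fintype.card F := Fintype.one_lt_card

lemma norm_psi (c : F) : ‖psi F c‖ = 1 := AddChar.norm_apply _ _

lemma psi_neg (c : F) : psi F (-c) = (starRingEnd ℂ) (psi F c) := AddChar.map_neg_eq_conj _ _

lemma psi_ne : ∃ c : F, psi F c ≠ 1 := by
  have h := AddChar.FiniteField.primitiveChar_to_Complex_isPrimitive F (a := 1) one_ne_zero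
  rw [AddChar.mulShift_one] at h
  exact AddChar.ne_one_iff.1 h

lemma base_orth {Y : Type} [AddCommGroup Y] [Module F Y] (S : Finset Y)
    (hS : ∀ (c : F) (w : Y), w ∈ S → ∀ φ : Y → ℂ, ∑ x ∈ S, φ (x + c • w) = ∑ x ∈ S, φ x)
    (L : Y →ₗ[F] F) :
    ∑ w ∈ S, psi F (L w) = if ∀ w ∈ S, L w = 0 then (S.card : ℂ) else 0 := by
  split_ifs with h
  · rw [Finset.sum_congr rfl fun w hw => by rw [h w hw, AddChar.map_zero_eq_one]]
    simp
  · push Not at h
    obtain ⟨w, hw, hL⟩ := h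
    obtain ⟨c, hc⟩ := psi_ne (F := F)
    have h1 := hS (c / L w) w hw fun x => psi F (L x)
    simp only [map_add, map_smul, smul_eq_mul, div_mul_cancel₀ _ hL, AddChar.map_add_eq_mul] at h1
    rw [← Finset.sum_mul] at h1
    have h2 : (∑ x ∈ S, psi F (L x)) * (psi F c - 1) = 0 := by rw [mul_sub, h1]; ring
    exact (mul_eq_zero.1 h2).resolve_right (sub_ne_zero.2 hc)

lemma orth (M : ℕ) (L : F[X] →ₗ[F] F) :
    ∑ w ∈ PL F M, psi F (L w) =
      if ∀ w ∈ PL F M, L w = 0 then (Fintype.card F : ℂ) ^ M else 0 := by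
  rw [base_orth (PL F M) (fun c w hw φ => sum_PL_shift (smul_mem_PL c hw) φ) L, card_PL]
  simp

lemma orth_coeff {n : ℕ} {w : F[X]} (hw : w.natDegree ≤ n) :
    ∑ B ∈ PL F (n + 1), psi F ((B * w).coeff n) =
      if w = 0 then (Fintype.card F : ℂ) ^ (n + 1) else 0 := by
  have := orth (n + 1) ((lcoeff F n).comp (LinearMap.mulRight F w))
  simp only [LinearMap.comp_apply, LinearMap.mulRight_apply, lcoeff_apply] at this
  rw [this]
  congr 1
  apply propext
  constructor
  · intro h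
    by_contra h0
    have h1 := h (X ^ (n - w.natDegree)) (mem_PL_succ.2 (by simp))
    rw [coeff_X_pow_mul', if_pos (by omega)] at h1
    rw [show n - (n - w.natDegree) = w.natDegree by omega] at h1
    exact h0 (leadingCoeff_eq_zero.1 h1)
  · rintro rfl B _
    simp

lemma ann_card {Y : Type} [AddCommGroup Y] [Module F Y] [Fintype Y] (n : ℕ) (L : Y →ₗ[F] F[X])
    (hL : ∀ y, (L y).natDegree ≤ n) :
    ((PL F (n + 1)).filter fun B => ∀ y, (B * L y).coeff n = 0).card * Fintype.card Y =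
      Fintype.card F ^ (n + 1) * (univ.filter fun y => L y = 0).card := by
  have h1 : ∀ B : F[X], ∑ y : Y, psi F ((B * L y).coeff n) =
      if ∀ y, (B * L y).coeff n = 0 then (Fintype.card Y : ℂ) else 0 := by
    intro B
    have := base_orth (F := F) (univ : Finset Y)
      (fun c w _ φ => Equiv.sum_comp (Equiv.addRight (c • w)) φ)
      ((lcoeff F n).comp ((LinearMap.mulLeft F B).comp L))
    simpa using this
  have h2 : ∑ B ∈ PL F (n + 1), ∑ y : Y, psi F ((B * L y).coeff n) =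
      ∑ y : Y, ∑ B ∈ PL F (n + 1), psi F ((B * L y).coeff n) := Finset.sum_comm
  simp only [h1, fun y => orth_coeff (hL y)] at h2
  rw [← Finset.sum_filter, ← Finset.sum_filter, Finset.sum_const, Finset.sum_const, nsmul_eq_mul,
    nsmul_eq_mul] at h2
  have h3 : ((((PL F (n + 1)).filter fun B => ∀ y, (B * L y).coeff n = 0).card *
      Fintype.card Y : ℕ) : ℂ) =
      ((Fintype.card F ^ (n + 1) * (univ.filter fun y => L y = 0).card : ℕ) : ℂ) := by
    push_cast
    rw [mul_comm ((Fintype.card F : ℂ) ^ (n + 1))]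
    convert h2
  exact_mod_cast h3

lemma base_coeff_mod (P : F[X]) (N l : ℕ) :
    (P %ₘ X ^ (N + 1)).coeff l = if l ≤ N then P.coeff l else 0 := by
  split_ifs with h
  · conv_rhs => rw [← modByMonic_add_div P (X ^ (N + 1))]
    rw [coeff_add, coeff_X_pow_mul', if_neg (by omega), add_zero]
  · have := degree_modByMonic_lt P (monic_X_pow (R := F) (N + 1))
    rw [degree_X_pow] at this
    exact (degree_lt_iff_coeff_zero _ _).1 this l (by omega)

lemma kill_iff {B u : F[X]} {N b : ℕ} (hb : b ≤ N) :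
    Kill B N u b ↔ ((B * u) %ₘ X ^ (N + 1)).degree < ((N - b : ℕ) : WithBot ℕ) := by
  rw [degree_lt_iff_coeff_zero]
  constructor
  · intro h m hm
    rw [base_coeff_mod]
    split_ifs with hN
    · have := h (X ^ (N - m)) (by simp; omega)
      rw [coeff_mul_X_pow', if_pos (by omega)] at this
      rwa [show N - (N - m) = m by omega] at this
    · rfl
  · intro h w hw
    rw [coeff_mul]
    refine Finset.sum_eq_zero fun p hp => ?_
    rw [Finset.HasAntidiagonal.mem_antidiagonal] at hp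
    by_cases h2 : p.2 ≤ b
    · have := h p.1 (by omega)
      rw [base_coeff_mod, if_pos (by omega)] at this
      rw [this, zero_mul]
    · rw [coeff_eq_zero_of_natDegree_lt (p := w) (by omega), mul_zero]

lemma Kill.mono {B u : F[X]} {N b b' : ℕ} (h : Kill B N u b) (hb : b' ≤ b) : Kill B N u b' :=
  fun w hw => h w (hw.trans hb)

lemma Minor.mono {B : F[X]} {N M h h' : ℕ} (H : Minor B N M h) (hh : h' ≤ h) :
    Minor B N M h' :=
  fun r hr hd hk => H r hr (hd.trans hh) (hk.mono (by omega))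

lemma norm_Ex_le {M : ℕ} {φ : F[X] → ℂ} {c : ℝ} (hφ : ∀ x ∈ PL F M, ‖φ x‖ ≤ c) :
    ‖Ex M φ‖ ≤ c := by
  unfold Ex
  have hq : (0 : ℝ) < (Fintype.card F : ℝ) ^ M := by
    have := two_le_card (F := F)
    positivity
  rw [norm_div, norm_pow, Complex.norm_natCast, div_le_iff₀ hq]
  refine (norm_sum_le _ _).trans ((Finset.sum_le_card_nsmul _ _ c hφ).trans ?_)
  rw [card_PL, nsmul_eq_mul]
  push_cast
  rw [mul_comm]

lemma norm_GG_le_one (k : ℕ) (B : F[X]) (N e : ℕ) : ‖GG k B N e‖ ≤ 1 :=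
  norm_Ex_le fun _ _ => (norm_psi _).le

omit [Fintype F] in
lemma Ch.ne {k : ℕ} (h : Ch k F) (hk : 2 ≤ k) {b : ℕ} (h0 : 0 < b) (hb : b ≤ k) : (b : F) ≠ 0 :=
  h b h0 (hb.trans (Nat.le_mul_of_pos_right _ (by omega)))

end Pool.Agent.Lib.MP_879916_ag.Dg
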