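import Pool.Agent.Lib.MP_879916_ag.DgDefs

/-! Weak weighted Bezout bound for zeros with a small Jacobian kernel. -/

set_option linter.unusedSectionVars false

noncomputable section

namespace Pool.Agent.Lib.MP_879916_ag.Dg

open Polynomial Finset
open scoped Classical

variable {F : Type} [Field F] [Fintype F]

section WD
variable {σ R : Type} [CommSemiring R] {w : σ → ℕ}

lemma WD.mono {a b : ℕ} {f : MvPolynomial σ R} (h : WD w a f) (hab : a ≤ b) : WD w b f :=
  fun γ hγ => (h γ hγ).trans hab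
lemma WD_C (a : ℕ) (r : R) : WD w a (MvPolynomial.C r : MvPolynomial σ R) := by
  intro γ hγ
  rw [mem_singleton.1 (MvPolynomial.support_monomial_subset hγ), map_zero]
  exact Nat.zero_le _
lemma WD_zero (a : ℕ) : WD w a (0 : MvPolynomial σ R) := by
  intro γ hγ
  simp at hγ
lemma WD_X (i : σ) : WD w (w i) (MvPolynomial.X i : MvPolynomial σ R) := by
  intro γ hγ
  rw [mem_singleton.1 (MvPolynomial.support_monomial_subset hγ), Finsupp.weight_single, one_smul]
lemma WD.add {a : ℕ} {f g : MvPolynomial σ R} (hf : WD w a f) (hg : WD w a g) :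
    WD w a (f + g) := fun γ hγ =>
  (mem_union.1 (MvPolynomial.support_add hγ)).elim (hf γ) (hg γ)
lemma WD.mul {a b : ℕ} {f g : MvPolynomial σ R} (hf : WD w a f) (hg : WD w b g) :
    WD w (a + b) (f * g) := by
  intro γ hγ
  obtain ⟨x, hx, y, hy, rfl⟩ := Finset.mem_add.1 (MvPolynomial.support_mul f g hγ)
  rw [map_add]
  exact add_le_add (hf x hx) (hg y hy)
lemma WD.pow {a : ℕ} {f : MvPolynomial σ R} (hf : WD w a f) (m : ℕ) : WD w (m * a) (f ^ m) := by
  induction m with
  | zero => rw [pow_zero, ← MvPolynomial.C_1]; exact WD_C _ _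
  | succ m ih => rw [pow_succ, add_one_mul]; exact ih.mul hf
lemma WD_sum {α : Type} {s : Finset α} {a : ℕ} {f : α → MvPolynomial σ R}
    (h : ∀ i ∈ s, WD w a (f i)) : WD w a (∑ i ∈ s, f i) :=
  Finset.sum_induction f (WD w a) (fun _ _ => WD.add) (WD_zero a) h
lemma WD_prod {α : Type} {s : Finset α} {a : α → ℕ} {f : α → MvPolynomial σ R}
    (h : ∀ i ∈ s, WD w (a i) (f i)) : WD w (∑ i ∈ s, a i) (∏ i ∈ s, f i) := by
  induction s using Finset.induction_on with
  | empty => rw [prod_empty, ← MvPolynomial.C_1]; exact WD_C _ _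
  | insert i s hi ih =>
    rw [sum_insert hi, prod_insert hi]
    exact (h i (mem_insert_self _ _)).mul (ih fun j hj => h j (mem_insert_of_mem hj))
lemma WD.map {S : Type} [CommSemiring S] (φ : R →+* S) {a : ℕ} {f : MvPolynomial σ R}
    (hf : WD w a f) : WD w a (MvPolynomial.map φ f) := fun γ hγ =>
  hf γ (MvPolynomial.support_map_subset φ f hγ)

end WD

section aux
variable {σ R : Type} [Fintype σ] [CommRing R]

lemma bez_taylor {A : Type} [CommRing A] (ι : R →+* A) (x : σ → R) (y : σ → A)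
    (f : MvPolynomial σ R) : ∃ h : A[X],
      MvPolynomial.eval₂Hom (C.comp ι) (fun i => C (ι (x i)) + X * C (y i)) f =
        C (ι (MvPolynomial.eval x f)) +
          X * (C (∑ i, ι (MvPolynomial.eval x (MvPolynomial.pderiv i f)) * y i) + X * h) := by
  induction f using MvPolynomial.induction_on with
  | C r => exact ⟨0, by simp⟩
  | add f g hf hg =>
    obtain ⟨h, hh⟩ := hf
    obtain ⟨h', hh'⟩ := hg
    refine ⟨h + h', ?_⟩
    rw [map_add, hh, hh']
    simp only [map_add, add_mul, sum_add_distrib]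
    ring
  | mul_X f i hf =>
    obtain ⟨h, hh⟩ := hf
    have h1 : ∑ j, ι (MvPolynomial.eval x (MvPolynomial.pderiv j (f * MvPolynomial.X i))) * y j =
        (∑ j, ι (MvPolynomial.eval x (MvPolynomial.pderiv j f)) * y j) * ι (x i) +
          ι (MvPolynomial.eval x f) * y i := by
      simp only [MvPolynomial.pderiv_mul, map_add, map_mul, MvPolynomial.eval_X, add_mul,
        sum_add_distrib, sum_mul]
      congr 1
      · exact sum_congr rfl fun j _ => by ring
      · rw [sum_eq_single i (fun j _ hj => by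
          rw [MvPolynomial.pderiv_X_of_ne hj.symm, map_zero, map_zero, mul_zero, zero_mul])
          (fun h => absurd (mem_univ i) h), MvPolynomial.pderiv_X_self, map_one, map_one, mul_one]
    refine ⟨h * C (ι (x i)) +
      (C (∑ j, ι (MvPolynomial.eval x (MvPolynomial.pderiv j f)) * y j) + X * h) * C (y i), ?_⟩
    rw [map_mul, hh, h1, MvPolynomial.eval₂Hom_X', map_mul, map_mul, MvPolynomial.eval_X, map_mul,
      map_add, map_mul, map_mul]
    ring

lemma bez_mon (γ : σ → ℕ) : (∏ a, MvPolynomial.X a ^ γ a : MvPolynomial σ R) =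
    MvPolynomial.monomial (Finsupp.equivFunOnFinite.symm γ) 1 := by
  rw [MvPolynomial.monomial_eq, MvPolynomial.C_1, one_mul,
    Finsupp.prod_fintype _ _ fun _ => pow_zero _]
  rfl

/-- the lowest homogeneous part of a relation at a non-singular zero -/
lemma bez_low {P : Type} [Fintype P] (γ : P → σ → ℕ) (j : P → ℕ) (c : P → R)
    (g : σ → MvPolynomial σ R) (l : MvPolynomial σ R)
    (hc : ∑ p, c p • ((∏ a, g a ^ γ p a) * l ^ j p) = 0) (γ0 : σ → ℕ)
    (hmin : ∀ p, c p ≠ 0 → ∑ a, γ0 a ≤ ∑ a, γ p a) {x : σ → R}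
    (h0 : ∀ a, MvPolynomial.eval x (g a) = 0) (hJ : IsUnit (Jac x g)) :
    ∑ p, (if γ p = γ0 then c p * MvPolynomial.eval x l ^ j p else 0) = 0 := by
  obtain ⟨N, hN⟩ := hJ.exists_right_inv
  obtain ⟨φ, hφ⟩ : ∃ φ : MvPolynomial σ R →+* (MvPolynomial σ R)[X],
      φ = MvPolynomial.eval₂Hom (C.comp MvPolynomial.C) fun i => C (MvPolynomial.C (x i)) +
        X * C (∑ b, MvPolynomial.C (N i b) * MvPolynomial.X b) := ⟨_, rfl⟩
  have hg : ∀ a, ∃ u, φ (g a) = X * u ∧ u.eval 0 = MvPolynomial.X a := by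
    intro a
    obtain ⟨h, hh⟩ := bez_taylor MvPolynomial.C x
      (fun i => ∑ b, MvPolynomial.C (N i b) * MvPolynomial.X b) (g a)
    rw [← hφ, h0, map_zero, map_zero, zero_add] at hh
    refine ⟨_, hh, ?_⟩
    simp only [eval_add, eval_C, eval_mul, eval_X, zero_mul, add_zero, mul_sum, ← mul_assoc,
      ← map_mul]
    rw [sum_comm]
    simp only [← sum_mul, ← map_sum]
    have h1 : ∀ b, ∑ i, MvPolynomial.eval x (MvPolynomial.pderiv i (g a)) * N i b =
        (1 : Matrix σ σ R) a b := fun b => by rw [← hN]; rfl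
    simp only [h1]
    rw [sum_eq_single a (fun b _ hb => by rw [Matrix.one_apply_ne hb.symm, map_zero, zero_mul])
      (fun h => absurd (mem_univ a) h), Matrix.one_apply_eq, map_one, one_mul]
  choose u hu hu0 using hg
  have hl : (φ l).eval 0 = MvPolynomial.C (MvPolynomial.eval x l) := by
    obtain ⟨h, hh⟩ := bez_taylor MvPolynomial.C x
      (fun i => ∑ b, MvPolynomial.C (N i b) * MvPolynomial.X b) l
    rw [hφ, hh]
    simp only [eval_add, eval_C, eval_mul, eval_X, zero_mul, add_zero]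
  have hC : ∀ r, φ (MvPolynomial.C r) = C (MvPolynomial.C r) := fun r => by
    rw [hφ, MvPolynomial.eval₂Hom_C]; rfl
  have h1 := congrArg (fun f => MvPolynomial.coeff (Finsupp.equivFunOnFinite.symm γ0)
    ((φ f).coeff (∑ a, γ0 a))) hc
  simp only [map_sum, finsetSum_coeff, MvPolynomial.coeff_sum, map_zero, coeff_zero,
    MvPolynomial.coeff_zero] at h1
  refine Eq.trans (sum_congr rfl fun p _ => ?_) h1
  by_cases hp : c p = 0
  · simp [hp]
  have h2 : φ (c p • ((∏ a, g a ^ γ p a) * l ^ j p)) = X ^ (∑ a, γ p a) *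
      (C (MvPolynomial.C (c p)) * (∏ a, u a ^ γ p a) * φ l ^ j p) := by
    simp only [MvPolynomial.smul_eq_C_mul, map_mul, map_prod, map_pow, hC, hu, mul_pow,
      prod_mul_distrib, prod_pow_eq_pow_sum]
    ring
  rw [h2, coeff_X_pow_mul']
  rcases (hmin p hp).eq_or_lt with h | h
  · rw [if_pos h.ge, h, Nat.sub_self, coeff_zero_eq_eval_zero]
    simp only [eval_mul, eval_C, eval_prod, eval_pow, hu0, hl, bez_mon]
    rw [mul_right_comm, ← MvPolynomial.C_pow, ← MvPolynomial.C_mul, MvPolynomial.coeff_C_mul,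
      MvPolynomial.coeff_monomial]
    simp only [EmbeddingLike.apply_eq_iff_eq, mul_ite, mul_one, mul_zero]
  · rw [if_neg h.not_ge, if_neg (by rintro e; rw [e] at h; exact h.false), MvPolynomial.coeff_zero]

lemma bez_gen [IsDomain R] {α : Type} (w D : σ → ℕ) (Δ : ℕ) (hΔ : 1 ≤ Δ)
    (hD : ∀ i, 2 * Δ ≤ D i * w i) (g : σ → MvPolynomial σ R) (hg : ∀ j, WD w Δ (g j))
    (l : MvPolynomial σ R) (hl : WD w Δ l) (S : Finset α) (x : α → σ → R)
    (hinj : Function.Injective fun a => MvPolynomial.eval (x a) l)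
    (h0 : ∀ a ∈ S, ∀ j, MvPolynomial.eval (x a) (g j) = 0)
    (hJ : ∀ a ∈ S, IsUnit (Jac (x a) g)) : S.card ≤ ∏ i, D i := by
  obtain ⟨J, hJd⟩ : ∃ J, J = ∏ i, D i := ⟨_, rfl⟩
  obtain ⟨A, hA⟩ : ∃ A : Finset (σ → ℕ), ∀ γ, γ ∈ A ↔ ∑ a, γ a ≤ J :=
    ⟨(Fintype.piFinset fun _ => range (J + 1)).filter fun γ => ∑ a, γ a ≤ J, fun γ => by
      rw [mem_filter, Fintype.mem_piFinset]
      exact ⟨And.right, fun h => ⟨fun a => mem_range.2 (Nat.lt_succ_of_le
        ((single_le_sum (fun _ _ => Nat.zero_le _) (mem_univ a)).trans h)), h⟩⟩⟩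
  have hD0 : ∀ i, 0 < D i := fun i => Nat.pos_of_ne_zero fun h => by
    have := hD i
    rw [h] at this
    omega
  obtain ⟨B, hB, hBc⟩ : ∃ B : Finset (MvPolynomial σ R), (∀ f, WD w (J * Δ + J * Δ) f →
      f ∈ Submodule.span R (B : Set (MvPolynomial σ R))) ∧ B.card ≤ A.card * J := by
    refine ⟨(A ×ˢ Fintype.piFinset fun i => range (D i)).image fun p => MvPolynomial.monomial
      (Finsupp.equivFunOnFinite.symm fun i => D i * p.1 i + p.2 i) 1, fun f hf => ?_, ?_⟩
    · rw [f.as_sum]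
      refine Submodule.sum_mem _ fun γ hγ => ?_
      rw [← mul_one (MvPolynomial.coeff γ f), ← smul_eq_mul, ← MvPolynomial.smul_monomial]
      refine Submodule.smul_mem _ _ (Submodule.subset_span (mem_coe.2 (mem_image.2
        ⟨(fun i => γ i / D i, fun i => γ i % D i), mem_product.2 ⟨(hA _).2 ?_,
          Fintype.mem_piFinset.2 fun i => mem_range.2 (Nat.mod_lt _ (hD0 i))⟩, ?_⟩)))
      · have h1 := hf γ hγ
        rw [Finsupp.weight_apply, Finsupp.sum_fintype _ (fun i c => c • w i)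
          fun _ => zero_smul _ _] at h1
        have h2 : (∑ a, γ a / D a) * (2 * Δ) ≤ ∑ a, γ a • w a := by
          rw [sum_mul]
          refine sum_le_sum fun a _ => (Nat.mul_le_mul_left _ (hD a)).trans ?_
          rw [← mul_assoc, smul_eq_mul]
          exact Nat.mul_le_mul_right _ (Nat.div_mul_le_self _ _)
        exact Nat.le_of_mul_le_mul_right ((h2.trans h1).trans_eq (by ring)) (by omega : 0 < 2 * Δ)
      · simp only [Nat.div_add_mod, Finsupp.equivFunOnFinite_symm_coe]
    · refine card_image_le.trans_eq ?_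
      simp only [card_product, Fintype.card_piFinset, card_range, hJd]
  have hdep : ¬ LinearIndependent R fun p : A × Fin (J + 1) =>
      (∏ a, g a ^ p.1.1 a) * l ^ (p.2 : ℕ) := by
    intro hli
    have h1 := linearIndependent_le_span_aux' _ hli (B : Set (MvPolynomial σ R)) (by
      rintro _ ⟨p, rfl⟩
      refine hB _ (((WD_prod fun a _ => (hg a).pow (p.1.1 a)).mono ?_).mul ((hl.pow _).mono ?_))
      · rw [← sum_mul]
        exact Nat.mul_le_mul_right _ ((hA _).1 p.1.2)
      · exact Nat.mul_le_mul_right _ (Nat.le_of_lt_succ p.2.2))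
    simp only [Fintype.card_prod, Fintype.card_coe, Fintype.card_fin, coe_sort_coe] at h1
    have h2 : 0 < A.card := card_pos.2 ⟨0, (hA _).2 (by simp)⟩
    have h3 := h1.trans hBc
    rw [mul_add_one] at h3
    omega
  obtain ⟨c, hc, p1, hp1⟩ := Fintype.not_linearIndependent_iff.1 hdep
  obtain ⟨p0, hp0, hmin⟩ := exists_min_image (univ.filter fun p => c p ≠ 0)
    (fun p => ∑ a, p.1.1 a) ⟨p1, mem_filter.2 ⟨mem_univ _, hp1⟩⟩
  rw [← hJd, ← card_image_of_injective S hinj]
  by_contra hlt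
  have hψ : (∑ j : Fin (J + 1), monomial (j : ℕ) (c (p0.1, j)) : R[X]) = 0 := by
    refine eq_zero_of_natDegree_lt_card_of_eval_eq_zero' _ _ (fun z hz => ?_)
      (lt_of_le_of_lt (natDegree_sum_le_of_forall_le _ _ fun j _ =>
        (natDegree_monomial_le _).trans (Nat.le_of_lt_succ j.2)) (not_le.1 hlt))
    obtain ⟨a, ha, rfl⟩ := mem_image.1 hz
    have h1 := bez_low (fun p : A × Fin (J + 1) => p.1.1) (fun p => p.2) c g l hc p0.1.1
      (fun p hp => hmin p (mem_filter.2 ⟨mem_univ _, hp⟩)) (h0 a ha) (hJ a ha)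
    rw [Fintype.sum_prod_type, sum_eq_single p0.1 (fun γ _ hγ => sum_eq_zero fun j _ =>
      if_neg fun e => hγ (Subtype.ext e)) (fun h => absurd (mem_univ _) h)] at h1
    simpa only [eval_finsetSum, eval_monomial, if_true] using h1
  have h2 := congrArg (fun f => coeff f p0.2) hψ
  simp only [finsetSum_coeff, coeff_monomial, Fin.val_inj, sum_ite_eq', mem_univ, if_true,
    coeff_zero] at h2
  exact (mem_filter.1 hp0).2 h2

end aux

/-- non-singular zeros of a square system -/
theorem bez_core {σ : Type} [Fintype σ] (w D : σ → ℕ) (Δ : ℕ) (hΔ : 1 ≤ Δ) (hw : ∀ i, 1 ≤ w i)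
    (hwΔ : ∀ i, w i ≤ Δ) (hD : ∀ i, 2 * Δ ≤ D i * w i) (g : σ → MvPolynomial σ F)
    (hg : ∀ j, WD w Δ (g j)) (S : Finset (σ → F))
    (h0 : ∀ x ∈ S, ∀ j, MvPolynomial.eval x (g j) = 0)
    (hJ : ∀ x ∈ S, IsUnit (Jac x g)) : S.card ≤ ∏ i, D i := by
  have hev : ∀ (x : σ → F) (f : MvPolynomial σ F), MvPolynomial.eval (fun i => (C (x i) : F[X]))
      (MvPolynomial.map C f) = C (MvPolynomial.eval x f) := fun x f => by
    rw [MvPolynomial.eval_map]
    exact (MvPolynomial.eval₂_comp C x f).symm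
  refine bez_gen (R := F[X]) w D Δ hΔ hD (fun j => MvPolynomial.map C (g j))
    (fun j => (hg j).map _)
    (∑ i, MvPolynomial.C (X ^ (Fintype.equivFin σ i : ℕ)) * MvPolynomial.X i)
    (WD_sum fun i _ => ((WD_C 0 _).mul (WD_X i)).mono (by rw [zero_add]; exact hwΔ i)) S
    (fun x i => C (x i)) (fun x y hxy => funext fun i => ?_)
    (fun x hx j => by rw [hev, h0 x hx, map_zero]) fun x hx => ?_
  · have h1 := congrArg (fun f => coeff f (Fintype.equivFin σ i)) hxy
    simpa only [map_sum, map_mul, MvPolynomial.eval_C, MvPolynomial.eval_X, finsetSum_coeff,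
      coeff_mul_C, coeff_X_pow, Fin.val_inj, EmbeddingLike.apply_eq_iff_eq, ite_mul, one_mul,
      zero_mul, sum_ite_eq, mem_univ, if_true] using h1
  · have h1 := (hJ x hx).map (C : F →+* F[X]).mapMatrix
    have h2 : Jac (fun i => (C (x i) : F[X])) (fun j => MvPolynomial.map C (g j)) =
        (C : F →+* F[X]).mapMatrix (Jac x g) := by
      refine Matrix.ext fun a b => ?_
      simp only [Jac, Matrix.of_apply, RingHom.mapMatrix_apply, Matrix.map_apply,
        MvPolynomial.pderiv_map, hev]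
    rwa [h2]

end Pool.Agent.Lib.MP_879916_ag.Dg
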