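import Pool.Agent.Lib.MP_879916_ag.DgBez

/-! Zeros with a small Jacobian kernel. -/

set_option linter.unusedSectionVars false

noncomputable section

namespace Pool.Agent.Lib.MP_879916_ag.Dg

open Polynomial Finset
open scoped Classical

variable {F : Type} [Field F] [Fintype F]

/-- the rows of a matrix together with the unit vectors -/
def bez2_u {σ ι : Type} (M : Matrix ι σ F) : ι ⊕ σ → (σ → F) :=
  Sum.elim (fun j => M j) (fun i => Pi.single i 1)

lemma bez2_span_le {α V : Type} [Fintype α] [AddCommGroup V] [Module F V] (u : α → V)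
    (b : Set α) : Module.finrank F (Submodule.span F (u '' b)) ≤ b.toFinset.card := by
  have h1 := finrank_span_le_card (R := F) (u '' b)
  refine h1.trans ?_
  have h2 : (u '' b).toFinset ⊆ b.toFinset.image u := by
    intro v hv
    rw [Set.mem_toFinset] at hv
    obtain ⟨a, ha, rfl⟩ := hv
    exact Finset.mem_image_of_mem u (Set.mem_toFinset.mpr ha)
  exact (Finset.card_le_card h2).trans Finset.card_image_le

lemma bez2_select {σ ι : Type} [Fintype σ] [Fintype ι] (M : Matrix ι σ F) :
    ∃ A : Finset (ι ⊕ σ), A.card = Fintype.card σ ∧ LinearIndepOn F (bez2_u M) (A : Set (ι ⊕ σ)) ∧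
      (univ.filter (fun i : σ => Sum.inr i ∈ A)).card ≤
        Module.finrank F (LinearMap.ker M.mulVecLin) := by
  obtain ⟨b1, hb1, -, hsp1, hli1⟩ := exists_linearIndepOn_extension
    (linearIndepOn_empty F (bez2_u M)) (Set.empty_subset (Set.range (Sum.inl : ι → ι ⊕ σ)))
  obtain ⟨b2, -, hb12, hsp2, hli2⟩ := exists_linearIndepOn_extension hli1 (Set.subset_univ b1)
  have hfr : Module.finrank F (σ → F) = Fintype.card σ := by simp
  have hcard : b2.toFinset.card = Fintype.card σ := by
    apply le_antisymm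
    · have h1 := LinearIndependent.fintype_card_le_finrank hli2
      rw [hfr] at h1
      rwa [Set.toFinset_card]
    · have htop : Submodule.span F (bez2_u M '' b2) = ⊤ := by
        rw [eq_top_iff, ← (Pi.basisFun F σ).span_eq, Submodule.span_le]
        rintro v ⟨i, rfl⟩
        apply hsp2
        refine ⟨Sum.inr i, Set.mem_univ _, ?_⟩
        rw [Pi.basisFun_apply]
        rfl
      have h1 := bez2_span_le (F := F) (bez2_u M) b2
      rw [htop, finrank_top, hfr] at h1
      exact h1
  have hrank : M.rank ≤ b1.toFinset.card := by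
    rw [Matrix.rank_eq_finrank_span_row]
    refine le_trans (Submodule.finrank_mono ?_) (bez2_span_le (F := F) (bez2_u M) b1)
    rw [Submodule.span_le]
    rintro v ⟨j, rfl⟩
    apply hsp1
    exact ⟨Sum.inl j, ⟨j, rfl⟩, rfl⟩
  have hrk : M.rank + Module.finrank F (LinearMap.ker M.mulVecLin) = Fintype.card σ := by
    have h1 := LinearMap.finrank_range_add_finrank_ker M.mulVecLin
    rw [hfr] at h1
    exact h1
  refine ⟨b2.toFinset, hcard, by rw [Set.coe_toFinset]; exact hli2, ?_⟩
  set I := univ.filter (fun i : σ => Sum.inr i ∈ b2.toFinset) with hI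
  have hdis : Disjoint (I.map ⟨Sum.inr, Sum.inr_injective⟩) b1.toFinset := by
    rw [Finset.disjoint_left]
    intro a ha hb
    rw [Finset.mem_map] at ha
    obtain ⟨i, -, rfl⟩ := ha
    obtain ⟨j, hj⟩ := hb1 (Set.mem_toFinset.mp hb)
    exact Sum.inl_ne_inr hj
  have hsub : (I.map ⟨Sum.inr, Sum.inr_injective⟩) ∪ b1.toFinset ⊆ b2.toFinset := by
    intro a ha
    rcases Finset.mem_union.mp ha with ha | ha
    · rw [Finset.mem_map] at ha
      obtain ⟨i, hi, rfl⟩ := ha
      exact (Finset.mem_filter.mp hi).2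
    · exact Set.mem_toFinset.mpr (hb12 (Set.mem_toFinset.mp ha))
  have h1 := Finset.card_le_card hsub
  rw [Finset.card_union_of_disjoint hdis, Finset.card_map, hcard] at h1
  omega

lemma bez2_fib {σ ι : Type} [Fintype σ] [Fintype ι] (w D : σ → ℕ) (Δ : ℕ) (hΔ : 1 ≤ Δ)
    (hw : ∀ i, 1 ≤ w i) (hwΔ : ∀ i, w i ≤ Δ) (hD : ∀ i, 2 * Δ ≤ D i * w i)
    (f : ι → MvPolynomial σ F) (hf : ∀ j, WD w Δ (f j)) (A : Finset (ι ⊕ σ))
    (hA : A.card = Fintype.card σ) (c : σ → F) (T : Finset (σ → F))
    (h0 : ∀ x ∈ T, ∀ j, MvPolynomial.eval x (f j) = 0)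
    (hli : ∀ x ∈ T, LinearIndepOn F (bez2_u (Jac x f)) (A : Set (ι ⊕ σ)))
    (hc : ∀ x ∈ T, ∀ i, Sum.inr i ∈ A → x i = c i) : T.card ≤ ∏ i, D i := by
  have e : σ ≃ A := Fintype.equivOfCardEq (by rw [Fintype.card_coe, hA])
  let G : ι ⊕ σ → MvPolynomial σ F :=
    Sum.elim f (fun k => MvPolynomial.X k + MvPolynomial.C (-c k))
  refine bez_core w D Δ hΔ hw hwΔ hD (fun i => G (e i)) ?_ T ?_ ?_
  · intro j
    rcases (e j).1 with a | a
    · exact hf a
    · exact WD.add (WD.mono (WD_X a) (hwΔ a)) (WD_C Δ _)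
  · intro x hx j
    have hmem := (e j).2
    revert hmem
    rcases (e j).1 with a | a
    · intro _
      exact h0 x hx a
    · intro hmem
      show MvPolynomial.eval x (MvPolynomial.X a + MvPolynomial.C (-c a)) = 0
      rw [map_add, MvPolynomial.eval_X, MvPolynomial.eval_C, hc x hx a hmem, add_neg_cancel]
  · intro x hx
    rw [← Matrix.linearIndependent_rows_iff_isUnit]
    have hrow : (Jac x (fun i => G (e i))).row =
        (fun a : (A : Set (ι ⊕ σ)) => bez2_u (Jac x f) a) ∘ (fun i => ⟨(e i).1, (e i).2⟩) := by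
      funext j k
      show MvPolynomial.eval x (MvPolynomial.pderiv k (G (e j))) = bez2_u (Jac x f) (e j).1 k
      rcases (e j).1 with a | a
      · rfl
      · show MvPolynomial.eval x (MvPolynomial.pderiv k
          (MvPolynomial.X a + MvPolynomial.C (-c a))) = (Pi.single a (1 : F) : σ → F) k
        rw [map_add, MvPolynomial.pderiv_C, add_zero, MvPolynomial.pderiv_X]
        by_cases h : k = a
        · subst h
          simp
        · rw [Pi.single_eq_of_ne h, Pi.single_eq_of_ne (Ne.symm h), map_zero]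
    rw [hrow]
    refine LinearIndependent.comp (hli x hx) _ ?_
    intro i j hij
    apply e.injective
    exact Subtype.ext (congrArg Subtype.val hij)

theorem bez {σ ι : Type} [Fintype σ] [Fintype ι] (w D : σ → ℕ) (Δ : ℕ) (hΔ : 1 ≤ Δ)
    (hw : ∀ i, 1 ≤ w i) (hwΔ : ∀ i, w i ≤ Δ) (hD : ∀ i, 2 * Δ ≤ D i * w i)
    (f : ι → MvPolynomial σ F) (hf : ∀ j, WD w Δ (f j)) (κ : ℕ) (S : Finset (σ → F))
    (h0 : ∀ x ∈ S, ∀ j, MvPolynomial.eval x (f j) = 0)
    (hker : ∀ x ∈ S, Module.finrank F (LinearMap.ker (Jac x f).mulVecLin) ≤ κ) :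
    S.card ≤ 2 ^ (Fintype.card ι + Fintype.card σ) * (∏ i, D i) * Fintype.card F ^ κ := by
  choose A hA1 hA2 hA3 using fun x : σ → F => bez2_select (Jac x f)
  have h1 := Finset.card_le_mul_card_image_of_maps_to (f := A) (s := S)
    (t := (univ : Finset (Finset (ι ⊕ σ)))) (fun _ _ => Finset.mem_univ _)
    ((∏ i, D i) * Fintype.card F ^ κ) (by
      intro B _
      by_cases hne : (S.filter (fun x => A x = B)).Nonempty
      · obtain ⟨y, hy⟩ := hne
        obtain ⟨hyS, hyB⟩ := Finset.mem_filter.mp hy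
        have hIκ : (univ.filter (fun i : σ => Sum.inr i ∈ B)).card ≤ κ := by
          rw [← hyB]
          exact (hA3 y).trans (hker y hyS)
        have h2 := Finset.card_le_mul_card_image_of_maps_to
          (f := fun (x : σ → F) (i : {i : σ // Sum.inr i ∈ B}) => x i.1)
          (s := S.filter (fun x => A x = B))
          (t := (univ : Finset ({i : σ // Sum.inr i ∈ B} → F))) (fun _ _ => Finset.mem_univ _)
          (∏ i, D i) (by
            intro c _
            refine bez2_fib w D Δ hΔ hw hwΔ hD f hf B (hyB ▸ hA1 y)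
              (fun i => if h : Sum.inr i ∈ B then c ⟨i, h⟩ else 0) _ ?_ ?_ ?_
            · intro x hx
              exact h0 x (Finset.mem_filter.mp (Finset.mem_filter.mp hx).1).1
            · intro x hx
              rw [← (Finset.mem_filter.mp (Finset.mem_filter.mp hx).1).2]
              exact hA2 x
            · intro x hx i hi
              rw [dif_pos hi, ← (Finset.mem_filter.mp hx).2])
        refine h2.trans (Nat.mul_le_mul_left _ ?_)
        rw [Finset.card_univ, Fintype.card_fun, Fintype.card_subtype]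
        exact Nat.pow_le_pow_right Fintype.card_pos hIκ
      · rw [Finset.not_nonempty_iff_eq_empty.mp hne]
        exact Nat.zero_le _)
  rw [Finset.card_univ, Fintype.card_finset, Fintype.card_sum] at h1
  calc S.card ≤ _ := h1
    _ = _ := by ring

end Pool.Agent.Lib.MP_879916_ag.Dg
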