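import Mathlib

/-! Diagonal forms over `F(t)`: definitions used by all files `Dg*`. -/

set_option linter.unusedSectionVars false

noncomputable section

namespace Pool.Agent.Lib.MP_879916_ag.Dg

open Polynomial Finset
open scoped Classical

variable {F : Type} [Field F] [Fintype F]

/-- polynomial with the given coefficient vector -/
def Ev {R : Type} [Semiring R] {d : ℕ} (c : Fin d → R) : R[X] := ∑ l : Fin d, monomial (l : ℕ) (c l)

/-- the polynomials of degree `< n` -/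
def PL (F : Type) [Field F] [Fintype F] (n : ℕ) : Finset F[X] :=
  (univ : Finset (Fin n → F)).image Ev

/-- the numbers `1 .. k(k-1)` are non-zero in `F` -/
def Ch (k : ℕ) (F : Type) [Field F] : Prop := ∀ b : ℕ, 0 < b → b ≤ k * (k - 1) → (b : F) ≠ 0

/-- a fixed non-trivial additive character -/
def psi (F : Type) [Field F] [Fintype F] : AddChar F ℂ :=
  AddChar.FiniteField.primitiveChar_to_Complex F

/-- average over the polynomials of degree `< M` -/
def Ex (M : ℕ) (φ : F[X] → ℂ) : ℂ := (∑ x ∈ PL F M, φ x) / (Fintype.card F : ℂ) ^ M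

/-- the functional `w ↦ coeff_N (B w)` kills `u * P_b` -/
def Kill (B : F[X]) (N : ℕ) (u : F[X]) (b : ℕ) : Prop :=
  ∀ w : F[X], w.natDegree ≤ b → (B * u * w).coeff N = 0

/-- `μ` is the first coordinate of a primitive vector of size `a` of the lattice of `B` -/
def Prim (B : F[X]) (n : ℕ) (μ : F[X]) (a : ℕ) : Prop :=
  μ.Monic ∧ μ.natDegree ≤ a ∧ a ≤ n ∧
    ∃ v : F[X], IsCoprime μ v ∧ (B * μ - X ^ (n + 1) * v).degree < (a : WithBot ℕ)

/-- minor arcs -/
def Minor (B : F[X]) (N M h : ℕ) : Prop :=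
  ∀ r : F[X], r ≠ 0 → r.natDegree ≤ h → ¬ Kill B N r (M - h)

/-- degree of the radical -/
def om (μ : F[X]) : ℕ := ∑ π ∈ UniqueFactorizationMonoid.primeFactors μ, π.natDegree

/-- total degree of the primes whose multiplicity vanishes in `F` -/
def tt (μ : F[X]) : ℕ :=
  ∑ π ∈ (UniqueFactorizationMonoid.primeFactors μ).filter
    (fun π => ((multiplicity π μ : ℕ) : F) = 0), π.natDegree

/-- the least monic `ρ` with `μ ∣ ρ ^ (k-1)` -/
def rho (k : ℕ) (μ : F[X]) : F[X] :=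
  ∏ π ∈ UniqueFactorizationMonoid.primeFactors μ, π ^ ((multiplicity π μ + (k - 2)) / (k - 1))

/-- `T(B, μ, w)` of the blueprint -/
def TT (k : ℕ) (B : F[X]) (n : ℕ) (μ : F[X]) (w : ℕ) : Prop :=
  om μ + k * w ≤ n ∧ Prim B n μ (n - (om μ + k * w))

/-- `Z(B, w)` of the blueprint -/
def ZZ (k : ℕ) (B : F[X]) (n w : ℕ) : Finset F[X] :=
  (((PL F (n + 1)).filter fun μ => TT k B n μ 0 ∧ tt μ ≤ w).biUnion fun μ =>
    (PL F (w - tt μ + 1)).image fun g => rho k μ * g)

/-- monic polynomial of degree `d b` with lower coefficients `x ⟨b, _⟩` -/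
def SS {R : Type} [Semiring R] {n : ℕ} (d : Fin (n + 1) → ℕ)
    (x : (Σ b : Fin (n + 1), Fin (d b)) → R) (b : Fin (n + 1)) : R[X] :=
  X ^ d b + Ev fun l => x ⟨b, l⟩

/-- `∏ s_b ^ b` -/
def MM {R : Type} [CommSemiring R] {n : ℕ} (d : Fin (n + 1) → ℕ)
    (x : (Σ b : Fin (n + 1), Fin (d b)) → R) : R[X] :=
  ∏ b, SS d x b ^ (b : ℕ)

/-- the possible multiplicity patterns -/
def DD (n : ℕ) : Finset (Fin (n + 1) → ℕ) :=
  (Fintype.piFinset fun _ => range (n + 1)).filter fun d => ∑ b, d b ≤ n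

/-- solutions of `∑ c_i x_i ^ k = y` with `deg x_i ≤ e` -/
def Sol (k e : ℕ) {ι : Type} [Fintype ι] (c : ι → F) (y : F[X]) : Finset (ι → F[X]) :=
  (Fintype.piFinset fun _ : ι => PL F (e + 1)).filter fun x => ∑ i, C (c i) * x i ^ k = y

/-- weighted degree at most `Δ` -/
def WD {σ R : Type} [CommSemiring R] (w : σ → ℕ) (Δ : ℕ) (f : MvPolynomial σ R) : Prop :=
  ∀ γ ∈ f.support, Finsupp.weight w γ ≤ Δ

/-- all coefficients have weighted degree at most `Δ` -/
def PWD {σ R : Type} [CommSemiring R] (w : σ → ℕ) (Δ : ℕ) (P : (MvPolynomial σ R)[X]) : Prop :=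
  ∀ l, WD w Δ (P.coeff l)

/-- Jacobian matrix -/
def Jac {σ ι R : Type} [CommSemiring R] (x : σ → R) (f : ι → MvPolynomial σ R) : Matrix ι σ R :=
  Matrix.of fun j i => MvPolynomial.eval x (MvPolynomial.pderiv i (f j))

/-- derivative at `x` in the direction `z` -/
def Dz {σ R : Type} [Fintype σ] [CommSemiring R] (x z : σ → R) (f : MvPolynomial σ R) : R :=
  ∑ i, MvPolynomial.eval x (MvPolynomial.pderiv i f) * z i

/-- `P` has value `u` and derivative `u'` at `x` in the direction `z` -/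
def Tan {σ R : Type} [Fintype σ] [CommSemiring R] (x z : σ → R) (P : (MvPolynomial σ R)[X])
    (u u' : R[X]) : Prop :=
  P.map (MvPolynomial.eval x) = u ∧ ∀ l, Dz x z (P.coeff l) = u'.coeff l

/-- differential of `x ↦ ∑ c_i x_i ^ k` up to the factor `k` -/
def Lx (k e : ℕ) {ι : Type} [Fintype ι] (c : ι → F) (x : ι → F[X]) :
    (ι × Fin (e + 1) → F) →ₗ[F] F[X] where
  toFun z := ∑ i, C (c i) * x i ^ (k - 1) * Ev fun l => z (i, l)
  map_add' z z' := by
    simp only [Ev, Pi.add_apply, map_add, Finset.sum_add_distrib, mul_add]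
  map_smul' r z := by
    simp only [Ev, Pi.smul_apply, smul_eq_mul, RingHom.id_apply, Finset.smul_sum, Finset.mul_sum]
    refine Finset.sum_congr rfl fun i _ => Finset.sum_congr rfl fun l _ => ?_
    rw [← mul_smul_comm, smul_monomial, smul_eq_mul]

/-- the pairs `(B, x)` with `B ≠ 0` killing all `x_i ^ (k-1) P_e` -/
def Pairs (k e : ℕ) {ι : Type} [Fintype ι] (c : ι → F) (y : F[X]) : Finset (F[X] × (ι → F[X])) :=
  (PL F (k * e + 1) ×ˢ Sol k e c y).filter fun p =>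
    p.1 ≠ 0 ∧ ∀ i, Kill p.1 (k * e) (p.2 i ^ (k - 1)) e

/-- the statement of Hypothesis K at level `e` -/
def HK (F : Type) [Field F] [Fintype F] (k : ℕ) (K : ℝ) (e : ℕ) : Prop :=
  ∀ (ι : Type) [Fintype ι], Fintype.card ι ≤ 2 * k → ∀ c : ι → F, (∀ i, c i ≠ 0) → ∀ y : F[X],
    ((Sol k e c y).card : ℝ) ≤
      K ^ (e + 1) * √(Fintype.card F : ℝ) ^ (Fintype.card ι * (e + 1) + 4 * k)

/-- normalised Weyl sum -/
def GG (k : ℕ) (B : F[X]) (N e : ℕ) : ℂ := Ex (e + 1) fun x => psi F ((B * x ^ k).coeff N)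

/-- residue at infinity of `y / μ` -/
def lam (μ y : F[X]) : F := (X * (y %ₘ μ)).coeff μ.natDegree

/-- normalised complete sum -/
def gg (k : ℕ) (μ y : F[X]) : ℂ := Ex μ.natDegree fun x => psi F (lam μ (y * x ^ k))

/-- reduced residues -/
def Red (μ : F[X]) : Finset F[X] := (PL F μ.natDegree).filter fun v => IsCoprime μ v

/-- term of the singular series -/
def ff (k : ℕ) {ι : Type} [Fintype ι] (a : ι → F[X]) (μ : F[X]) : ℂ :=
  ∑ v ∈ Red μ, ∏ i, gg k μ (v * a i)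

/-- majorant of the term of the singular series -/
def fb (k : ℕ) {ι : Type} [Fintype ι] (a : ι → F[X]) (μ : F[X]) : ℝ :=
  ∑ v ∈ Red μ, ∏ i, ‖gg k μ (v * a i)‖

/-- Davenport-Lewis condition on valuations -/
def DL (k : ℕ) {ι : Type} [Fintype ι] (ν : ι → ℕ) : Prop :=
  (∀ i, ν i < k) ∧ ∀ j, 1 ≤ j → j ≤ k → 2 * j + 1 ≤ (univ.filter fun i => ν i < j).card

/-- normal form at the prime `π` -/
def NFat (k : ℕ) {ι : Type} [Fintype ι] (a : ι → F[X]) (π : F[X]) : Prop :=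
  ∃ ν : ι → ℕ, DL k ν ∧ ∀ i, ∃ a', a i = π ^ ν i * a' ∧ ¬ π ∣ a'

/-- the diagonal form has a non-trivial zero in polynomials -/
def Iso (k : ℕ) {ι : Type} [Fintype ι] (a : ι → F[X]) : Prop :=
  ∃ x : ι → F[X], x ≠ 0 ∧ ∑ i, a i * x i ^ k = 0

/-- twice the exponent saved in a complete sum modulo `π ^ t` -/
def gam (k : ℕ) : ℕ → ℕ
  | 0 => 0
  | 1 => 1
  | t + 2 => 2 + gam k (t + 2 - max k 1)
decreasing_by omega

/-- major arc sum -/
def Maj (k : ℕ) {ι : Type} [Fintype ι] (a a' : ι → F[X]) (H : ℕ) : ℂ :=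
  ∑ μ ∈ (PL F (H + 1)).filter Monic, ff k a μ * ∑ j ∈ range (H - μ.natDegree + 1), ff k a' (X ^ j)

end Pool.Agent.Lib.MP_879916_ag.Dg
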