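import Pool.Agent.Lib.MP_879916_ag.DgBase

/-! From polynomials over a large field to rational functions over any field. -/

set_option linter.unusedSectionVars false

noncomputable section

namespace Pool.Agent.Lib.MP_879916_ag.Dg

open Polynomial Finset
open scoped Classical

variable {F : Type} [Field F] [Fintype F]

/-- a zero in polynomials gives a zero in rational functions -/
lemma ext_aux1 (k : ℕ) {E : Type} [Field E] [Fintype E] {m₀ m : ℕ} (hm : m₀ ≤ m)
    (hk : 1 ≤ k) (h : ∀ b : Fin m₀ → E[X], Iso k b) (a : Fin m → RatFunc E) :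
    ∃ x : Fin m → RatFunc E, x ≠ 0 ∧ ∑ i, a i * x i ^ k = 0 := by
  obtain ⟨d, hd⟩ := IsLocalization.exist_integer_multiples_of_finite (nonZeroDivisors E[X])
    fun i : Fin m₀ => a (Fin.castLE hm i)
  choose b hb using hd
  obtain ⟨y, hy, h0⟩ := h b
  have hi := Fin.castLE_injective hm
  have hd0 : algebraMap E[X] (RatFunc E) d ≠ 0 :=
    IsFractionRing.to_map_ne_zero_of_mem_nonZeroDivisors d.2
  refine ⟨Function.extend (Fin.castLE hm) (fun i => algebraMap E[X] (RatFunc E) (y i)) 0,
    fun hx => hy (funext fun i => ?_), ?_⟩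
  · have := congrFun hx (Fin.castLE hm i)
    rw [hi.extend_apply] at this
    exact (IsFractionRing.to_map_eq_zero_iff (K := RatFunc E)).1 this
  · rw [← Fintype.sum_of_injective (Fin.castLE hm) hi
      (fun i => a (Fin.castLE hm i) * algebraMap E[X] (RatFunc E) (y i) ^ k) _
      (fun j hj => by
        rw [Function.extend_apply' _ _ _ hj, Pi.zero_apply, zero_pow (by omega), mul_zero])
      fun i => by rw [hi.extend_apply]]
    refine mul_left_cancel₀ hd0 ?_
    have h1 := congrArg (algebraMap E[X] (RatFunc E)) h0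
    rw [map_sum, map_zero] at h1
    rw [mul_zero, mul_sum, ← h1]
    refine sum_congr rfl fun i _ => ?_
    rw [map_mul, map_pow, hb i, ← mul_assoc, Algebra.smul_def]

attribute [local instance] Polynomial.algebra in
open scoped RatFunc in
/-- a zero in polynomials over an extension `E` of `F` gives a zero over an extension of `F(t)`
of the same degree -/
theorem ext_zero (k : ℕ) (E : Type) [Field E] [Fintype E] [Algebra F E] {m₀ m : ℕ} (hm : m₀ ≤ m)
    (hk : 1 ≤ k) (h : ∀ b : Fin m₀ → E[X], Iso k b) (a : Fin m → RatFunc F) :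
    ∃ (L : Type) (_ : Field L) (_ : Algebra (RatFunc F) L),
      Module.finrank (RatFunc F) L = Module.finrank F E ∧
        ∃ x : Fin m → L, x ≠ 0 ∧ ∑ i, algebraMap (RatFunc F) L (a i) * x i ^ k = 0 :=
  ⟨RatFunc E, inferInstance, _, RatFunc.finrank_ratFunc_ratFunc F E, ext_aux1 k hm hk h _⟩

lemma exists_ext (r : ℕ) (hr : 0 < r) :
    ∃ (E : Type) (_ : Field E) (_ : Fintype E) (_ : Algebra F E),
      Module.finrank F E = r ∧ Fintype.card E = Fintype.card F ^ r := by
  obtain ⟨p, hp⟩ := CharP.exists F
  have := Fact.mk (CharP.char_is_prime F p)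
  have := NeZero.mk hr.ne'
  have := Fintype.ofFinite (FiniteField.Extension F p r)
  refine ⟨FiniteField.Extension F p r, inferInstance, this, inferInstance,
    FiniteField.finrank_extension F p r, ?_⟩
  rw [← Nat.card_eq_fintype_card, ← Nat.card_eq_fintype_card, FiniteField.natCard_extension]

end Pool.Agent.Lib.MP_879916_ag.Dg
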