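import Pool.Agent.Lib.MP_879916_ag.Reg
import Pool.Agent.Lib.MP_879916_ag.DgDefs

/-! From rational zeros of diagonal forms over large constant fields to zeros of degree prime
to `l`. -/

namespace Pool.Agent.PrimeToL

open Module Polynomial
open scoped IntermediateField

/-- diagonal forms of degree `k` in `2 k + 1` variables over `F[t]`, `F` large, have zeros -/
def DG (k q : ℕ) : Prop :=
  ∀ (F : Type) [Field F] [Finite F], k * (k - 1) < ringChar F → q ≤ Nat.card F →
    ∀ a : Fin (2 * k + 1) → F[X], ∃ x : Fin (2 * k + 1) → F[X], x ≠ 0 ∧ ∑ i, a i * x i ^ k = 0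

theorem dg_factor {l : ℕ} {K : Type} [Field K] (f : K[X]) : ¬ l ∣ f.natDegree →
    ∃ g, Irreducible g ∧ g ∣ f ∧ ¬ l ∣ g.natDegree := by
  induction f using WfDvdMonoid.induction_on_irreducible with
  | zero => simp
  | unit u hu => simp [natDegree_eq_zero_of_isUnit hu]
  | mul a i ha hi ih =>
    intro h
    by_cases h1 : l ∣ i.natDegree
    · obtain ⟨g, h2, h3, h4⟩ := ih fun h2 => h (by
        rw [natDegree_mul hi.ne_zero ha]
        exact dvd_add h1 h2)
      exact ⟨g, h2, h3.mul_left _, h4⟩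
    · exact ⟨i, hi, dvd_mul_right _ _, h1⟩

variable {l : ℕ} {K Ω : Type} [Field K] [Field Ω] [Algebra K Ω]

/-- finite of degree prime to `l` -/
def Co (l : ℕ) (L : IntermediateField K Ω) : Prop := FiniteDimensional K L ∧ ¬ l ∣ finrank K L

theorem Co.root [IsAlgClosed Ω] (hl : l.Prime) {L : IntermediateField K Ω} (h : Co l L) {y : Ω}
    (hy : y ∈ L) {n : ℕ} (hn : ¬ l ∣ n) : ∃ L', L ≤ L' ∧ Co l L' ∧ ∃ x ∈ L', x ^ n = y := by
  obtain ⟨g, h1, h2, h3⟩ := dg_factor (l := l) (X ^ n - C (⟨y, hy⟩ : L))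
    (by rwa [natDegree_X_pow_sub_C])
  obtain ⟨x, hx⟩ := IsAlgClosed.exists_aeval_eq_zero Ω g (degree_pos_of_irreducible h1).ne'
  have hi : IsIntegral L x := IsAlgebraic.isIntegral ⟨g, h1.ne_zero, hx⟩
  have := h.1
  have := IntermediateField.adjoin.finiteDimensional hi
  have h4 : FiniteDimensional K L⟮x⟯ := Module.Finite.trans L L⟮x⟯
  refine ⟨L⟮x⟯.restrictScalars K, fun z hz => L⟮x⟯.algebraMap_mem ⟨z, hz⟩,
    ⟨h4, ?_⟩, x, IntermediateField.mem_adjoin_simple_self L x, ?_⟩
  · change ¬ l ∣ finrank K L⟮x⟯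
    rw [← finrank_mul_finrank K L L⟮x⟯, IntermediateField.adjoin.finrank hi,
      ← minpoly.eq_of_irreducible h1 hx, natDegree_mul_C (inv_ne_zero (leadingCoeff_ne_zero.2 h1.ne_zero))]
    exact fun e => (hl.dvd_mul.1 e).elim h.2 h3
  · simpa [sub_eq_zero] using aeval_eq_zero_of_dvd_aeval_eq_zero h2 hx

theorem Co.roots [IsAlgClosed Ω] (hl : l.Prime) {L : IntermediateField K Ω} (h : Co l L)
    {ι : Type} (s : Finset ι) {y : ι → Ω} (hy : ∀ i, y i ∈ L) {n : ι → ℕ} (hn : ∀ i, ¬ l ∣ n i) :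
    ∃ L', L ≤ L' ∧ Co l L' ∧ ∀ i ∈ s, ∃ x ∈ L', x ^ n i = y i := by
  classical
  induction s using Finset.induction_on with
  | empty => exact ⟨L, le_rfl, h, by simp⟩
  | insert a s _ ih =>
    obtain ⟨L₁, h1, h2, h3⟩ := ih
    obtain ⟨L₂, h4, h5, h6⟩ := h2.root hl (h1 (hy a)) (hn a)
    refine ⟨L₂, h1.trans h4, h5, fun i hi => ?_⟩
    rcases Finset.mem_insert.1 hi with rfl | hi
    · exact h6
    · obtain ⟨x, h7, h8⟩ := h3 i hi
      exact ⟨x, h4 h7, h8⟩

/-- a constant extension of `F(t)` of degree prime to `l` with many constants -/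
theorem exists_const (F : Type) [Field F] [Finite F] (hl : l.Prime) (q : ℕ) :
    ∃ (E : Type) (_ : Field E) (_ : Finite E) (_ : Algebra F E)
      (φ : E[X] →+* AlgebraicClosure (RatFunc F))
      (L : IntermediateField (RatFunc F) (AlgebraicClosure (RatFunc F))),
      q ≤ Nat.card E ∧ Function.Injective φ ∧ Co l L ∧ (∀ P, φ P ∈ L) ∧
      ∀ P : F[X], φ (P.map (algebraMap F E)) =
        algebraMap (RatFunc F) _ (algebraMap F[X] (RatFunc F) P) := by
  obtain ⟨p, hp⟩ := CharP.exists F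
  have := Fact.mk (CharP.char_is_prime F p)
  let E := FiniteField.Extension F p (l * q + 1)
  let j : E →ₐ[F] AlgebraicClosure (RatFunc F) := IsAlgClosed.lift
  have hK : Reg F (RatFunc F) := fun β hβ => by
    by_contra h
    exact β.transcendental_of_ne_C (fun ⟨c, hc⟩ => h ⟨c, hc.symm⟩) hβ.isAlgebraic
  obtain ⟨ζ, hζ⟩ := Field.exists_primitive_element F E
  have h0 : IsIntegral F ζ := Algebra.IsIntegral.isIntegral ζ
  have hi : IsIntegral F (j ζ) := h0.map j
  have hmem : ∀ z, j z ∈ (RatFunc F)⟮j ζ⟯ := fun z => by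
    have h7 : F⟮ζ⟯ ≤ ((RatFunc F)⟮j ζ⟯.restrictScalars F).comap j :=
      IntermediateField.adjoin_simple_le_iff.2 (IntermediateField.mem_adjoin_simple_self (RatFunc F) _)
    exact h7 (hζ ▸ IntermediateField.mem_top)
  have hb : LinearIndependent F fun n : ℕ => (RatFunc.X : RatFunc F) ^ n := by
    have h2 := (basisMonomials F).linearIndependent.map'
      (IsScalarTower.toAlgHom F F[X] (RatFunc F)).toLinearMap
      (LinearMap.ker_eq_bot.2 (IsFractionRing.injective F[X] (RatFunc F)))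
    have h3 : (IsScalarTower.toAlgHom F F[X] (RatFunc F)).toLinearMap ∘
        basisMonomials F = fun a : ℕ => (RatFunc.X : RatFunc F) ^ a := by
      ext a
      simp [← X_pow_eq_monomial]
    rw [h3] at h2
    exact h2
  refine ⟨E, inferInstance, inferInstance, inferInstance,
    eval₂RingHom j (algebraMap (RatFunc F) _ RatFunc.X), (RatFunc F)⟮j ζ⟯, ?_, ?_,
    ⟨IntermediateField.adjoin.finiteDimensional hi.tower_top, ?_⟩, fun P => ?_, fun P => ?_⟩
  · rw [FiniteField.natCard_extension]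
    refine le_trans ?_ (Nat.lt_pow_self Finite.one_lt_card).le
    nlinarith [hl.pos]
  · refine (injective_iff_map_eq_zero _).2 fun P hP => ?_
    rw [coe_eval₂RingHom, eval₂_eq_sum_range] at hP
    ext n
    by_cases hn : n ∈ Finset.range (P.natDegree + 1)
    · exact hK.indep j hb _ P.coeff (by simpa using hP) n hn
    · exact coeff_eq_zero_of_natDegree_lt (by simpa using hn)
  · rw [IntermediateField.adjoin.finrank hi.tower_top, hK.minpoly_eq hi, natDegree_map,
      minpoly.algHom_eq j j.injective, ← IntermediateField.adjoin.finrank h0, hζ,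
      IntermediateField.finrank_top', FiniteField.finrank_extension]
    exact fun e => hl.not_dvd_one ((Nat.dvd_add_right (dvd_mul_right _ _)).1 e)
  · rw [coe_eval₂RingHom, eval₂_eq_sum_range]
    exact sum_mem fun n _ => mul_mem (hmem _) (pow_mem (IntermediateField.algebraMap_mem _ _) _)
  · induction P using Polynomial.induction_on' with
    | add a b ha hb => simp only [Polynomial.map_add, map_add, ha, hb]
    | monomial n c =>
      rw [← C_mul_X_pow_eq_monomial]
      simp [← RatFunc.algebraMap_eq_C, ← IsScalarTower.algebraMap_apply]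

theorem dg_link (hl : l.Prime) {a q : ℕ} (h : DG (l ^ a) q) (F : Type) [Field F] [Finite F]
    (hp : l ^ a * (l ^ a - 1) < ringChar F) {m : ℕ} (hm : 2 * l ^ a + 1 ≤ m)
    (c : Fin m → RatFunc F) (k : Fin m → ℕ) (hk : ∀ i, ¬ l ^ (a + 1) ∣ k i) :
    ∃ L : IntermediateField (RatFunc F) (AlgebraicClosure (RatFunc F)),
      FiniteDimensional (RatFunc F) L ∧ ¬ l ∣ finrank (RatFunc F) L ∧
      ∃ x : Fin m → L, x ≠ 0 ∧ ∑ i, algebraMap (RatFunc F) L (c i) * x i ^ k i = 0 := by
  obtain ⟨E, _, _, _, φ, L, h1, h2, h3, h4, h5⟩ := exists_const F hl q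
  obtain ⟨⟨d, hd⟩, h6⟩ := IsLocalization.exist_integer_multiples_of_finite (nonZeroDivisors F[X]) c
  choose b hb using h6
  obtain ⟨y, hy, h7⟩ := h E (by rwa [← Algebra.ringChar_eq F E]) h1
    fun i => (b (Fin.castLE hm i)).map (algebraMap F E)
  have hk0 : ∀ i, k i ≠ 0 := fun i e => hk i (e ▸ dvd_zero _)
  choose v n hn hv using fun i => Nat.exists_eq_pow_mul_and_not_dvd (hk0 i) l hl.ne_one
  have hva : ∀ i, v i ≤ a := fun i => by
    by_contra e
    exact hk i (hv i ▸ (pow_dvd_pow l (not_le.1 e)).mul_right _)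
  obtain ⟨L', -, h8, h9⟩ := h3.roots hl Finset.univ
    (y := fun i => φ (y i) ^ l ^ (a - v (Fin.castLE hm i))) (fun i => pow_mem (h4 _) _)
    fun i => hn (Fin.castLE hm i)
  choose z hz h10 using fun i => h9 i (Finset.mem_univ i)
  have hinj := Fin.castLE_injective hm
  refine ⟨L', h8.1, h8.2, Function.extend (Fin.castLE hm) (fun i => ⟨z i, hz i⟩) 0,
    fun e => hy (funext fun i => h2 ?_), ?_⟩
  · have h11 := congrArg Subtype.val (congrFun e (Fin.castLE hm i))
    rw [hinj.extend_apply] at h11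
    have h12 := h10 i
    rw [show z i = 0 from h11, zero_pow fun e => hn _ (e ▸ dvd_zero _)] at h12
    simpa using (pow_eq_zero_iff (pow_ne_zero _ hl.ne_zero)).1 h12.symm
  · rw [← Finset.sum_subset (Finset.subset_univ (Finset.univ.map ⟨_, hinj⟩)) fun i _ hi => by
      rw [Function.extend_apply' _ _ _ (by simpa using hi), Pi.zero_apply, zero_pow (hk0 i),
        mul_zero], Finset.sum_map]
    have h11 := congrArg φ h7
    have h12 : algebraMap (RatFunc F) (AlgebraicClosure (RatFunc F)) (algebraMap F[X] _ d) ≠ 0 := by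
      simpa using nonZeroDivisors.ne_zero hd
    apply Subtype.val_injective
    refine mul_left_cancel₀ h12 ?_
    rw [map_sum, map_zero] at h11
    rw [ZeroMemClass.coe_zero, mul_zero, ← h11, AddSubmonoidClass.coe_finsetSum, Finset.mul_sum]
    refine Finset.sum_congr rfl fun i _ => ?_
    have h13 : l ^ a = l ^ (a - v (Fin.castLE hm i)) * l ^ v (Fin.castLE hm i) := by
      rw [← pow_add, Nat.sub_add_cancel (hva _)]
    rw [map_mul, h5, hb, map_pow, Function.Embedding.coeFn_mk, hinj.extend_apply, hv,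
      congrArg (φ (y i) ^ ·) h13, pow_mul (φ _), ← h10 i, ← pow_mul, mul_comm (n _),
      Algebra.smul_def, map_mul, mul_assoc]
    rfl

end Pool.Agent.PrimeToL

namespace Pool.Agent.Lib.MP_879916_ag.Dg

open Polynomial

theorem prime_to_l (F : Type) [Field F] [Fintype F] (l : ℕ) (hl : l.Prime) (a : ℕ) (q0 : ℕ)
    (hmain : ∀ (E : Type) [Field E] [Fintype E], Ch (l ^ a) E → q0 ≤ Fintype.card E →
      ∀ b : Fin (2 * l ^ a + 1) → E[X], Iso (l ^ a) b)
    (hch : l ^ a * (l ^ a - 1) < ringChar F) (m : ℕ) (hm : 2 * l ^ a + 1 ≤ m) (d : Fin m → ℕ)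
    (hd : ∀ i, 0 < d i) (hv : ∀ i, padicValNat l (d i) ≤ a) (c : Fin m → RatFunc F) :
    ∃ (L : Type) (_ : Field L) (_ : Algebra (RatFunc F) L), FiniteDimensional (RatFunc F) L ∧
      ¬ l ∣ Module.finrank (RatFunc F) L ∧
      ∃ x : Fin m → L, x ≠ 0 ∧ ∑ i, algebraMap _ L (c i) * x i ^ d i = 0 := by
  have := Fact.mk hl
  obtain ⟨L, h⟩ := Pool.Agent.PrimeToL.dg_link hl (a := a) (q := q0) (fun E _ _ h1 h2 b => by
    have := Fintype.ofFinite E
    refine hmain E (fun n h3 h4 h5 => ?_) (by rwa [← Nat.card_eq_fintype_card]) b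
    exact absurd (Nat.le_of_dvd h3 (ringChar.dvd h5)) (by omega)) F hch hm c d fun i h1 =>
      absurd ((padicValNat_dvd_iff_le (hd i).ne').1 h1) (by have := hv i; omega)
  exact ⟨L, inferInstance, inferInstance, h⟩

end Pool.Agent.Lib.MP_879916_ag.Dg
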