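import Pool.Agent.Lib.MP_879916_ag.DgPair

/-! Hypothesis K for large finite fields. -/

set_option linter.unusedSectionVars false

noncomputable section

namespace Pool.Agent.Lib.MP_879916_ag.Dg

open Polynomial Finset
open scoped Classical

variable {F : Type} [Field F] [Fintype F]

lemma dgk_mon {k n w : ℕ} {B μ : F[X]} (h : TT k B n μ w) : μ ∈ (PL F (n + 1)).filter Monic :=
  mem_filter.2 ⟨mem_PL_succ.2 (h.2.2.1.trans h.2.2.2.1), h.2.1⟩

lemma dgk_one_le : 1 ≤ √(Fintype.card F : ℝ) :=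
  Real.one_le_sqrt.2 (by exact_mod_cast (one_le_two.trans two_le_card))

lemma dgk_sq (a : ℕ) : (Fintype.card F : ℝ) ^ a = √(Fintype.card F : ℝ) ^ (2 * a) := by
  rw [pow_mul, Real.sq_sqrt (Nat.cast_nonneg _)]

lemma dgk_union {α β : Type} [DecidableEq β] (s : Finset α) (p : α → Prop) [DecidablePred p]
    (t : α → Finset β) (f : α → ℝ) (h0 : ∀ a, 0 ≤ f a) (h : ∀ a ∈ s, p a → ((t a).card : ℝ) ≤ f a) :
    (((s.filter p).biUnion t).card : ℝ) ≤ ∑ a ∈ s, f a := by
  have h1 : (((s.filter p).biUnion t).card : ℝ) ≤ ∑ a ∈ s.filter p, ((t a).card : ℝ) := by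
    exact_mod_cast card_biUnion_le
  refine h1.trans ((sum_le_sum fun a ha => h a (mem_filter.1 ha).1 (mem_filter.1 ha).2).trans ?_)
  exact sum_le_sum_of_subset_of_nonneg (filter_subset _ _) fun a _ _ => h0 a

lemma dgk_num {k e : ℕ} (hk : 2 ≤ k) :
    1 + ((e : ℝ) + 1) * 4 ^ (k * e + 1) + 2 ^ (2 * k) * ((e : ℝ) + 1) ^ 3 *
      ((128 ^ (k * e + 1)) ^ (2 * k) * (4 ^ (k * e + 1) * 4 ^ (k * e + 1))) ≤
      (3 * 2 ^ (2 * k) * 2 ^ 3 * (128 ^ (2 * k) * 16) ^ k) ^ (e + 1) := by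
  have h1 : (e : ℝ) + 1 ≤ 2 ^ (e + 1) := by exact_mod_cast (Nat.lt_two_pow_self).le
  have h2 : (1 : ℝ) ≤ (e : ℝ) + 1 := by linarith [Nat.cast_nonneg (α := ℝ) e]
  have h3 : (1 : ℝ) ≤ 2 ^ (2 * k) := one_le_pow₀ one_le_two
  have h4 : (1 : ℝ) ≤ 4 ^ (k * e + 1) := one_le_pow₀ (by norm_num)
  have h5 : (1 : ℝ) ≤ (128 ^ (k * e + 1)) ^ (2 * k) := one_le_pow₀ (one_le_pow₀ (by norm_num))
  have h6 : ((128 : ℝ) ^ (k * e + 1)) ^ (2 * k) * (4 ^ (k * e + 1) * 4 ^ (k * e + 1)) ≤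
      ((128 ^ (2 * k) * 16) ^ k) ^ (e + 1) := by
    rw [← mul_pow, ← pow_mul, mul_comm (k * e + 1), pow_mul, ← mul_pow, ← pow_mul]
    refine (le_of_eq (by norm_num)).trans (pow_le_pow_right₀ (one_le_mul_of_one_le_of_one_le
      (one_le_pow₀ (by norm_num)) (by norm_num)) (show k * e + 1 ≤ k * (e + 1) by nlinarith))
  have h7 : ((e : ℝ) + 1) ^ 3 ≤ (2 ^ 3) ^ (e + 1) := by
    rw [← pow_mul, mul_comm, pow_mul]
    exact pow_le_pow_left₀ (by linarith) h1 3
  have h8 : (3 : ℝ) * 2 ^ (2 * k) ≤ (3 * 2 ^ (2 * k)) ^ (e + 1) :=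
    le_self_pow₀ (by linarith) (by omega)
  have h9 : ((e : ℝ) + 1) * 4 ^ (k * e + 1) ≤ 2 ^ (2 * k) * ((e : ℝ) + 1) ^ 3 *
      ((128 ^ (k * e + 1)) ^ (2 * k) * (4 ^ (k * e + 1) * 4 ^ (k * e + 1))) :=
    mul_le_mul ((le_self_pow₀ h2 (by norm_num)).trans (le_mul_of_one_le_left (by positivity) h3))
      ((le_mul_of_one_le_left (by positivity) h4).trans (le_mul_of_one_le_left (by positivity) h5))
      (by positivity) (by positivity)
  have h10 := one_le_mul_of_one_le_of_one_le h2 h4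
  have h11 := mul_le_mul (mul_le_mul h8 h7 (by positivity) (by positivity)) h6 (by positivity)
    (by positivity)
  rw [mul_pow, mul_pow]
  linarith

theorem pairs_le (k : ℕ) (hk : 2 ≤ k) : ∃ C : ℝ, 1 ≤ C ∧
    ∀ (F : Type) [Field F] [Fintype F], Ch k F → ∀ (K : ℝ), 1 ≤ K → ∀ e : ℕ,
      (∀ j < e, HK F k K j) → ∀ (ι : Type) [Fintype ι], Fintype.card ι ≤ 2 * k →
      ∀ c : ι → F, (∀ i, c i ≠ 0) → ∀ y : F[X], ((Pairs k e c y).card : ℝ) ≤
        C ^ (e + 1) * K ^ e * √(Fintype.card F : ℝ) ^ (2 * (k * e + 1) + 8 * k) := by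
  refine ⟨3 * 2 ^ (2 * k) * 2 ^ 3 * (128 ^ (2 * k) * 16) ^ k, ?_,
    fun F _ _ hch K hK e ih ι _ hι c hc y => ?_⟩
  · refine le_trans ?_ ((dgk_num (e := 0) hk).trans (le_of_eq (pow_one _)))
    rw [add_assoc]
    exact le_add_of_nonneg_right (by positivity)
  obtain ⟨T, hT⟩ : ∃ T, T = K ^ e * √(Fintype.card F : ℝ) ^ (2 * (k * e + 1) + 8 * k) := ⟨_, rfl⟩
  have T0 : 0 ≤ T := by
    rw [hT]
    positivity
  obtain ⟨M, hM⟩ : ∃ M, M = (PL F (k * e + 1)).filter Monic := ⟨_, rfl⟩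
  have hs := sum_om (F := F) (k * e)
  rw [← hM] at hs
  have h0 : (((PL F (k * e + 1)).image fun B => (B, (0 : ι → F[X]))).card : ℝ) ≤ T := by
    refine (Nat.cast_le.2 card_image_le).trans ?_
    rw [card_PL, Nat.cast_pow, dgk_sq, hT]
    exact (pow_le_pow_right₀ dgk_one_le (Nat.le_add_right _ _)).trans
      (le_mul_of_one_le_left (by positivity) (one_le_pow₀ hK))
  have hA := dgk_union (M ×ˢ range (e + 1)) (fun a => a.2 < e)
    (fun a => (Pairs k e c y).filter fun p => TT k p.1 (k * e) a.1 a.2 ∧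
      ∀ i, ∃ g : F[X], g.natDegree ≤ a.2 ∧ p.2 i = rho k a.1 * g)
    (fun a => T * (1 / (Fintype.card F : ℝ)) ^ om a.1) (fun a => by positivity)
    fun a _ ha => hT ▸ caseA_le hK ha (ih _ ha) hι c hc y a.1
  have hB := dgk_union ((M ×ˢ M) ×ˢ
      ((univ : Finset (Finset ι)) ×ˢ range (e + 1) ×ˢ range (e + 1) ×ˢ range (e + 1)))
    (fun a => a.2.2.1 < e ∧ a.2.2.1 ≤ a.2.2.2.1 ∧ a.2.2.2.2 ≤ a.2.2.2.1 ∧ a.1.1 ≠ a.1.2)
    (fun a => (Pairs k e c y).filter fun p => TT k p.1 (k * e) a.1.1 a.2.2.2.1 ∧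
      TT k p.1 (k * e) a.1.2 a.2.2.2.2 ∧
      (∀ i ∈ a.2.1, ∃ g : F[X], g.natDegree ≤ a.2.2.1 ∧ p.2 i = rho k a.1.1 * g) ∧
      ∀ i ∉ a.2.1, p.2 i ∈ ZZ k p.1 (k * e) a.2.2.2.2)
    (fun a => (128 ^ (k * e + 1)) ^ (2 * k) * T *
      ((1 / (Fintype.card F : ℝ)) ^ om a.1.1 * (1 / (Fintype.card F : ℝ)) ^ om a.1.2))
    (fun a => by positivity)
    fun a _ ha => by
      rw [hT, ← mul_assoc _ (K ^ e)]
      exact caseB_le hK ha.1 ha.2.1 ha.2.2.1 (ih _ ha.1) hι c hc y a.2.1 ha.2.2.2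
  rw [sum_product] at hA hB
  simp only [sum_const, card_product, card_range, card_univ, Fintype.card_finset, nsmul_eq_mul,
    ← mul_sum] at hA hB
  rw [sum_product' M M fun a b : F[X] =>
    (1 / (Fintype.card F : ℝ)) ^ om a * (1 / (Fintype.card F : ℝ)) ^ om b, ← sum_mul_sum] at hB
  have s0 : 0 ≤ ∑ μ ∈ M, (1 / (Fintype.card F : ℝ)) ^ om μ := sum_nonneg fun _ _ => by positivity
  replace hA := hA.trans (mul_le_mul_of_nonneg_left (mul_le_mul_of_nonneg_left hs T0)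
    (Nat.cast_nonneg _))
  have hJ : ((2 ^ Fintype.card ι * ((e + 1) * ((e + 1) * (e + 1))) : ℕ) : ℝ) ≤
      2 ^ (2 * k) * ((e : ℝ) + 1) ^ 3 := by
    push_cast
    exact mul_le_mul (pow_le_pow_right₀ one_le_two hι) (le_of_eq (by ring)) (by positivity)
      (by positivity)
  replace hB := hB.trans (mul_le_mul hJ (mul_le_mul_of_nonneg_left
    (mul_le_mul hs hs s0 (by positivity)) (by positivity)) (by positivity) (by positivity))
  have hN := mul_le_mul_of_nonneg_right (dgk_num (e := e) hk) T0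
  refine le_trans (Nat.cast_le.2 ((card_le_card fun p hp => ?_).trans
    ((card_union_le _ _).trans (Nat.add_le_add_left (card_union_le _ _) _)))) (le_trans
    (le_trans (le_of_eq (by rw [Nat.cast_add, Nat.cast_add])) (add_le_add h0 (add_le_add hA hB)))
    ?_)
  · rw [mem_union, mem_union]
    rcases pairs_cover hk hch c y hp with h | ⟨μ, j, h1, h2, h3⟩ |
      ⟨I, μ₁, μ₂, j, w₁, w₂, h1, h2, h3, h4, h5, h6, h7, h8, h9⟩
    · exact Or.inl (mem_image.2 ⟨p.1, (mem_product.1 (mem_filter.1 hp).1).1, by rw [← h]⟩)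
    · exact Or.inr (Or.inl (mem_biUnion.2 ⟨(μ, j), mem_filter.2 ⟨mem_product.2
        ⟨hM ▸ dgk_mon h2, mem_range.2 (by omega)⟩, h1⟩, mem_filter.2 ⟨hp, h2, h3⟩⟩))
    · refine Or.inr (Or.inr (mem_biUnion.2 ⟨((μ₁, μ₂), I, j, w₁, w₂), mem_filter.2 ⟨mem_product.2
        ⟨mem_product.2 ⟨hM ▸ dgk_mon h6, hM ▸ dgk_mon h7⟩, ?_⟩, h1, h2, h3, h5⟩,
        mem_filter.2 ⟨hp, h6, h7, h8, h9⟩⟩))
      simp only [mem_product, mem_univ, mem_range, true_and]
      omega
  · rw [mul_assoc (_ ^ (e + 1)), ← hT]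
    push_cast
    linarith

lemma dgk_deg {k e : ℕ} (hk : 2 ≤ k) {ι : Type} [Fintype ι] (c : ι → F) {x : ι → F[X]}
    (hx : ∀ i, x i ∈ PL F (e + 1)) (z : ι × Fin (e + 1) → F) :
    (Lx k e c x z).natDegree ≤ k * e := by
  refine natDegree_sum_le_of_forall_le _ _ fun i _ => ?_
  have h1 : (Ev fun l => z (i, l)).natDegree ≤ e := mem_PL_succ.1 (mem_PL.2 (Ev_degree_lt _))
  have h2 : (C (c i) * x i ^ (k - 1)).natDegree ≤ (k - 1) * e :=
    (natDegree_C_mul_le _ _).trans (natDegree_pow_le_of_le _ (mem_PL_succ.1 (hx i)))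
  refine (natDegree_mul_le_of_le h2 h1).trans (le_of_eq ?_)
  rw [← Nat.succ_mul, Nat.succ_eq_add_one, Nat.sub_add_cancel (by omega)]

lemma dgk_kill {k e : ℕ} {ι : Type} [Fintype ι] {c : ι → F} (hc : ∀ i, c i ≠ 0) {x : ι → F[X]}
    {B : F[X]} (h : ∀ z, (B * Lx k e c x z).coeff (k * e) = 0) (i : ι) :
    Kill B (k * e) (x i ^ (k - 1)) e := by
  intro w hw
  have h1 := h fun a => if a.1 = i then w.coeff a.2 else 0
  have h2 : Lx k e c x (fun a => if a.1 = i then w.coeff a.2 else 0) =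
      C (c i) * x i ^ (k - 1) * w := by
    change ∑ j, C (c j) * x j ^ (k - 1) *
      Ev (fun l : Fin (e + 1) => if j = i then w.coeff l else 0) = _
    rw [sum_eq_single i]
    · simp only [if_true]
      rw [Ev_coeff_eq (mem_PL.1 (mem_PL_succ.2 hw))]
    · intro j _ hj
      simp [hj, Ev]
    · exact fun h => absurd (mem_univ i) h
  rw [h2, show B * (C (c i) * x i ^ (k - 1) * w) = C (c i) * (B * x i ^ (k - 1) * w) by ring,
    coeff_C_mul] at h1
  exact (mul_eq_zero.1 h1).resolve_left (hc i)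

lemma dgk_ker {Y : Type} [AddCommGroup Y] [Module F Y] [Fintype Y] (L : Y →ₗ[F] F[X]) :
    (univ.filter fun y => L y = 0).card = Fintype.card F ^ Module.finrank F (LinearMap.ker L) := by
  rw [← Module.card_eq_pow_finrank (K := F), Fintype.card_subtype]
  simp only [LinearMap.mem_ker]

/-- solutions with a tangent space of dimension `κ`, counted through their annihilators -/
lemma stratum_pairs {k e : ℕ} (hk : 2 ≤ k) {ι : Type} [Fintype ι] (c : ι → F) (hc : ∀ i, c i ≠ 0)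
    (y : F[X]) (κ : ℕ) (hκ : Fintype.card ι * (e + 1) < k * e + 1 + κ) :
    ((Sol k e c y).filter fun x => Module.finrank F (LinearMap.ker (Lx k e c x)) = κ).card *
      Fintype.card F ^ (k * e + 1 + κ) ≤
        2 * (Pairs k e c y).card * Fintype.card F ^ (Fintype.card ι * (e + 1)) := by
  rw [card_eq_sum_ones, sum_mul]
  refine le_trans (sum_le_sum (g := fun x => 2 * ((Pairs k e c y).filter fun p => p.2 = x).card *
    Fintype.card F ^ (Fintype.card ι * (e + 1))) fun x hx => ?_) ?_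
  · obtain ⟨h1, h2⟩ := mem_filter.1 hx
    have h3 := ann_card (k * e) (Lx k e c x)
      (dgk_deg hk c (Fintype.mem_piFinset.1 (mem_filter.1 h1).1))
    rw [dgk_ker, h2, ← pow_add, Fintype.card_fun, Fintype.card_prod, Fintype.card_fin] at h3
    rw [one_mul, ← h3]
    refine Nat.mul_le_mul_right _ ?_
    generalize hA : ((PL F (k * e + 1)).filter fun B => ∀ z, (B * Lx k e c x z).coeff (k * e) = 0)
      = A at h3
    have h4 : 2 ≤ A.card := by
      by_contra h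
      have h5 := Nat.mul_le_mul_right (Fintype.card F ^ (Fintype.card ι * (e + 1)))
        (show A.card ≤ 1 by omega)
      rw [h3, one_mul] at h5
      exact absurd h5 (not_le.2 (Nat.pow_lt_pow_right two_le_card hκ))
    have h5 : (A.erase 0).card ≤ ((Pairs k e c y).filter fun p => p.2 = x).card := by
      refine card_le_card_of_injOn (fun B => (B, x)) (fun B hB => ?_)
        fun B _ B' _ h => congrArg Prod.fst h
      obtain ⟨b1, b2⟩ := mem_erase.1 (mem_coe.1 hB)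
      rw [← hA] at b2
      exact mem_coe.2 (mem_filter.2 ⟨mem_filter.2 ⟨mem_product.2 ⟨(mem_filter.1 b2).1, h1⟩, b1,
        dgk_kill hc (mem_filter.1 b2).2⟩, rfl⟩)
    have h6 := pred_card_le_card_erase (s := A) (a := 0)
    omega
  · rw [← sum_mul, ← mul_sum, sum_card_fiberwise_eq_card_filter]
    exact Nat.mul_le_mul_right _ (Nat.mul_le_mul_left _ (card_filter_le _ _))

lemma dgk_cb {k e m : ℕ} (hk : 2 ≤ k) (hm : m ≤ 2 * k) :
    2 ^ ((k * e + 1) + m * (e + 1)) * (2 * k) ^ (m * (e + 1)) ≤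
      (2 ^ (3 * k) * (2 * k) ^ (2 * k)) ^ (e + 1) := by
  have h := Nat.mul_le_mul_right (e + 1) hm
  rw [mul_pow (2 ^ (3 * k)), ← pow_mul, ← pow_mul]
  exact Nat.mul_le_mul (Nat.pow_le_pow_right two_pos (by nlinarith))
    (Nat.pow_le_pow_right (by omega) h)

theorem hypK (k : ℕ) (hk : 2 ≤ k) : ∃ K : ℝ, 1 ≤ K ∧
    ∀ (F : Type) [Field F] [Fintype F], Ch k F → ∀ e : ℕ, HK F k K e := by
  obtain ⟨C, hC, H⟩ := pairs_le k hk
  obtain ⟨b, hb⟩ : ∃ b : ℕ, b = 2 ^ (3 * k) * (2 * k) ^ (2 * k) := ⟨_, rfl⟩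
  have b1 : (1 : ℝ) ≤ b := by
    rw [hb]
    exact_mod_cast Nat.mul_pos (by positivity) (pow_pos (by omega) _)
  obtain ⟨g, hg⟩ : ∃ g : ℝ, g = 2 * (2 * k + 1) := ⟨_, rfl⟩
  have g1 : 1 ≤ g := by linarith [Nat.cast_nonneg (α := ℝ) k]
  obtain ⟨L, hL⟩ : ∃ L : ℝ, L = 2 * (g * (C * b)) := ⟨_, rfl⟩
  have L1 : (b : ℝ) ≤ L := by
    have h1 : (b : ℝ) ≤ C * b := le_mul_of_one_le_left (by linarith) hC
    have h2 : C * b ≤ g * (C * b) := le_mul_of_one_le_left (by linarith) g1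
    linarith
  have K1 : 1 ≤ g * L := one_le_mul_of_one_le_of_one_le g1 (b1.trans L1)
  refine ⟨g * L, K1, fun F _ _ hch e => ?_⟩
  induction e using Nat.strong_induction_on with
  | _ e ih =>
  intro ι _ hι c hc y
  have hP := H F hch (g * L) K1 e ih ι hι c hc y
  obtain ⟨D, hD⟩ : ∃ D, D = Fintype.card ι * (e + 1) := ⟨_, rfl⟩
  have D1 : D ≤ 2 * k * (e + 1) := hD ▸ Nat.mul_le_mul_right _ hι
  have Q1 := dgk_one_le (F := F)
  have key : ∀ κ, (((Sol k e c y).filter fun x =>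
      Module.finrank F (LinearMap.ker (Lx k e c x)) = κ).card : ℝ) ≤
        L ^ (e + 1) * √(Fintype.card F : ℝ) ^ (D + 4 * k) := by
    intro κ
    have h1 : (((Sol k e c y).filter fun x =>
        Module.finrank F (LinearMap.ker (Lx k e c x)) = κ).card : ℝ) ≤
          (b : ℝ) ^ (e + 1) * √(Fintype.card F : ℝ) ^ (2 * κ) := by
      rw [← dgk_sq, hb]
      exact_mod_cast (card_le_card (monotone_filter_right _ fun x _ h => le_of_eq h)).trans
        ((count_ker hk hch e c y κ).trans (Nat.mul_le_mul_right _ (dgk_cb hk hι)))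
    by_cases hκ : D < k * e + 1 + κ
    · have h2 : (((Sol k e c y).filter fun x =>
          Module.finrank F (LinearMap.ker (Lx k e c x)) = κ).card : ℝ) *
          (Fintype.card F : ℝ) ^ (k * e + 1 + κ) ≤
            2 * (Pairs k e c y).card * (Fintype.card F : ℝ) ^ D := by
        rw [hD]
        exact_mod_cast stratum_pairs hk c hc y κ (hD ▸ hκ)
      rw [dgk_sq, dgk_sq] at h2
      generalize √(Fintype.card F : ℝ) = Q at *
      generalize (((Sol k e c y).filter fun x =>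
        Module.finrank F (LinearMap.ker (Lx k e c x)) = κ).card : ℝ) = W at *
      have h3 := h2.trans (mul_le_mul_of_nonneg_right (mul_le_mul_of_nonneg_left hP zero_le_two)
        (by positivity))
      by_cases W0 : W ≤ 0
      · exact W0.trans (mul_nonneg (pow_nonneg (by linarith) _) (by positivity))
      have h4 := mul_le_mul h1 h3 (mul_nonneg (not_le.1 W0).le (by positivity)) (by positivity)
      have h5 : (b : ℝ) ^ (e + 1) * (2 * (C ^ (e + 1) * (g * L) ^ e)) ≤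
          L ^ (e + 1) * L ^ (e + 1) := by
        have a1 : (g * L) ^ e ≤ (g * L) ^ (e + 1) := pow_le_pow_right₀ K1 (Nat.le_succ e)
        have a2 : (2 : ℝ) ≤ 2 ^ (e + 1) := le_self_pow₀ one_le_two (by omega)
        refine (mul_le_mul_of_nonneg_left (mul_le_mul a2 (mul_le_mul_of_nonneg_left a1
          (by positivity)) (by positivity) (by positivity)) (by positivity)).trans (le_of_eq ?_)
        rw [← mul_pow, ← mul_pow, ← mul_pow, ← mul_pow]
        congr 1
        rw [hL]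
        ring
      refine (sq_le_sq₀ (not_le.1 W0).le
        (mul_nonneg (pow_nonneg (by linarith) _) (by positivity))).1 ?_
      refine le_of_mul_le_mul_right ?_ (show 0 < Q ^ (2 * (k * e + 1 + κ)) by positivity)
      have h6 := mul_le_mul_of_nonneg_right h5
        (show 0 ≤ Q ^ (2 * κ) * Q ^ (2 * (k * e + 1) + 8 * k) * Q ^ (2 * D) by positivity)
      refine le_trans (le_of_eq (by ring)) (h4.trans (le_trans (le_of_eq (by ring))
        (h6.trans (le_of_eq (by ring)))))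
    · refine h1.trans (mul_le_mul (pow_le_pow_left₀ (by linarith) L1 _)
        (pow_le_pow_right₀ Q1 ?_) (by positivity) (pow_nonneg (by linarith) _))
      have : 2 * k * (e + 1) = 2 * (k * e) + 2 * k := by ring
      omega
  have hf : ∀ x ∈ Sol k e c y, Module.finrank F (LinearMap.ker (Lx k e c x)) ∈ range (D + 1) :=
    fun x _ => mem_range.2 (Nat.lt_succ_of_le ((Submodule.finrank_le _).trans (le_of_eq (by
      rw [Module.finrank_fintype_fun_eq_card, Fintype.card_prod, Fintype.card_fin, hD]))))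
  rw [card_eq_sum_card_fiberwise hf, Nat.cast_sum, ← hD]
  refine (sum_le_sum fun κ _ => key κ).trans ?_
  rw [sum_const, card_range, nsmul_eq_mul, mul_pow, mul_assoc]
  refine mul_le_mul_of_nonneg_right ?_ (mul_nonneg (pow_nonneg (by linarith) _) (by positivity))
  have h1 : D + 1 ≤ (2 * (2 * k + 1)) ^ (e + 1) := by
    rw [mul_pow]
    have a1 : e + 1 ≤ 2 ^ (e + 1) := (Nat.lt_two_pow_self).le
    have a2 : 2 * k + 1 ≤ (2 * k + 1) ^ (e + 1) := Nat.le_self_pow (by omega) _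
    exact le_trans (by nlinarith) (Nat.mul_le_mul a1 a2)
  rw [hg]
  exact_mod_cast h1

end Pool.Agent.Lib.MP_879916_ag.Dg
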