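import Pool.Agent.Lib.MP_879916_ag.DgPat

/-! The rank two lattice attached to a functional. -/

set_option linter.unusedSectionVars false

noncomputable section

namespace Pool.Agent.Lib.MP_879916_ag.Dg

open Polynomial Finset
open scoped Classical

variable {F : Type} [Field F] [Fintype F]

lemma lat_mod {B u v : F[X]} {N : ℕ}
    (h : (B * u - X ^ (N + 1) * v).degree < ((N + 1 : ℕ) : WithBot ℕ)) :
    (B * u) %ₘ X ^ (N + 1) = B * u - X ^ (N + 1) * v := by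
  refine (div_modByMonic_unique v _ (monic_X_pow (N + 1)) ⟨by ring, ?_⟩).2
  rwa [degree_X_pow]

lemma lat_zero {D : F[X]} {N : ℕ} (h : X ^ (N + 1) * D ∈ PL F (N + 1)) : D = 0 := by
  have h0 : (X : F[X]) ^ (N + 1) * D = 0 := by
    refine eq_zero_of_dvd_of_degree_lt (dvd_mul_right (X ^ (N + 1)) D) ?_
    rw [degree_X_pow]
    exact mem_PL.1 h
  exact (mul_eq_zero.1 h0).resolve_left (pow_ne_zero _ X_ne_zero)

lemma lat_eq {μ₁ μ₂ v₁ v₂ : F[X]} (m₁ : μ₁.Monic) (m₂ : μ₂.Monic) (c₁ : IsCoprime μ₁ v₁)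
    (c₂ : IsCoprime μ₂ v₂) (h : μ₂ * v₁ = μ₁ * v₂) : μ₁ = μ₂ := by
  refine eq_of_monic_of_associated m₁ m₂ (associated_of_dvd_dvd ?_ ?_)
  · exact c₁.dvd_of_dvd_mul_right (h ▸ dvd_mul_right μ₁ v₂)
  · exact c₂.dvd_of_dvd_mul_right (h ▸ dvd_mul_right μ₂ v₁)

lemma lat_deg {G c : F[X]} {s t : ℕ} (hG : G ≠ 0) (ht : t ≤ G.natDegree)
    (h : (G * c).degree < (s : WithBot ℕ)) : c.degree < ((s - t : ℕ) : WithBot ℕ) := by
  by_cases hc : c = 0
  · rw [hc, degree_zero]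
    exact WithBot.bot_lt_coe _
  · have h1 := (natDegree_lt_iff_degree_lt (mul_ne_zero hG hc)).2 h
    rw [natDegree_mul hG hc] at h1
    exact (natDegree_lt_iff_degree_lt hc).1 (by omega)

/-- `Ev` as a linear map -/
def latEv (F : Type) [Field F] (d : ℕ) : (Fin d → F) →ₗ[F] F[X] where
  toFun z := Ev z
  map_add' z z' := by
    simp only [Ev, Pi.add_apply, map_add, Finset.sum_add_distrib]
  map_smul' r z := by
    simp only [Ev, Pi.smul_apply, smul_eq_mul, RingHom.id_apply, Finset.smul_sum]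
    refine Finset.sum_congr rfl fun l _ => ?_
    rw [smul_monomial, smul_eq_mul]

lemma lat_Ev_deg {d : ℕ} (z : Fin (d + 1) → F) : (Ev z).natDegree ≤ d :=
  mem_PL_succ.1 (mem_PL.2 (Ev_degree_lt z))

lemma lat_Ev_zero {d : ℕ} {z : Fin d → F} (h : Ev z = 0) : z = 0 :=
  Ev_injective (h.trans (map_zero (latEv F d)).symm)

lemma lat_mul_deg {μ : F[X]} {n a : ℕ} (h1 : μ.natDegree ≤ a) (h2 : a ≤ n)
    (z : Fin (n - a + 1) → F) : (μ * Ev z).natDegree ≤ n := by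
  have := natDegree_mul_le (p := μ) (q := Ev z)
  have := lat_Ev_deg z
  omega

lemma prim_decomp (B : F[X]) (N : ℕ) {u : F[X]} (hu : u ≠ 0) :
    ∃ G μ v : F[X], μ.Monic ∧ G ≠ 0 ∧ u = G * μ ∧ IsCoprime μ v ∧
      (B * u) %ₘ X ^ (N + 1) = G * (B * μ - X ^ (N + 1) * v) := by
  obtain ⟨u₁, v₁, e1, e2, hun⟩ := extract_gcd u ((B * u) /ₘ X ^ (N + 1))
  have hco : IsCoprime u₁ v₁ := (gcd_isUnit_iff u₁ v₁).1 hun
  set g := gcd u ((B * u) /ₘ X ^ (N + 1)) with hg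
  have hg0 : g ≠ 0 := fun h => hu (by rw [e1, h, zero_mul])
  have hu1 : u₁ ≠ 0 := fun h => hu (by rw [e1, h, mul_zero])
  have hl : u₁.leadingCoeff ≠ 0 := leadingCoeff_ne_zero.2 hu1
  have hC : (C u₁.leadingCoeff : F[X]) * C u₁.leadingCoeff⁻¹ = 1 := by
    rw [← C_mul, mul_inv_cancel₀ hl, C_1]
  have hunit : IsUnit (C u₁.leadingCoeff⁻¹ : F[X]) := isUnit_C.2 (IsUnit.mk0 _ (inv_ne_zero hl))
  refine ⟨g * C u₁.leadingCoeff, u₁ * C u₁.leadingCoeff⁻¹, v₁ * C u₁.leadingCoeff⁻¹,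
    monic_mul_leadingCoeff_inv hu1, mul_ne_zero hg0 (C_ne_zero.2 hl), ?_, ?_, ?_⟩
  · rw [e1]
    linear_combination (-(g * u₁)) * hC
  · exact (isCoprime_mul_unit_right hunit u₁ v₁).2 hco
  · have h := modByMonic_add_div (B * u) (X ^ (N + 1))
    rw [e2] at h
    linear_combination h + B * e1 - g * (B * u₁ - X ^ (N + 1) * v₁) * hC

lemma Prim.mono {B μ : F[X]} {n a a' : ℕ} (h : Prim B n μ a) (h1 : a ≤ a') (h2 : a' ≤ n) :
    Prim B n μ a' := by
  obtain ⟨m, hd, _, v, hv, hc⟩ := h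
  exact ⟨m, hd.trans h1, h2, v, hv, hc.trans_le (by exact_mod_cast h1)⟩

lemma Prim.kill {B μ : F[X]} {n a : ℕ} (h : Prim B n μ a) : Kill B n μ (n - a) := by
  obtain ⟨_, _, ha, v, _, hc⟩ := h
  rw [kill_iff (Nat.sub_le n a), lat_mod (hc.trans_le (by exact_mod_cast (by omega : a ≤ n + 1))),
    Nat.sub_sub_self ha]
  exact hc

lemma prim_unique {B μ₁ μ₂ : F[X]} {n a₁ a₂ : ℕ} (h₁ : Prim B n μ₁ a₁) (h₂ : Prim B n μ₂ a₂)
    (h : a₁ + a₂ ≤ n + 1) : μ₁ = μ₂ := by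
  obtain ⟨m₁, d₁, _, v₁, c₁, e₁⟩ := h₁
  obtain ⟨m₂, d₂, _, v₂, c₂, e₂⟩ := h₂
  have p₁ := PL_mono h (mul_mem_PL d₁ (mem_PL.2 e₂))
  have p₂ := PL_mono (by omega : a₂ + a₁ ≤ n + 1) (mul_mem_PL d₂ (mem_PL.2 e₁))
  have p := sub_mem_PL p₁ p₂
  have e : μ₁ * (B * μ₂ - X ^ (n + 1) * v₂) - μ₂ * (B * μ₁ - X ^ (n + 1) * v₁) =
      X ^ (n + 1) * (μ₂ * v₁ - μ₁ * v₂) := by ring
  rw [e] at p
  exact lat_eq m₁ m₂ c₁ c₂ (sub_eq_zero.1 (lat_zero p))

lemma prim_count1 (n : ℕ) (μ : F[X]) (a : ℕ) :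
    ((PL F (n + 1)).filter fun B => Prim B n μ a).card ≤ Fintype.card F ^ a := by
  rcases ((PL F (n + 1)).filter fun B => Prim B n μ a).eq_empty_or_nonempty with h | ⟨B₀, hB₀⟩
  · rw [h]
    simp
  obtain ⟨m, hd, ha, -⟩ := (mem_filter.1 hB₀).2
  let L : (Fin (n - a + 1) → F) →ₗ[F] F[X] := (LinearMap.mulLeft F μ).comp (latEv F _)
  have hL : ∀ z, L z = μ * Ev z := fun z => rfl
  have h1 := ann_card n L fun z => lat_mul_deg hd ha z
  have h2 : (univ.filter fun y => L y = 0) = {0} := by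
    ext z
    simp only [mem_filter, mem_univ, true_and, mem_singleton]
    constructor
    · intro hz
      rw [hL] at hz
      exact lat_Ev_zero ((mul_eq_zero.1 hz).resolve_left m.ne_zero)
    · rintro rfl
      exact map_zero L
  have h3 : ((PL F (n + 1)).filter fun B => Prim B n μ a) ⊆
      (PL F (n + 1)).filter fun B => ∀ y, (B * L y).coeff n = 0 := by
    intro B hB
    refine mem_filter.2 ⟨(mem_filter.1 hB).1, fun y => ?_⟩
    rw [hL, ← mul_assoc]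
    exact (mem_filter.1 hB).2.kill _ (lat_Ev_deg y)
  rw [h2, card_singleton, mul_one, Fintype.card_fun, Fintype.card_fin] at h1
  have hq : 0 < Fintype.card F ^ (n - a + 1) := pow_pos Fintype.card_pos _
  refine Nat.le_of_mul_le_mul_right ?_ hq
  rw [← pow_add, show a + (n - a + 1) = n + 1 by omega, ← h1]
  exact Nat.mul_le_mul_right _ (card_le_card h3)

lemma prim_count2 (n : ℕ) {μ₁ μ₂ : F[X]} (hne : μ₁ ≠ μ₂) (a₁ a₂ : ℕ) :
    ((PL F (n + 1)).filter fun B => Prim B n μ₁ a₁ ∧ Prim B n μ₂ a₂).card *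
      Fintype.card F ^ (n + 1) ≤ Fintype.card F ^ (a₁ + a₂) := by
  rcases ((PL F (n + 1)).filter fun B => Prim B n μ₁ a₁ ∧ Prim B n μ₂ a₂).eq_empty_or_nonempty
    with h | ⟨B₀, hB₀⟩
  · rw [h]
    simp
  obtain ⟨⟨m₁, d₁, ha₁, v₁, c₁, e₁⟩, ⟨m₂, d₂, ha₂, v₂, c₂, e₂⟩⟩ := (mem_filter.1 hB₀).2
  let L : ((Fin (n - a₁ + 1) → F) × (Fin (n - a₂ + 1) → F)) →ₗ[F] F[X] :=
    ((LinearMap.mulLeft F μ₁).comp (latEv F _)).coprod ((LinearMap.mulLeft F μ₂).comp (latEv F _))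
  have hL : ∀ z, L z = μ₁ * Ev z.1 + μ₂ * Ev z.2 := fun z => rfl
  have h1 := ann_card n L fun z => by
    rw [hL]
    exact natDegree_add_le_of_degree_le (lat_mul_deg d₁ ha₁ _) (lat_mul_deg d₂ ha₂ _)
  have h2 : (univ.filter fun y => L y = 0) = {0} := by
    ext z
    simp only [mem_filter, mem_univ, true_and, mem_singleton]
    constructor
    · intro hz
      rw [hL] at hz
      have p₁ := PL_mono (by omega : n - a₁ + a₁ ≤ n + 1) (mul_mem_PL (lat_Ev_deg z.1) (mem_PL.2 e₁))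
      have p₂ := PL_mono (by omega : n - a₂ + a₂ ≤ n + 1) (mul_mem_PL (lat_Ev_deg z.2) (mem_PL.2 e₂))
      have p := add_mem_PL p₁ p₂
      have e : Ev z.1 * (B₀ * μ₁ - X ^ (n + 1) * v₁) + Ev z.2 * (B₀ * μ₂ - X ^ (n + 1) * v₂) =
          X ^ (n + 1) * (-(Ev z.1 * v₁ + Ev z.2 * v₂)) := by
        linear_combination B₀ * hz
      rw [e] at p
      have hv := neg_eq_zero.1 (lat_zero p)
      have hdet : Ev z.1 * (μ₂ * v₁ - μ₁ * v₂) = 0 := by
        linear_combination μ₂ * hv - v₂ * hz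
      have hz1 : Ev z.1 = 0 := by
        refine (mul_eq_zero.1 hdet).resolve_right fun h0 => hne ?_
        exact lat_eq m₁ m₂ c₁ c₂ (sub_eq_zero.1 h0)
      rw [hz1, mul_zero, zero_add] at hz
      have hz2 : Ev z.2 = 0 := (mul_eq_zero.1 hz).resolve_left m₂.ne_zero
      exact Prod.ext (lat_Ev_zero hz1) (lat_Ev_zero hz2)
    · rintro rfl
      exact map_zero L
  have h3 : ((PL F (n + 1)).filter fun B => Prim B n μ₁ a₁ ∧ Prim B n μ₂ a₂) ⊆
      (PL F (n + 1)).filter fun B => ∀ y, (B * L y).coeff n = 0 := by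
    intro B hB
    refine mem_filter.2 ⟨(mem_filter.1 hB).1, fun y => ?_⟩
    rw [hL, mul_add, coeff_add, ← mul_assoc, ← mul_assoc,
      (mem_filter.1 hB).2.1.kill _ (lat_Ev_deg y.1), (mem_filter.1 hB).2.2.kill _ (lat_Ev_deg y.2),
      add_zero]
  rw [h2, card_singleton, mul_one, Fintype.card_prod, Fintype.card_fun, Fintype.card_fin,
    Fintype.card_fun, Fintype.card_fin, ← pow_add] at h1
  have hq : 0 < Fintype.card F ^ (n + 1) := pow_pos Fintype.card_pos _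
  refine Nat.le_of_mul_le_mul_right ?_ hq
  have h4 := Nat.mul_le_mul_right (Fintype.card F ^ (n - a₁ + 1 + (n - a₂ + 1))) (card_le_card h3)
  rw [h1] at h4
  have h5 := Nat.mul_le_mul_right (Fintype.card F ^ (a₁ + a₂)) h4
  rw [mul_assoc, ← pow_add, show n - a₁ + 1 + (n - a₂ + 1) + (a₁ + a₂) = n + 1 + (n + 1) by omega,
    pow_add _ (n + 1) (n + 1), ← mul_assoc] at h5
  exact h5.trans (le_of_eq (mul_comm _ _))

lemma hankel {B : F[X]} {N a b κ : ℕ} (hab : a ≤ b + 1) (hb : b + κ ≤ N)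
    (h : Fintype.card F ^ κ < ((PL F (a + 1)).filter fun g => Kill B N g b).card) :
    ∃ r : F[X], r ≠ 0 ∧ r.natDegree + κ ≤ a ∧ Kill B N r (b + κ) := by
  set S := (PL F (a + 1)).filter fun g => Kill B N g b with hS
  have hq : 0 < Fintype.card F ^ κ := pow_pos Fintype.card_pos _
  obtain ⟨u₁, hu₁, hu0⟩ := exists_mem_ne (by omega : 1 < S.card) 0
  obtain ⟨G, μ, v, m, hG, eu, hco, ec⟩ := prim_decomp B N hu0
  have hbN : b ≤ N := by omega
  have hmem : ∀ u ∈ S, u.natDegree ≤ a ∧ (B * u) %ₘ X ^ (N + 1) ∈ PL F (N - b) := fun u hu =>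
    ⟨mem_PL_succ.1 (mem_filter.1 hu).1, mem_PL.2 ((kill_iff hbN).1 (mem_filter.1 hu).2)⟩
  have key : ∀ u ∈ S, ∃ f, u = μ * f ∧
      (B * u) %ₘ X ^ (N + 1) = f * (B * μ - X ^ (N + 1) * v) := by
    intro u hu
    have p₁ := PL_mono (by omega : a + (N - b) ≤ N + 1) (mul_mem_PL (hmem u hu).1 (hmem u₁ hu₁).2)
    have p₂ := PL_mono (by omega : a + (N - b) ≤ N + 1) (mul_mem_PL (hmem u₁ hu₁).1 (hmem u hu).2)
    have p := sub_mem_PL p₁ p₂
    have hd := modByMonic_add_div (B * u) (X ^ (N + 1))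
    have e : u * ((B * u₁) %ₘ X ^ (N + 1)) - u₁ * ((B * u) %ₘ X ^ (N + 1)) =
        X ^ (N + 1) * (G * (μ * ((B * u) /ₘ X ^ (N + 1)) - u * v)) := by
      rw [ec]
      linear_combination (-u₁) * hd - (B * u - X ^ (N + 1) * ((B * u) /ₘ X ^ (N + 1))) * eu
    rw [e] at p
    have h0 := sub_eq_zero.1 ((mul_eq_zero.1 (lat_zero p)).resolve_left hG)
    obtain ⟨f, hf⟩ : μ ∣ u := hco.dvd_of_dvd_mul_right (h0 ▸ dvd_mul_right μ _)
    refine ⟨f, hf, ?_⟩
    have h1 : (B * u) /ₘ X ^ (N + 1) = f * v := by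
      refine mul_left_cancel₀ m.ne_zero ?_
      rw [h0]
      linear_combination v * hf
    rw [h1] at hd
    linear_combination hd + B * hf
  have hex : ∃ u ∈ S, ∃ f, u = μ * f ∧ (B * u) %ₘ X ^ (N + 1) = f * (B * μ - X ^ (N + 1) * v) ∧
      f ∉ PL F κ := by
    by_contra hno
    have hsub : S ⊆ (PL F κ).image fun f => μ * f := by
      intro u hu
      obtain ⟨f, h1, h2⟩ := key u hu
      refine mem_image.2 ⟨f, ?_, h1.symm⟩
      by_contra hf
      exact hno ⟨u, hu, f, h1, h2, hf⟩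
    have := (card_le_card hsub).trans card_image_le
    rw [card_PL] at this
    omega
  obtain ⟨u, hu, f, h1, h2, hf⟩ := hex
  have hf0 : f ≠ 0 := fun h0 => hf (h0 ▸ zero_mem_PL κ)
  have hκ : κ ≤ f.natDegree := by
    by_contra hlt
    exact hf (mem_PL.2 ((natDegree_lt_iff_degree_lt hf0).1 (by omega)))
  have hdu := (hmem u hu).1
  rw [h1, natDegree_mul m.ne_zero hf0] at hdu
  have hc := mem_PL.1 (hmem u hu).2
  rw [h2] at hc
  have hc' := lat_deg hf0 hκ hc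
  refine ⟨μ, m.ne_zero, by omega, ?_⟩
  rw [kill_iff hb, lat_mod (hc'.trans_le (by exact_mod_cast (by omega : N - b - κ ≤ N + 1))),
    ← Nat.sub_sub]
  exact hc'

lemma TT.mono {k n w w' : ℕ} {B μ : F[X]} (h : TT k B n μ w) (hw : w' ≤ w) : TT k B n μ w' := by
  have := Nat.mul_le_mul_left k hw
  exact ⟨by have := h.1; omega, h.2.mono (by omega) (Nat.sub_le _ _)⟩

lemma struct {k : ℕ} (hk : 2 ≤ k) (hch : Ch k F) {e : ℕ} {B x : F[X]}
    (hB : B ∈ PL F (k * e + 1)) (hB0 : B ≠ 0) (hx : x ∈ PL F (e + 1)) (hx0 : x ≠ 0)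
    (h : Kill B (k * e) (x ^ (k - 1)) e) :
    ∃ μ g : F[X], x = rho k μ * g ∧ g.natDegree < e ∧
      TT k B (k * e) μ (g.natDegree + tt μ) := by
  have hu0 : x ^ (k - 1) ≠ 0 := pow_ne_zero _ hx0
  obtain ⟨G, μ, v, m, hG, eu, hco, ec⟩ := prim_decomp B (k * e) hu0
  obtain ⟨g, hg⟩ := rho_dvd hk m (Dvd.intro_left G eu.symm)
  have hg0 : g ≠ 0 := fun h0 => hx0 (by rw [hg, h0, mul_zero])
  have hek : e ≤ k * e := Nat.le_mul_of_pos_left e (by omega)
  have hc := (kill_iff hek).1 h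
  rw [ec] at hc
  have hc' := lat_deg hG le_rfl hc
  have d1 : x.natDegree = (rho k μ).natDegree + g.natDegree := by
    conv_lhs => rw [hg]
    exact natDegree_mul (rho_monic k μ).ne_zero hg0
  have d2 : x.natDegree ≤ e := mem_PL_succ.1 hx
  have d3 : (k - 1) * x.natDegree = G.natDegree + μ.natDegree := by
    rw [← natDegree_pow, eu, natDegree_mul hG m.ne_zero]
  have d4 := deg_le_rho hk m
  have d5 := om_tt_le hk hch m
  obtain ⟨j, rfl⟩ : ∃ j, k = j + 1 := ⟨k - 1, by omega⟩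
  obtain ⟨s, hs⟩ : ∃ s, e = (rho (j + 1) μ).natDegree + g.natDegree + s :=
    ⟨e - x.natDegree, by omega⟩
  rw [Nat.add_sub_cancel] at d3 d4
  rw [d1, mul_add] at d3
  have n1 : (j + 1) * e =
      j * (rho (j + 1) μ).natDegree + j * g.natDegree + j * s + e := by
    conv_lhs => rw [add_mul, one_mul, hs]
    rw [← hs]
    congr 1
    rw [hs]
    ring
  have n2 : (j + 1) * (g.natDegree + tt μ) = j * g.natDegree + g.natDegree + (j + 1) * tt μ := by
    ring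
  have hP : Prim B ((j + 1) * e) μ ((j + 1) * e - e - G.natDegree) :=
    ⟨m, by omega, by omega, v, hco, hc'⟩
  refine ⟨μ, g, hg, ?_, by omega, hP.mono (by omega) (Nat.sub_le _ _)⟩
  by_contra hlt
  have hρ : (rho (j + 1) μ).natDegree = 0 := by omega
  have hs0 : s = 0 := by omega
  rw [hρ] at d3 d4 n1
  rw [hs0] at n1
  have hμ0 : μ.natDegree = 0 := by omega
  have hμ : μ = 1 := m.natDegree_eq_zero.1 hμ0
  have ha : (j + 1) * e - e - G.natDegree = 0 := by omega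
  rw [ha, hμ, mul_one] at hc'
  have h0 : B - X ^ ((j + 1) * e + 1) * v = 0 := by
    have := mem_PL.2 hc'
    rw [PL_zero] at this
    exact mem_singleton.1 this
  have hBv := sub_eq_zero.1 h0
  rw [hBv] at hB
  exact hB0 (by rw [hBv, lat_zero hB, mul_zero])

end Pool.Agent.Lib.MP_879916_ag.Dg
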