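import Pool.Agent.Lib.MP_879916_ag.DgBase

/-! Complete sums: residues and the Chinese remainder theorem. -/

set_option linter.unusedSectionVars false

noncomputable section

namespace Pool.Agent.Lib.MP_879916_ag.Dg

open Polynomial Finset
open scoped Classical

variable {F : Type} [Field F] [Fintype F]

/-- `lam μ` as a linear map -/
def lamL (μ : F[X]) : F[X] →ₗ[F] F where
  toFun := lam μ
  map_add' y y' := by
    simp only [lam, add_modByMonic, mul_add, coeff_add]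
  map_smul' c y := by
    simp only [lam, smul_modByMonic, mul_smul_comm, coeff_smul, RingHom.id_apply]

lemma lam_add (μ y y' : F[X]) : lam μ (y + y') = lam μ y + lam μ y' := (lamL μ).map_add y y'

lemma lam_congr {μ y y' : F[X]} (hμ : μ.Monic) (h : μ ∣ y - y') : lam μ y = lam μ y' := by
  unfold lam
  rw [modByMonic_eq_of_dvd_sub hμ h]

lemma lam_of_dvd {μ y : F[X]} (hμ : μ.Monic) (h : μ ∣ y) : lam μ y = 0 := by
  unfold lam
  rw [(modByMonic_eq_zero_iff_dvd hμ).2 h, mul_zero, coeff_zero]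

lemma loc_natDegree_X_mul {μ : F[X]} (hμ : μ.Monic) (y : F[X]) :
    (X * (y %ₘ μ)).natDegree ≤ μ.natDegree := by
  by_cases h : y %ₘ μ = 0
  · rw [h, mul_zero, natDegree_zero]
    exact Nat.zero_le _
  · rw [natDegree_X_mul h]
    exact natDegree_lt_natDegree h (degree_modByMonic_lt y hμ)

lemma lam_mul_left {μ ν : F[X]} (hμ : μ.Monic) (hν : ν.Monic) (y : F[X]) :
    lam (μ * ν) (ν * y) = lam μ y := by
  have h1 : (ν * y) %ₘ (μ * ν) = ν * (y %ₘ μ) := by
    refine (div_modByMonic_unique (y /ₘ μ) _ (hμ.mul hν) ⟨?_, ?_⟩).2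
    · conv_rhs => rw [← modByMonic_add_div y μ]
      ring
    · rw [degree_mul, degree_mul, add_comm]
      exact WithBot.add_lt_add_right (degree_ne_bot.2 hν.ne_zero) (degree_modByMonic_lt y hμ)
  unfold lam
  rw [h1, hμ.natDegree_mul hν, show X * (ν * (y %ₘ μ)) = X * (y %ₘ μ) * ν by ring,
    coeff_mul_add_eq_of_natDegree_le (loc_natDegree_X_mul hμ y) le_rfl, hν.coeff_natDegree,
    mul_one]

lemma lam_nondeg {μ y : F[X]} (hμ : μ.Monic) (h : ∀ w ∈ PL F μ.natDegree, lam μ (y * w) = 0) :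
    μ ∣ y := by
  rw [← modByMonic_eq_zero_iff_dvd hμ]
  by_contra hr
  have hlt : (y %ₘ μ).natDegree < μ.natDegree :=
    natDegree_lt_natDegree hr (degree_modByMonic_lt y hμ)
  obtain ⟨j, hj⟩ : ∃ j, μ.natDegree = (y %ₘ μ).natDegree + j + 1 :=
    ⟨μ.natDegree - 1 - (y %ₘ μ).natDegree, by omega⟩
  have h1 := h (X ^ j) (by
    rw [mem_PL, degree_X_pow]
    exact_mod_cast (by omega : j < μ.natDegree))
  have h2 : lam μ (y * X ^ j) = lam μ (y %ₘ μ * X ^ j) := by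
    refine lam_congr hμ ⟨y /ₘ μ * X ^ j, ?_⟩
    conv_lhs => rw [← sub_mul, modByMonic_eq_sub_mul_div y μ]
    ring
  have h3 : (y %ₘ μ * X ^ j) %ₘ μ = y %ₘ μ * X ^ j := by
    rw [modByMonic_eq_self_iff hμ]
    refine degree_lt_degree ?_
    rw [natDegree_mul_X_pow j hr]
    omega
  rw [h2, lam, h3, hj, coeff_X_mul, coeff_mul_X_pow] at h1
  exact hr (leadingCoeff_eq_zero.1 h1)

lemma lam_X_pow (j : ℕ) (y : F[X]) : lam (X ^ (j + 1)) y = y.coeff j := by
  unfold lam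
  rw [natDegree_X_pow, coeff_X_mul, modByMonic_eq_sub_mul_div, coeff_sub, coeff_X_pow_mul',
    if_neg (by omega), sub_zero]

lemma loc_card_ne : (Fintype.card F : ℂ) ≠ 0 := by
  exact_mod_cast Fintype.card_ne_zero

lemma Ex_period {μ : F[X]} (hμ : μ.Monic) {M : ℕ} (h : μ.natDegree ≤ M) {φ : F[X] → ℂ}
    (hφ : ∀ x z, φ (x + μ * z) = φ x) : Ex M φ = Ex μ.natDegree φ := by
  obtain ⟨j, rfl⟩ := Nat.exists_eq_add_of_le h
  have hq := loc_card_ne (F := F)
  unfold Ex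
  rw [sum_PL_split hμ h]
  simp only [hφ, sum_const, card_PL, nsmul_eq_mul, Nat.add_sub_cancel_left]
  rw [← mul_sum, pow_add]
  push_cast
  field_simp

lemma Ex_unit {μ u : F[X]} (hμ : μ.Monic) (hu : IsCoprime μ u) {φ : F[X] → ℂ}
    (hφ : ∀ x z, φ (x + μ * z) = φ x) :
    Ex μ.natDegree (fun x => φ (u * x)) = Ex μ.natDegree φ := by
  have hinj : Set.InjOn (fun x => (u * x) %ₘ μ) (PL F μ.natDegree : Set F[X]) := by
    intro x hx y hy hxy
    refine eq_of_dvd_sub_of_mem_PL hx hy (hu.dvd_of_dvd_mul_left ?_)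
    rw [mul_sub, ← modByMonic_eq_zero_iff_dvd hμ, sub_modByMonic]
    exact sub_eq_zero.2 hxy
  have himg : (PL F μ.natDegree).image (fun x => (u * x) %ₘ μ) = PL F μ.natDegree := by
    refine eq_of_subset_of_card_le (fun y hy => ?_) (card_image_of_injOn hinj).ge
    obtain ⟨x, -, rfl⟩ := mem_image.1 hy
    exact modByMonic_mem_PL hμ _
  unfold Ex
  congr 1
  conv_rhs => rw [← himg, sum_image hinj]
  refine sum_congr rfl fun x _ => ?_
  rw [← hφ (u * x %ₘ μ) (u * x /ₘ μ), modByMonic_add_div]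

lemma sum_PL_crt {A : Type} [AddCommMonoid A] {μ ν : F[X]} (hμ : μ.Monic) (hν : ν.Monic)
    (h : IsCoprime μ ν) (φ : F[X] → A) :
    ∑ x ∈ PL F (μ * ν).natDegree, φ x =
      ∑ x₁ ∈ PL F μ.natDegree, ∑ x₂ ∈ PL F ν.natDegree, φ (ν * x₁ + μ * x₂) := by
  have hinj : Set.InjOn (fun p : F[X] × F[X] => ν * p.1 + μ * p.2)
      (PL F μ.natDegree ×ˢ PL F ν.natDegree : Finset (F[X] × F[X])) := by
    intro x hx y hy hxy
    have hx' := mem_product.1 (mem_coe.1 hx)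
    have hy' := mem_product.1 (mem_coe.1 hy)
    have e : ν * (x.1 - y.1) = μ * (y.2 - x.2) := by
      have : ν * x.1 + μ * x.2 = ν * y.1 + μ * y.2 := hxy
      linear_combination this
    refine Prod.ext (eq_of_dvd_sub_of_mem_PL hx'.1 hy'.1 (h.dvd_of_dvd_mul_left ⟨_, e⟩))
      (eq_of_dvd_sub_of_mem_PL hy'.2 hx'.2 (h.symm.dvd_of_dvd_mul_left ⟨_, e.symm⟩)).symm
  have himg : (PL F μ.natDegree ×ˢ PL F ν.natDegree).image
      (fun p : F[X] × F[X] => ν * p.1 + μ * p.2) = PL F (μ * ν).natDegree := by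
    refine eq_of_subset_of_card_le (fun y hy => ?_) ?_
    · obtain ⟨x, hx, rfl⟩ := mem_image.1 hy
      have hx' := mem_product.1 hx
      rw [hμ.natDegree_mul hν]
      refine add_mem_PL ?_ (mul_mem_PL le_rfl hx'.2)
      rw [add_comm]
      exact mul_mem_PL le_rfl hx'.1
    · rw [card_image_of_injOn hinj, card_product, card_PL, card_PL, card_PL,
        hμ.natDegree_mul hν, pow_add]
  rw [← himg, sum_image hinj, sum_product]

lemma sum_Red_crt {A : Type} [AddCommMonoid A] {μ ν : F[X]} (hμ : μ.Monic) (hν : ν.Monic)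
    (h : IsCoprime μ ν) (φ : F[X] → A) :
    ∑ v ∈ Red (μ * ν), φ v = ∑ v₁ ∈ Red μ, ∑ v₂ ∈ Red ν, φ (ν * v₁ + μ * v₂) := by
  have key : ∀ x₁ x₂ : F[X],
      IsCoprime (μ * ν) (ν * x₁ + μ * x₂) ↔ IsCoprime μ x₁ ∧ IsCoprime ν x₂ := by
    intro x₁ x₂
    rw [IsCoprime.mul_left_iff, IsCoprime.add_mul_left_right_iff, add_comm,
      IsCoprime.add_mul_left_right_iff, IsCoprime.mul_right_iff, IsCoprime.mul_right_iff]
    exact ⟨fun a => ⟨a.1.2, a.2.2⟩, fun a => ⟨⟨h, a.1⟩, h.symm, a.2⟩⟩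
  unfold Red
  rw [sum_filter, sum_PL_crt hμ hν h, sum_filter]
  refine sum_congr rfl fun x₁ _ => ?_
  simp only [key]
  by_cases h1 : IsCoprime μ x₁
  · simp only [h1, true_and, if_true, sum_filter]
  · simp only [h1, false_and, if_false, sum_const_zero]

lemma norm_gg_le_one (k : ℕ) (μ y : F[X]) : ‖gg k μ y‖ ≤ 1 :=
  norm_Ex_le fun _ _ => (norm_psi _).le

lemma gg_of_dvd (k : ℕ) {μ y : F[X]} (hμ : μ.Monic) (h : μ ∣ y) : gg k μ y = 1 := by
  have hq := loc_card_ne (F := F)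
  have h1 : ∀ x : F[X], lam μ (y * x ^ k) = 0 := fun x => lam_of_dvd hμ (h.mul_right _)
  unfold gg Ex
  simp only [h1, AddChar.map_zero_eq_one, sum_const, card_PL, nsmul_eq_mul, mul_one]
  push_cast
  exact div_self (pow_ne_zero _ hq)

lemma loc_period (k : ℕ) {μ : F[X]} (hμ : μ.Monic) (y x z : F[X]) :
    lam μ (y * (x + μ * z) ^ k) = lam μ (y * x ^ k) := by
  refine lam_congr hμ ?_
  rw [← mul_sub]
  refine Dvd.dvd.mul_left (dvd_trans ⟨z, by ring⟩ (sub_dvd_pow_sub_pow _ _ k)) y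

lemma gg_mul_left (k : ℕ) {μ ν : F[X]} (hμ : μ.Monic) (hν : ν.Monic) (y : F[X]) :
    gg k (μ * ν) (ν * y) = gg k μ y := by
  unfold gg
  simp only [mul_assoc, lam_mul_left hμ hν]
  refine Ex_period hμ ?_ fun x z => by rw [loc_period k hμ]
  rw [hμ.natDegree_mul hν]
  exact Nat.le_add_right _ _

lemma gg_crt (k : ℕ) {μ ν : F[X]} (hμ : μ.Monic) (hν : ν.Monic) (h : IsCoprime μ ν)
    (y₁ y₂ : F[X]) : gg k (μ * ν) (ν * y₁ + μ * y₂) = gg k μ y₁ * gg k ν y₂ := by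
  have h1 : ∀ x₁ x₂ : F[X], psi F (lam (μ * ν) ((ν * y₁ + μ * y₂) * (ν * x₁ + μ * x₂) ^ k)) =
      psi F (lam μ (y₁ * (ν * x₁) ^ k)) * psi F (lam ν (y₂ * (μ * x₂) ^ k)) := by
    intro x₁ x₂
    rw [add_mul, lam_add, mul_assoc, lam_mul_left hμ hν, mul_comm μ ν, mul_assoc μ,
      lam_mul_left hν hμ, loc_period k hμ, add_comm (ν * x₁), loc_period k hν,
      AddChar.map_add_eq_mul]
  have h2 := Ex_unit hμ h (φ := fun x => psi F (lam μ (y₁ * x ^ k)))
    fun x z => by rw [loc_period k hμ]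
  have h3 := Ex_unit hν h.symm (φ := fun x => psi F (lam ν (y₂ * x ^ k)))
    fun x z => by rw [loc_period k hν]
  unfold gg
  rw [← h2, ← h3]
  unfold Ex
  rw [sum_PL_crt hμ hν h, div_mul_div_comm, sum_mul_sum, hμ.natDegree_mul hν, pow_add]
  simp only [h1]

lemma loc_Red_one : Red (1 : F[X]) = {0} := by
  unfold Red
  rw [natDegree_one, PL_zero]
  exact filter_true_of_mem fun _ _ => isCoprime_one_left

variable {ι : Type} [Fintype ι]

lemma ff_one (k : ℕ) (a : ι → F[X]) : ff k a 1 = 1 := by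
  unfold ff
  rw [loc_Red_one, sum_singleton]
  exact prod_eq_one fun i _ => gg_of_dvd k monic_one (one_dvd _)

lemma fb_one (k : ℕ) (a : ι → F[X]) : fb k a 1 = 1 := by
  unfold fb
  rw [loc_Red_one, sum_singleton]
  exact prod_eq_one fun i _ => by rw [gg_of_dvd k monic_one (one_dvd _), norm_one]

lemma fb_nonneg (k : ℕ) (a : ι → F[X]) (μ : F[X]) : 0 ≤ fb k a μ :=
  sum_nonneg fun _ _ => prod_nonneg fun _ _ => norm_nonneg _

lemma norm_ff_le (k : ℕ) (a : ι → F[X]) (μ : F[X]) : ‖ff k a μ‖ ≤ fb k a μ :=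
  (norm_sum_le _ _).trans (sum_le_sum fun _ _ => (norm_prod _ _).le)

lemma ff_mul (k : ℕ) (a : ι → F[X]) {μ ν : F[X]} (hμ : μ.Monic) (hν : ν.Monic)
    (h : IsCoprime μ ν) : ff k a (μ * ν) = ff k a μ * ff k a ν := by
  unfold ff
  rw [sum_Red_crt hμ hν h, sum_mul_sum]
  refine sum_congr rfl fun v₁ _ => sum_congr rfl fun v₂ _ => ?_
  rw [← prod_mul_distrib]
  refine prod_congr rfl fun i _ => ?_
  rw [add_mul, mul_assoc, mul_assoc, gg_crt k hμ hν h]

lemma fb_mul (k : ℕ) (a : ι → F[X]) {μ ν : F[X]} (hμ : μ.Monic) (hν : ν.Monic)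
    (h : IsCoprime μ ν) : fb k a (μ * ν) = fb k a μ * fb k a ν := by
  unfold fb
  rw [sum_Red_crt hμ hν h, sum_mul_sum]
  refine sum_congr rfl fun v₁ _ => sum_congr rfl fun v₂ _ => ?_
  rw [← prod_mul_distrib]
  refine prod_congr rfl fun i _ => ?_
  rw [add_mul, mul_assoc, mul_assoc, gg_crt k hμ hν h, norm_mul]

end Pool.Agent.Lib.MP_879916_ag.Dg
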