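import Pool.Agent.Lib.MP_879916_ag.DgLoc

/-! Complete sums modulo prime powers. -/

set_option linter.unusedSectionVars false

noncomputable section

namespace Pool.Agent.Lib.MP_879916_ag.Dg

open Polynomial Finset
open scoped Classical

variable {F : Type} [Field F] [Fintype F]

lemma loc2_per (k : ℕ) {μ : F[X]} (hμ : μ.Monic) (y x z : F[X]) :
    psi F (lam μ (y * (x + μ * z) ^ k)) = psi F (lam μ (y * x ^ k)) := by
  congr 1
  refine lam_congr hμ ?_
  rw [← mul_sub]
  refine Dvd.dvd.mul_left (dvd_trans ?_ (sub_dvd_pow_sub_pow _ _ k)) y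
  simp

lemma loc2_orth {μ : F[X]} (hμ : μ.Monic) (u : F[X]) :
    ∑ z ∈ PL F μ.natDegree, psi F (lam μ (u * z)) =
      if μ ∣ u then (Fintype.card F : ℂ) ^ μ.natDegree else 0 := by
  refine (orth μ.natDegree ((lamL μ).comp (LinearMap.mulLeft F u))).trans (if_congr ?_ rfl rfl)
  exact ⟨lam_nondeg hμ, fun h w _ => lam_of_dvd hμ (h.mul_right w)⟩

lemma loc2_card {k : ℕ} (hk : 1 ≤ k) {π y : F[X]} (hi : Irreducible π) (hy : ¬ π ∣ y) (c : F[X]) :
    ((PL F π.natDegree).filter fun x => π ∣ y * x ^ k - c).card ≤ k := by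
  have := Fact.mk hi
  have h0 : AdjoinRoot.mk π y ≠ 0 := fun h => hy (AdjoinRoot.mk_eq_zero.1 h)
  refine le_trans (card_le_card_of_injOn (AdjoinRoot.mk π)
    (t := (nthRoots k (AdjoinRoot.mk π c / AdjoinRoot.mk π y)).toFinset) (fun x hx => ?_)
    fun x hx x' hx' h => ?_) ((Multiset.toFinset_card_le _).trans (card_nthRoots _ _))
  · have h := AdjoinRoot.mk_eq_mk.2 (mem_filter.1 hx).2
    rw [map_mul, map_pow] at h
    rw [mem_coe, Multiset.mem_toFinset, mem_nthRoots hk, eq_div_iff h0, mul_comm, h]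
  · exact eq_of_dvd_sub_of_mem_PL (mem_filter.1 hx).1 (mem_filter.1 hx').1
      (AdjoinRoot.mk_eq_mk.1 h)

lemma loc2_mean {k : ℕ} (hk : 1 ≤ k) {π : F[X]} (hπ : π.Monic) (hi : Irreducible π) :
    ∑ y ∈ PL F π.natDegree, ‖gg k π y‖ ^ 2 ≤ k := by
  have hq : (0 : ℝ) < (Fintype.card F : ℝ) ^ π.natDegree := by
    have := two_le_card (F := F)
    positivity
  have e : ∀ y, ((‖∑ x ∈ PL F π.natDegree, psi F (lam π (y * x ^ k))‖ ^ 2 : ℝ) : ℂ) =
      ∑ x' ∈ PL F π.natDegree, ∑ x ∈ PL F π.natDegree,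
        psi F (lam π ((1 * x ^ k - x' ^ k) * y)) := fun y => by
    rw [Complex.ofReal_pow, ← Complex.mul_conj', map_sum, sum_mul_sum, sum_comm]
    refine sum_congr rfl fun x' _ => sum_congr rfl fun x _ => ?_
    rw [← psi_neg, ← AddChar.map_add_eq_mul]
    congr 1
    have := lam_add π ((1 * x ^ k - x' ^ k) * y) (y * x' ^ k)
    rw [show (1 * x ^ k - x' ^ k) * y + y * x' ^ k = y * x ^ k by ring] at this
    rw [this]
    ring
  have e2 : ∑ y ∈ PL F π.natDegree, ‖∑ x ∈ PL F π.natDegree, psi F (lam π (y * x ^ k))‖ ^ 2 =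
      ∑ x' ∈ PL F π.natDegree, (((PL F π.natDegree).filter
        fun x => π ∣ 1 * x ^ k - x' ^ k).card : ℝ) * (Fintype.card F : ℝ) ^ π.natDegree := by
    apply Complex.ofReal_injective
    rw [Complex.ofReal_sum, Complex.ofReal_sum, sum_congr rfl fun y _ => e y, sum_comm]
    refine sum_congr rfl fun x' _ => ?_
    rw [sum_comm, sum_congr rfl fun x _ => loc2_orth hπ _, ← sum_filter, sum_const, nsmul_eq_mul]
    push_cast
    rfl
  have e3 : ∀ y, ‖gg k π y‖ ^ 2 = ‖∑ x ∈ PL F π.natDegree, psi F (lam π (y * x ^ k))‖ ^ 2 /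
      ((Fintype.card F : ℝ) ^ π.natDegree) ^ 2 := fun y => by
    rw [gg, Ex, norm_div, div_pow, norm_pow, Complex.norm_natCast]
  simp only [e3]
  rw [← sum_div, e2, div_le_iff₀ (by positivity), ← sum_mul, sq, ← mul_assoc]
  refine mul_le_mul_of_nonneg_right ?_ hq.le
  refine (sum_le_card_nsmul _ _ (k : ℝ) fun x' _ => ?_).trans ?_
  · exact_mod_cast loc2_card hk hi (fun h => hi.not_isUnit (isUnit_of_dvd_one h)) _
  · rw [card_PL, nsmul_eq_mul, mul_comm]
    push_cast
    rfl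

lemma gg_hensel {k : ℕ} (hk : 2 ≤ k) (hch : Ch k F) {π y : F[X]} (hπ : π.Monic)
    (hi : Irreducible π) (hy : ¬ π ∣ y) (t : ℕ) :
    gg k (π ^ (t + 2)) y =
      1 / (Fintype.card F : ℂ) ^ π.natDegree * gg k (π ^ (t + 2 - k)) y := by
  have hq : (Fintype.card F : ℂ) ≠ 0 := by exact_mod_cast Fintype.card_ne_zero
  have hp := hi.prime
  have hM : (π ^ (t + 2)).natDegree = (t + 1) * π.natDegree + π.natDegree := by
    rw [hπ.natDegree_pow]; ring
  let φ : F[X] → ℂ := fun x => psi F (lam (π ^ (t + 2)) (y * x ^ k))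
  have h1 : ∀ x z, φ (x + π ^ (t + 1) * z) = φ x * psi F (lam π (k * y * x ^ (k - 1) * z)) := by
    intro x z
    obtain ⟨c, hc⟩ := powAddExpansion x (π ^ (t + 1) * z) k
    simp only [φ]
    rw [← AddChar.map_add_eq_mul, ← lam_mul_left hπ (hπ.pow (t + 1)), ← pow_succ', ← lam_add]
    congr 1
    exact lam_congr (hπ.pow _) ⟨y * c * π ^ t * z ^ 2, by rw [hc]; ring⟩
  have h2 : ∀ x, π ∣ k * y * x ^ (k - 1) ↔ π ∣ x := fun x => by
    refine ⟨fun h => ?_, fun h => (h.pow (by omega)).mul_left _⟩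
    rcases hp.dvd_or_dvd h with h | h
    · rcases hp.dvd_or_dvd h with h | h
      · rw [← C_eq_natCast] at h
        exact absurd (isUnit_of_dvd_unit h (isUnit_C.2 (hch.ne hk (by omega) le_rfl).isUnit))
          hi.not_isUnit
      · exact absurd h hy
    · exact hp.dvd_of_dvd_pow h
  have h3 : ∑ x ∈ PL F (π ^ (t + 2)).natDegree, φ x =
      ∑ x ∈ PL F (π ^ (t + 2)).natDegree, if π ∣ x then φ x else 0 := by
    apply mul_left_cancel₀ (pow_ne_zero π.natDegree hq)
    have : ∑ z ∈ PL F π.natDegree, ∑ x ∈ PL F (π ^ (t + 2)).natDegree,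
        φ (x + π ^ (t + 1) * z) = (Fintype.card F : ℂ) ^ π.natDegree *
          ∑ x ∈ PL F (π ^ (t + 2)).natDegree, φ x := by
      rw [sum_congr rfl fun z hz => sum_PL_shift
        (hM ▸ mul_mem_PL (hπ.natDegree_pow (t + 1)).le hz) φ, sum_const, card_PL, nsmul_eq_mul]
      push_cast
      rfl
    rw [← this, sum_comm, mul_sum]
    refine sum_congr rfl fun x _ => ?_
    simp only [h1]
    rw [← mul_sum, loc2_orth hπ, h2]
    split_ifs <;> ring
  have h4 : ∀ x, φ (π * x) = psi F (lam (π ^ (t + 2 - k)) (y * x ^ k)) := fun x => by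
    simp only [φ]
    congr 1
    rcases le_total k (t + 2) with h | h
    · rw [← lam_mul_left (hπ.pow (t + 2 - k)) (hπ.pow k), ← pow_add, Nat.sub_add_cancel h]
      congr 1
      ring
    · rw [Nat.sub_eq_zero_of_le h, pow_zero, lam_of_dvd monic_one (one_dvd _),
        lam_of_dvd (hπ.pow _)]
      rw [mul_pow]
      exact ((pow_dvd_pow π h).mul_right _).mul_left _
  have h5 : ∑ x ∈ PL F (π ^ (t + 2)).natDegree, φ x = ∑ x ∈ PL F ((t + 1) * π.natDegree),
      psi F (lam (π ^ (t + 2 - k)) (y * x ^ k)) := by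
    rw [h3, sum_PL_split hπ (by omega), sum_eq_single_of_mem 0 (zero_mem_PL _), hM,
      Nat.add_sub_cancel]
    · simp [h4]
    · refine fun x hx h0 => sum_eq_zero fun z _ => if_neg fun h => h0 ?_
      exact eq_of_dvd_sub_of_mem_PL hx (zero_mem_PL _)
        (by rwa [sub_zero, ← dvd_add_left (dvd_mul_right π z)])
  rw [gg, gg, ← Ex_period (hπ.pow (t + 2 - k)) (M := (t + 1) * π.natDegree)
    (by rw [hπ.natDegree_pow]; exact Nat.mul_le_mul_right _ (by omega))
    (loc2_per k (hπ.pow _) y), Ex, Ex, h5, hM, pow_add]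
  field_simp

lemma gg_gauss {k : ℕ} (hk : 1 ≤ k) {π y : F[X]} (hπ : π.Monic) (hi : Irreducible π)
    (hy : ¬ π ∣ y) :
    ‖gg k π y‖ ^ 2 ≤ 2 * (k : ℝ) ^ 2 / (Fintype.card F : ℝ) ^ π.natDegree := by
  have hq : (2 : ℝ) ≤ (Fintype.card F : ℝ) ^ π.natDegree := by
    have h2 : (2 : ℝ) ≤ Fintype.card F := by exact_mod_cast two_le_card (F := F)
    exact h2.trans (le_self_pow₀ (by linarith) hi.natDegree_pos.ne')
  have h1 : ∀ u ∈ (PL F π.natDegree).erase 0, gg k π ((y * u ^ k) %ₘ π) = gg k π y := by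
    intro u hu
    have hc : IsCoprime π u := hi.coprime_iff_not_dvd.2 fun h => (mem_erase.1 hu).1
      (eq_of_dvd_sub_of_mem_PL (mem_erase.1 hu).2 (zero_mem_PL _) (by simpa using h))
    have e := Ex_unit (φ := fun x => psi F (lam π (y * x ^ k))) hπ hc (loc2_per k hπ y)
    rw [gg, gg, ← e]
    refine congrArg (Ex _) (_root_.funext fun x => congrArg (psi F) ?_)
    refine lam_congr hπ ⟨-((y * u ^ k) /ₘ π * x ^ k), ?_⟩
    have := modByMonic_add_div (y * u ^ k) π
    rw [mul_pow]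
    linear_combination x ^ k * this
  have h2 : ∑ u ∈ (PL F π.natDegree).erase 0, ‖gg k π ((y * u ^ k) %ₘ π)‖ ^ 2 ≤
      k * ∑ c ∈ PL F π.natDegree, ‖gg k π c‖ ^ 2 := by
    rw [← sum_fiberwise_of_maps_to (t := PL F π.natDegree) (g := fun u => (y * u ^ k) %ₘ π)
      fun u _ => modByMonic_mem_PL hπ _, mul_sum]
    refine sum_le_sum fun c _ => ?_
    rw [sum_congr rfl fun u hu => by rw [(mem_filter.1 hu).2], sum_const, nsmul_eq_mul]
    refine mul_le_mul_of_nonneg_right ?_ (sq_nonneg _)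
    refine Nat.cast_le.2 (le_trans (card_le_card fun u hu => ?_) (loc2_card hk hi hy c))
    refine mem_filter.2 ⟨mem_of_mem_erase (mem_filter.1 hu).1, (y * u ^ k) /ₘ π, ?_⟩
    rw [← (mem_filter.1 hu).2]
    linear_combination -modByMonic_add_div (y * u ^ k) π
  rw [sum_congr rfl fun u hu => by rw [h1 u hu], sum_const, card_erase_of_mem (zero_mem_PL _),
    card_PL, nsmul_eq_mul, Nat.cast_sub (Nat.one_le_pow _ _ Fintype.card_pos)] at h2
  push_cast at h2
  have h3 := mul_le_mul_of_nonneg_left (loc2_mean hk hπ hi) (Nat.cast_nonneg (α := ℝ) k)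
  rw [le_div_iff₀ (by linarith)]
  nlinarith [sq_nonneg ‖gg k π y‖]

lemma gg_bound {k : ℕ} (hk : 2 ≤ k) (hch : Ch k F) {π y : F[X]} (hπ : π.Monic)
    (hi : Irreducible π) (hy : ¬ π ∣ y) (t : ℕ) :
    ‖gg k (π ^ t) y‖ ≤ 2 * k * (1 / √((Fintype.card F : ℝ) ^ π.natDegree)) ^ gam k t := by
  have hq : (0 : ℝ) < (Fintype.card F : ℝ) ^ π.natDegree := by
    have := two_le_card (F := F)
    positivity
  have hk' : (2 : ℝ) ≤ k := by exact_mod_cast hk
  have hs : (1 / √((Fintype.card F : ℝ) ^ π.natDegree)) ^ 2 =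
      1 / (Fintype.card F : ℝ) ^ π.natDegree := by
    rw [div_pow, Real.sq_sqrt hq.le, one_pow]
  induction t using Nat.strong_induction_on with
  | _ t ih =>
    rcases t with _ | _ | t
    · rw [gam, pow_zero, pow_zero]
      linarith [norm_gg_le_one k (1 : F[X]) y]
    · rw [zero_add, gam, pow_one, pow_one]
      refine abs_le_of_sq_le_sq' ((gg_gauss (by omega) hπ hi hy).trans ?_) (by positivity) |>.2
      rw [mul_pow, hs, mul_one_div]
      gcongr
      nlinarith
    · rw [gg_hensel hk hch hπ hi hy, gam, max_eq_left (by omega), pow_add, hs, norm_mul, norm_div,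
        norm_one, norm_pow, Complex.norm_natCast, mul_left_comm]
      exact mul_le_mul_of_nonneg_left (ih _ (by omega)) (by positivity)

end Pool.Agent.Lib.MP_879916_ag.Dg
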