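import Pool.Agent.Lib.MP_879916_ag.DgLoc2

/-! Local terms of the singular series. -/

set_option linter.unusedSectionVars false

noncomputable section

namespace Pool.Agent.Lib.MP_879916_ag.Dg

open Polynomial Finset
open scoped Classical

variable {F : Type} [Field F] [Fintype F]

variable {ι : Type} [Fintype ι]

lemma loc3_step {k t : ℕ} (hk : 2 ≤ k) (ht : 2 ≤ t) : gam k t = 2 + gam k (t - k) := by
  obtain ⟨s, rfl⟩ := Nat.exists_eq_add_of_le' ht
  rw [gam, max_eq_left (by omega)]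

lemma loc3_low {k : ℕ} (hk : 2 ≤ k) (j n : ℕ) :
    (if n < j then 1 else 0) + (if n < j - 1 then 1 else 0) ≤ gam k (j - n) := by
  split_ifs with h1 h2 h2
  · rw [loc3_step hk (by omega)]
    omega
  · rw [show j - n = 1 by omega, gam]
  · omega
  · omega

lemma gam_bad {k : ℕ} (hk : 2 ≤ k) (hι : Fintype.card ι = 2 * k + 1) {ν : ι → ℕ} (h : DL k ν)
    {j : ℕ} (hj : 1 ≤ j) : (2 * k + 1) * j ≤ k * ∑ i, gam k (j - ν i) := by
  induction j using Nat.strong_induction_on with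
  | _ j ih =>
    rcases le_or_gt j k with h1 | h1
    · have h2 := sum_le_sum fun i (_ : i ∈ univ) => loc3_low hk j (ν i)
      rw [sum_add_distrib, ← card_filter, ← card_filter] at h2
      have h3 := h.2 j hj h1
      have h4 : 3 * j ≤ ∑ i, gam k (j - ν i) := by
        rcases hj.eq_or_lt with h5 | h5
        · omega
        · have h6 := h.2 (j - 1) (by omega) (by omega)
          omega
      nlinarith [Nat.mul_le_mul_left k h4, Nat.mul_le_mul_right j (show 1 ≤ k by omega)]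
    · obtain ⟨s, rfl⟩ := Nat.exists_eq_add_of_le h1.le
      have h2 := ih s (by omega) (by omega)
      have h3 : ∑ i, gam k (k + s - ν i) = ∑ i, (2 + gam k (s - ν i)) :=
        sum_congr rfl fun i _ => by
          have h4 := h.1 i
          rw [loc3_step hk (by omega), show k + s - ν i - k = s - ν i by omega]
      rw [h3, sum_add_distrib, sum_const, card_univ, hι, smul_eq_mul]
      nlinarith

lemma gam_good {k : ℕ} (hk : 2 ≤ k) {j : ℕ} (hj : 1 ≤ j) :
    (2 * k + 1) * j + 2 * k ≤ k * ((2 * k + 1) * gam k j) := by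
  induction j using Nat.strong_induction_on with
  | _ j ih =>
    rcases hj.eq_or_lt with rfl | h0
    · rw [gam]
      nlinarith
    rw [loc3_step hk h0]
    rcases le_or_gt j k with h1 | h1
    · rw [Nat.sub_eq_zero_of_le h1, gam]
      nlinarith [Nat.mul_le_mul_left (2 * k + 1) h1]
    · obtain ⟨s, rfl⟩ := Nat.exists_eq_add_of_le h1.le
      have h2 := ih s (by omega) (by omega)
      rw [Nat.add_sub_cancel_left]
      nlinarith

lemma loc3_pow {k j e S : ℕ} (hk : 2 ≤ k) {Q U : ℝ} (hQ : 1 ≤ Q) (hU : 0 ≤ U)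
    (h : 1 ≤ U ^ (2 * k) * Q) (hS : (2 * k + 1) * j + 2 * k * e ≤ k * S) :
    Q ^ j * (1 / √Q) ^ S ≤ U ^ j * (1 / Q) ^ e := by
  have hs : 1 ≤ √Q := Real.one_le_sqrt.2 hQ
  have hs' : √Q ^ 2 = Q := Real.sq_sqrt (by linarith)
  generalize √Q = s at hs hs'
  subst hs'
  have h0 : 0 < s := by linarith
  rw [one_div_pow, one_div_pow, mul_one_div, mul_one_div, div_le_div_iff₀ (by positivity)
    (by positivity)]
  refine (pow_le_pow_iff_left₀ (by positivity) (by positivity) (show 2 * k ≠ 0 by omega)).1 ?_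
  refine le_of_mul_le_mul_right ?_ (show 0 < (s ^ 2) ^ j by positivity)
  calc ((s ^ 2) ^ j * (s ^ 2) ^ e) ^ (2 * k) * (s ^ 2) ^ j
      = s ^ (2 * ((2 * k + 1) * j + 2 * k * e)) * 1 ^ j := by ring
    _ ≤ s ^ (2 * (k * S)) * (U ^ (2 * k) * s ^ 2) ^ j := by gcongr
    _ = _ := by ring

lemma loc3_gg {k : ℕ} (hk : 2 ≤ k) (hch : Ch k F) {π y : F[X]} (hπ : π.Monic)
    (hi : Irreducible π) (hy : ¬ π ∣ y) (j n : ℕ) : ‖gg k (π ^ j) (π ^ n * y)‖ ≤
      2 * k * (1 / √((Fintype.card F : ℝ) ^ π.natDegree)) ^ gam k (j - n) := by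
  rcases le_total n j with h | h
  · obtain ⟨s, rfl⟩ := Nat.exists_eq_add_of_le' h
    rw [pow_add, gg_mul_left k (hπ.pow s) (hπ.pow n), Nat.add_sub_cancel]
    exact gg_bound hk hch hπ hi hy s
  · have h2 : (2 : ℝ) ≤ k := by exact_mod_cast hk
    rw [gg_of_dvd k (hπ.pow j) ((pow_dvd_pow π h).mul_right y), Nat.sub_eq_zero_of_le h, gam,
      norm_one, pow_zero]
    linarith

lemma loc3_core {k : ℕ} (hk : 2 ≤ k) (hch : Ch k F) (hι : Fintype.card ι = 2 * k + 1) {u : ℝ}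
    (hu0 : 0 ≤ u) (hu : 1 ≤ u ^ (2 * k) * Fintype.card F) {a : ι → F[X]} {π : F[X]}
    (hπ : π.Monic) (hi : Irreducible π) {ν : ι → ℕ} (ha : ∀ i, ∃ a', a i = π ^ ν i * a' ∧ ¬ π ∣ a')
    {j e : ℕ} (hj : 1 ≤ j) (hS : (2 * k + 1) * j + 2 * k * e ≤ k * ∑ i, gam k (j - ν i)) :
    fb k a (π ^ j) ≤ ((2 * k : ℝ) ^ (2 * k + 1) * u) ^ (j * π.natDegree) *
      ((1 / (Fintype.card F : ℝ)) ^ π.natDegree) ^ e := by
  have hq : (1 : ℝ) ≤ Fintype.card F := by exact_mod_cast le_trans one_le_two two_le_card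
  have h2 : (2 : ℝ) ≤ k := by exact_mod_cast hk
  have hd : 1 ≤ j * π.natDegree := Nat.mul_pos hj hi.natDegree_pos
  have h1 : ∀ v ∈ Red (π ^ j), ∏ i, ‖gg k (π ^ j) (v * a i)‖ ≤ (2 * k : ℝ) ^ (2 * k + 1) *
      (1 / √((Fintype.card F : ℝ) ^ π.natDegree)) ^ ∑ i, gam k (j - ν i) := fun v hv => by
    have h3 : ¬ π ∣ v := fun h => hi.not_isUnit
      ((mem_filter.1 hv).2.isUnit_of_dvd' (dvd_pow_self π (by omega)) h)
    rw [← prod_pow_eq_pow_sum, ← hι, ← card_univ, ← prod_const, ← prod_mul_distrib]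
    refine prod_le_prod (fun _ _ => norm_nonneg _) fun i _ => ?_
    obtain ⟨a', e1, e2⟩ := ha i
    rw [e1, mul_left_comm]
    exact loc3_gg hk hch hπ hi (fun h => (hi.prime.dvd_or_dvd h).elim h3 e2) j (ν i)
  have h3 : ((Red (π ^ j)).card : ℝ) ≤ ((Fintype.card F : ℝ) ^ π.natDegree) ^ j := by
    have h4 : (Red (π ^ j)).card ≤ (PL F (π ^ j).natDegree).card := card_filter_le _ _
    rw [card_PL, hπ.natDegree_pow, mul_comm, pow_mul] at h4
    exact_mod_cast h4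
  have h4 := loc3_pow (U := u ^ π.natDegree) hk (one_le_pow₀ (n := π.natDegree) hq) (by positivity)
    (by
      rw [← pow_mul, mul_comm π.natDegree, pow_mul, ← mul_pow]
      exact one_le_pow₀ hu) hS
  have h5 : (2 * k : ℝ) ^ (2 * k + 1) ≤ ((2 * k : ℝ) ^ (2 * k + 1)) ^ (j * π.natDegree) :=
    le_self_pow₀ (one_le_pow₀ (by linarith)) (by omega)
  refine (sum_le_card_nsmul _ _ _ h1).trans ?_
  rw [nsmul_eq_mul, mul_pow _ u, mul_assoc, mul_comm j, pow_mul u, one_div_pow (n := π.natDegree),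
    mul_comm π.natDegree, mul_left_comm]
  refine mul_le_mul h5 (le_trans ?_ h4) (by positivity) (by positivity)
  gcongr

theorem fb_bad {k : ℕ} (hk : 2 ≤ k) (hch : Ch k F) (hι : Fintype.card ι = 2 * k + 1) {u : ℝ}
    (hu0 : 0 ≤ u) (hu : 1 ≤ u ^ (2 * k) * Fintype.card F) {a : ι → F[X]} {π : F[X]}
    (hπ : π.Monic) (hi : Irreducible π) (ha : NFat k a π) {j : ℕ} (hj : 1 ≤ j) :
    fb k a (π ^ j) ≤ ((2 * k : ℝ) ^ (2 * k + 1) * u) ^ (j * π.natDegree) := by
  obtain ⟨ν, h1, h2⟩ := ha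
  simpa only [pow_zero, mul_one] using
    loc3_core (e := 0) hk hch hι hu0 hu hπ hi h2 hj (gam_bad hk hι h1 hj)

theorem fb_good {k : ℕ} (hk : 2 ≤ k) (hch : Ch k F) (hι : Fintype.card ι = 2 * k + 1) {u : ℝ}
    (hu0 : 0 ≤ u) (hu : 1 ≤ u ^ (2 * k) * Fintype.card F) {a : ι → F[X]} {π : F[X]}
    (hπ : π.Monic) (hi : Irreducible π) (ha : ∀ i, ¬ π ∣ a i) {j : ℕ} (hj : 1 ≤ j) :
    fb k a (π ^ j) ≤ ((2 * k : ℝ) ^ (2 * k + 1) * u) ^ (j * π.natDegree) *
      (1 / (Fintype.card F : ℝ)) ^ π.natDegree := by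
  simpa only [pow_one] using loc3_core (e := 1) (ν := fun _ => 0) hk hch hι hu0 hu hπ hi
    (fun i => ⟨a i, by rw [pow_zero, one_mul], ha i⟩) hj (by
      rw [sum_const, card_univ, hι, smul_eq_mul, mul_one, Nat.sub_zero]
      exact gam_good hk hj)

end Pool.Agent.Lib.MP_879916_ag.Dg
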