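import Pool.Agent.Lib.MP_879916_ag.DgLoc
import Pool.Agent.Lib.MP_879916_ag.DgLat

/-! Major arcs. -/

set_option linter.unusedSectionVars false

noncomputable section

namespace Pool.Agent.Lib.MP_879916_ag.Dg

open Polynomial Finset
open scoped Classical

variable {F : Type} [Field F] [Fintype F]

lemma maj_cancel {μ g : F[X]} (hμ : μ.Monic) {m : ℕ} (h : μ * g ∈ PL F (μ.natDegree + m)) :
    g ∈ PL F m := by
  rw [mem_PL] at h ⊢
  rw [mul_comm, hμ.degree_mul, degree_eq_natDegree hμ.ne_zero, Nat.cast_add, add_comm] at h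
  exact (WithBot.add_lt_add_iff_left (WithBot.natCast_ne_bot _)).1 h

lemma maj_coeff {n : ℕ} {f : F[X]} (h : f ∈ PL F n) : f.coeff n = 0 :=
  coeff_eq_zero_of_degree_lt (mem_PL.1 h)

lemma maj_mul_mem {a b e : ℕ} {f g : F[X]} (hf : f ∈ PL F a) (hg : g ∈ PL F b)
    (h : a + b ≤ e + 1) : f * g ∈ PL F e := by
  rcases a with _ | a
  · rw [PL_zero, mem_singleton] at hf
    rw [hf, zero_mul]
    exact zero_mem_PL e
  · exact PL_mono (by omega) (mul_mem_PL (mem_PL_succ.1 hf) hg)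

lemma maj_reflect_pow {x : F[X]} {e : ℕ} (hx : x.natDegree ≤ e) (k : ℕ) :
    reflect (k * e) (x ^ k) = reflect e x ^ k := by
  induction k with
  | zero => simp
  | succ k ih =>
    rw [pow_succ, Nat.succ_mul, reflect_mul _ _ (natDegree_pow_le.trans
      (Nat.mul_le_mul_left k hx)) hx, ih, pow_succ]

lemma maj_reflect_mem {x : F[X]} {e : ℕ} (hx : x ∈ PL F (e + 1)) : reflect e x ∈ PL F (e + 1) :=
  mem_PL_succ.2 (natDegree_reflect_le.trans (max_le le_rfl (mem_PL_succ.1 hx)))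

lemma maj_lam_per {μ : F[X]} (hμ : μ.Monic) (k : ℕ) (y x z : F[X]) :
    lam μ (y * (x + μ * z) ^ k) = lam μ (y * x ^ k) := by
  refine lam_congr hμ ?_
  rw [← mul_sub]
  refine Dvd.dvd.mul_left (Dvd.dvd.trans ?_ (sub_dvd_pow_sub_pow _ _ k)) y
  rw [add_sub_cancel_left]
  exact dvd_mul_right μ z

lemma maj_card_ne (M : ℕ) : (Fintype.card F : ℂ) ^ M ≠ 0 :=
  pow_ne_zero M (Nat.cast_ne_zero.2 Fintype.card_ne_zero)

lemma coeff_B0 {μ v w : F[X]} {n : ℕ} (hμ : μ.Monic) (hw : w.natDegree ≤ n) :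
    ((X ^ (n + 1) * v /ₘ μ) * w).coeff n = lam μ (v * w) := by
  have e1 := modByMonic_add_div (X ^ (n + 1) * v) μ
  have e2 := modByMonic_add_div (v * w) μ
  have e3 : μ * ((X ^ (n + 1) * v /ₘ μ) * w - X ^ (n + 1) * (v * w /ₘ μ)) =
      X ^ (n + 1) * (v * w %ₘ μ) - w * (X ^ (n + 1) * v %ₘ μ) := by
    linear_combination w * e1 - X ^ (n + 1) * e2
  have h1 : w * (X ^ (n + 1) * v %ₘ μ) ∈ PL F (n + μ.natDegree) :=
    mul_mem_PL hw (modByMonic_mem_PL hμ _)
  have h2 : X ^ (n + 1) * (v * w %ₘ μ) ∈ PL F (n + 1 + μ.natDegree) :=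
    mul_mem_PL (natDegree_X_pow _).le (modByMonic_mem_PL hμ _)
  have h3 : (X ^ (n + 1) * v /ₘ μ) * w - X ^ (n + 1) * (v * w /ₘ μ) ∈ PL F (n + 1) := by
    refine maj_cancel hμ ?_
    rw [e3]
    exact sub_mem_PL (PL_mono (by omega) h2) (PL_mono (by omega) h1)
  have h4 := coeff_mul_add_eq_of_natDegree_le (le_refl μ.natDegree) (mem_PL_succ.1 h3)
  rw [e3, hμ.coeff_natDegree, one_mul, coeff_sub, coeff_sub, add_comm μ.natDegree n, maj_coeff h1,
    sub_zero, coeff_X_pow_mul' (v * w /ₘ μ), if_neg (by omega), sub_zero, pow_succ, mul_assoc,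
    add_comm n, coeff_X_pow_mul] at h4
  rw [← pow_succ] at h4
  exact h4.symm

/-- the factor at infinity -/
lemma GG_inf {k : ℕ} {a β : F[X]} {n D e j : ℕ} (hn : n = D + k * e) (hD : a.natDegree ≤ D)
    (hβ : β.natDegree ≤ j) (hj : j ≤ e) :
    GG k (β * a) n e = gg k (X ^ (j + 1)) (reflect j β * reflect D a) := by
  unfold GG gg
  rw [← Ex_period (monic_X_pow (j + 1)) (M := e + 1) (by rw [natDegree_X_pow]; omega)
    fun x z => by rw [maj_lam_per (monic_X_pow _)]]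
  unfold Ex
  refine congrArg (· / _) ?_
  refine sum_nbij' (reflect e) (reflect e) (fun x hx => maj_reflect_mem hx)
    (fun x hx => maj_reflect_mem hx) (fun x _ => reflect_reflect) (fun x _ => reflect_reflect)
    fun x hx => ?_
  have hx' := mem_PL_succ.1 hx
  rw [lam_X_pow, ← maj_reflect_pow hx', ← reflect_mul _ _ hβ hD,
    ← reflect_mul _ _ (natDegree_mul_le.trans (Nat.add_le_add hβ hD))
      (natDegree_pow_le.trans (Nat.mul_le_mul_left k hx')), coeff_reflect,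
    revAt_le (by omega), show j + D + k * e - j = n by omega]

lemma maj_shift {k : ℕ} (hk : 1 ≤ k) {a β x y : F[X]} {n D e J d : ℕ} (hn : n = D + k * e)
    (hD : a.natDegree ≤ D) (hβ : β ∈ PL F J) (hJ : d + J ≤ e + 1) (hx : x ∈ PL F d)
    (hy : y ∈ PL F (e + 1)) : (β * a * (x + y) ^ k).coeff n = (β * a * y ^ k).coeff n := by
  have hy' := mem_PL_succ.1 hy
  have hxy := mem_PL_succ.1 (add_mem_PL (PL_mono (show d ≤ e + 1 by omega) hx) hy)
  have h1 : (∑ i ∈ range k, (x + y) ^ i * y ^ (k - 1 - i)).natDegree ≤ (k - 1) * e := by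
    refine natDegree_sum_le_of_forall_le _ _ fun i hi => natDegree_mul_le.trans ?_
    have h2 := natDegree_pow_le.trans (Nat.mul_le_mul_left i hxy)
    have h3 := natDegree_pow_le.trans (Nat.mul_le_mul_left (k - 1 - i) hy')
    refine (Nat.add_le_add h2 h3).trans ?_
    rw [← Nat.add_mul]
    refine Nat.mul_le_mul_right e ?_
    have := mem_range.1 hi
    omega
  have h2 := mul_mem_PL (natDegree_mul_le.trans (Nat.add_le_add hD h1)) (maj_mul_mem hx hβ hJ)
  have h3 : D + (k - 1) * e + e = n := by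
    obtain ⟨k, rfl⟩ := Nat.exists_eq_add_of_le' hk
    rw [hn, Nat.add_sub_cancel, Nat.succ_mul, add_assoc]
  have h4 := geom_sum₂_mul (x + y) y k
  rw [add_sub_cancel_right] at h4
  have h5 : β * a * (x + y) ^ k = β * a * y ^ k +
      a * (∑ i ∈ range k, (x + y) ^ i * y ^ (k - 1 - i)) * (x * β) := by
    linear_combination -(β * a) * h4
  rw [h3] at h2
  rw [h5, coeff_add, maj_coeff h2, add_zero]

lemma GG_split {k : ℕ} (hk : 1 ≤ k) {a β μ v : F[X]} {n D e J : ℕ} (hn : n = D + k * e)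
    (hD : a.natDegree ≤ D) (hμ : μ.Monic) (hβ : β ∈ PL F J) (hJ : μ.natDegree + J ≤ e + 1) :
    GG k ((X ^ (n + 1) * v /ₘ μ + β) * a) n e = gg k μ (v * a) * GG k (β * a) n e := by
  have hd : μ.natDegree ≤ e + 1 := by omega
  have h1 : ∀ x₂ ∈ PL F (e + 1 - μ.natDegree), μ * x₂ ∈ PL F (e + 1) := fun x₂ h =>
    PL_mono (by omega) (mul_mem_PL le_rfl h)
  have h2 : ∑ x ∈ PL F (e + 1), psi F ((β * a * x ^ k).coeff n) =
      (Fintype.card F : ℂ) ^ μ.natDegree *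
        ∑ x₂ ∈ PL F (e + 1 - μ.natDegree), psi F ((β * a * (μ * x₂) ^ k).coeff n) := by
    rw [sum_PL_split hμ hd, sum_congr rfl fun x₁ h₁ => sum_congr rfl fun x₂ h₂ => by
      rw [maj_shift hk hn hD hβ hJ h₁ (h1 x₂ h₂)], sum_const, card_PL, nsmul_eq_mul, Nat.cast_pow]
  have h3 : ∑ x ∈ PL F (e + 1), psi F (((X ^ (n + 1) * v /ₘ μ + β) * a * x ^ k).coeff n) =
      (∑ x₁ ∈ PL F μ.natDegree, psi F (lam μ (v * a * x₁ ^ k))) *
        ∑ x₂ ∈ PL F (e + 1 - μ.natDegree), psi F ((β * a * (μ * x₂) ^ k).coeff n) := by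
    rw [sum_PL_split hμ hd, sum_mul_sum]
    refine sum_congr rfl fun x₁ h₁ => sum_congr rfl fun x₂ h₂ => ?_
    have hx := mem_PL_succ.1 (add_mem_PL (PL_mono hd h₁) (h1 x₂ h₂))
    have hw : (a * (x₁ + μ * x₂) ^ k).natDegree ≤ n := hn ▸ natDegree_mul_le.trans
      (Nat.add_le_add hD (natDegree_pow_le.trans (Nat.mul_le_mul_left k hx)))
    rw [add_mul, add_mul, coeff_add, AddChar.map_add_eq_mul, maj_shift hk hn hD hβ hJ h₁ (h1 x₂ h₂),
      mul_assoc _ a, coeff_B0 hμ hw, ← mul_assoc, maj_lam_per hμ]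
  unfold GG gg Ex
  rw [h3, h2]
  have h4 := maj_card_ne (F := F) μ.natDegree
  have h5 := maj_card_ne (F := F) (e + 1)
  field_simp

lemma maj_prim {μ v β : F[X]} {n H : ℕ} (hμ : μ.Monic) (hd : μ.natDegree ≤ H)
    (hβ : β ∈ PL F (H - μ.natDegree)) :
    (X ^ (n + 1) * v /ₘ μ + β) * μ - X ^ (n + 1) * v ∈ PL F H := by
  have e1 := modByMonic_add_div (X ^ (n + 1) * v) μ
  have e2 : (X ^ (n + 1) * v /ₘ μ + β) * μ - X ^ (n + 1) * v =
      μ * β - X ^ (n + 1) * v %ₘ μ := by linear_combination e1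
  rw [e2]
  exact sub_mem_PL (PL_mono (by omega) (mul_mem_PL le_rfl hβ))
    (PL_mono hd (modByMonic_mem_PL hμ _))

/-- parametrisation of the major arcs -/
lemma sum_major {A : Type} [AddCommMonoid A] {n H : ℕ} (h2 : 2 * H ≤ n) (φ : F[X] → A) :
    ∑ B ∈ (PL F (n + 1)).filter (fun B => ¬ Minor B n n H), φ B =
      ∑ μ ∈ (PL F (H + 1)).filter Monic, ∑ v ∈ Red μ, ∑ β ∈ PL F (H - μ.natDegree),
        φ (X ^ (n + 1) * v /ₘ μ + β) := by
  have hH : H ≤ n := by omega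
  have hX : (X ^ (n + 1) : F[X]).natDegree = n + 1 := natDegree_X_pow _
  simp only [← sum_product']
  rw [sum_sigma']
  have key : ∀ p ∈ ((PL F (H + 1)).filter Monic).sigma
      fun μ : F[X] => Red μ ×ˢ PL F (H - μ.natDegree),
      p.1.Monic ∧ p.1.natDegree ≤ H ∧ p.2.1 ∈ PL F p.1.natDegree ∧ IsCoprime p.1 p.2.1 ∧
        p.2.2 ∈ PL F (H - p.1.natDegree) := fun p hp => by
    simp only [mem_sigma, mem_filter, mem_product, Red, mem_PL_succ] at hp
    exact ⟨hp.1.2, hp.1.1, hp.2.1.1, hp.2.1.2, hp.2.2⟩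
  symm
  refine sum_bij (fun p _ => X ^ (n + 1) * p.2.1 /ₘ p.1 + p.2.2) ?_ ?_ ?_ fun _ _ => rfl
  · intro p hp
    obtain ⟨hμ, hd, hv, hc, hβ⟩ := key p hp
    have h1 := maj_prim (n := n) (v := p.2.1) hμ hd hβ
    refine mem_filter.2 ⟨maj_cancel hμ ?_, fun hm => hm p.1 hμ.ne_zero hd
      (Prim.kill ⟨hμ, hd, hH, p.2.1, hc, mem_PL.1 h1⟩)⟩
    have h3 := add_mem_PL (PL_mono (show H ≤ p.1.natDegree + (n + 1) by omega) h1)
      (PL_mono (show n + 1 + p.1.natDegree ≤ p.1.natDegree + (n + 1) by omega)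
        (mul_mem_PL hX.le hv))
    rwa [sub_add_cancel, mul_comm] at h3
  · rintro ⟨μ, v, β⟩ hp ⟨μ', v', β'⟩ hp' h
    obtain ⟨hμ, hd, -, hc, hβ⟩ := key _ hp
    obtain ⟨hμ', hd', -, hc', hβ'⟩ := key _ hp'
    simp only at h hμ hd hc hβ hμ' hd' hc' hβ'
    have h1 := maj_prim (n := n) (v := v) hμ hd hβ
    have h1' := maj_prim (n := n) (v := v') hμ' hd' hβ'
    rw [← h] at h1'
    obtain rfl : μ = μ' := prim_unique ⟨hμ, hd, hH, v, hc, mem_PL.1 h1⟩
      ⟨hμ', hd', hH, v', hc', mem_PL.1 h1'⟩ (by omega)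
    have h3 := sub_mem_PL h1' h1
    rw [sub_sub_sub_cancel_left, ← mul_sub] at h3
    have h4 := maj_cancel (monic_X_pow (n + 1)) (m := 0) (PL_mono (by omega) h3)
    rw [PL_zero, mem_singleton, sub_eq_zero] at h4
    subst h4
    rw [add_left_cancel h]
  · intro B hB
    obtain ⟨hB, hm⟩ := mem_filter.1 hB
    simp only [Minor, not_forall, not_not] at hm
    obtain ⟨r, hr, hrd, hk⟩ := hm
    rw [kill_iff (Nat.sub_le n H), Nat.sub_sub_self hH] at hk
    obtain ⟨G, μ, v, hμ, hG, rfl, hc, he⟩ := prim_decomp B n hr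
    have hd : μ.natDegree ≤ H := (natDegree_le_of_dvd (dvd_mul_left μ G) hr).trans hrd
    have h1 : B * μ - X ^ (n + 1) * v ∈ PL F H := by
      rw [he, mul_comm G] at hk
      exact mem_PL.2 ((degree_le_mul_left _ hG).trans_lt hk)
    have h3 : v ∈ PL F μ.natDegree := by
      refine maj_cancel (monic_X_pow (n + 1)) ?_
      have h4 := sub_mem_PL (PL_mono (show μ.natDegree + (n + 1) ≤ n + 1 + μ.natDegree by omega)
        (mul_mem_PL le_rfl hB)) (PL_mono (show H ≤ n + 1 + μ.natDegree by omega) h1)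
      rw [hX]
      rwa [mul_comm μ, sub_sub_cancel] at h4
    have h4 : B - X ^ (n + 1) * v /ₘ μ ∈ PL F (H - μ.natDegree) := by
      refine maj_cancel hμ ?_
      have e1 := modByMonic_add_div (X ^ (n + 1) * v) μ
      have e2 : μ * (B - X ^ (n + 1) * v /ₘ μ) =
          B * μ - X ^ (n + 1) * v + X ^ (n + 1) * v %ₘ μ := by linear_combination -e1
      rw [e2, Nat.add_sub_cancel' hd]
      exact add_mem_PL h1 (PL_mono hd (modByMonic_mem_PL hμ _))
    refine ⟨⟨μ, v, B - X ^ (n + 1) * v /ₘ μ⟩, ?_, add_sub_cancel _ _⟩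
    simp only [mem_sigma, mem_filter, mem_product, Red, mem_PL_succ]
    exact ⟨⟨hd, hμ⟩, ⟨h3, hc⟩, h4⟩

lemma maj_red {J : ℕ} {v : F[X]} :
    v ∈ Red (X ^ (J + 1) : F[X]) ↔ v ∈ PL F (J + 1) ∧ v.coeff 0 ≠ 0 := by
  rw [Red, mem_filter, natDegree_X_pow, IsCoprime.pow_left_iff (Nat.succ_pos J),
    irreducible_X.coprime_iff_not_dvd, X_dvd_iff]

lemma maj_sdiff {J : ℕ} {v : F[X]} :
    v ∈ PL F (J + 1) \ PL F J ↔ v ∈ PL F (J + 1) ∧ v.coeff J ≠ 0 := by
  rw [mem_sdiff]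
  refine and_congr_right fun h => not_congr ⟨maj_coeff, fun h0 => ?_⟩
  rw [mem_PL, degree_lt_iff_coeff_zero]
  intro m hm
  rcases hm.eq_or_lt with rfl | hm
  · exact h0
  · exact coeff_eq_zero_of_natDegree_lt ((mem_PL_succ.1 h).trans_lt hm)

lemma sum_inf {k : ℕ} {ι : Type} [Fintype ι] (a : ι → F[X]) (D e : ι → ℕ) {n J : ℕ}
    (hn : ∀ i, n = D i + k * e i) (hD : ∀ i, (a i).natDegree ≤ D i) (hJ : ∀ i, J ≤ e i + 1) :
    ∑ β ∈ PL F J, ∏ i, GG k (β * a i) n (e i) =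
      ∑ j ∈ range (J + 1), ff k (fun i => reflect (D i) (a i)) (X ^ j) := by
  induction J with
  | zero =>
    rw [PL_zero, sum_singleton, sum_range_one, pow_zero, ff_one]
    refine prod_eq_one fun i _ => ?_
    simp only [GG, Ex, zero_mul, coeff_zero, AddChar.map_zero_eq_one, sum_const, card_PL,
      nsmul_eq_mul, mul_one, Nat.cast_pow]
    exact div_self (maj_card_ne _)
  | succ J ih =>
    rw [sum_range_succ, ← ih fun i => (Nat.le_succ J).trans (hJ i),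
      ← sum_sdiff (PL_mono (Nat.le_succ J)), add_comm]
    refine congrArg (_ + ·) ?_
    unfold ff
    refine sum_nbij' (reflect J) (reflect J) (fun β hβ => ?_) (fun β hβ => ?_)
      (fun x _ => reflect_reflect) (fun x _ => reflect_reflect) fun β hβ => ?_
    · obtain ⟨h1, h2⟩ := maj_sdiff.1 hβ
      refine maj_red.2 ⟨maj_reflect_mem h1, ?_⟩
      rwa [coeff_reflect, revAt_zero]
    · obtain ⟨h1, h2⟩ := maj_red.1 hβ
      refine maj_sdiff.2 ⟨maj_reflect_mem h1, ?_⟩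
      rwa [coeff_reflect, revAt_le le_rfl, Nat.sub_self]
    · exact prod_congr rfl fun i _ => GG_inf (hn i) (hD i) (mem_PL_succ.1 (maj_sdiff.1 hβ).1)
        (Nat.le_of_succ_le_succ (hJ i))

theorem major_eq {k : ℕ} (hk : 1 ≤ k) {ι : Type} [Fintype ι] (a : ι → F[X]) (D e : ι → ℕ)
    {n H : ℕ} (hn : ∀ i, n = D i + k * e i) (hD : ∀ i, (a i).natDegree ≤ D i)
    (hH : ∀ i, H ≤ e i + 1) (h2 : 2 * H ≤ n) :
    ∑ B ∈ (PL F (n + 1)).filter (fun B => ¬ Minor B n n H), ∏ i, GG k (B * a i) n (e i) =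
      Maj k a (fun i => reflect (D i) (a i)) H := by
  rw [sum_major h2 fun B => ∏ i, GG k (B * a i) n (e i)]
  unfold Maj
  refine sum_congr rfl fun μ hμ => ?_
  obtain ⟨hd, hμ⟩ := mem_filter.1 hμ
  have hd := mem_PL_succ.1 hd
  rw [← sum_inf a D e hn hD fun i => (Nat.sub_le _ _).trans (hH i), ff, sum_mul_sum]
  refine sum_congr rfl fun v _ => sum_congr rfl fun β hβ => ?_
  rw [← prod_mul_distrib]
  exact prod_congr rfl fun i _ => GG_split hk (hn i) (hD i) hμ hβ (by have := hH i; omega)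

end Pool.Agent.Lib.MP_879916_ag.Dg
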