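import Pool.Agent.Lib.MP_879916_ag.DgWeyl

/-! Orthogonality and minor arcs. -/

set_option linter.unusedSectionVars false

noncomputable section

namespace Pool.Agent.Lib.MP_879916_ag.Dg

open Polynomial Finset
open scoped Classical

variable {F : Type} [Field F] [Fintype F]

lemma min_psi_sum {ι : Type} (s : Finset ι) (f : ι → F) :
    psi F (∑ i ∈ s, f i) = ∏ i ∈ s, psi F (f i) := by
  induction s using Finset.induction_on with
  | empty => simp
  | insert a s ha ih => rw [sum_insert ha, prod_insert ha, AddChar.map_add_eq_mul, ih]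

lemma min_GG_neg (k : ℕ) (B : F[X]) (N e : ℕ) :
    GG k (-B) N e = (starRingEnd ℂ) (GG k B N e) := by
  simp only [GG, Ex, neg_mul, coeff_neg, psi_neg, map_div₀, map_sum, map_pow, map_natCast]

lemma count_eq {k : ℕ} {ι : Type} [Fintype ι] (b : ι → F[X]) (e : ι → ℕ) {n : ℕ}
    (h : ∀ i, (b i).natDegree + k * e i ≤ n) :
    ∑ B ∈ PL F (n + 1), ∏ i, GG k (B * b i) n (e i) =
      (Fintype.card F : ℂ) ^ (n + 1) *
        ((Fintype.piFinset fun i => PL F (e i + 1)).filter
          fun x => ∑ i, b i * x i ^ k = 0).card / (Fintype.card F : ℂ) ^ ∑ i, (e i + 1) := by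
  have h1 : ∀ B : F[X], ∏ i, GG k (B * b i) n (e i) =
      (∑ x ∈ Fintype.piFinset fun i => PL F (e i + 1),
        psi F ((B * ∑ i, b i * x i ^ k).coeff n)) / (Fintype.card F : ℂ) ^ ∑ i, (e i + 1) := by
    intro B
    simp only [GG, Ex]
    rw [prod_div_distrib, prod_pow_eq_pow_sum, prod_univ_sum]
    congr 1
    refine sum_congr rfl fun x _ => ?_
    rw [mul_sum, finsetSum_coeff, min_psi_sum]
    simp only [mul_assoc]
  simp only [h1]
  rw [← sum_div, sum_comm]
  congr 1
  rw [sum_congr rfl fun x hx => orth_coeff (w := ∑ i, b i * x i ^ k)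
    (natDegree_sum_le_of_forall_le _ _ fun i _ => natDegree_mul_le.trans ((add_le_add le_rfl
      (natDegree_pow_le.trans (Nat.mul_le_mul_left k
        (mem_PL_succ.1 (Fintype.mem_piFinset.1 hx i))))).trans (h i))),
    ← sum_filter, sum_const, nsmul_eq_mul, mul_comm]

lemma min_count {k e n : ℕ} {ι : Type} [Fintype ι] (c : ι → F) {a : F[X]} (ha : a ≠ 0)
    (h : a.natDegree + k * e ≤ n) :
    ∑ B ∈ PL F (n + 1), ∏ i, GG k (B * (a * C (c i))) n e =
      (Fintype.card F : ℂ) ^ (n + 1) * (Sol k e c 0).card /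
        (Fintype.card F : ℂ) ^ (Fintype.card ι * (e + 1)) := by
  have h3 : ((Fintype.piFinset fun _ : ι => PL F (e + 1)).filter
      fun x => ∑ i, a * C (c i) * x i ^ k = 0) = Sol k e c 0 := by
    unfold Sol
    refine filter_congr fun x _ => ?_
    simp only [mul_assoc]
    rw [← mul_sum, mul_eq_zero, or_iff_right ha]
  rw [count_eq (k := k) (fun i => a * C (c i)) (fun _ => e) (n := n) fun i =>
    (add_le_add (natDegree_mul_C_le a _) le_rfl).trans h, h3, sum_const, card_univ, smul_eq_mul]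

lemma mean_value {k e n : ℕ} {K : ℝ} (hK : HK F k K e) {a : F[X]} (ha : a ≠ 0)
    (h : a.natDegree + k * e ≤ n) :
    ∑ B ∈ PL F (n + 1), ‖GG k (B * a) n e‖ ^ (2 * k) ≤
      K ^ (e + 1) * (Fintype.card F : ℝ) ^ (n + 1 + 2 * k) /
        (Fintype.card F : ℝ) ^ (k * (e + 1)) := by
  set c : Fin k ⊕ Fin k → F := Sum.elim (fun _ => 1) fun _ => -1 with hc
  have h1 := min_count c ha h
  have h2 : ∀ B : F[X], ∏ i, GG k (B * (a * C (c i))) n e =
      ((‖GG k (B * a) n e‖ ^ (2 * k) : ℝ) : ℂ) := by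
    intro B
    rw [Fintype.prod_sum_type]
    simp only [hc, Sum.elim_inl, Sum.elim_inr, map_one, map_neg, mul_one, mul_neg, min_GG_neg,
      prod_const, card_univ, Fintype.card_fin]
    rw [← mul_pow, Complex.mul_conj', pow_mul]
    push_cast
    rfl
  have h4 := hK (Fin k ⊕ Fin k) (by simp [two_mul]) c (by
    rintro (i | i) <;> simp [hc]) 0
  simp only [h2, Fintype.card_sum, Fintype.card_fin] at h1 h4
  have h5 : ∑ B ∈ PL F (n + 1), ‖GG k (B * a) n e‖ ^ (2 * k) =
      (Fintype.card F : ℝ) ^ (n + 1) * (Sol k e c 0).card /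
        (Fintype.card F : ℝ) ^ ((k + k) * (e + 1)) := by
    apply Complex.ofReal_injective
    rw [Complex.ofReal_sum, h1]
    push_cast
    rfl
  have hq : (0 : ℝ) < Fintype.card F := by exact_mod_cast Fintype.card_pos
  rw [show (k + k) * (e + 1) + 4 * k = 2 * (k * (e + 1) + 2 * k) by ring, pow_mul,
    Real.sq_sqrt hq.le] at h4
  rw [h5]
  refine (div_le_div_of_nonneg_right (mul_le_mul_of_nonneg_left h4 (by positivity))
    (by positivity)).trans (le_of_eq ?_)
  rw [add_mul, pow_add _ (k * (e + 1)), pow_add _ (k * (e + 1)), pow_add _ (n + 1)]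
  field_simp

lemma Minor.mul {B a : F[X]} (ha : a ≠ 0) {n D M h : ℕ} (hn : n = D + M) (hD : a.natDegree ≤ D)
    (H : Minor B n n (h + D)) : Minor (B * a) n M h := by
  intro r hr hr' hk
  refine H (a * r) (mul_ne_zero ha hr) (natDegree_mul_le.trans (by omega)) fun w hw => ?_
  rw [← mul_assoc]
  exact hk w (by omega)

/-- the minor arc bound; `l` is an upper bound for `q ^ (-1 / 2 ^ (k-1))` -/
theorem minor_le {k : ℕ} (hk : 2 ≤ k) (hch : Ch k F) {K : ℝ} (hK1 : 1 ≤ K) (hK : ∀ e, HK F k K e)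
    {ι : Type} [Fintype ι] (hι : Fintype.card ι = 2 * k + 1) (a : ι → F[X]) (ha : ∀ i, a i ≠ 0)
    (D e : ι → ℕ) {n n₀ E H η : ℕ} (hn : ∀ i, n = D i + k * e i)
    (hD : ∀ i, (a i).natDegree ≤ D i) (hD0 : ∀ i, D i ≤ n₀) (hE : ∀ i, e i ≤ E)
    (hH : ∀ i, H ≤ e i) (hη : (2 ^ (k - 1) - 1) * η + n₀ ≤ H) {l : ℝ} (hl0 : 0 ≤ l)
    (hl : 1 ≤ l ^ (2 ^ (k - 1)) * Fintype.card F) :
    ‖∑ B ∈ (PL F (n + 1)).filter (fun B => Minor B n n H), ∏ i, GG k (B * a i) n (e i)‖ ≤
      (2 * k + 1) * (k * l ^ η) * (K ^ (E + 1) * (Fintype.card F : ℝ) ^ (n₀ + 1 + 2 * k)) := by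
  have hq : (1 : ℝ) ≤ Fintype.card F := by exact_mod_cast Fintype.card_pos
  have hk1 : (1 : ℝ) ≤ k := by exact_mod_cast (by omega : 1 ≤ k)
  have : Nonempty ι := Fintype.card_pos_iff.1 (by omega)
  have hW : ∀ B, Minor B n n H → ∀ i, ‖GG k (B * a i) n (e i)‖ ≤ k * l ^ η := by
    intro B hB i
    have h1 := weyl hk hch (η := η) (show k * e i ≤ n by have := hn i; omega)
      (by have := hH i; omega) (Minor.mul (ha i) (hn i) (hD i)
        (hB.mono (by have := hD0 i; omega)))
    refine le_of_pow_le_pow_left₀ (n := 2 ^ (k - 1)) (by positivity) (by positivity)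
      (h1.trans ?_)
    rw [mul_pow, ← pow_mul, mul_comm η, pow_mul]
    exact mul_le_mul (le_self_pow₀ hk1 (by positivity)) (pow_le_pow_left₀ (by positivity)
      ((div_le_iff₀ (by positivity)).2 hl) η) (by positivity) (by positivity)
  have h1 : ∀ B ∈ (PL F (n + 1)).filter (fun B => Minor B n n H),
      ‖∏ i, GG k (B * a i) n (e i)‖ ≤ ∑ i, k * l ^ η * ‖GG k (B * a i) n (e i)‖ ^ (2 * k) := by
    intro B hB
    obtain ⟨j, -, hj⟩ := exists_max_image univ (fun i => ‖GG k (B * a i) n (e i)‖) univ_nonempty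
    rw [norm_prod]
    refine (prod_le_prod (fun i _ => norm_nonneg _) hj).trans ?_
    rw [prod_const, card_univ, hι, pow_succ']
    exact (mul_le_mul_of_nonneg_right (hW B (mem_filter.1 hB).2 j) (by positivity)).trans
      (single_le_sum (f := fun i => k * l ^ η * ‖GG k (B * a i) n (e i)‖ ^ (2 * k))
        (fun i _ => by positivity) (mem_univ j))
  refine (norm_sum_le_of_le _ h1).trans ((sum_le_sum_of_subset_of_nonneg (filter_subset _ _)
    fun B _ _ => by positivity).trans ?_)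
  rw [sum_comm]
  refine (sum_le_card_nsmul _ _
    (k * l ^ η * (K ^ (E + 1) * (Fintype.card F : ℝ) ^ (n₀ + 1 + 2 * k))) fun i _ => ?_).trans ?_
  · rw [← mul_sum]
    refine mul_le_mul_of_nonneg_left ((mean_value (hK (e i)) (ha i)
      (by have := hn i; have := hD i; omega)).trans ?_) (by positivity)
    rw [div_le_iff₀ (by positivity), mul_assoc, ← pow_add]
    refine mul_le_mul (pow_le_pow_right₀ hK1 (by have := hE i; omega))
      (pow_le_pow_right₀ hq ?_) (by positivity) (by positivity)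
    have := hn i
    have := hD0 i
    rw [mul_add]
    omega
  · rw [card_univ, hι, nsmul_eq_mul, ← mul_assoc]
    push_cast
    rfl

end Pool.Agent.Lib.MP_879916_ag.Dg
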