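import Pool.Agent.Lib.MP_879916_ag.DgBase

/-! Davenport-Lewis normal form. -/

set_option linter.unusedSectionVars false

noncomputable section

namespace Pool.Agent.Lib.MP_879916_ag.Dg

open Polynomial Finset
open scoped Classical

variable {F : Type} [Field F] [Fintype F]

variable {ι : Type} [Fintype ι]

theorem norm_DL {k : ℕ} (hk : 1 ≤ k) (hι : Fintype.card ι = 2 * k + 1) (ν : ι → ℕ)
    (h : ∀ (c : ℕ) (T : Finset ι), (∀ i ∈ T, k ≤ c + ν i) → k * T.card ≤ c * Fintype.card ι) :
    DL k ν := by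
  refine ⟨fun i => ?_, fun j _ hj => ?_⟩
  · by_contra hc
    have := h 0 {i} fun i' hi' => by rw [mem_singleton.1 hi']; omega
    rw [card_singleton] at this
    omega
  · have h1 := h (k - j) (univ.filter fun i => ¬ ν i < j) fun i hi => by
      have := (mem_filter.1 hi).2
      omega
    have h2 := card_filter_add_card_filter_not (s := (univ : Finset ι)) fun i => ν i < j
    rw [card_univ] at h2
    generalize (univ.filter fun i => ν i < j).card = M at h2 ⊢
    generalize (univ.filter fun i => ¬ ν i < j).card = M' at h1 h2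
    obtain ⟨c, rfl⟩ := Nat.exists_eq_add_of_le hj
    rw [Nat.add_sub_cancel_left, hι] at h1
    rw [hι] at h2
    by_contra hc
    have h3 : 2 * c + 1 ≤ M' := by omega
    nlinarith [Nat.mul_le_mul_left (j + c) h3]

theorem norm_step {k : ℕ} {a : ι → F[X]} (ha : ∀ i, a i ≠ 0) {π : F[X]} (hπ : π ≠ 0) (c : ℕ)
    (T : Finset ι) (hT : ∀ i ∈ T, π ^ k ∣ π ^ c * a i) :
    ∃ b : ι → F[X], (∀ i, b i ≠ 0) ∧ (Iso k b → Iso k a) ∧
      ∑ i, (b i).natDegree + k * T.card * π.natDegree =
        ∑ i, (a i).natDegree + c * Fintype.card ι * π.natDegree := by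
  have h : ∀ i, ∃ b, π ^ c * a i = (if i ∈ T then π else 1) ^ k * b := fun i => by
    split_ifs with hi
    · exact hT i hi
    · exact ⟨_, by rw [one_pow, one_mul]⟩
  choose b hb using h
  have hb0 : ∀ i, b i ≠ 0 := fun i e => mul_ne_zero (pow_ne_zero c hπ) (ha i) (by
    rw [hb, e, mul_zero])
  refine ⟨b, hb0, ?_, ?_⟩
  · rintro ⟨x, hx, h0⟩
    refine ⟨fun i => (if i ∈ T then 1 else π) * x i, fun e => hx (funext fun i => ?_), ?_⟩
    · refine (mul_eq_zero.1 (congrFun e i)).resolve_left ?_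
      split_ifs
      · exact one_ne_zero
      · exact hπ
    · refine (mul_eq_zero.1 (?_ : π ^ c * _ = 0)).resolve_left (pow_ne_zero c hπ)
      rw [← mul_zero (π ^ k), ← h0, mul_sum, mul_sum]
      refine sum_congr rfl fun i _ => ?_
      rw [← mul_assoc, hb]
      dsimp only
      split_ifs <;> ring
  · have h1 : ∀ i, (b i).natDegree + (if i ∈ T then k * π.natDegree else 0) =
        (a i).natDegree + c * π.natDegree := fun i => by
      have h2 := congrArg natDegree (hb i)
      rw [natDegree_mul (pow_ne_zero c hπ) (ha i), natDegree_pow] at h2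
      split_ifs at h2 ⊢
      · rw [natDegree_mul (pow_ne_zero k hπ) (hb0 i), natDegree_pow] at h2
        omega
      · rw [one_pow, one_mul] at h2
        omega
    have h2 := sum_congr (s₁ := (univ : Finset ι)) rfl fun i _ => h1 i
    rw [sum_add_distrib, sum_add_distrib, sum_ite_mem, univ_inter, sum_const, sum_const,
      card_univ, smul_eq_mul, smul_eq_mul] at h2
    linarith

theorem normal {k : ℕ} (hk : 1 ≤ k) (hι : Fintype.card ι = 2 * k + 1) (a : ι → F[X])
    (ha : ∀ i, a i ≠ 0) :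
    ∃ a' : ι → F[X], (∀ i, a' i ≠ 0) ∧ (∀ π : F[X], π.Monic → Irreducible π → NFat k a' π) ∧
      (Iso k a' → Iso k a) := by
  have hex : ∃ n : ℕ, ∃ b : ι → F[X], (∀ i, b i ≠ 0) ∧ (Iso k b → Iso k a) ∧
      ∑ i, (b i).natDegree = n := ⟨_, a, ha, id, rfl⟩
  obtain ⟨b, hb, hI, hn⟩ := Nat.find_spec hex
  refine ⟨b, hb, fun π _ hπ => ?_, hI⟩
  have hf : ∀ i, FiniteMultiplicity π (b i) := fun i =>
    FiniteMultiplicity.of_not_isUnit hπ.not_isUnit (hb i)
  refine ⟨fun i => multiplicity π (b i), norm_DL hk hι _ fun c T hT => ?_,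
    fun i => (hf i).exists_eq_pow_mul_and_not_dvd⟩
  obtain ⟨b', h1, h2, h3⟩ := norm_step (k := k) hb hπ.ne_zero c T fun i hi =>
    (pow_dvd_pow π (hT i hi)).trans (by
      rw [pow_add]
      exact mul_dvd_mul_left _ (pow_multiplicity_dvd π (b i)))
  have h4 := Nat.find_min' hex ⟨b', h1, fun h => hI (h2 h), rfl⟩
  exact Nat.le_of_mul_le_mul_right (by omega) hπ.natDegree_pos

theorem normal_inf {k : ℕ} (hk : 1 ≤ k) (hι : Fintype.card ι = 2 * k + 1) (a : ι → F[X])
    (ha : ∀ i, a i ≠ 0) :
    ∃ (n₀ : ℕ) (D e₀ : ι → ℕ), (∀ i, n₀ = D i + k * e₀ i) ∧ (∀ i, (a i).natDegree ≤ D i) ∧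
      NFat k (fun i => reflect (D i) (a i)) X := by
  have hex : ∃ s : ℕ, ∃ n : ℕ, (∀ i, (a i).natDegree ≤ n) ∧
      ∑ i, (n - (a i).natDegree) % k = s :=
    ⟨_, ∑ i, (a i).natDegree, fun i =>
      single_le_sum (f := fun i => (a i).natDegree) (fun _ _ => Nat.zero_le _) (mem_univ i), rfl⟩
  obtain ⟨n, hn, hs⟩ := Nat.find_spec hex
  refine ⟨n, fun i => (a i).natDegree + (n - (a i).natDegree) % k,
    fun i => (n - (a i).natDegree) / k, fun i => ?_, fun i => Nat.le_add_right _ _,
    fun i => (n - (a i).natDegree) % k, norm_DL hk hι _ fun c T hT => ?_,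
    fun i => ⟨(a i).reverse, ?_, ?_⟩⟩
  · have := Nat.mod_add_div (n - (a i).natDegree) k
    have := hn i
    dsimp only
    omega
  · have h1 := Nat.find_min' hex ⟨n + c, fun i => (hn i).trans (Nat.le_add_right _ _), rfl⟩
    have h2 : ∀ i, (n + c - (a i).natDegree) % k + (if i ∈ T then k else 0) ≤
        (n - (a i).natDegree) % k + c := fun i => by
      rw [show n + c - (a i).natDegree = n - (a i).natDegree + c by have := hn i; omega,
        ← Nat.mod_add_mod]
      split_ifs with hi
      · have h3 := hT i hi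
        rw [Nat.mod_eq_sub_mod (by omega)]
        have := Nat.mod_le ((n - (a i).natDegree) % k + c - k) k
        omega
      · exact Nat.mod_le _ _
    have h3 := sum_le_sum (s := (univ : Finset ι)) fun i _ => h2 i
    rw [sum_add_distrib, sum_add_distrib, sum_ite_mem, univ_inter, sum_const, sum_const,
      card_univ, smul_eq_mul, smul_eq_mul] at h3
    linarith
  · have h1 := reflect_mul (a i) 1 (F := (a i).natDegree) (G := (n - (a i).natDegree) % k) le_rfl
      (by simp)
    rw [mul_one, reflect_one, mul_comm] at h1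
    exact h1
  · rw [X_dvd_iff, coeff_zero_reverse]
    exact leadingCoeff_ne_zero.2 (ha i)

end Pool.Agent.Lib.MP_879916_ag.Dg
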