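import Pool.Agent.Lib.MP_879916_ag.DgBase

/-! Multiplicity patterns of monic polynomials. -/

set_option linter.unusedSectionVars false

noncomputable section

namespace Pool.Agent.Lib.MP_879916_ag.Dg

open Polynomial Finset
open scoped Classical

variable {F : Type} [Field F] [Fintype F]

lemma pat_mem {μ π : F[X]} (hμ : μ ≠ 0) :
    π ∈ UniqueFactorizationMonoid.primeFactors μ ↔ Irreducible π ∧ π.Monic ∧ π ∣ μ := by
  rw [UniqueFactorizationMonoid.mem_primeFactors, Polynomial.mem_normalizedFactors_iff hμ]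

lemma pat_of_mem {μ π : F[X]} (h : π ∈ UniqueFactorizationMonoid.primeFactors μ) :
    Irreducible π ∧ π.Monic ∧ π ∣ μ :=
  (pat_mem (by rintro rfl; simp at h)).1 h

lemma pat_pos {μ π : F[X]} (h : π ∈ UniqueFactorizationMonoid.primeFactors μ) :
    0 < multiplicity π μ := multiplicity_pos_of_dvd (pat_of_mem h).2.2

lemma pat_cop {μ π π' : F[X]} (h : π ∈ UniqueFactorizationMonoid.primeFactors μ)
    (h' : π' ∈ UniqueFactorizationMonoid.primeFactors μ) (hne : π ≠ π') : IsCoprime π π' :=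
  (UniqueFactorizationMonoid.pairwise_primeFactors_isRelPrime h h' hne).isCoprime

lemma pat_prod {μ : F[X]} (hμ : μ.Monic) :
    ∏ π ∈ UniqueFactorizationMonoid.primeFactors μ, π ^ multiplicity π μ = μ := by
  have h := leadingCoeff_mul_prod_normalizedFactors μ
  rw [hμ.leadingCoeff, C_1, one_mul, prod_multiset_count,
    UniqueFactorizationMonoid.toFinset_normalizedFactors] at h
  refine (prod_congr rfl fun π hπ => ?_).trans h
  rw [UniqueFactorizationMonoid.multiplicity_eq_count_normalizedFactors (pat_of_mem hπ).1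
    hμ.ne_zero, (pat_of_mem hπ).2.1.normalize_eq_self]

lemma pat_natDegree (μ : F[X]) (c : F[X] → ℕ) :
    (∏ π ∈ UniqueFactorizationMonoid.primeFactors μ, π ^ c π).natDegree =
      ∑ π ∈ UniqueFactorizationMonoid.primeFactors μ, c π * π.natDegree := by
  rw [natDegree_prod_of_monic _ _ fun π hπ => (pat_of_mem hπ).2.1.pow _]
  simp only [natDegree_pow]

lemma pat_deg {μ : F[X]} (hμ : μ.Monic) : μ.natDegree =
    ∑ π ∈ UniqueFactorizationMonoid.primeFactors μ, multiplicity π μ * π.natDegree := by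
  rw [← pat_natDegree, pat_prod hμ]

lemma pat_fib {M : Type} [CommMonoid M] {n : ℕ} {s : Finset F[X]} {g : F[X] → ℕ}
    (h : ∀ π ∈ s, g π ≤ n) (f : ℕ → F[X] → M) :
    ∏ b : Fin (n + 1), ∏ π ∈ s.filter (fun π => g π = b), f b π = ∏ π ∈ s, f (g π) π := by
  rw [Fin.prod_univ_eq_prod_range fun b => ∏ π ∈ s.filter (fun π => g π = b), f b π,
    ← prod_fiberwise_of_maps_to (t := range (n + 1)) (g := g)
      fun π hπ => mem_range.2 (Nat.lt_succ_of_le (h π hπ))]
  exact prod_congr rfl fun b _ => prod_congr rfl fun π hπ => by rw [(mem_filter.1 hπ).2]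

lemma pat_fib' {n : ℕ} {s : Finset F[X]} {g : F[X] → ℕ} (h : ∀ π ∈ s, g π ≤ n)
    (f : ℕ → F[X] → ℕ) :
    ∑ b : Fin (n + 1), ∑ π ∈ s.filter (fun π => g π = b), f b π = ∑ π ∈ s, f (g π) π :=
  pat_fib (M := Multiplicative ℕ) h f

lemma monic_induction {P : F[X] → Prop} (h1 : P 1)
    (hs : ∀ (π ν : F[X]) (j : ℕ), π.Monic → Irreducible π → ν.Monic → ¬ π ∣ ν → 0 < j → P ν →
      P (π ^ j * ν)) : ∀ μ : F[X], μ.Monic → P μ := by
  intro μ hμ
  have : ∀ s ⊆ UniqueFactorizationMonoid.primeFactors μ, P (∏ π ∈ s, π ^ multiplicity π μ) := by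
    intro s
    induction s using Finset.induction_on with
    | empty => exact fun _ => h1
    | insert π s hπ ih =>
      intro h
      have h2 := h (mem_insert_self _ _)
      have h3 : s ⊆ _ := (subset_insert _ _).trans h
      rw [prod_insert hπ]
      refine hs _ _ _ (pat_of_mem h2).2.1 (pat_of_mem h2).1
        (monic_prod_of_monic _ _ fun π' h' => (pat_of_mem (h3 h')).2.1.pow _) ?_ (pat_pos h2) (ih h3)
      exact (pat_of_mem h2).1.coprime_iff_not_dvd.1 (IsCoprime.prod_right fun π' h' =>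
        (pat_cop h2 (h3 h') (by rintro rfl; exact hπ h')).pow_right)
  exact pat_prod hμ ▸ this _ subset_rfl

lemma rho_monic (k : ℕ) (μ : F[X]) : (rho k μ).Monic :=
  monic_prod_of_monic _ _ fun _ h => (pat_of_mem h).2.1.pow _

lemma om_one : om (1 : F[X]) = 0 := by simp [om]

lemma om_prime_pow_mul {π ν : F[X]} (hπ : π.Monic) (hi : Irreducible π) (hν : ν.Monic)
    (hd : ¬ π ∣ ν) {j : ℕ} (hj : 0 < j) : om (π ^ j * ν) = π.natDegree + om ν := by
  have e : UniqueFactorizationMonoid.primeFactors (π ^ j * ν) =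
      insert π (UniqueFactorizationMonoid.primeFactors ν) := by
    ext π'
    rw [mem_insert, pat_mem ((hπ.pow j).mul hν).ne_zero, pat_mem hν.ne_zero]
    constructor
    · rintro ⟨h1, h2, h3⟩
      rcases h1.prime.dvd_or_dvd h3 with h | h
      · exact .inl (eq_of_monic_of_associated h2 hπ
          (h1.associated_of_dvd hi (h1.prime.dvd_of_dvd_pow h)))
      · exact .inr ⟨h1, h2, h⟩
    · rintro (rfl | ⟨h1, h2, h3⟩)
      · exact ⟨hi, hπ, (dvd_pow_self _ hj.ne').mul_right _⟩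
      · exact ⟨h1, h2, h3.mul_left _⟩
  rw [om, e, sum_insert fun h => hd (pat_of_mem h).2.2, om]

lemma deg_le_rho {k : ℕ} (hk : 2 ≤ k) {μ : F[X]} (hμ : μ.Monic) :
    μ.natDegree ≤ (k - 1) * (rho k μ).natDegree := by
  obtain ⟨m, rfl⟩ : ∃ m, k = m + 2 := ⟨k - 2, by omega⟩
  rw [rho, pat_natDegree, pat_deg hμ, mul_sum]
  refine sum_le_sum fun π _ => ?_
  rw [← mul_assoc]
  refine Nat.mul_le_mul_right _ ?_
  have h1 := Nat.div_add_mod (multiplicity π μ + (m + 2 - 2)) (m + 2 - 1)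
  have h2 := Nat.mod_lt (multiplicity π μ + (m + 2 - 2)) (show 0 < m + 2 - 1 by omega)
  omega

lemma om_tt_le {k : ℕ} (hk : 2 ≤ k) (hch : Ch k F) {μ : F[X]} (hμ : μ.Monic) :
    om μ + k * tt μ ≤ (rho k μ).natDegree := by
  obtain ⟨m, rfl⟩ : ∃ m, k = m + 2 := ⟨k - 2, by omega⟩
  rw [rho, pat_natDegree, om, tt, sum_filter, mul_sum, ← sum_add_distrib]
  refine sum_le_sum fun π hπ => ?_
  have h0 := pat_pos hπ
  change _ ≤ (_ + m) / (m + 1) * _
  split_ifs with h
  · have h1 : (m + 2) * (m + 1) < multiplicity π μ := by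
      by_contra h1
      exact hch _ h0 (not_lt.1 h1) h
    rw [← one_add_mul]
    exact Nat.mul_le_mul_right _ ((Nat.le_div_iff_mul_le (by omega)).2 (by nlinarith))
  · exact Nat.le_mul_of_pos_left _ (Nat.div_pos (by omega) (by omega))

lemma rho_dvd {k : ℕ} (hk : 2 ≤ k) {μ x : F[X]} (hμ : μ.Monic) (h : μ ∣ x ^ (k - 1)) :
    rho k μ ∣ x := by
  obtain ⟨m, rfl⟩ : ∃ m, k = m + 2 := ⟨k - 2, by omega⟩
  rcases eq_or_ne x 0 with rfl | hx
  · exact dvd_zero _
  refine Finset.prod_dvd_of_coprime (fun π h1 π' h2 hne => (pat_cop h1 h2 hne).pow) fun π hπ => ?_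
  have hi := (pat_of_mem hπ).1
  obtain ⟨a, y, hy, rfl⟩ := WfDvdMonoid.max_power_factor hx hi
  refine (pow_dvd_pow _ ?_).mul_right _
  have h1 : multiplicity π μ ≤ a * (m + 1) := by
    by_contra h1
    have h2 := ((pow_dvd_pow π (not_le.1 h1)).trans (pow_multiplicity_dvd π μ)).trans h
    rw [mul_pow, ← pow_mul, pow_succ] at h2
    exact hy (hi.prime.dvd_of_dvd_pow ((mul_dvd_mul_iff_left (pow_ne_zero _ hi.ne_zero)).1 h2))
  exact Nat.le_of_lt_succ ((Nat.div_lt_iff_lt_mul (show 0 < m + 1 by omega)).2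
    (show _ + m < (a + 1) * (m + 1) by nlinarith))

lemma SS_monic {n : ℕ} (d : Fin (n + 1) → ℕ) (x : (Σ b : Fin (n + 1), Fin (d b)) → F)
    (b : Fin (n + 1)) : (SS d x b).Monic := monic_X_pow_add (Ev_degree_lt _)

lemma SS_natDegree {n : ℕ} (d : Fin (n + 1) → ℕ) (x : (Σ b : Fin (n + 1), Fin (d b)) → F)
    (b : Fin (n + 1)) : (SS d x b).natDegree = d b := by
  rw [SS, natDegree_add_eq_left_of_degree_lt (by rw [degree_X_pow]; exact Ev_degree_lt _),
    natDegree_X_pow]

lemma exists_param {n : ℕ} {μ : F[X]} (hμ : μ.Monic) (hn : μ.natDegree ≤ n) :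
    ∃ d ∈ DD n, ∃ x : (Σ b : Fin (n + 1), Fin (d b)) → F, MM d x = μ ∧
      (Pairwise fun b b' => IsCoprime (SS d x b) (SS d x b')) ∧ ∑ b, d b = om μ ∧
      ∑ b ∈ univ.filter (fun b : Fin (n + 1) => ((b : ℕ) : F) = 0), d b = tt μ ∧
      ∑ b : Fin (n + 1), (b : ℕ) * d b = μ.natDegree := by
  have hle : ∀ π ∈ UniqueFactorizationMonoid.primeFactors μ, multiplicity π μ ≤ n := fun π hπ =>
    (Nat.le_mul_of_pos_right _ (pat_of_mem hπ).1.natDegree_pos).trans
      (((single_le_sum (f := fun π : F[X] => multiplicity π μ * π.natDegree)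
        (fun _ _ => Nat.zero_le _) hπ).trans_eq (pat_deg hμ).symm).trans hn)
  obtain ⟨s, hs⟩ : ∃ s : Fin (n + 1) → F[X], ∀ b, s b = ∏ π ∈
    (UniqueFactorizationMonoid.primeFactors μ).filter (fun π => multiplicity π μ = b), π :=
    ⟨_, fun _ => rfl⟩
  have hm : ∀ b, (s b).Monic := fun b => hs b ▸
    monic_prod_of_monic _ _ fun π h => (pat_of_mem (mem_filter.1 h).1).2.1
  have hd : ∀ b, (s b).natDegree = ∑ π ∈ (UniqueFactorizationMonoid.primeFactors μ).filter
      (fun π => multiplicity π μ = b), π.natDegree := fun b => by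
    rw [hs, natDegree_prod_of_monic _ _ fun π h => (pat_of_mem (mem_filter.1 h).1).2.1]
  have hS : ∀ b, SS (fun b => (s b).natDegree) (fun p => (s p.1).coeff p.2) b = s b := fun b => by
    ext l
    rw [SS, coeff_add, coeff_X_pow, Ev_coeff]
    rcases lt_trichotomy l (s b).natDegree with h | rfl | h
    · simp [h, h.ne]
    · simp [(hm b).coeff_natDegree]
    · simp [h.ne', h.not_gt, coeff_eq_zero_of_natDegree_lt h]
  have hom : ∑ b, (s b).natDegree = om μ := by
    simp only [hd]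
    exact pat_fib' hle fun _ π => π.natDegree
  have hom' : om μ ≤ n := by
    refine le_trans ?_ hn
    rw [pat_deg hμ]
    exact sum_le_sum fun π hπ => Nat.le_mul_of_pos_left _ (pat_pos hπ)
  refine ⟨fun b => (s b).natDegree, mem_filter.2 ⟨Fintype.mem_piFinset.2 fun b =>
    mem_range.2 (Nat.lt_succ_of_le ?_), hom.trans_le hom'⟩, fun p => (s p.1).coeff p.2, ?_, ?_,
    hom, ?_, ?_⟩
  · exact (single_le_sum (f := fun b => (s b).natDegree) (fun _ _ => Nat.zero_le _)
      (mem_univ b)).trans (hom.trans_le hom')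
  · simp only [MM, hS]
    simp only [hs, ← prod_pow]
    exact (pat_fib hle fun b π => π ^ b).trans (pat_prod hμ)
  · intro b b' hne
    beta_reduce
    rw [hS, hS, hs, hs]
    refine IsCoprime.prod_left fun π h => IsCoprime.prod_right fun π' h' =>
      pat_cop (mem_filter.1 h).1 (mem_filter.1 h').1 ?_
    rintro rfl
    exact hne (Fin.ext ((mem_filter.1 h).2.symm.trans (mem_filter.1 h').2))
  · rw [tt, sum_filter, sum_filter,
      ← pat_fib' hle fun b π => if (b : F) = 0 then π.natDegree else 0]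
    refine sum_congr rfl fun b _ => ?_
    split_ifs
    exacts [hd b, sum_const_zero.symm]
  · simp only [hd, mul_sum]
    exact (pat_fib' hle fun b π => b * π.natDegree).trans (pat_deg hμ).symm

lemma card_DD (n : ℕ) : (DD n).card ≤ 4 ^ (n + 1) := by
  have h1 : ((DD n).card : ℝ) * (1 / 2) ^ n ≤ 2 ^ (n + 1) :=
    calc _ = ∑ _d ∈ DD n, (1 / 2 : ℝ) ^ n := by rw [sum_const, nsmul_eq_mul]
      _ ≤ ∑ d ∈ DD n, ∏ b, (1 / 2 : ℝ) ^ d b := sum_le_sum fun d hd => by
          rw [prod_pow_eq_pow_sum]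
          exact pow_le_pow_of_le_one (by norm_num) (by norm_num) (mem_filter.1 hd).2
      _ ≤ ∑ d ∈ Fintype.piFinset fun _ : Fin (n + 1) => range (n + 1), ∏ b, (1 / 2 : ℝ) ^ d b :=
          sum_le_sum_of_subset_of_nonneg (filter_subset _ _) fun _ _ _ => by positivity
      _ = ∏ _b : Fin (n + 1), ∑ j ∈ range (n + 1), (1 / 2 : ℝ) ^ j := (prod_univ_sum _ _).symm
      _ ≤ ∏ _b : Fin (n + 1), (2 : ℝ) :=
          prod_le_prod (fun _ _ => by positivity) fun _ _ => sum_geometric_two_le _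
      _ = _ := by simp
  rw [one_div, inv_pow, mul_inv_le_iff₀ (by positivity)] at h1
  have h2 : (2 : ℝ) ^ (n + 1) * 2 ^ n ≤ 4 ^ (n + 1) := by
    rw [show (4 : ℝ) = 2 * 2 by norm_num, mul_pow]
    gcongr <;> norm_num
  exact_mod_cast h1.trans h2

lemma sum_om (n : ℕ) :
    ∑ μ ∈ (PL F (n + 1)).filter Monic, (1 / (Fintype.card F : ℝ)) ^ om μ ≤ 4 ^ (n + 1) := by
  have hq : (0 : ℝ) < Fintype.card F := by exact_mod_cast Fintype.card_pos
  let T := (DD n).sigma fun d => (univ : Finset ((Σ b : Fin (n + 1), Fin (d b)) → F))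
  calc _ ≤ ∑ μ ∈ (T.filter fun p => ∑ b, p.1 b = om (MM p.1 p.2)).image fun p => MM p.1 p.2,
        (1 / (Fintype.card F : ℝ)) ^ om μ := by
        refine sum_le_sum_of_subset_of_nonneg (fun μ h => ?_) fun _ _ _ => by positivity
        obtain ⟨d, hd, x, h1, -, h2, -⟩ :=
          exists_param (mem_filter.1 h).2 (mem_PL_succ.1 (mem_filter.1 h).1)
        exact mem_image.2 ⟨⟨d, x⟩, mem_filter.2 ⟨mem_sigma.2 ⟨hd, mem_univ _⟩, h1 ▸ h2⟩, h1⟩
    _ ≤ ∑ p ∈ T.filter fun p => ∑ b, p.1 b = om (MM p.1 p.2),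
        (1 / (Fintype.card F : ℝ)) ^ om (MM p.1 p.2) :=
        sum_image_le_of_nonneg fun _ _ => by positivity
    _ = ∑ p ∈ T.filter fun p => ∑ b, p.1 b = om (MM p.1 p.2),
        (1 / (Fintype.card F : ℝ)) ^ ∑ b, p.1 b :=
        sum_congr rfl fun p hp => by rw [(mem_filter.1 hp).2]
    _ ≤ ∑ p ∈ T, (1 / (Fintype.card F : ℝ)) ^ ∑ b, p.1 b :=
        sum_le_sum_of_subset_of_nonneg (filter_subset _ _) fun _ _ _ => by positivity
    _ = ∑ _d ∈ DD n, (1 : ℝ) := by
        rw [sum_sigma]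
        refine sum_congr rfl fun d _ => ?_
        simp [Fintype.card_sigma, hq.ne']
    _ ≤ _ := by
        rw [sum_const, nsmul_eq_mul, mul_one]
        exact_mod_cast card_DD n

end Pool.Agent.Lib.MP_879916_ag.Dg
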