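import Pool.Agent.Lib.MP_879916_ag.DgLoc
import Pool.Agent.Lib.MP_879916_ag.DgPat

/-! The singular series converges to a non-zero limit. -/

set_option linter.unusedSectionVars false

noncomputable section

namespace Pool.Agent.Lib.MP_879916_ag.Dg

open Polynomial Finset
open scoped Classical

variable {F : Type} [Field F] [Fintype F]

variable {ι : Type} [Fintype ι]

lemma ser_geo {s : Finset ℕ} (h : 0 ∉ s) : ∑ j ∈ s, (1 / 10 : ℝ) ^ j ≤ 1 / 9 := by
  have h1 := sum_le_hasSum (insert 0 s) (fun j _ => by positivity)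
    (hasSum_geometric_of_lt_one (r := 1 / 10) (by norm_num) (by norm_num))
  rw [Finset.sum_insert h, pow_zero] at h1
  norm_num at h1 ⊢
  linarith

lemma ser_near {T : Type} (e : T) {f : T → ℂ} {g : T → ℝ} (hg : ∀ x, ‖f x‖ ≤ g x) (he : f e = 1)
    (h : ∀ s : Finset T, e ∉ s → ∑ x ∈ s, g x ≤ 1 / 2) :
    Summable g ∧ ‖∑' x, f x - 1‖ ≤ 1 / 2 := by
  have h0 : ∀ x, 0 ≤ g x := fun x => (norm_nonneg _).trans (hg x)
  have h1 : Summable g := by
    refine summable_of_sum_le (c := g e + 1 / 2) h0 fun s => ?_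
    have h2 := h (s.erase e) (Finset.notMem_erase e s)
    have h3 : ∑ x ∈ s, g x ≤ ∑ x ∈ insert e (s.erase e), g x :=
      Finset.sum_le_sum_of_subset_of_nonneg (Finset.subset_insert_iff.2 Finset.Subset.rfl)
        fun x _ _ => h0 x
    rw [Finset.sum_insert (Finset.notMem_erase e s)] at h3
    linarith
  refine ⟨h1, ?_⟩
  rw [(Summable.of_norm_bounded h1 hg).tsum_eq_add_tsum_ite e, he, add_sub_cancel_left]
  have h4 : ∀ x, ‖if x = e then 0 else f x‖ ≤ if x = e then 0 else g x := fun x => by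
    split_ifs
    · exact norm_zero.le
    · exact hg x
  have h5 : ∀ s : Finset T, ∑ x ∈ s, (if x = e then 0 else g x) ≤ 1 / 2 := fun s => by
    rw [Finset.sum_ite, Finset.sum_const_zero, zero_add]
    exact h _ (by simp)
  have h6 : Summable fun x => if x = e then 0 else g x :=
    summable_of_sum_le (fun x => (norm_nonneg _).trans (h4 x)) h5
  exact (tsum_of_norm_bounded h6.hasSum h4).trans (h6.tsum_le_of_sum_le h5)

lemma ser_ne {z : ℂ} (h : ‖z - 1‖ ≤ 1 / 2) : z ≠ 0 := by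
  rintro rfl
  norm_num at h

lemma local_series {k : ℕ} {a : ι → F[X]} {π : F[X]} (hi : Irreducible π) {θ : ℝ} (h0 : 0 ≤ θ)
    (hθ : θ ≤ 1 / 40) (h : ∀ j, 1 ≤ j → fb k a (π ^ j) ≤ θ ^ (j * π.natDegree)) :
    Summable (fun j : ℕ => fb k a (π ^ j)) ∧ ‖∑' j : ℕ, ff k a (π ^ j) - 1‖ ≤ 1 / 2 := by
  refine ser_near 0 (fun j => norm_ff_le k a _) (by rw [pow_zero, ff_one]) fun s hs => ?_
  refine le_trans (Finset.sum_le_sum fun j hj => ?_) ((ser_geo hs).trans (by norm_num))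
  have hj1 : 1 ≤ j := Nat.one_le_iff_ne_zero.2 fun h => hs (h ▸ hj)
  have hd : 1 ≤ π.natDegree := hi.natDegree_pos
  refine (h j hj1).trans ((pow_le_pow_of_le_one h0 (by linarith)
    (Nat.le_mul_of_pos_right j hd)).trans (pow_le_pow_left₀ h0 (by linarith) j))

lemma ser_cop {π ν : F[X]} (hi : Irreducible π) (hd : ¬ π ∣ ν) (j : ℕ) : IsCoprime (π ^ j) ν :=
  (hi.coprime_iff_not_dvd.2 hd).pow_left

lemma ser_fb {k : ℕ} {a : ι → F[X]} {θ : ℝ} (h0 : 0 ≤ θ) (S : Finset F[X])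
    (h : ∀ π : F[X], π.Monic → Irreducible π → π ∉ S → ∀ j, 1 ≤ j →
      fb k a (π ^ j) ≤ θ ^ (j * π.natDegree) * (1 / (Fintype.card F : ℝ)) ^ π.natDegree) :
    ∀ μ : F[X], μ.Monic → (∀ π ∈ S, ¬ π ∣ μ) →
      fb k a μ ≤ θ ^ μ.natDegree * (1 / (Fintype.card F : ℝ)) ^ om μ := by
  refine monic_induction (fun _ => by simp [fb_one, om_one]) fun π ν j hπ hi hν hd hj ih hS => ?_
  have h1 := h π hπ hi (fun hm => hS π hm ((dvd_pow_self π hj.ne').mul_right ν)) j hj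
  have h2 := ih fun π' hm hd' => hS π' hm (hd'.mul_left _)
  rw [fb_mul k a (hπ.pow j) hν (ser_cop hi hd j), om_prime_pow_mul hπ hi hν hd hj,
    (hπ.pow j).natDegree_mul hν, natDegree_pow, pow_add, pow_add, mul_mul_mul_comm]
  exact mul_le_mul h1 h2 (fb_nonneg k a ν) (by positivity)

/-- the part of the series prime to the finite set `S` of bad primes -/
lemma good_series {k : ℕ} {a : ι → F[X]} {θ : ℝ} (h0 : 0 ≤ θ) (hθ : θ ≤ 1 / 40)
    (S : Finset F[X]) (hS : ∀ π ∈ S, Irreducible π)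
    (h : ∀ π : F[X], π.Monic → Irreducible π → π ∉ S → ∀ j, 1 ≤ j →
      fb k a (π ^ j) ≤ θ ^ (j * π.natDegree) * (1 / (Fintype.card F : ℝ)) ^ π.natDegree) :
    Summable (fun μ : {μ : F[X] // μ.Monic ∧ ∀ π ∈ S, ¬ π ∣ μ} => fb k a μ) ∧
      ∑' μ : {μ : F[X] // μ.Monic ∧ ∀ π ∈ S, ¬ π ∣ μ}, ff k a μ ≠ 0 := by
  refine (ser_near (T := {μ : F[X] // μ.Monic ∧ ∀ π ∈ S, ¬ π ∣ μ})
    ⟨1, monic_one, fun π hπ => (hS π hπ).not_dvd_one⟩ (f := fun μ => ff k a μ)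
    (g := fun μ => fb k a μ) (fun μ => norm_ff_le k a _) (ff_one k a)
    fun s hs => ?_).imp_right ser_ne
  have h1 : 0 ∉ s.image fun μ => μ.1.natDegree := fun hm => by
    obtain ⟨μ, hμ, h2⟩ := Finset.mem_image.1 hm
    have h3 : μ = ⟨1, monic_one, fun π hπ => (hS π hπ).not_dvd_one⟩ :=
      Subtype.ext (μ.2.1.natDegree_eq_zero.1 h2)
    exact hs (h3 ▸ hμ)
  rw [← Finset.sum_fiberwise_of_maps_to (g := fun μ => μ.1.natDegree)
    (t := s.image fun μ => μ.1.natDegree) fun μ hμ => Finset.mem_image_of_mem _ hμ]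
  refine le_trans (Finset.sum_le_sum (g := fun d => 4 * (1 / 10 : ℝ) ^ d) fun d _ => ?_) ?_
  · have h2 : ∑ μ ∈ s.filter (fun μ => μ.1.natDegree = d), fb k a μ ≤
        ∑ μ ∈ s.filter (fun μ => μ.1.natDegree = d), θ ^ d * (1 / (Fintype.card F : ℝ)) ^ om μ.1 :=
      Finset.sum_le_sum fun μ hμ => (Finset.mem_filter.1 hμ).2 ▸ ser_fb h0 S h μ μ.2.1 μ.2.2
    have h3 : ∑ μ ∈ s.filter (fun μ => μ.1.natDegree = d), (1 / (Fintype.card F : ℝ)) ^ om μ.1 ≤
        4 ^ (d + 1) := by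
      refine le_trans ?_ (sum_om (F := F) d)
      rw [← Finset.sum_image (g := Subtype.val) (f := fun μ : F[X] => (1 / (Fintype.card F : ℝ)) ^ om μ)
        Subtype.val_injective.injOn]
      refine Finset.sum_le_sum_of_subset_of_nonneg (fun μ hμ => ?_) fun _ _ _ => by positivity
      obtain ⟨ν, hν, rfl⟩ := Finset.mem_image.1 hμ
      exact Finset.mem_filter.2 ⟨mem_PL_succ.2 (Finset.mem_filter.1 hν).2.le, ν.2.1⟩
    rw [← Finset.mul_sum] at h2
    refine h2.trans ((mul_le_mul (pow_le_pow_left₀ h0 hθ d) h3 (Finset.sum_nonneg fun _ _ => by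
      positivity) (by positivity)).trans (le_of_eq ?_))
    rw [pow_succ, ← mul_assoc, ← mul_pow, mul_comm]
    norm_num
  · rw [← Finset.mul_sum]
    linarith [ser_geo h1]

lemma ser_pow_inj {π ν ν' : F[X]} (h0 : π ≠ 0) (hd : ¬ π ∣ ν) {j j' : ℕ}
    (h : π ^ j * ν = π ^ j' * ν') : j' ≤ j := by
  by_contra hlt
  obtain ⟨t, rfl⟩ := Nat.exists_eq_add_of_lt (not_le.1 hlt)
  rw [add_assoc, pow_add, mul_assoc] at h
  rw [mul_left_cancel₀ (pow_ne_zero j h0) h] at hd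
  exact hd ((dvd_pow_self π (Nat.succ_ne_zero t)).mul_right _)

lemma ser_step {k : ℕ} {a : ι → F[X]} {U : Finset F[X]} {π : F[X]} (hπ : π.Monic)
    (hi : Irreducible π) (hn : π ∉ U) (hU : ∀ π ∈ U, π.Monic ∧ Irreducible π)
    (h1 : Summable fun j : ℕ => fb k a (π ^ j)) (h2 : ∑' j : ℕ, ff k a (π ^ j) ≠ 0)
    (h3 : Summable (fun μ : {μ : F[X] // μ.Monic ∧ ∀ π' ∈ insert π U, ¬ π' ∣ μ} => fb k a μ) ∧
      ∑' μ : {μ : F[X] // μ.Monic ∧ ∀ π' ∈ insert π U, ¬ π' ∣ μ}, ff k a μ ≠ 0) :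
    Summable (fun μ : {μ : F[X] // μ.Monic ∧ ∀ π' ∈ U, ¬ π' ∣ μ} => fb k a μ) ∧
      ∑' μ : {μ : F[X] // μ.Monic ∧ ∀ π' ∈ U, ¬ π' ∣ μ}, ff k a μ ≠ 0 := by
  have hd : ∀ ν : {μ : F[X] // μ.Monic ∧ ∀ π' ∈ insert π U, ¬ π' ∣ μ}, ¬ π ∣ ν.1 := fun ν =>
    ν.2.2 π (Finset.mem_insert_self π U)
  let φ : ℕ × {μ : F[X] // μ.Monic ∧ ∀ π' ∈ insert π U, ¬ π' ∣ μ} →
      {μ : F[X] // μ.Monic ∧ ∀ π' ∈ U, ¬ π' ∣ μ} := fun p =>
    ⟨π ^ p.1 * p.2.1, (hπ.pow _).mul p.2.2.1, fun π' hm hdv => by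
      obtain ⟨m1, m2⟩ := hU π' hm
      rcases m2.prime.dvd_or_dvd hdv with h | h
      · exact hn (eq_of_monic_of_associated m1 hπ
          (m2.associated_of_dvd hi (m2.prime.dvd_of_dvd_pow h)) ▸ hm)
      · exact p.2.2.2 π' (Finset.mem_insert_of_mem hm) h⟩
  have hφ : Function.Bijective φ := by
    refine ⟨fun p p' h => ?_, fun μ => ?_⟩
    · have h4 : π ^ p.1 * p.2.1 = π ^ p'.1 * p'.2.1 := congrArg Subtype.val h
      have h5 : p.1 = p'.1 := le_antisymm (ser_pow_inj hi.ne_zero (hd p'.2) h4.symm)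
        (ser_pow_inj hi.ne_zero (hd p.2) h4)
      rw [h5] at h4
      exact Prod.ext h5 (Subtype.ext (mul_left_cancel₀ (pow_ne_zero _ hi.ne_zero) h4))
    · obtain ⟨j, ν, h4, h5⟩ := WfDvdMonoid.max_power_factor μ.2.1.ne_zero hi
      refine ⟨(j, ⟨ν, (hπ.pow j).of_mul_monic_left (h5 ▸ μ.2.1), fun π' hm hdv => ?_⟩),
        Subtype.ext h5.symm⟩
      rcases Finset.mem_insert.1 hm with rfl | hm
      · exact h4 hdv
      · exact μ.2.2 π' hm (h5 ▸ hdv.mul_left _)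
  constructor
  · refine (Equiv.ofBijective φ hφ).summable_iff.1
      ((h1.mul_of_nonneg h3.1 (fun _ => fb_nonneg k a _) fun _ => fb_nonneg k a _).congr fun p => ?_)
    exact (fb_mul k a (hπ.pow _) p.2.2.1 (ser_cop hi (hd p.2) _)).symm
  · rw [← (Equiv.ofBijective φ hφ).tsum_eq]
    have h4 := tsum_mul_tsum_of_summable_norm
      (Summable.of_nonneg_of_le (fun _ => norm_nonneg _) (fun _ => norm_ff_le k a _) h1)
      (Summable.of_nonneg_of_le (fun _ => norm_nonneg _) (fun _ => norm_ff_le k a _) h3.1)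
    refine fun h => mul_ne_zero h2 h3.2 (h4.trans (Eq.trans (tsum_congr fun p => ?_) h))
    exact (ff_mul k a (hπ.pow _) p.2.2.1 (ser_cop hi (hd p.2) _)).symm

theorem series {k : ℕ} {a : ι → F[X]} {θ : ℝ} (h0 : 0 ≤ θ) (hθ : θ ≤ 1 / 40) (S : Finset F[X])
    (hS : ∀ π ∈ S, π.Monic ∧ Irreducible π)
    (hbad : ∀ π ∈ S, ∀ j, 1 ≤ j → fb k a (π ^ j) ≤ θ ^ (j * π.natDegree))
    (hgood : ∀ π : F[X], π.Monic → Irreducible π → π ∉ S → ∀ j, 1 ≤ j →
      fb k a (π ^ j) ≤ θ ^ (j * π.natDegree) * (1 / (Fintype.card F : ℝ)) ^ π.natDegree) :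
    Summable (fun μ : {μ : F[X] // μ.Monic} => fb k a μ) ∧
      ∑' μ : {μ : F[X] // μ.Monic}, ff k a μ ≠ 0 := by
  have key : ∀ U : Finset F[X], U ⊆ S →
      (Summable (fun μ : {μ : F[X] // μ.Monic ∧ ∀ π ∈ U, ¬ π ∣ μ} => fb k a μ) ∧
        ∑' μ : {μ : F[X] // μ.Monic ∧ ∀ π ∈ U, ¬ π ∣ μ}, ff k a μ ≠ 0) →
      Summable (fun μ : {μ : F[X] // μ.Monic} => fb k a μ) ∧
        ∑' μ : {μ : F[X] // μ.Monic}, ff k a μ ≠ 0 := by
    intro U
    induction U using Finset.induction_on with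
    | empty =>
      intro _ h
      let e : {μ : F[X] // μ.Monic ∧ ∀ π ∈ (∅ : Finset F[X]), ¬ π ∣ μ} ≃ {μ : F[X] // μ.Monic} :=
        Equiv.subtypeEquivRight fun μ => by simp
      exact ⟨e.summable_iff.1 h.1, fun h' => h.2 ((e.tsum_eq fun μ => ff k a μ).trans h')⟩
    | insert π U hn ih =>
      intro hU h
      have hπ := hU (Finset.mem_insert_self π U)
      have hU' := (Finset.subset_insert π U).trans hU
      obtain ⟨l1, l2⟩ := local_series (hS π hπ).2 h0 hθ (hbad π hπ)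
      exact ih hU' (ser_step (hS π hπ).1 (hS π hπ).2 hn (fun π' hm => hS π' (hU' hm)) l1
        (ser_ne l2) h)
  exact key S Finset.Subset.rfl (good_series h0 hθ S (fun π hπ => (hS π hπ).2) hgood)

theorem maj_lim {k : ℕ} {a a' : ι → F[X]}
    (h1 : Summable fun μ : {μ : F[X] // μ.Monic} => fb k a μ)
    (h2 : ∑' μ : {μ : F[X] // μ.Monic}, ff k a μ ≠ 0)
    (h3 : Summable fun j : ℕ => fb k a' (X ^ j)) (h4 : ∑' j : ℕ, ff k a' (X ^ j) ≠ 0) :
    ∃ c : ℝ, 0 < c ∧ ∀ᶠ H in Filter.atTop, c ≤ ‖Maj k a a' H‖ := by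
  have h5 : Summable fun j : ℕ => ff k a' (X ^ j) :=
    Summable.of_norm_bounded h3 fun _ => norm_ff_le k a' _
  have h6 : Filter.Tendsto (fun H : ℕ => ∑' μ : {μ : F[X] // μ.Monic},
      if μ.1.natDegree ≤ H then ff k a μ * ∑ j ∈ range (H - μ.1.natDegree + 1), ff k a' (X ^ j)
      else 0) Filter.atTop
      (nhds (∑' μ : {μ : F[X] // μ.Monic}, ff k a μ * ∑' j : ℕ, ff k a' (X ^ j))) := by
    refine tendsto_tsum_of_dominated_convergence (h1.mul_right (∑' j : ℕ, fb k a' (X ^ j)))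
      (fun μ => ?_) (Filter.Eventually.of_forall fun H μ => ?_)
    · refine ((h5.hasSum.tendsto_sum_nat.comp ((Filter.tendsto_add_atTop_nat 1).comp
        (Filter.tendsto_sub_atTop_nat μ.1.natDegree))).const_mul (ff k a μ)).congr' ?_
      filter_upwards [Filter.eventually_ge_atTop μ.1.natDegree] with H hH
      rw [if_pos hH]
      rfl
    · split_ifs
      · rw [norm_mul]
        refine mul_le_mul (norm_ff_le k a _) ((norm_sum_le _ _).trans ((Finset.sum_le_sum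
          fun j _ => norm_ff_le k a' _).trans (h3.sum_le_tsum _ fun _ _ => fb_nonneg k a' _)))
          (norm_nonneg _) (fb_nonneg k a _)
      · rw [norm_zero]
        exact mul_nonneg (fb_nonneg k a _) (tsum_nonneg fun _ => fb_nonneg k a' _)
  rw [tsum_mul_right] at h6
  have h7 := norm_pos_iff.2 (mul_ne_zero h2 h4)
  refine ⟨_, half_pos h7, ?_⟩
  filter_upwards [h6.norm.eventually_const_le (half_lt_self h7)] with H hH
  refine hH.trans (le_of_eq (congrArg _ ?_))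
  rw [tsum_eq_sum (s := (PL F (H + 1)).subtype Monic) fun μ hμ =>
    if_neg fun h => hμ (Finset.mem_subtype.2 (mem_PL_succ.2 h)),
    Finset.sum_subtype_eq_sum_filter (fun μ : F[X] => if μ.natDegree ≤ H then
      ff k a μ * ∑ j ∈ range (H - μ.natDegree + 1), ff k a' (X ^ j) else 0), Maj]
  exact Finset.sum_congr rfl fun μ hμ => if_pos (mem_PL_succ.1 (Finset.mem_filter.1 hμ).1)

end Pool.Agent.Lib.MP_879916_ag.Dg
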