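import Pool.Agent.Lib.MP_879916_ag.DgK
import Pool.Agent.Lib.MP_879916_ag.DgLoc3
import Pool.Agent.Lib.MP_879916_ag.DgSer
import Pool.Agent.Lib.MP_879916_ag.DgMaj
import Pool.Agent.Lib.MP_879916_ag.DgNorm
import Pool.Agent.Lib.MP_879916_ag.DgMin

/-! Diagonal forms of degree `k` in `2k+1` variables over `F[t]`, `F` large, are isotropic. -/

set_option linter.unusedSectionVars false

noncomputable section

namespace Pool.Agent.Lib.MP_879916_ag.Dg

open Polynomial Finset Filter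
open scoped Classical

variable {F : Type} [Field F] [Fintype F]

lemma iso_of_zero {k : ℕ} (hk : 1 ≤ k) {ι : Type} [Fintype ι] {a : ι → F[X]} {i : ι}
    (h : a i = 0) : Iso k a := by
  refine ⟨Pi.single i 1, ?_, ?_⟩
  · intro h0
    simpa using congrFun h0 i
  · refine Finset.sum_eq_zero fun j _ => ?_
    by_cases hj : j = i
    · subst hj; simp [h]
    · simp [hj, show k ≠ 0 by omega]

/-- the major arcs are bounded below -/
lemma main_major {k : ℕ} (hk : 2 ≤ k) (hch : Ch k F) {ι : Type} [Fintype ι]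
    (hι : Fintype.card ι = 2 * k + 1)
    (hq : 1 ≤ (1 / (40 * (2 * k : ℝ) ^ (2 * k + 1))) ^ (2 * k) * Fintype.card F)
    {a a' : ι → F[X]} (ha : ∀ i, a i ≠ 0)
    (hNF : ∀ π : F[X], π.Monic → Irreducible π → NFat k a π) (hinf : NFat k a' X) :
    ∃ c : ℝ, 0 < c ∧ ∀ᶠ H in atTop, c ≤ ‖Maj k a a' H‖ := by
  set u : ℝ := 1 / (40 * (2 * k : ℝ) ^ (2 * k + 1)) with hu
  have hk0 : (0 : ℝ) < 2 * k := by
    have : (2 : ℝ) ≤ k := by exact_mod_cast hk
    linarith
  have hu0 : 0 ≤ u := by positivity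
  have hθ : (2 * k : ℝ) ^ (2 * k + 1) * u = 1 / 40 := by
    rw [hu]; field_simp
  have hP : ∏ i, a i ≠ 0 := Finset.prod_ne_zero_iff.2 fun i _ => ha i
  have hS : ∀ π ∈ UniqueFactorizationMonoid.primeFactors (∏ i, a i), π.Monic ∧ Irreducible π := by
    intro π hπ
    rw [UniqueFactorizationMonoid.mem_primeFactors, Polynomial.mem_normalizedFactors_iff hP] at hπ
    exact ⟨hπ.2.1, hπ.1⟩
  obtain ⟨h1, h2⟩ := series (k := k) (a := a) (θ := 1 / 40) (by norm_num) le_rfl _ hS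
    (fun π hπ j hj => by
      rw [← hθ]
      exact fb_bad hk hch hι hu0 hq (hS π hπ).1 (hS π hπ).2 (hNF π (hS π hπ).1 (hS π hπ).2) hj)
    (fun π hm hi hπ j hj => by
      rw [← hθ]
      refine fb_good hk hch hι hu0 hq hm hi (fun i hd => hπ ?_) hj
      rw [UniqueFactorizationMonoid.mem_primeFactors, Polynomial.mem_normalizedFactors_iff hP]
      exact ⟨hi, hm, hd.trans (Finset.dvd_prod_of_mem _ (Finset.mem_univ i))⟩)
  obtain ⟨h3, h4⟩ := local_series (k := k) (a := a') (θ := 1 / 40) irreducible_X (by norm_num)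
    le_rfl (fun j hj => by
      rw [← hθ]
      exact fb_bad hk hch hι hu0 hq monic_X irreducible_X hinf hj)
  refine maj_lim h1 h2 h3 fun h0 => ?_
  rw [h0] at h4
  norm_num at h4

theorem iso_core (k : ℕ) (hk : 2 ≤ k) : ∃ q₀ : ℕ, ∀ (F : Type) [Field F] [Fintype F], Ch k F →
    q₀ ≤ Fintype.card F → ∀ (ι : Type) [Fintype ι], Fintype.card ι = 2 * k + 1 →
    ∀ a : ι → F[X], Iso k a := by
  obtain ⟨K, hK1, hK⟩ := hypK k hk
  have hk0 : (0 : ℝ) < 2 * k := by
    have : (2 : ℝ) ≤ k := by exact_mod_cast hk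
    linarith
  refine ⟨⌈(40 * (2 * k : ℝ) ^ (2 * k + 1)) ^ (2 * k)⌉₊ + ⌈(2 * K ^ 2 ^ k) ^ 2 ^ (k - 1)⌉₊, ?_⟩
  intro F _ _ hch hq ι _ hι a₀
  by_cases hz : ∃ i, a₀ i = 0
  · obtain ⟨i, hi⟩ := hz
    exact iso_of_zero (by omega) hi
  push Not at hz
  obtain ⟨a, ha, hNF, himp⟩ := normal (by omega : 1 ≤ k) hι a₀ hz
  apply himp
  obtain ⟨n₀, D, e₀, hn₀, hD, hinf⟩ := normal_inf (by omega : 1 ≤ k) hι a ha
  have hq1 : (40 * (2 * k : ℝ) ^ (2 * k + 1)) ^ (2 * k) ≤ Fintype.card F :=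
    Nat.ceil_le.1 (le_trans (Nat.le_add_right _ _) hq)
  have hq2 : (2 * K ^ 2 ^ k) ^ 2 ^ (k - 1) ≤ (Fintype.card F : ℝ) :=
    Nat.ceil_le.1 (le_trans (Nat.le_add_left _ _) hq)
  have hK0 : 0 < K := by linarith
  obtain ⟨c, hc, hev⟩ := main_major hk hch hι (by
    rw [one_div, inv_pow, inv_mul_eq_div, one_le_div (by positivity)]
    exact hq1) ha hNF hinf
  by_contra hno
  set q : ℝ := (Fintype.card F : ℝ) with hqdef
  have hq2' : (2 : ℝ) ≤ q := by
    rw [hqdef]; exact_mod_cast two_le_card (F := F)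
  set l : ℝ := 1 / (2 * K ^ 2 ^ k) with hl
  have hl0 : 0 ≤ l := by positivity
  have hl1 : 1 ≤ l ^ 2 ^ (k - 1) * q := by
    rw [hl, one_div, inv_pow, inv_mul_eq_div, one_le_div (by positivity)]
    exact hq2
  have hbound : ∀ η : ℕ, ‖Maj k a (fun i => reflect (D i) (a i)) (n₀ + 2 ^ k * η)‖ ≤
      (q ^ n₀ + (2 * k + 1) * k * K ^ (2 * n₀ + 1) * q ^ (n₀ + 1 + 2 * k)) * (1 / 2) ^ η := by
    intro η
    set H := n₀ + 2 ^ k * η with hH
    have hn : ∀ i, n₀ + k * H = D i + k * (e₀ i + H) := fun i => by rw [hn₀ i]; ring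
    have he₀ : ∀ i, e₀ i ≤ n₀ := fun i => by
      have := hn₀ i
      have h2 : e₀ i ≤ k * e₀ i := Nat.le_mul_of_pos_left _ (by omega)
      omega
    have hD0 : ∀ i, D i ≤ n₀ := fun i => by have := hn₀ i; omega
    have hkH : 2 * H ≤ n₀ + k * H := by nlinarith
    have hmaj := major_eq (by omega : 1 ≤ k) a D (fun i => e₀ i + H) hn hD
      (fun i => by omega) hkH
    have hη : (2 ^ (k - 1) - 1) * η + n₀ ≤ H := by
      have h1 : 2 ^ (k - 1) - 1 ≤ 2 ^ k :=
        (Nat.sub_le _ _).trans (Nat.pow_le_pow_right (by norm_num) (Nat.sub_le _ _))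
      have := Nat.mul_le_mul_right η h1
      omega
    have hmin := minor_le hk hch hK1 (hK F hch) hι a ha D (fun i => e₀ i + H) (E := n₀ + H) hn hD
      hD0 (fun i => by have := he₀ i; omega) (fun i => by omega) hη hl0 hl1
    have hcount := count_eq (k := k) a (fun i => e₀ i + H) (n := n₀ + k * H)
      (fun i => by have := hn i; have := hD i; omega)
    rw [← Finset.sum_filter_add_sum_filter_not _ (fun B => Minor B (n₀ + k * H) (n₀ + k * H) H),
      hmaj] at hcount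
    have hcard : ((Fintype.piFinset fun i => PL F (e₀ i + H + 1)).filter
        fun x => ∑ i, a i * x i ^ k = 0).card ≤ 1 := by
      refine Finset.card_le_one.2 fun x hx y hy => ?_
      have h0 : ∀ z : ι → F[X], ∑ i, a i * z i ^ k = 0 → z = 0 := fun z hz' => by
        by_contra h
        exact hno ⟨z, h, hz'⟩
      rw [h0 x (Finset.mem_filter.1 hx).2, h0 y (Finset.mem_filter.1 hy).2]
    have hsum : n₀ + k * H + 1 + η ≤ n₀ + ∑ i, (e₀ i + H + 1) := by
      have h1 : ∑ _i : ι, (H + 1) ≤ ∑ i, (e₀ i + H + 1) :=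
        Finset.sum_le_sum fun i _ => by omega
      rw [Finset.sum_const, Finset.card_univ, hι, smul_eq_mul] at h1
      have h2 : η ≤ H := by
        have : η ≤ 2 ^ k * η := Nat.le_mul_of_pos_left _ (by positivity)
        omega
      nlinarith
    have hq0 : 0 < q := by linarith
    have hA : ‖(Fintype.card F : ℂ) ^ (n₀ + k * H + 1) *
        (((Fintype.piFinset fun i => PL F (e₀ i + H + 1)).filter
          fun x => ∑ i, a i * x i ^ k = 0).card : ℂ) /
        (Fintype.card F : ℂ) ^ ∑ i, (e₀ i + H + 1)‖ ≤ q ^ n₀ * (1 / 2) ^ η := by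
      rw [norm_div, norm_mul, norm_pow, norm_pow, Complex.norm_natCast, Complex.norm_natCast,
        ← hqdef, div_le_iff₀ (by positivity)]
      have h1 : (((Fintype.piFinset fun i => PL F (e₀ i + H + 1)).filter
          fun x => ∑ i, a i * x i ^ k = 0).card : ℝ) ≤ 1 := by exact_mod_cast hcard
      have h2 : q ^ (n₀ + k * H + 1 + η) ≤ q ^ (n₀ + ∑ i, (e₀ i + H + 1)) :=
        pow_le_pow_right₀ (by linarith) hsum
      have h3 : (1 : ℝ) ≤ q ^ η * (1 / 2) ^ η := by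
        rw [← mul_pow]
        exact one_le_pow₀ (by linarith)
      calc _ ≤ q ^ (n₀ + k * H + 1) * 1 := by gcongr
        _ ≤ q ^ (n₀ + k * H + 1) * (q ^ η * (1 / 2) ^ η) := by gcongr
        _ = q ^ (n₀ + k * H + 1 + η) * (1 / 2) ^ η := by ring
        _ ≤ q ^ (n₀ + ∑ i, (e₀ i + H + 1)) * (1 / 2) ^ η := by gcongr
        _ = _ := by ring
    have hB : (2 * k + 1) * (k * l ^ η) * (K ^ (n₀ + H + 1) * q ^ (n₀ + 1 + 2 * k)) =
        (2 * k + 1) * k * K ^ (2 * n₀ + 1) * q ^ (n₀ + 1 + 2 * k) * (1 / 2) ^ η := by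
      have h1 : l * K ^ 2 ^ k = 1 / 2 := by rw [hl]; field_simp
      have h2 : K ^ (n₀ + H + 1) = K ^ (2 * n₀ + 1) * (K ^ 2 ^ k) ^ η := by
        rw [← pow_mul, ← pow_add, hH]; congr 1; ring
      rw [h2, ← h1, mul_pow]; ring
    rw [eq_sub_of_add_eq' hcount]
    refine (norm_sub_le _ _).trans ?_
    rw [add_mul, ← hB]
    exact add_le_add hA hmin
  have ht : Tendsto (fun η : ℕ => n₀ + 2 ^ k * η) atTop atTop :=
    tendsto_atTop_mono (fun η => by
      have : η ≤ 2 ^ k * η := Nat.le_mul_of_pos_left _ (by positivity)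
      show η ≤ _
      omega) tendsto_id
  have h0 : Tendsto (fun η : ℕ =>
      (q ^ n₀ + (2 * k + 1) * k * K ^ (2 * n₀ + 1) * q ^ (n₀ + 1 + 2 * k)) * (1 / 2 : ℝ) ^ η)
      atTop (nhds 0) := by
    simpa using (tendsto_pow_atTop_nhds_zero_of_lt_one (r := (1 / 2 : ℝ)) (by norm_num)
      (by norm_num)).const_mul _
  obtain ⟨η, h1, h2⟩ := ((ht.eventually hev).and (h0.eventually (gt_mem_nhds hc))).exists
  linarith [hbound η]

theorem iso_main (k : ℕ) (hk : 1 ≤ k) : ∃ q₀ : ℕ, ∀ (E : Type) [Field E] [Fintype E], Ch k E →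
    q₀ ≤ Fintype.card E → ∀ b : Fin (2 * k + 1) → E[X], Iso k b := by
  rcases eq_or_lt_of_le hk with rfl | hk2
  · refine ⟨0, fun E _ _ _ _ b => ?_⟩
    by_cases h : b 0 = 0
    · exact iso_of_zero le_rfl h
    · refine ⟨![b 1, -b 0, 0], fun h0 => h ?_, ?_⟩
      · simpa using congrFun h0 1
      · simp [Fin.sum_univ_succ]; ring
  · obtain ⟨q₀, h⟩ := iso_core k hk2
    exact ⟨q₀, fun E _ _ hch hq b => h E hch hq _ (by simp) b⟩

end Pool.Agent.Lib.MP_879916_ag.Dg
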