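import Pool.Agent.Lib.MP_879916_ag.DgRig

/-! Counting pairs (functional, singular solution). -/

set_option linter.unusedSectionVars false

noncomputable section

namespace Pool.Agent.Lib.MP_879916_ag.Dg

open Polynomial Finset
open scoped Classical

variable {F : Type} [Field F] [Fintype F]

/-- one fibre of the restriction to the complement of `I` -/
lemma dgpair_fibre {k : ℕ} {K : ℝ} {j : ℕ} (ih : HK F k K j) {ι : Type} [Fintype ι]
    (hι : Fintype.card ι ≤ 2 * k) (c : ι → F) (hc : ∀ i, c i ≠ 0) (y : F[X]) (I : Finset ι)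
    {ρ : F[X]} (hρ : ρ ≠ 0) (S : Finset (ι → F[X]))
    (hS : ∀ x ∈ S, ∑ i, C (c i) * x i ^ k = y)
    (hI : ∀ x ∈ S, ∀ i ∈ I, ∃ g : F[X], g.natDegree ≤ j ∧ x i = ρ * g)
    (hE : ∀ x ∈ S, ∀ x' ∈ S, ∀ i ∉ I, x i = x' i) :
    (S.card : ℝ) ≤ K ^ (j + 1) * √(Fintype.card F : ℝ) ^ (I.card * (j + 1) + 4 * k) := by
  have hcard : Fintype.card {i // i ∈ I} = I.card := Fintype.card_coe I
  have hle : Fintype.card {i // i ∈ I} ≤ 2 * k := by
    rw [hcard]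
    exact (Finset.card_le_univ I).trans hι
  have key : ∀ y' : F[X], ((Sol k j (fun i : {i // i ∈ I} => c i) y').card : ℝ) ≤
      K ^ (j + 1) * √(Fintype.card F : ℝ) ^ (I.card * (j + 1) + 4 * k) := by
    intro y'
    have := ih {i // i ∈ I} hle (fun i => c i) (fun i => hc i) y'
    rwa [hcard] at this
  rcases S.eq_empty_or_nonempty with h0 | ⟨x₀, hx₀⟩
  · rw [h0]
    exact le_trans (by simp) (key 0)
  have hdiv : ∀ x ∈ S, ∀ i ∈ I, (x i / ρ).natDegree ≤ j ∧ x i = ρ * (x i / ρ) := by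
    intro x hx i hi
    obtain ⟨g, hg, hx'⟩ := hI x hx i hi
    have : x i / ρ = g := by rw [hx', mul_div_cancel_left₀ _ hρ]
    rw [this]
    exact ⟨hg, hx'⟩
  have hsum : ∀ x ∈ S, ρ ^ k * ∑ i : {i // i ∈ I}, C (c i) * (x i / ρ) ^ k =
      y - ∑ i ∈ Iᶜ, C (c i) * x i ^ k := by
    intro x hx
    rw [← hS x hx, ← Finset.sum_add_sum_compl I, add_sub_cancel_right, Finset.mul_sum,
      ← Finset.sum_coe_sort I]
    refine Finset.sum_congr rfl fun i _ => ?_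
    conv_rhs => rw [(hdiv x hx i i.2).2]
    ring
  refine le_trans ?_ (key (∑ i : {i // i ∈ I}, C (c i) * (x₀ i / ρ) ^ k))
  have : S.card ≤ (Sol k j (fun i : {i // i ∈ I} => c i)
      (∑ i : {i // i ∈ I}, C (c i) * (x₀ i / ρ) ^ k)).card := by
    refine Finset.card_le_card_of_injOn (fun x => fun i : {i // i ∈ I} => x i / ρ) ?_ ?_
    · intro x hx
      have hx' : x ∈ S := hx
      simp only [Sol, Finset.coe_filter, Fintype.mem_piFinset, Set.mem_ofPred_eq]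
      refine ⟨fun i => mem_PL_succ.2 (hdiv x hx' i i.2).1, ?_⟩
      apply mul_left_cancel₀ (pow_ne_zero k hρ)
      rw [hsum x hx', hsum x₀ hx₀]
      congr 1
      refine Finset.sum_congr rfl fun i hi => ?_
      rw [hE x hx' x₀ hx₀ i (Finset.mem_compl.1 hi)]
    · intro x hx x' hx' h
      funext i
      by_cases hi : i ∈ I
      · have h1 : x i / ρ = x' i / ρ := congrFun h ⟨i, hi⟩
        rw [(hdiv x hx i hi).2, (hdiv x' hx' i hi).2, h1]
      · exact hE x hx x' hx' i hi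
  exact_mod_cast this

/-- tuples in `ρ P_j` on `I` and in given finite sets outside `I` -/
lemma fibre_count {k : ℕ} {K : ℝ} {j : ℕ} (ih : HK F k K j) {ι : Type} [Fintype ι]
    (hι : Fintype.card ι ≤ 2 * k) (c : ι → F) (hc : ∀ i, c i ≠ 0) (y : F[X]) (I : Finset ι)
    {ρ : F[X]} (hρ : ρ ≠ 0) (Z : Finset F[X]) (S : Finset (ι → F[X]))
    (hS : ∀ x ∈ S, ∑ i, C (c i) * x i ^ k = y)
    (hI : ∀ x ∈ S, ∀ i ∈ I, ∃ g : F[X], g.natDegree ≤ j ∧ x i = ρ * g)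
    (hZ : ∀ x ∈ S, ∀ i ∉ I, x i ∈ Z) :
    (S.card : ℝ) ≤ K ^ (j + 1) * √(Fintype.card F : ℝ) ^ (I.card * (j + 1) + 4 * k) *
      (Z.card : ℝ) ^ (Fintype.card ι - I.card) := by
  have hmap : ∀ x ∈ S, (fun i : {i // i ∉ I} => x i) ∈
      Fintype.piFinset (fun _ : {i // i ∉ I} => Z) := by
    intro x hx
    exact Fintype.mem_piFinset.2 fun i => hZ x hx i i.2
  have hc2 : (Fintype.piFinset (fun _ : {i // i ∉ I} => Z)).card =
      Z.card ^ (Fintype.card ι - I.card) := by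
    rw [Fintype.card_piFinset, Finset.prod_const, Finset.card_univ, Fintype.card_subtype_compl,
      Fintype.card_coe]
  rw [Finset.card_eq_sum_card_fiberwise hmap, Nat.cast_sum]
  refine le_trans (Finset.sum_le_card_nsmul _ _
    (K ^ (j + 1) * √(Fintype.card F : ℝ) ^ (I.card * (j + 1) + 4 * k)) ?_) ?_
  · intro b _
    refine dgpair_fibre ih hι c hc y I hρ _ ?_ ?_ ?_
    · intro x hx
      exact hS x (Finset.mem_filter.1 hx).1
    · intro x hx
      exact hI x (Finset.mem_filter.1 hx).1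
    · intro x hx x' hx' i hi
      have h1 := congrFun (Finset.mem_filter.1 hx).2 ⟨i, hi⟩
      have h2 := congrFun (Finset.mem_filter.1 hx').2 ⟨i, hi⟩
      exact h1.trans h2.symm
  · rw [hc2, nsmul_eq_mul, mul_comm]
    push_cast
    exact le_rfl

/-- every pair has one of three shapes -/
lemma pairs_cover {k : ℕ} (hk : 2 ≤ k) (hch : Ch k F) {e : ℕ} {ι : Type} [Fintype ι] (c : ι → F)
    (y : F[X]) {p : F[X] × (ι → F[X])} (hp : p ∈ Pairs k e c y) :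
    p.2 = 0 ∨
    (∃ μ : F[X], ∃ j < e, TT k p.1 (k * e) μ j ∧
      ∀ i, ∃ g : F[X], g.natDegree ≤ j ∧ p.2 i = rho k μ * g) ∨
    (∃ (I : Finset ι) (μ₁ μ₂ : F[X]) (j w₁ w₂ : ℕ), j < e ∧ j ≤ w₁ ∧ w₂ ≤ w₁ ∧ w₁ ≤ e ∧ μ₁ ≠ μ₂ ∧
      TT k p.1 (k * e) μ₁ w₁ ∧ TT k p.1 (k * e) μ₂ w₂ ∧
      (∀ i ∈ I, ∃ g : F[X], g.natDegree ≤ j ∧ p.2 i = rho k μ₁ * g) ∧
      ∀ i ∉ I, p.2 i ∈ ZZ k p.1 (k * e) w₂) := by
  obtain ⟨B, x⟩ := p
  simp only [Pairs, Sol, Finset.mem_filter, Finset.mem_product, Fintype.mem_piFinset] at hp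
  obtain ⟨⟨hB, hx, -⟩, hB0, hkill⟩ := hp
  by_cases hx0 : x = 0
  · exact Or.inl hx0
  right
  have hst : ∀ i, ∃ μ g : F[X], x i ≠ 0 → x i = rho k μ * g ∧ g.natDegree < e ∧
      TT k B (k * e) μ (g.natDegree + tt μ) := by
    intro i
    by_cases h : x i = 0
    · exact ⟨0, 0, fun h' => absurd h h'⟩
    · obtain ⟨μ, g, h1⟩ := struct hk hch hB hB0 (hx i) h (hkill i)
      exact ⟨μ, g, fun _ => h1⟩
  choose μ g hμ using hst
  have hne : (univ.filter fun i => x i ≠ 0).Nonempty := by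
    obtain ⟨i, hi⟩ := Function.ne_iff.1 hx0
    exact ⟨i, Finset.mem_filter.2 ⟨Finset.mem_univ _, hi⟩⟩
  obtain ⟨i₁, hi₁, hmax₁⟩ := Finset.exists_max_image _ (fun i => (g i).natDegree + tt (μ i)) hne
  have hx₁ : x i₁ ≠ 0 := (Finset.mem_filter.1 hi₁).2
  have hmax₁' : ∀ i, x i ≠ 0 → (g i).natDegree + tt (μ i) ≤ (g i₁).natDegree + tt (μ i₁) :=
    fun i hi => hmax₁ i (Finset.mem_filter.2 ⟨Finset.mem_univ _, hi⟩)
  obtain ⟨-, hlt₁, hT₁⟩ := hμ i₁ hx₁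
  set w₁ := (g i₁).natDegree + tt (μ i₁) with hw₁
  have hw₁e : w₁ ≤ e := by
    have h1 : k * w₁ ≤ k * e := le_trans (Nat.le_add_left _ _) hT₁.1
    exact Nat.le_of_mul_le_mul_left h1 (by omega)
  have hIn : ∀ i, (x i = 0 ∨ μ i = μ i₁) →
      ∃ g' : F[X], g'.natDegree ≤ min w₁ (e - 1) ∧ x i = rho k (μ i₁) * g' := by
    intro i hi
    by_cases h : x i = 0
    · exact ⟨0, by simp, by simp [h]⟩
    · obtain ⟨h1, h2, -⟩ := hμ i h
      have h3 := hmax₁' i h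
      refine ⟨g i, le_min (by omega) (by omega), ?_⟩
      rw [← hi.resolve_left h]
      exact h1
  by_cases hall : ∀ i, x i = 0 ∨ μ i = μ i₁
  · left
    exact ⟨μ i₁, min w₁ (e - 1), by omega, hT₁.mono (min_le_left _ _), fun i => hIn i (hall i)⟩
  right
  have hne₂ : (univ.filter fun i => ¬ (x i = 0 ∨ μ i = μ i₁)).Nonempty := by
    obtain ⟨i, hi⟩ := not_forall.1 hall
    exact ⟨i, Finset.mem_filter.2 ⟨Finset.mem_univ _, hi⟩⟩
  obtain ⟨i₂, hi₂, hmax₂⟩ := Finset.exists_max_image _ (fun i => (g i).natDegree + tt (μ i)) hne₂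
  obtain ⟨hx₂, hμ₂⟩ := not_or.1 (Finset.mem_filter.1 hi₂).2
  refine ⟨univ.filter fun i => x i = 0 ∨ μ i = μ i₁, μ i₁, μ i₂, min w₁ (e - 1), w₁,
    (g i₂).natDegree + tt (μ i₂), by omega, min_le_left _ _, hmax₁' i₂ hx₂, hw₁e,
    fun h => hμ₂ h.symm, hT₁, (hμ i₂ hx₂).2.2, fun i hi => hIn i (Finset.mem_filter.1 hi).2, ?_⟩
  intro i hi
  have hi' : ¬ (x i = 0 ∨ μ i = μ i₁) := fun h => hi (Finset.mem_filter.2 ⟨Finset.mem_univ _, h⟩)
  obtain ⟨h1, -, h3⟩ := hμ i (not_or.1 hi').1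
  have h4 := hmax₂ i (Finset.mem_filter.2 ⟨Finset.mem_univ _, hi'⟩)
  change x i ∈ _
  rw [h1]
  exact mem_ZZ (h3.mono (Nat.zero_le _)) h4

/-- counting pairs by their first coordinate -/
lemma dgpair_sum {α β : Type} (P : Finset (α × β)) (T : Finset α) (hT : ∀ p ∈ P, p.1 ∈ T) {M : ℝ}
    (hM : ∀ a ∈ T, ∀ S : Finset β, (∀ b ∈ S, (a, b) ∈ P) → (S.card : ℝ) ≤ M) :
    (P.card : ℝ) ≤ T.card * M := by
  rw [Finset.card_eq_sum_card_fiberwise hT, Nat.cast_sum, ← nsmul_eq_mul]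
  refine Finset.sum_le_card_nsmul _ _ _ fun a ha => ?_
  have h1 : (P.filter fun p => p.1 = a).card = ((P.filter fun p => p.1 = a).image Prod.snd).card := by
    refine (Finset.card_image_of_injOn ?_).symm
    intro p hp p' hp' h
    have h2 := (Finset.mem_filter.1 (Finset.mem_coe.1 hp)).2
    have h3 := (Finset.mem_filter.1 (Finset.mem_coe.1 hp')).2
    exact Prod.ext (h2.trans h3.symm) h
  rw [h1]
  refine hM a ha _ fun b hb => ?_
  obtain ⟨p, hp, rfl⟩ := Finset.mem_image.1 hb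
  obtain ⟨h2, rfl⟩ := Finset.mem_filter.1 hp
  exact h2

lemma dgpair_sq : (Fintype.card F : ℝ) = √(Fintype.card F : ℝ) ^ 2 :=
  (Real.sq_sqrt (Nat.cast_nonneg _)).symm

lemma dgpair_one_le : 1 ≤ √(Fintype.card F : ℝ) := by
  rw [Real.one_le_sqrt]
  have := two_le_card (F := F)
  exact_mod_cast (by omega : 1 ≤ Fintype.card F)

/-- comparison of powers of the square root -/
lemma dgpair_pow {s : ℝ} (hs : 1 ≤ s) {a b c : ℕ} (h : a + 2 * c ≤ b) :
    s ^ a ≤ s ^ b * (1 / s ^ 2) ^ c := by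
  have h0 : 0 < s := by linarith
  rw [one_div, inv_pow, ← pow_mul, ← div_eq_mul_inv, le_div_iff₀ (pow_pos h0 _), ← pow_add]
  exact pow_le_pow_right₀ hs h

lemma caseA_le {k : ℕ} {K : ℝ} (hK : 1 ≤ K) {e j : ℕ} (hj : j < e) (ih : HK F k K j)
    {ι : Type} [Fintype ι] (hι : Fintype.card ι ≤ 2 * k) (c : ι → F) (hc : ∀ i, c i ≠ 0)
    (y μ : F[X]) :
    (((Pairs k e c y).filter fun p => TT k p.1 (k * e) μ j ∧
      ∀ i, ∃ g : F[X], g.natDegree ≤ j ∧ p.2 i = rho k μ * g).card : ℝ) ≤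
      K ^ e * √(Fintype.card F : ℝ) ^ (2 * (k * e + 1) + 8 * k) *
        (1 / (Fintype.card F : ℝ)) ^ om μ := by
  have hs := dgpair_one_le (F := F)
  have hq := dgpair_sq (F := F)
  have hK0 : 0 ≤ K := by linarith
  by_cases hom : om μ + k * j ≤ k * e
  swap
  · rw [Finset.filter_eq_empty_iff.2 fun p _ h => hom h.1.1]
    simp only [Finset.card_empty, Nat.cast_zero]
    positivity
  refine le_trans (dgpair_sum _
    ((PL F (k * e + 1)).filter fun B => Prim B (k * e) μ (k * e - (om μ + k * j))) ?_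
    (M := K ^ (j + 1) * √(Fintype.card F : ℝ) ^ (Fintype.card ι * (j + 1) + 4 * k)) ?_) ?_
  · intro p hp
    obtain ⟨h1, h2, -⟩ := Finset.mem_filter.1 hp
    exact Finset.mem_filter.2 ⟨(Finset.mem_product.1 (Finset.mem_filter.1 h1).1).1, h2.2⟩
  · intro B _ S hS
    have := fibre_count ih hι c hc y univ (rho_monic k μ).ne_zero ∅ S
      (fun x hx => (Finset.mem_filter.1 (Finset.mem_product.1 (Finset.mem_filter.1
        (Finset.mem_filter.1 (hS x hx)).1).1).2).2)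
      (fun x hx i _ => (Finset.mem_filter.1 (hS x hx)).2.2 i)
      (fun x _ i hi => absurd (Finset.mem_univ i) hi)
    rwa [Finset.card_univ, Nat.sub_self, pow_zero, mul_one] at this
  have h1 : (((PL F (k * e + 1)).filter fun B =>
      Prim B (k * e) μ (k * e - (om μ + k * j))).card : ℝ) ≤
      (Fintype.card F : ℝ) ^ (k * e - (om μ + k * j)) := by
    exact_mod_cast prim_count1 (k * e) μ _
  refine le_trans (mul_le_mul_of_nonneg_right h1 (by positivity)) ?_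
  generalize √(Fintype.card F : ℝ) = s at hs hq ⊢
  rw [hq]
  have h2 : K ^ (j + 1) ≤ K ^ e := pow_le_pow_right₀ hK hj
  have h3 : s ^ (2 * (k * e - (om μ + k * j)) + (Fintype.card ι * (j + 1) + 4 * k)) ≤
      s ^ (2 * (k * e + 1) + 8 * k) * (1 / s ^ 2) ^ om μ := by
    refine dgpair_pow hs ?_
    have h4 : Fintype.card ι * (j + 1) ≤ 2 * k * (j + 1) := Nat.mul_le_mul_right _ hι
    have h5 : 2 * k * (j + 1) = 2 * (k * j) + 2 * k := by ring
    omega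
  calc (s ^ 2) ^ (k * e - (om μ + k * j)) * (K ^ (j + 1) * s ^ (Fintype.card ι * (j + 1) + 4 * k))
      = K ^ (j + 1) * s ^ (2 * (k * e - (om μ + k * j)) + (Fintype.card ι * (j + 1) + 4 * k)) := by
        rw [← pow_mul, pow_add s (2 * _)]
        ring
    _ ≤ K ^ e * (s ^ (2 * (k * e + 1) + 8 * k) * (1 / s ^ 2) ^ om μ) :=
        mul_le_mul h2 h3 (by positivity) (by positivity)
    _ = _ := by ring

lemma caseB_le {k : ℕ} {K : ℝ} (hK : 1 ≤ K) {e j w₁ w₂ : ℕ} (hj : j < e) (h1 : j ≤ w₁)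
    (h2 : w₂ ≤ w₁) (ih : HK F k K j) {ι : Type} [Fintype ι] (hι : Fintype.card ι ≤ 2 * k)
    (c : ι → F) (hc : ∀ i, c i ≠ 0) (y : F[X]) (I : Finset ι) {μ₁ μ₂ : F[X]} (hne : μ₁ ≠ μ₂) :
    (((Pairs k e c y).filter fun p => TT k p.1 (k * e) μ₁ w₁ ∧ TT k p.1 (k * e) μ₂ w₂ ∧
      (∀ i ∈ I, ∃ g : F[X], g.natDegree ≤ j ∧ p.2 i = rho k μ₁ * g) ∧
      ∀ i ∉ I, p.2 i ∈ ZZ k p.1 (k * e) w₂).card : ℝ) ≤
      (128 ^ (k * e + 1)) ^ (2 * k) * K ^ e * √(Fintype.card F : ℝ) ^ (2 * (k * e + 1) + 8 * k) *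
        ((1 / (Fintype.card F : ℝ)) ^ om μ₁ * (1 / (Fintype.card F : ℝ)) ^ om μ₂) := by
  have hs := dgpair_one_le (F := F)
  have hq := dgpair_sq (F := F)
  have hK0 : 0 ≤ K := by linarith
  by_cases hom : om μ₁ + k * w₁ ≤ k * e ∧ om μ₂ + k * w₂ ≤ k * e
  swap
  · rw [Finset.filter_eq_empty_iff.2 fun p _ h => hom ⟨h.1.1, h.2.1.1⟩]
    simp only [Finset.card_empty, Nat.cast_zero]
    positivity
  obtain ⟨hom₁, hom₂⟩ := hom
  have hI : I.card ≤ Fintype.card ι := Finset.card_le_univ I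
  refine le_trans (dgpair_sum _
    ((PL F (k * e + 1)).filter fun B => Prim B (k * e) μ₁ (k * e - (om μ₁ + k * w₁)) ∧
      Prim B (k * e) μ₂ (k * e - (om μ₂ + k * w₂))) ?_
    (M := K ^ (j + 1) * √(Fintype.card F : ℝ) ^ (I.card * (j + 1) + 4 * k) *
      (128 ^ (k * e + 1) * (Fintype.card F : ℝ) ^ (w₂ + 1)) ^ (Fintype.card ι - I.card)) ?_) ?_
  · intro p hp
    obtain ⟨h3, h4, h5, -⟩ := Finset.mem_filter.1 hp
    exact Finset.mem_filter.2 ⟨(Finset.mem_product.1 (Finset.mem_filter.1 h3).1).1, h4.2, h5.2⟩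
  · intro B _ S hS
    refine le_trans (fibre_count ih hι c hc y I (rho_monic k μ₁).ne_zero (ZZ k B (k * e) w₂) S
      (fun x hx => (Finset.mem_filter.1 (Finset.mem_product.1 (Finset.mem_filter.1
        (Finset.mem_filter.1 (hS x hx)).1).1).2).2)
      (fun x hx => (Finset.mem_filter.1 (hS x hx)).2.2.2.1)
      (fun x hx => (Finset.mem_filter.1 (hS x hx)).2.2.2.2)) ?_
    exact mul_le_mul_of_nonneg_left
      (pow_le_pow_left₀ (Nat.cast_nonneg _) (card_ZZ k B (k * e) w₂) _) (by positivity)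
  have h3 : (((PL F (k * e + 1)).filter fun B => Prim B (k * e) μ₁ (k * e - (om μ₁ + k * w₁)) ∧
      Prim B (k * e) μ₂ (k * e - (om μ₂ + k * w₂))).card : ℝ) *
      (Fintype.card F : ℝ) ^ (k * e + 1) ≤
      (Fintype.card F : ℝ) ^ (k * e - (om μ₁ + k * w₁) + (k * e - (om μ₂ + k * w₂))) := by
    exact_mod_cast prim_count2 (k * e) hne _ _
  generalize (((PL F (k * e + 1)).filter fun B => Prim B (k * e) μ₁ (k * e - (om μ₁ + k * w₁)) ∧
      Prim B (k * e) μ₂ (k * e - (om μ₂ + k * w₂))).card : ℝ) = t at h3 ⊢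
  generalize √(Fintype.card F : ℝ) = s at hs hq ⊢
  rw [hq] at h3 ⊢
  have h0 : 0 < s := by linarith
  obtain ⟨r, hr⟩ := Nat.exists_eq_add_of_le hI
  have hr' : Fintype.card ι - I.card = r := by omega
  rw [hr']
  generalize I.card = m at hr ⊢
  have h4 : K ^ (j + 1) ≤ K ^ e := pow_le_pow_right₀ hK hj
  have h5 : ((128 : ℝ) ^ (k * e + 1)) ^ r ≤ (128 ^ (k * e + 1)) ^ (2 * k) :=
    pow_le_pow_right₀ (one_le_pow₀ (by norm_num)) (by omega)
  have h6 : s ^ (2 * (k * e - (om μ₁ + k * w₁) + (k * e - (om μ₂ + k * w₂))) +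
      (m * (j + 1) + 4 * k + 2 * (w₂ + 1) * r)) ≤
      s ^ (2 * (k * e + 1) + (2 * (k * e + 1) + 8 * k)) * (1 / s ^ 2) ^ (om μ₁ + om μ₂) := by
    refine dgpair_pow hs ?_
    have a1 : m * (j + 1) ≤ m * (w₁ + 1) := Nat.mul_le_mul_left _ (by omega)
    have a2 : r * (w₂ + 1) ≤ r * (w₁ + 1) := Nat.mul_le_mul_left _ (by omega)
    have a3 : (m + r) * (w₁ + 1) ≤ 2 * k * (w₁ + 1) := Nat.mul_le_mul_right _ (by omega)
    have a4 : r * (w₂ + 1) ≤ 2 * k * (w₂ + 1) := Nat.mul_le_mul_right _ (by omega)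
    have b1 : 2 * (w₂ + 1) * r = 2 * (r * (w₂ + 1)) := by ring
    have b2 : (m + r) * (w₁ + 1) = m * (w₁ + 1) + r * (w₁ + 1) := by ring
    have b3 : 2 * k * (w₁ + 1) = 2 * (k * w₁) + 2 * k := by ring
    have b4 : 2 * k * (w₂ + 1) = 2 * (k * w₂) + 2 * k := by ring
    omega
  have h7 : t * s ^ (m * (j + 1) + 4 * k + 2 * (w₂ + 1) * r) ≤
      s ^ (2 * (k * e + 1) + 8 * k) * (1 / s ^ 2) ^ (om μ₁ + om μ₂) := by
    refine le_of_mul_le_mul_left ?_ (pow_pos h0 (2 * (k * e + 1)))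
    rw [← pow_mul, ← pow_mul] at h3
    calc s ^ (2 * (k * e + 1)) * (t * s ^ (m * (j + 1) + 4 * k + 2 * (w₂ + 1) * r))
        = t * s ^ (2 * (k * e + 1)) * s ^ (m * (j + 1) + 4 * k + 2 * (w₂ + 1) * r) := by ring
      _ ≤ s ^ (2 * (k * e - (om μ₁ + k * w₁) + (k * e - (om μ₂ + k * w₂)))) *
          s ^ (m * (j + 1) + 4 * k + 2 * (w₂ + 1) * r) :=
          mul_le_mul_of_nonneg_right h3 (by positivity)
      _ ≤ _ := by
          rw [← pow_add, ← mul_assoc, ← pow_add]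
          exact h6
  calc t * (K ^ (j + 1) * s ^ (m * (j + 1) + 4 * k) * (128 ^ (k * e + 1) * (s ^ 2) ^ (w₂ + 1)) ^ r)
      = (128 ^ (k * e + 1)) ^ r * K ^ (j + 1) *
          (t * s ^ (m * (j + 1) + 4 * k + 2 * (w₂ + 1) * r)) := by
        rw [mul_pow, ← pow_mul s, ← pow_mul s, pow_add s (m * (j + 1) + 4 * k)]
        ring
    _ ≤ (128 ^ (k * e + 1)) ^ r * K ^ (j + 1) *
          (s ^ (2 * (k * e + 1) + 8 * k) * (1 / s ^ 2) ^ (om μ₁ + om μ₂)) :=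
        mul_le_mul_of_nonneg_left h7 (by positivity)
    _ ≤ (128 ^ (k * e + 1)) ^ (2 * k) * K ^ e *
          (s ^ (2 * (k * e + 1) + 8 * k) * (1 / s ^ 2) ^ (om μ₁ + om μ₂)) :=
        mul_le_mul_of_nonneg_right (mul_le_mul h5 h4 (by positivity) (by positivity))
          (by positivity)
    _ = _ := by rw [pow_add (1 / s ^ 2)]; ring

end Pool.Agent.Lib.MP_879916_ag.Dg
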