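import Pool.Agent.Lib.MP_879916_ag.DgBase
import Pool.Agent.Lib.MP_879916_ag.DgBez2

/-! Calculus of degrees and tangent vectors of universal polynomials. -/

set_option linter.unusedSectionVars false

noncomputable section

namespace Pool.Agent.Lib.MP_879916_ag.Dg

open Polynomial Finset
open scoped Classical

variable {F : Type} [Field F] [Fintype F]

section Calc
variable {σ R : Type} [CommRing R] {w : σ → ℕ}

lemma tan_zero (a : ℕ) : WD w a (0 : MvPolynomial σ R) := fun _ h => by simp at h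
lemma tan_C (a : ℕ) (r : R) : WD w a (MvPolynomial.C r : MvPolynomial σ R) := fun γ h => by
  have := MvPolynomial.support_monomial_subset h
  rw [mem_singleton.1 this, map_zero]
  exact Nat.zero_le _
lemma tan_add {a : ℕ} {f g : MvPolynomial σ R} (hf : WD w a f) (hg : WD w a g) :
    WD w a (f + g) := fun γ h =>
  (mem_union.1 (MvPolynomial.support_add h)).elim (hf γ) (hg γ)
lemma tan_mul {a b : ℕ} {f g : MvPolynomial σ R} (hf : WD w a f) (hg : WD w b g) :
    WD w (a + b) (f * g) := fun γ h => by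
  obtain ⟨α, hα, β, hβ, rfl⟩ := mem_add.1 (MvPolynomial.support_mul _ _ h)
  rw [map_add]
  exact add_le_add (hf α hα) (hg β hβ)

lemma PWD.mono {a b : ℕ} {P : (MvPolynomial σ R)[X]} (h : PWD w a P) (hab : a ≤ b) :
    PWD w b P := fun l γ hγ => (h l γ hγ).trans hab
lemma PWD_const (a : ℕ) (u : R[X]) :
    PWD w a (u.map (MvPolynomial.C : R →+* MvPolynomial σ R)) := fun l => by
  rw [coeff_map]; exact tan_C a _
lemma PWD_Ev {d a : ℕ} (idx : Fin d → σ) (h : ∀ l, w (idx l) ≤ a) :
    PWD w a (Ev fun l => (MvPolynomial.X (idx l) : MvPolynomial σ R)) := fun l => by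
  rw [Ev_coeff]
  split_ifs with hl
  · intro γ hγ
    rw [mem_singleton.1 (MvPolynomial.support_monomial_subset hγ), Finsupp.weight_single]
    simpa using h _
  · exact tan_zero a
lemma PWD.add {a : ℕ} {P Q : (MvPolynomial σ R)[X]} (hP : PWD w a P) (hQ : PWD w a Q) :
    PWD w a (P + Q) := fun l => by
  rw [coeff_add]; exact tan_add (hP l) (hQ l)
lemma PWD.mul {a b : ℕ} {P Q : (MvPolynomial σ R)[X]} (hP : PWD w a P) (hQ : PWD w b Q) :
    PWD w (a + b) (P * Q) := fun l => by
  rw [coeff_mul]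
  exact sum_induction _ _ (fun _ _ => tan_add) (tan_zero _) fun p _ => tan_mul (hP _) (hQ _)
lemma PWD.pow {a : ℕ} {P : (MvPolynomial σ R)[X]} (hP : PWD w a P) (m : ℕ) :
    PWD w (m * a) (P ^ m) := by
  induction m with
  | zero => simpa using PWD_const (w := w) 0 (1 : R[X])
  | succ m ih => rw [pow_succ, add_one_mul]; exact ih.mul hP
lemma PWD_sum {α : Type} {s : Finset α} {a : ℕ} {P : α → (MvPolynomial σ R)[X]}
    (h : ∀ i ∈ s, PWD w a (P i)) : PWD w a (∑ i ∈ s, P i) := 
  sum_induction _ _ (fun _ _ => PWD.add) (fun _ => tan_zero a) h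
lemma PWD_prod {α : Type} {s : Finset α} {a : α → ℕ} {P : α → (MvPolynomial σ R)[X]}
    (h : ∀ i ∈ s, PWD w (a i) (P i)) : PWD w (∑ i ∈ s, a i) (∏ i ∈ s, P i) := by
  induction s using Finset.induction_on with
  | empty => simpa using PWD_const (w := w) 0 (1 : R[X])
  | insert i s hi ih =>
    rw [sum_insert hi, prod_insert hi]
    exact (h i (mem_insert_self _ _)).mul (ih fun j hj => h j (mem_insert_of_mem hj))

variable [Fintype σ] {x z : σ → R}

lemma tan_dz_add (f g : MvPolynomial σ R) : Dz x z (f + g) = Dz x z f + Dz x z g := by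
  simp [Dz, add_mul, sum_add_distrib]
lemma tan_dz_zero : Dz x z (0 : MvPolynomial σ R) = 0 := by simp [Dz]
lemma tan_dz_sum {α : Type} (s : Finset α) (f : α → MvPolynomial σ R) :
    Dz x z (∑ i ∈ s, f i) = ∑ i ∈ s, Dz x z (f i) :=
  map_sum (AddMonoidHom.mk' (Dz x z) tan_dz_add) f s
lemma tan_dz_mul (f g : MvPolynomial σ R) : Dz x z (f * g) =
    Dz x z f * MvPolynomial.eval x g + MvPolynomial.eval x f * Dz x z g := by
  simp only [Dz, MvPolynomial.pderiv_mul, map_add, map_mul, sum_mul, mul_sum, ← sum_add_distrib]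
  exact sum_congr rfl fun i _ => by ring

lemma Jac_mulVec {ι : Type} (f : ι → MvPolynomial σ R) (j : ι) :
    (Jac x f).mulVec z j = Dz x z (f j) := rfl
lemma Tan_const (u : R[X]) :
    Tan x z (u.map (MvPolynomial.C : R →+* MvPolynomial σ R)) u 0 := 
  ⟨by ext l; simp, fun l => by simp [Dz]⟩
lemma Tan_Ev {d : ℕ} (idx : Fin d → σ) :
    Tan x z (Ev fun l => (MvPolynomial.X (idx l) : MvPolynomial σ R))
      (Ev fun l => x (idx l)) (Ev fun l => z (idx l)) := by
  refine ⟨?_, fun l => ?_⟩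
  · ext l
    rw [coeff_map, Ev_coeff, Ev_coeff]
    split_ifs <;> simp
  · rw [Ev_coeff, Ev_coeff]
    split_ifs
    · simp [Dz, MvPolynomial.pderiv_X, Pi.single_apply, apply_ite]
    · exact tan_dz_zero
lemma Tan.add {P Q : (MvPolynomial σ R)[X]} {u u' v v' : R[X]} (hP : Tan x z P u u')
    (hQ : Tan x z Q v v') : Tan x z (P + Q) (u + v) (u' + v') := 
  ⟨by rw [Polynomial.map_add, hP.1, hQ.1], fun l => by
    rw [coeff_add, coeff_add, tan_dz_add, hP.2, hQ.2]⟩
lemma Tan.mul {P Q : (MvPolynomial σ R)[X]} {u u' v v' : R[X]} (hP : Tan x z P u u')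
    (hQ : Tan x z Q v v') : Tan x z (P * Q) (u * v) (u' * v + u * v') := 
  ⟨by rw [Polynomial.map_mul, hP.1, hQ.1], fun l => by
    rw [coeff_add, coeff_mul, coeff_mul, coeff_mul, tan_dz_sum, ← sum_add_distrib, ← hP.1, ← hQ.1]
    exact sum_congr rfl fun p _ => by rw [tan_dz_mul, hP.2, hQ.2, coeff_map, coeff_map]⟩
lemma Tan.pow {P : (MvPolynomial σ R)[X]} {u u' : R[X]} (hP : Tan x z P u u') (m : ℕ) :
    Tan x z (P ^ m) (u ^ m) ((m : R[X]) * u ^ (m - 1) * u') := by
  induction m with
  | zero => simpa using Tan_const (x := x) (z := z) (1 : R[X])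
  | succ m ih =>
    rw [pow_succ, pow_succ]
    convert ih.mul hP using 1
    cases m with
    | zero => simp
    | succ m => simp only [Nat.add_sub_cancel]; push_cast; ring
lemma Tan_sum {α : Type} {s : Finset α} {P : α → (MvPolynomial σ R)[X]} {u u' : α → R[X]}
    (h : ∀ i ∈ s, Tan x z (P i) (u i) (u' i)) :
    Tan x z (∑ i ∈ s, P i) (∑ i ∈ s, u i) (∑ i ∈ s, u' i) := by
  induction s using Finset.induction_on with
  | empty => simpa using Tan_const (x := x) (z := z) (0 : R[X])
  | insert i s hi ih =>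
    rw [sum_insert hi, sum_insert hi, sum_insert hi]
    exact (h i (mem_insert_self _ _)).add (ih fun j hj => h j (mem_insert_of_mem hj))
lemma Tan_prod {α : Type} {s : Finset α} {P : α → (MvPolynomial σ R)[X]} {u u' : α → R[X]}
    (h : ∀ i ∈ s, Tan x z (P i) (u i) (u' i)) :
    Tan x z (∏ i ∈ s, P i) (∏ i ∈ s, u i) (∑ i ∈ s, u' i * ∏ j ∈ s.erase i, u j) := by
  induction s using Finset.induction_on with
  | empty => simpa using Tan_const (x := x) (z := z) (1 : R[X])
  | insert i s hi ih =>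
    rw [prod_insert hi, prod_insert hi, sum_insert hi, erase_insert hi]
    convert (h i (mem_insert_self _ _)).mul (ih fun j hj => h j (mem_insert_of_mem hj)) using 2
    rw [mul_sum]
    refine sum_congr rfl fun j hj => ?_
    rw [erase_insert_of_ne (ne_of_mem_of_not_mem hj hi).symm,
      prod_insert fun h => hi (mem_of_mem_erase h)]
    ring

end Calc

/-- solutions with a small tangent space -/
theorem count_ker {k : ℕ} (hk : 2 ≤ k) (hch : Ch k F) (e : ℕ) {ι : Type} [Fintype ι] (c : ι → F)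
    (y : F[X]) (κ : ℕ) :
    ((Sol k e c y).filter fun x =>
        Module.finrank F (LinearMap.ker (Lx k e c x)) ≤ κ).card ≤
      2 ^ ((k * e + 1) + Fintype.card ι * (e + 1)) * (2 * k) ^ (Fintype.card ι * (e + 1)) *
        Fintype.card F ^ κ := by
  let P : (MvPolynomial (ι × Fin (e + 1)) F)[X] := ∑ i, (C (c i)).map MvPolynomial.C *
    (Ev fun l : Fin (e + 1) => MvPolynomial.X (i, l)) ^ k + (-y).map MvPolynomial.C
  let φ : (ι → F[X]) → ι × Fin (e + 1) → F := fun x p => (x p.1).coeff p.2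
  have hE : ∀ x ∈ Sol k e c y, ∀ i, (Ev fun l => φ x (i, l)) = x i := fun x hx i =>
    Ev_coeff_eq (mem_PL.1 (Fintype.mem_piFinset.1 (mem_filter.1 hx).1 i))
  have hT : ∀ x ∈ Sol k e c y, ∀ z, Tan (φ x) z P 0 (C (k : F) * Lx k e c x z) := fun x hx z => by
    have h := (Tan_sum (s := univ) fun i _ => (Tan_const (x := φ x) (z := z) (C (c i))).mul
      ((Tan_Ev fun l : Fin (e + 1) => (i, l)).pow k)).add (Tan_const (-y))
    simp only [hE x hx] at h
    rw [(mem_filter.1 hx).2, add_neg_cancel] at h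
    refine ⟨h.1, fun l => (h.2 l).trans (congrArg (fun u : F[X] => u.coeff l) ?_)⟩
    simp only [Lx, LinearMap.coe_mk, AddHom.coe_mk, mul_sum, add_zero, zero_mul, zero_add,
      map_natCast]
    exact sum_congr rfl fun i _ => by ring
  have hP : PWD (fun _ => 1) k P :=
    (PWD_sum fun i _ => ((PWD_const 0 (C (c i))).mul ((PWD_Ev (w := fun _ => 1) (a := 1)
      (fun l : Fin (e + 1) => (i, l)) fun _ => le_rfl).pow k)).mono (by simp)).add (PWD_const k (-y))
  have hk0 : (k : F) ≠ 0 := hch.ne hk (by omega) le_rfl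
  have hinj : Set.InjOn φ ((Sol k e c y).filter fun x =>
      Module.finrank F (LinearMap.ker (Lx k e c x)) ≤ κ : Finset _) := fun x hx x' hx' h =>
    funext fun i => by rw [← hE x (mem_filter.1 hx).1 i, ← hE x' (mem_filter.1 hx').1 i, h]
  rw [← card_image_of_injOn hinj]
  refine (bez (fun _ => 1) (fun _ => 2 * k) k (by omega) (fun _ => le_rfl) (fun _ => by omega)
    (fun _ => by omega) (fun j : Fin (k * e + 1) => P.coeff j) (fun j => hP j) κ _ ?_ ?_).trans
    (by simp)
  · intro _ hx' j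
    obtain ⟨x, hx, rfl⟩ := mem_image.1 hx'
    rw [← coeff_map, (hT x (mem_filter.1 hx).1 0).1, coeff_zero]
  · intro _ hx'
    obtain ⟨x, hx'', rfl⟩ := mem_image.1 hx'
    obtain ⟨hx, hκ⟩ := mem_filter.1 hx''
    refine le_trans (Submodule.finrank_mono fun z hz => ?_) hκ
    have hd : (Lx k e c x z).natDegree ≤ k * e := by
      refine natDegree_sum_le_of_forall_le _ _ fun i _ => ?_
      have h1 := mem_PL_succ.1 (Fintype.mem_piFinset.1 (mem_filter.1 hx).1 i)
      have h2 : (Ev fun l => z (i, l)).natDegree ≤ e := mem_PL_succ.1 (mem_PL.2 (Ev_degree_lt _))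
      refine natDegree_mul_le.trans ((add_le_add ((natDegree_C_mul_le _ _).trans
        (natDegree_pow_le_of_le _ h1)) h2).trans (le_of_eq ?_))
      rw [← add_one_mul, Nat.sub_add_cancel (by omega)]
    rw [LinearMap.mem_ker] at hz ⊢
    ext j
    rcases lt_or_ge (k * e) j with hj | hj
    · exact coeff_eq_zero_of_natDegree_lt (hd.trans_lt hj)
    · have h := congrFun hz ⟨j, Nat.lt_succ_of_le hj⟩
      rw [Matrix.mulVecLin_apply, Jac_mulVec, (hT x hx z).2, coeff_C_mul] at h
      exact (mul_eq_zero.1 h).resolve_left hk0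

end Pool.Agent.Lib.MP_879916_ag.Dg
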