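import Pool.Agent.Lib.MP_879916_ag.DgLat
import Pool.Agent.Lib.MP_879916_ag.DgTan

/-! Rigidity of primitive vectors with a small radical. -/

set_option linter.unusedSectionVars false

noncomputable section

namespace Pool.Agent.Lib.MP_879916_ag.Dg

open Polynomial Finset
open scoped Classical

variable {F : Type} [Field F] [Fintype F]

/-- the algebraic heart: a tangent vector moves only the factors whose multiplicity vanishes -/
lemma rigid_alg {α : Type} [Fintype α] (S S' : α → F[X]) (m : α → ℕ) (hS : ∀ b, (S b).Monic)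
    (hS' : ∀ b, (S' b).degree < (S b).degree)
    (hc : Pairwise fun b b' => IsCoprime (S b) (S b')) {B : F[X]} {n a : ℕ}
    (ha : (∑ b, (S b).natDegree) + a ≤ n + 1) (hP : Prim B n (∏ b, S b ^ m b) a)
    (hz : ∀ l, a ≤ l → l ≤ n →
      (B * ∑ b, ((m b : F[X]) * S b ^ (m b - 1) * S' b) *
        ∏ b' ∈ univ.erase b, S b' ^ m b').coeff l = 0) (b : α) (hb : (m b : F) ≠ 0) :
    S' b = 0 := by
  obtain ⟨-, -, han, v, ⟨u, t, hv⟩, hdeg⟩ := hP
  obtain ⟨μ, hμ⟩ : ∃ μ, μ = ∏ b, S b ^ m b := ⟨_, rfl⟩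
  obtain ⟨μ', hμ'⟩ : ∃ μ', μ' = ∑ b, ((m b : F[X]) * S b ^ (m b - 1) * S' b) *
    ∏ b' ∈ univ.erase b, S b' ^ m b' := ⟨_, rfl⟩
  obtain ⟨A, hA⟩ : ∃ A, A = ∑ b, (m b : F[X]) * S' b * ∏ b' ∈ univ.erase b, S b' := ⟨_, rfl⟩
  obtain ⟨R, hR⟩ : ∃ R, R = ∏ b, S b := ⟨_, rfl⟩
  have hRb : ∀ b, R = S b * ∏ b' ∈ univ.erase b, S b' := fun b => by
    rw [hR, mul_prod_erase _ _ (mem_univ b)]
  have hRm : R.Monic := hR ▸ monic_prod_of_monic _ _ fun b _ => hS b
  have hRd : R.natDegree = ∑ b, (S b).natDegree := hR ▸ natDegree_prod_of_monic _ _ fun b _ => hS b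
  rw [← hμ] at hv hdeg
  rw [← hμ'] at hz
  have h1 : R * μ' = A * μ := by
    rw [hμ', hA, mul_sum, sum_mul]
    refine sum_congr rfl fun b _ => ?_
    rw [hRb b, hμ, ← mul_prod_erase univ (fun b => S b ^ m b) (mem_univ b)]
    rcases m b with _ | j
    · simp
    · rw [Nat.add_sub_cancel]
      ring
  have h0 : ∀ b, ((m b : F[X]) * S' b).degree < (S b).degree := fun b => by
    rw [← C_eq_natCast, ← smul_eq_C_mul]
    exact (degree_smul_le _ _).trans_lt (hS' b)
  have h2 : A.degree < R.degree := by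
    rw [hA]
    refine (degree_sum_le _ _).trans_lt ((Finset.sup_lt_iff (bot_lt_iff_ne_bot.2
      (degree_ne_bot.2 hRm.ne_zero))).2 fun b _ => ?_)
    have hm : (∏ b' ∈ univ.erase b, S b').Monic := monic_prod_of_monic _ _ fun b _ => hS b
    rw [hRb b, hm.degree_mul, hm.degree_mul]
    exact WithBot.add_lt_add_right (degree_ne_bot.2 hm.ne_zero) (h0 b)
  have hX : (X ^ (n + 1) : F[X]).Monic := monic_X_pow _
  have h3 := modByMonic_add_div (B * μ') (X ^ (n + 1))
  have h4 : B * μ' %ₘ X ^ (n + 1) ∈ PL F a := by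
    rw [mem_PL, degree_lt_iff_coeff_zero]
    intro l hl
    by_cases hn : l ≤ n
    · have e := hz l hl hn
      rw [← h3, coeff_add, coeff_X_pow_mul', if_neg (by omega), add_zero] at e
      exact e
    · refine coeff_eq_zero_of_degree_lt ((degree_modByMonic_lt _ hX).trans_le ?_)
      rw [degree_X_pow]
      exact_mod_cast not_le.1 hn
  have h5 := mem_PL.1 (PL_mono ha (sub_mem_PL (mul_mem_PL hRd.le h4)
    (mul_mem_PL ((natDegree_le_natDegree h2.le).trans hRd.le) (mem_PL.2 hdeg))))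
  have h6 : R * (B * μ' %ₘ X ^ (n + 1)) - A * (B * μ - X ^ (n + 1) * v) =
      X ^ (n + 1) * (A * v - R * (B * μ' /ₘ X ^ (n + 1))) := by
    linear_combination R * h3 + B * h1
  have h7 := eq_zero_of_dvd_of_degree_lt ⟨_, h6⟩ (by rwa [degree_X_pow])
  rw [h6, mul_eq_zero, or_iff_right hX.ne_zero] at h7
  have h8 : A = 0 := eq_zero_of_dvd_of_degree_lt ⟨u * μ' + t * (B * μ' /ₘ X ^ (n + 1)), by
    linear_combination (-A) * hv - u * h1 + t * h7⟩ h2
  rw [hA, ← add_sum_erase _ _ (mem_univ b), add_eq_zero_iff_eq_neg] at h8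
  have h9 : S b ∣ (m b : F[X]) * S' b * ∏ b' ∈ univ.erase b, S b' := by
    rw [h8, dvd_neg]
    exact dvd_sum fun b' hb' => (dvd_prod_of_mem S
      (mem_erase.2 ⟨(ne_of_mem_erase hb').symm, mem_univ b⟩)).mul_left _
  have h10 := eq_zero_of_dvd_of_degree_lt ((IsCoprime.prod_right fun b' hb' =>
    hc (ne_of_mem_erase hb').symm).dvd_of_dvd_mul_right h9) (h0 b)
  rw [← C_eq_natCast, mul_eq_zero, C_eq_zero] at h10
  exact h10.resolve_left hb

lemma rig_sum (n : ℕ) : ∑ b ∈ range (n + 1), b * 4 ^ (n - b) + n + 1 ≤ 4 ^ n := by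
  induction n with
  | zero => simp
  | succ n ih =>
    have e : ∑ b ∈ range (n + 1), b * 4 ^ (n + 1 - b) = 4 * ∑ b ∈ range (n + 1), b * 4 ^ (n - b) := by
      rw [mul_sum]
      refine sum_congr rfl fun b hb => ?_
      rw [Nat.sub_add_comm (Nat.lt_succ_iff.1 (mem_range.1 hb))]
      ring
    rw [sum_range_succ, e, Nat.sub_self, pow_succ]
    omega

lemma rig_tan (B : F[X]) {n : ℕ} (d : Fin (n + 1) → ℕ)
    (x z : (Σ b : Fin (n + 1), Fin (d b)) → F) :
    Tan x z (B.map MvPolynomial.C * MM d MvPolynomial.X) (B * MM d x)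
      (B * ∑ b : Fin (n + 1), (((b : ℕ) : F[X]) * SS d x b ^ ((b : ℕ) - 1) * Ev fun l => z ⟨b, l⟩) *
        ∏ b' ∈ @erase _ (fun a b => Classical.propDecidable (a = b)) univ b,
          SS d x b' ^ (b' : ℕ)) := by
  have h1 : ∀ b, Tan x z (SS d MvPolynomial.X b) (SS d x b) (Ev fun l => z ⟨b, l⟩) := fun b => by
    have e := (Tan_const (x := x) (z := z) (X ^ d b)).add (Tan_Ev fun l : Fin (d b) => ⟨b, l⟩)
    rwa [zero_add, Polynomial.map_pow, map_X] at e
  have h2 := (Tan_const B).mul (Tan_prod (s := univ) fun (b : Fin (n + 1)) _ => (h1 b).pow b)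
  rwa [zero_mul, zero_add] at h2

lemma rig_pwd (B : F[X]) {n : ℕ} (d : Fin (n + 1) → ℕ) :
    PWD (fun i : Σ b : Fin (n + 1), Fin (d b) => 4 ^ (n - i.1)) (4 ^ n)
      (B.map MvPolynomial.C * MM d MvPolynomial.X) := by
  have h1 : ∀ b : Fin (n + 1), PWD (R := F) (fun i : Σ b : Fin (n + 1), Fin (d b) => 4 ^ (n - i.1))
      (4 ^ (n - b)) (SS d MvPolynomial.X b) := fun b => by
    have e := (PWD_const (w := fun i : Σ b : Fin (n + 1), Fin (d b) => 4 ^ (n - i.1))
      (4 ^ (n - b)) (X ^ d b : F[X])).add (PWD_Ev (fun l : Fin (d b) => ⟨b, l⟩) fun _ => le_rfl)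
    rwa [Polynomial.map_pow, map_X] at e
  refine ((PWD_const 0 B).mul
    (PWD_prod (s := univ) fun (b : Fin (n + 1)) _ => (h1 b).pow b)).mono ?_
  rw [Fin.sum_univ_eq_sum_range (fun b => b * 4 ^ (n - b))]
  have := rig_sum n
  omega

lemma rigid_pat (B : F[X]) (n : ℕ) (d : Fin (n + 1) → ℕ) (hd : ∑ b, d b ≤ n)
    (hd' : ∑ b : Fin (n + 1), (b : ℕ) * d b ≤ n) :
    (univ.filter fun x : (Σ b : Fin (n + 1), Fin (d b)) → F =>
        (Pairwise fun b b' => IsCoprime (SS d x b) (SS d x b')) ∧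
          Prim B n (MM d x) (n - ∑ b, d b)).card ≤
      32 ^ (n + 1) *
        Fintype.card F ^ ∑ b ∈ univ.filter (fun b : Fin (n + 1) => ((b : ℕ) : F) = 0), d b := by
  refine (bez (fun i : Σ b : Fin (n + 1), Fin (d b) => 4 ^ (n - i.1)) (fun i => 2 * 4 ^ (i.1 : ℕ))
    (4 ^ n) (Nat.one_le_pow _ _ (by norm_num)) (fun i => ?_) (fun i => ?_) (fun i => ?_)
    (fun l : Fin (n + 1) => if n - ∑ b, d b ≤ l then
      (B.map MvPolynomial.C * MM d MvPolynomial.X).coeff l else 0) (fun l => ?_)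
    (∑ b ∈ univ.filter (fun b : Fin (n + 1) => ((b : ℕ) : F) = 0), d b) _
    (fun x hx l => ?_) fun x hx => ?_).trans (Nat.mul_le_mul_right _ ?_)
  · exact Nat.one_le_pow _ _ (by norm_num)
  · exact Nat.pow_le_pow_right (by norm_num) (Nat.sub_le _ _)
  · rw [mul_assoc, ← pow_add, Nat.add_sub_cancel' (Nat.lt_succ_iff.1 i.1.2)]
  · split_ifs
    · exact rig_pwd B d l
    · exact WD_zero _
  · obtain ⟨-, -, -, -, v, -, hv⟩ := (mem_filter.1 hx).2
    split_ifs with hl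
    · have e := coeff_eq_zero_of_degree_lt (hv.trans_le (Nat.cast_le.2 hl))
      rw [coeff_sub, coeff_X_pow_mul', if_neg (not_le.2 l.2), sub_zero] at e
      rw [← coeff_map, (rig_tan B d x 0).1, e]
    · exact map_zero _
  · obtain ⟨hc, hP⟩ := (mem_filter.1 hx).2
    refine (LinearMap.finrank_le_finrank_of_injective (f := (LinearMap.funLeft F F
      (Subtype.val : {i : Σ b : Fin (n + 1), Fin (d b) // ((i.1 : ℕ) : F) = 0} → _)).comp
        (Submodule.subtype _)) ((injective_iff_map_eq_zero _).2 fun z hz => ?_)).trans (le_of_eq ?_)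
    · refine Subtype.ext (funext fun i => ?_)
      by_cases hi : ((i.1 : ℕ) : F) = 0
      · exact congrFun hz ⟨i, hi⟩
      have e := rigid_alg (SS d x) (fun b => Ev fun l => z.1 ⟨b, l⟩) (fun b => b) (SS_monic d x)
        (fun b => by
          rw [degree_eq_natDegree (SS_monic d x b).ne_zero, SS_natDegree]
          exact Ev_degree_lt _) hc (by
          simp only [SS_natDegree]
          omega) hP (fun l h1 h2 => by
          have e1 := congrFun (LinearMap.mem_ker.1 z.2) ⟨l, Nat.lt_succ_iff.2 h2⟩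
          rw [Matrix.mulVecLin_apply, Jac_mulVec, if_pos h1, (rig_tan B d x z.1).2] at e1
          exact e1) i.1 hi
      have e2 := congrArg (coeff · i.2) e
      simpa [Ev_coeff] using e2
    · rw [Module.finrank_fintype_fun_eq_card, Fintype.card_subtype, card_filter, Fintype.sum_sigma,
        sum_filter]
      refine sum_congr rfl fun b _ => ?_
      split_ifs <;> simp
  · rw [Fintype.prod_sigma, Fintype.card_sigma]
    simp only [Fintype.card_fin, prod_const, card_univ, mul_pow, ← pow_mul, prod_mul_distrib,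
      prod_pow_eq_pow_sum]
    calc 2 ^ (n + 1 + ∑ b, d b) * (2 ^ (∑ b, d b) * 4 ^ ∑ b : Fin (n + 1), (b : ℕ) * d b)
        ≤ 2 ^ (n + 1 + (n + 1)) * (2 ^ (n + 1) * 4 ^ (n + 1)) := by gcongr <;> omega
      _ = 32 ^ (n + 1) := by
        rw [pow_add, ← mul_pow, ← mul_pow, ← mul_pow]
        norm_num

theorem rigid (k : ℕ) (B : F[X]) (n : ℕ) :
    ∑ μ ∈ (PL F (n + 1)).filter (fun μ => TT k B n μ 0), (1 / (Fintype.card F : ℝ)) ^ tt μ ≤
      128 ^ (n + 1) := by
  obtain ⟨T, hT⟩ : ∃ T, T = (PL F (n + 1)).filter fun μ => TT k B n μ 0 := ⟨_, rfl⟩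
  have hT' : ∀ μ ∈ T, μ.natDegree ≤ n ∧ Prim B n μ (n - om μ) := fun μ hμ => by
    rw [hT, mem_filter, mem_PL_succ] at hμ
    exact ⟨hμ.1, hμ.2.2⟩
  have hq : (0 : ℝ) < Fintype.card F := Nat.cast_pos.2 Fintype.card_pos
  choose! dd h1 h2 using fun μ (hμ : μ ∈ T) => exists_param (hT' μ hμ).2.1 (hT' μ hμ).1
  rw [← hT, ← sum_fiberwise_of_maps_to h1]
  refine (sum_le_card_nsmul _ _ ((32 : ℝ) ^ (n + 1)) fun d hd => ?_).trans ?_
  · rcases (T.filter fun μ => dd μ = d).eq_empty_or_nonempty with he | ⟨μ₀, h00⟩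
    · rw [he, sum_empty]
      positivity
    obtain ⟨h0, rfl⟩ := mem_filter.1 h00
    obtain ⟨-, -, -, -, -, h3⟩ := h2 μ₀ h0
    have h4 := rigid_pat B n (dd μ₀) (mem_filter.1 hd).2 (h3.trans_le (hT' μ₀ h0).1)
    have h5 := (card_le_card (s := T.filter fun μ => dd μ = dd μ₀) fun μ hμ => by
      obtain ⟨hμ, e⟩ := mem_filter.1 hμ
      have h6 := h2 μ hμ
      rw [e] at h6
      obtain ⟨x, e1, e2, e3, -⟩ := h6
      exact mem_image.2 ⟨x, mem_filter.2 ⟨mem_univ x, e2, by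
        rw [e1, e3]
        exact (hT' μ hμ).2⟩, e1⟩).trans ((card_image_le (f := MM (dd μ₀))).trans h4)
    rw [sum_congr rfl (g := fun _ => (1 / (Fintype.card F : ℝ)) ^
      ∑ b ∈ univ.filter (fun b : Fin (n + 1) => ((b : ℕ) : F) = 0), dd μ₀ b) fun μ hμ => by
        obtain ⟨hμ, e⟩ := mem_filter.1 hμ
        obtain ⟨-, -, -, -, e1, -⟩ := h2 μ hμ
        rw [← e1, e], sum_const, nsmul_eq_mul, one_div, inv_pow, ← div_eq_mul_inv,
      div_le_iff₀ (by positivity)]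
    exact_mod_cast h5
  · rw [nsmul_eq_mul, show (128 : ℝ) = 4 * 32 by norm_num, mul_pow]
    exact mul_le_mul_of_nonneg_right (by exact_mod_cast card_DD n) (by positivity)

theorem card_ZZ (k : ℕ) (B : F[X]) (n w : ℕ) :
    ((ZZ k B n w).card : ℝ) ≤ 128 ^ (n + 1) * (Fintype.card F : ℝ) ^ (w + 1) := by
  have hq : (0 : ℝ) < Fintype.card F := Nat.cast_pos.2 Fintype.card_pos
  refine (Nat.cast_le.2 card_biUnion_le).trans ?_
  refine le_trans ?_ (mul_le_mul_of_nonneg_right (rigid k B n) (by positivity))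
  rw [Nat.cast_sum, sum_mul, ← filter_filter]
  refine (sum_le_sum fun μ hμ => ?_).trans
    (sum_le_sum_of_subset_of_nonneg (filter_subset _ _) fun _ _ _ => by positivity)
  refine (Nat.cast_le.2 card_image_le).trans (le_of_eq ?_)
  rw [card_PL, one_div, inv_pow, inv_mul_eq_div, eq_div_iff (by positivity), Nat.cast_pow, ← pow_add]
  have := (mem_filter.1 hμ).2
  congr 1
  omega

lemma mem_ZZ {k n w : ℕ} {B μ g : F[X]} (h : TT k B n μ 0) (hw : g.natDegree + tt μ ≤ w) :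
    rho k μ * g ∈ ZZ k B n w :=
  mem_biUnion.2 ⟨μ, mem_filter.2 ⟨mem_PL_succ.2 (h.2.2.1.trans h.2.2.2.1), h, by omega⟩,
    mem_image_of_mem _ (mem_PL_succ.2 (by omega))⟩

end Pool.Agent.Lib.MP_879916_ag.Dg
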