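import Pool.Agent.Lib.MP_879916_ag.DgLat

/-! Weyl's inequality. -/

set_option linter.unusedSectionVars false

noncomputable section

namespace Pool.Agent.Lib.MP_879916_ag.Dg

open Polynomial Finset
open scoped Classical

variable {F : Type} [Field F] [Fintype F]

/-- probability that the functional kills `h_1 ... h_i P_e` -/
def PP (N e : ℕ) : ℕ → F[X] → ℝ
  | 0, B => if Kill B N 1 e then 1 else 0
  | i + 1, B => (∑ h ∈ PL F (e + 1), PP N e i (B * h)) / (Fintype.card F : ℝ) ^ (e + 1)

lemma weyl_q_pos : (0 : ℝ) < Fintype.card F := by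
  have := two_le_card (F := F)
  exact_mod_cast (by omega : 0 < Fintype.card F)

lemma weyl_PP_C {c : F} (hc : c ≠ 0) (N e i : ℕ) (B : F[X]) :
    PP N e i (C c * B) = PP N e i B := by
  induction i generalizing B with
  | zero =>
    have : Kill (C c * B) N 1 e ↔ Kill B N 1 e := by
      simp only [Kill, mul_assoc, coeff_C_mul, mul_eq_zero, hc, false_or]
    simp only [PP, this]
  | succ i ih => simp only [PP, mul_assoc, ih]

lemma weyl_PP_le_one (N e i : ℕ) (B : F[X]) : PP N e i B ≤ 1 := by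
  induction i generalizing B with
  | zero => simp only [PP]; split_ifs <;> norm_num
  | succ i ih =>
    simp only [PP]
    rw [div_le_one (pow_pos weyl_q_pos _)]
    refine (sum_le_card_nsmul _ _ 1 fun h _ => ih _).trans ?_
    rw [card_PL]
    simp

lemma weyl_coeff {R : Type} [CommRing R] {f : R[X]} {m : ℕ} (hf : f.natDegree ≤ m + 1) (h : R) :
    (taylor h f - f).coeff m = (m + 1 : ℕ) * f.coeff (m + 1) * h := by
  have h1 : (hasseDeriv m f).natDegree ≤ 1 := (natDegree_hasseDeriv_le f m).trans (by omega)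
  rw [coeff_sub, taylor_coeff, eq_X_add_C_of_natDegree_le_one h1, hasseDeriv_coeff,
    hasseDeriv_coeff, add_comm 1 m]
  simp

lemma weyl_sq (M : ℕ) (u : F[X] → F) : ‖Ex M fun x => psi F (u x)‖ ^ 2 ≤
    ∑ h ∈ PL F M, 1 / (Fintype.card F : ℝ) ^ M * ‖Ex M fun x => psi F (u (x + h) - u x)‖ := by
  have h1 : (Ex M fun x => psi F (u x)) * (starRingEnd ℂ) (Ex M fun x => psi F (u x)) =
      ∑ h ∈ PL F M, 1 / (Fintype.card F : ℂ) ^ M * Ex M fun x => psi F (u (x + h) - u x) := by
    have h2 : ∀ x ∈ PL F M, (∑ y ∈ PL F M, psi F (u y)) * (starRingEnd ℂ) (psi F (u x)) =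
        ∑ h ∈ PL F M, psi F (u (x + h) - u x) := by
      intro x hx
      rw [← sum_PL_shift hx fun y => psi F (u y), sum_mul]
      refine sum_congr rfl fun h _ => ?_
      rw [sub_eq_add_neg, AddChar.map_add_eq_mul, psi_neg, add_comm h x]
    unfold Ex
    rw [map_div₀, map_sum, div_mul_div_comm, mul_sum, sum_congr rfl h2, sum_comm, sum_div]
    refine sum_congr rfl fun h _ => ?_
    rw [map_pow, map_natCast, div_mul_div_comm, one_mul]
  rw [Complex.mul_conj, Complex.normSq_eq_norm_sq] at h1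
  have h3 := congrArg norm h1
  rw [Complex.norm_real, Real.norm_of_nonneg (sq_nonneg _)] at h3
  rw [h3]
  refine (norm_sum_le _ _).trans (le_of_eq (sum_congr rfl fun h _ => ?_))
  simp

lemma weyl_diff {k : ℕ} (hch : Ch k F) (hk : 2 ≤ k) (N e : ℕ) (i : ℕ) (hi : i + 1 ≤ k) (B : F[X])
    (f : F[X][X]) (hf : f.natDegree ≤ i + 1) :
    ‖Ex (e + 1) fun x => psi F ((B * f.eval x).coeff N)‖ ^ (2 ^ i) ≤
      PP N e i (B * f.coeff (i + 1)) := by
  induction i generalizing f with
  | zero =>
    let L : F[X] →ₗ[F] F := (lcoeff F N).comp (LinearMap.mulLeft F (B * f.coeff 1))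
    have hL : ∀ w, L w = (B * f.coeff 1 * w).coeff N := fun w => rfl
    have h1 : ∀ x, psi F ((B * f.eval x).coeff N) = psi F ((B * f.coeff 0).coeff N) * psi F (L x) := by
      intro x
      rw [← AddChar.map_add_eq_mul, hL, ← coeff_add]
      conv_lhs => rw [eq_X_add_C_of_natDegree_le_one hf]
      congr 2
      simp only [eval_add, eval_mul, eval_C, eval_X]
      ring
    have h2 : Kill (B * f.coeff 1) N 1 e ↔ ∀ w ∈ PL F (e + 1), L w = 0 := by
      simp only [Kill, mem_PL_succ, hL, mul_one]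
    have h3 := pow_pos (weyl_q_pos (F := F)) (e + 1)
    simp only [Ex, h1, ← mul_sum, orth, PP, zero_add, h2, pow_zero, pow_one, norm_div, norm_mul,
      norm_psi, one_mul]
    split_ifs
    · rw [div_le_one (by simpa using h3)]
    · simp
  | succ i ih =>
    have h3 := pow_pos (weyl_q_pos (F := F)) (e + 1)
    rw [pow_succ', pow_mul]
    refine (pow_le_pow_left₀ (sq_nonneg _) (weyl_sq _ fun x => (B * f.eval x).coeff N) _).trans ?_
    refine (Real.pow_arith_mean_le_arith_mean_pow _ _ _ (fun _ _ => by positivity) ?_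
      (fun _ _ => norm_nonneg _) _).trans ?_
    · rw [sum_const, card_PL, nsmul_eq_mul]
      push_cast
      field_simp
    · simp only [PP]
      rw [sum_div]
      refine sum_le_sum fun h _ => ?_
      rw [one_div, div_eq_inv_mul]
      refine mul_le_mul_of_nonneg_left ?_ (by positivity)
      have h4 := ih (by omega) (taylor h f - f) (natDegree_le_iff_coeff_eq_zero.2 fun m hm => by
        rw [weyl_coeff (by omega), coeff_eq_zero_of_natDegree_lt (by omega)]; simp)
      rw [weyl_coeff hf, show B * (((i + 1 + 1 : ℕ) : F[X]) * f.coeff (i + 1 + 1) * h) =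
        C ((i + 1 + 1 : ℕ) : F) * (B * f.coeff (i + 1 + 1) * h) by rw [map_natCast]; ring,
        weyl_PP_C (hch.ne hk (by omega) hi)] at h4
      simpa only [eval_sub, taylor_eval, mul_sub, coeff_sub] using h4

lemma weyl_count {N e i a η : ℕ} (hN : (i + 2) * e ≤ N) (hη : 2 * a + η ≤ e) (ha : a ≤ i * e)
    {B : F[X]} (h : Minor B N ((i + 2) * e) (2 * a + η)) :
    ((PL F (e + 1)).filter fun g => ¬ Minor (B * g) N ((i + 1) * e) a).card ≤
      Fintype.card F ^ (e + 1 - η) := by
  have e1 : (i + 1) * e = i * e + e := by ring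
  have e2 : (i + 2) * e = i * e + 2 * e := by ring
  have hs : ((PL F (e + 1)).filter fun g => ¬ Minor (B * g) N ((i + 1) * e) a) ⊆
      ((PL F (a + 1)).filter (· ≠ 0)).biUnion fun r =>
        (PL F (e + 1)).filter fun g => Kill (B * r) N g ((i + 1) * e - a) := by
    intro g hg
    obtain ⟨hg, hm⟩ := mem_filter.1 hg
    simp only [Minor, not_forall, not_not] at hm
    obtain ⟨r, r0, rd, hr⟩ := hm
    refine mem_biUnion.2 ⟨r, mem_filter.2 ⟨mem_PL_succ.2 rd, r0⟩, mem_filter.2 ⟨hg, fun w hw => ?_⟩⟩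
    rw [mul_right_comm B r g]
    exact hr w hw
  refine (card_le_card hs).trans ((card_biUnion_le_card_mul _ _
    (Fintype.card F ^ (e - a - η)) fun r hr => ?_).trans ?_)
  · obtain ⟨rd, r0⟩ := mem_filter.1 hr
    rw [mem_PL_succ] at rd
    by_contra hc
    obtain ⟨s, s0, sd, hs⟩ := hankel (by omega) (by omega) (not_le.1 hc)
    refine h (r * s) (mul_ne_zero r0 s0) (natDegree_mul_le.trans (by omega)) fun w hw => ?_
    rw [← mul_assoc]
    exact hs w (by omega)
  · refine (Nat.mul_le_mul_right _ ((card_filter_le _ _).trans (card_PL _).le)).trans ?_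
    rw [← pow_add]
    exact le_of_eq (by congr 1; omega)

lemma PP_le {N e η : ℕ} (i : ℕ) (hN : (i + 1) * e ≤ N) (hη : (2 ^ i - 1) * η ≤ e) (B : F[X])
    (h : Minor B N ((i + 1) * e) ((2 ^ i - 1) * η)) :
    PP N e i B ≤ i * (1 / (Fintype.card F : ℝ)) ^ η := by
  induction i generalizing B with
  | zero =>
    have := h 1 one_ne_zero (by simp)
    simp only [zero_add, one_mul, pow_zero, Nat.sub_self, zero_mul, Nat.sub_zero] at this
    simp [PP, this]
  | succ i ih =>
    have hq := weyl_q_pos (F := F)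
    have e0 : (2 ^ (i + 1) - 1) * η = 2 * ((2 ^ i - 1) * η) + η := by
      obtain ⟨t, ht⟩ : ∃ t, 2 ^ i = t + 1 := ⟨2 ^ i - 1, by have := Nat.one_le_two_pow (n := i); omega⟩
      rw [pow_succ, ht, show (t + 1) * 2 - 1 = 2 * t + 1 by omega, Nat.add_sub_cancel]
      ring
    rw [e0] at hη h
    have ha : (2 ^ i - 1) * η ≤ i * e := by
      rcases i with _ | i
      · simp
      · rw [add_mul i 1 e]; omega
    have hc := weyl_count hN hη ha h
    have hN' : (i + 1) * e ≤ N := le_trans (Nat.mul_le_mul_right _ (by omega)) hN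
    have h1 : ∀ g ∈ PL F (e + 1), PP N e i (B * g) ≤ i * (1 / (Fintype.card F : ℝ)) ^ η +
        if ¬ Minor (B * g) N ((i + 1) * e) ((2 ^ i - 1) * η) then 1 else 0 := by
      intro g _
      split_ifs with hm
      · rw [add_zero]
        exact ih hN' (by omega) _ hm
      · exact (weyl_PP_le_one _ _ _ _).trans (le_add_of_nonneg_left (by positivity))
    simp only [PP]
    rw [div_le_iff₀ (pow_pos hq _)]
    refine (sum_le_sum h1).trans ?_
    rw [sum_add_distrib, sum_const, card_PL, sum_boole, nsmul_eq_mul]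
    have h2 : ((Fintype.card F ^ (e + 1 - η) : ℕ) : ℝ) =
        (1 / (Fintype.card F : ℝ)) ^ η * (Fintype.card F : ℝ) ^ (e + 1) := by
      rw [Nat.cast_pow, pow_sub₀ _ hq.ne' (by omega), one_div, inv_pow, mul_comm]
    have h3 := (Nat.cast_le (α := ℝ)).2 hc
    rw [h2] at h3
    push_cast
    linarith

theorem weyl {k : ℕ} (hk : 2 ≤ k) (hch : Ch k F) {B : F[X]} {N e η : ℕ} (hN : k * e ≤ N)
    (hη : (2 ^ (k - 1) - 1) * η ≤ e) (h : Minor B N (k * e) ((2 ^ (k - 1) - 1) * η)) :
    ‖GG k B N e‖ ^ (2 ^ (k - 1)) ≤ k * (1 / (Fintype.card F : ℝ)) ^ η := by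
  obtain ⟨j, rfl⟩ : ∃ j, k = j + 1 := ⟨k - 1, by omega⟩
  have hq := weyl_q_pos (F := F)
  have h1 := weyl_diff hch hk N e j le_rfl B (X ^ (j + 1)) (by simp)
  simp only [eval_pow, eval_X, coeff_X_pow_self, mul_one] at h1
  refine h1.trans ((PP_le j hN hη B h).trans ?_)
  push_cast
  exact mul_le_mul_of_nonneg_right (by linarith) (by positivity)

end Pool.Agent.Lib.MP_879916_ag.Dg
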