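import Mathlib

/-! Hilbert series modulo `l` of homogeneous ideals. -/

namespace Pool.Agent.PrimeToL

open Module DirectSum
open scoped PowerSeries Polynomial IntermediateField

set_option linter.unusedSectionVars false

variable {k R : Type} [Field k] [CommRing R] [Algebra k R] (𝒜 : ℕ → Submodule k R)
  [GradedAlgebra 𝒜] (l : ℕ)

/-- the part of degree `n` of an ideal -/
def pc (J : Ideal R) (n : ℕ) : Submodule k R := 𝒜 n ⊓ J.restrictScalars k

/-- the Hilbert series modulo `l` of an ideal -/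
noncomputable def hs (J : Ideal R) : (ZMod l)⟦X⟧ :=
  PowerSeries.mk fun n => (finrank k (pc 𝒜 J n) : ZMod l)

/-- the Hilbert series modulo `l` of the quotient -/
noncomputable def hq (J : Ideal R) : (ZMod l)⟦X⟧ := hs 𝒜 l ⊤ - hs 𝒜 l J

variable {𝒜 l}

theorem mem_pc {J : Ideal R} {n : ℕ} {x : R} : x ∈ pc 𝒜 J n ↔ x ∈ 𝒜 n ∧ x ∈ J := Iff.rfl

theorem pc_fin (hf : ∀ n, FiniteDimensional k (𝒜 n)) (J : Ideal R) (n : ℕ) :
    FiniteDimensional k (pc 𝒜 J n) :=
  have := hf n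
  Submodule.finiteDimensional_of_le (inf_le_left : pc 𝒜 J n ≤ 𝒜 n)

theorem colon_hom {J : Ideal R} (hJ : J.IsHomogeneous 𝒜) {a : R} {D : ℕ} (ha : a ∈ 𝒜 D) :
    Ideal.IsHomogeneous 𝒜 (J.colon {a}) := by
  intro i x hx
  rw [Submodule.mem_colon_singleton, smul_eq_mul] at hx ⊢
  rw [← coe_decompose_mul_add_of_right_mem 𝒜 ha]
  exact hJ _ hx

theorem sup_hom {J : Ideal R} (hJ : J.IsHomogeneous 𝒜) {a : R} {D : ℕ} (ha : a ∈ 𝒜 D) :
    Ideal.IsHomogeneous 𝒜 (J ⊔ Ideal.span {a}) :=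
  hJ.sup (Ideal.homogeneous_span 𝒜 _ fun x hx => ⟨D, by rwa [Set.mem_singleton_iff.1 hx]⟩)

theorem pc_sup_lt {J : Ideal R} (hJ : J.IsHomogeneous 𝒜) {a : R} {D : ℕ} (ha : a ∈ 𝒜 D) {n : ℕ}
    (hn : ¬ D ≤ n) : pc 𝒜 (J ⊔ Ideal.span {a}) n = pc 𝒜 J n := by
  refine le_antisymm (fun x hx => ⟨hx.1, ?_⟩) fun x hx => ⟨hx.1, Ideal.mem_sup_left hx.2⟩
  obtain ⟨j, hj, y, hy, e⟩ := Submodule.mem_sup.1 hx.2
  obtain ⟨c, rfl⟩ := Ideal.mem_span_singleton'.1 hy
  have h1 : x = (decompose 𝒜 j n : R) := by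
    rw [← decompose_of_mem_same 𝒜 hx.1, ← e, decompose_add, DirectSum.add_apply,
      Submodule.coe_add, coe_decompose_mul_of_right_mem_of_not_le 𝒜 ha hn, add_zero]
  rw [h1]
  exact hJ _ hj

theorem pc_sup_add {J : Ideal R} (hJ : J.IsHomogeneous 𝒜) {a : R} {D : ℕ} (ha : a ∈ 𝒜 D) (m : ℕ) :
    pc 𝒜 (J ⊔ Ideal.span {a}) (m + D) =
      pc 𝒜 J (m + D) ⊔ (pc 𝒜 ⊤ m).map (LinearMap.mulRight k a) := by
  refine le_antisymm (fun x hx => ?_) (sup_le (fun x hx => ⟨hx.1, Ideal.mem_sup_left hx.2⟩) ?_)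
  · obtain ⟨j, hj, y, hy, e⟩ := Submodule.mem_sup.1 hx.2
    obtain ⟨c, rfl⟩ := Ideal.mem_span_singleton'.1 hy
    have h1 : x = (decompose 𝒜 j (m + D) : R) + (decompose 𝒜 c m : R) * a := by
      rw [← decompose_of_mem_same 𝒜 hx.1, ← e, decompose_add, DirectSum.add_apply,
        Submodule.coe_add, coe_decompose_mul_add_of_right_mem 𝒜 ha]
    rw [h1]
    exact Submodule.add_mem_sup ⟨Submodule.coe_mem _, hJ _ hj⟩
      ⟨_, ⟨Submodule.coe_mem _, trivial⟩, rfl⟩
  · rintro _ ⟨c, hc, rfl⟩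
    exact ⟨SetLike.mul_mem_graded hc.1 ha,
      Ideal.mem_sup_right (Ideal.mem_span_singleton'.2 ⟨c, rfl⟩)⟩

theorem pc_inf {J : Ideal R} {a : R} {D : ℕ} (ha : a ∈ 𝒜 D) (m : ℕ) :
    pc 𝒜 J (m + D) ⊓ (pc 𝒜 ⊤ m).map (LinearMap.mulRight k a) =
      (pc 𝒜 (J.colon {a}) m).map (LinearMap.mulRight k a) := by
  refine le_antisymm ?_ ?_
  · rintro _ ⟨h, c, hc, rfl⟩
    exact ⟨c, ⟨hc.1, Submodule.mem_colon_singleton.2 h.2⟩, rfl⟩
  · rintro _ ⟨c, hc, rfl⟩
    exact ⟨⟨SetLike.mul_mem_graded hc.1 ha, Submodule.mem_colon_singleton.1 hc.2⟩,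
      c, ⟨hc.1, trivial⟩, rfl⟩

/-- the exact sequence `0 → R/(J:a) → R/J → R/(J+a) → 0` -/
theorem hq_exact [IsDomain R] (hf : ∀ n, FiniteDimensional k (𝒜 n)) {J : Ideal R}
    (hJ : J.IsHomogeneous 𝒜) {a : R} {D : ℕ} (ha : a ∈ 𝒜 D) (h0 : a ≠ 0) :
    hq 𝒜 l J = hq 𝒜 l (J ⊔ Ideal.span {a}) + PowerSeries.X ^ D * hq 𝒜 l (J.colon {a}) := by
  have hinj : Function.Injective (LinearMap.mulRight k a) := fun x y h =>
    mul_right_cancel₀ h0 h
  ext n
  rw [map_add, PowerSeries.coeff_X_pow_mul']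
  simp only [hq, hs, map_sub, PowerSeries.coeff_mk]
  by_cases hn : D ≤ n
  · obtain ⟨m, rfl⟩ := Nat.exists_eq_add_of_le' hn
    rw [if_pos hn, Nat.add_sub_cancel, pc_sup_add hJ ha]
    have := pc_fin hf J (m + D)
    have := pc_fin hf ⊤ m
    have h := Submodule.finrank_sup_add_finrank_inf_eq (pc 𝒜 J (m + D))
      ((pc 𝒜 ⊤ m).map (LinearMap.mulRight k a))
    rw [pc_inf ha, LinearEquiv.finrank_eq (Submodule.equivMapOfInjective _ hinj _).symm,
      LinearEquiv.finrank_eq (Submodule.equivMapOfInjective _ hinj _).symm] at h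
    have h' := congrArg (Nat.cast : ℕ → ZMod l) h
    push_cast at h'
    linear_combination h'
  · rw [if_neg hn, pc_sup_lt hJ ha hn, add_zero]

/-- a subspace that is stable under a root of an irreducible polynomial -/
theorem dvd_finrank {Λ : Type} [Field Λ] [Algebra k Λ] {γ : Λ} (hγ : IsIntegral k γ)
    (W : Submodule k Λ) (hW : ∀ x ∈ W, γ * x ∈ W) :
    (minpoly k γ).natDegree ∣ finrank k W := by
  have hs : ∀ c ∈ Algebra.adjoin k {γ}, ∀ x ∈ W, c * x ∈ W := by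
    intro c hc
    induction hc using Algebra.adjoin_induction with
    | mem y hy => rw [Set.mem_singleton_iff.1 hy]; exact hW
    | algebraMap r => intro x hx; rw [← Algebra.smul_def]; exact W.smul_mem r hx
    | add y z _ _ hy hz => intro x hx; rw [add_mul]; exact W.add_mem (hy x hx) (hz x hx)
    | mul y z _ _ hy hz => intro x hx; rw [mul_assoc]; exact hy _ (hz x hx)
  let W' : Submodule k⟮γ⟯ Λ :=
    { carrier := W
      add_mem' := W.add_mem
      zero_mem' := W.zero_mem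
      smul_mem' := fun c x hx => hs c (by
        rw [← IntermediateField.adjoin_simple_toSubalgebra_of_isAlgebraic hγ.isAlgebraic]
        exact c.2) x hx }
  have h1 : finrank k W = finrank k W' := rfl
  rw [h1, ← finrank_mul_finrank k k⟮γ⟯ W', IntermediateField.adjoin.finrank hγ]
  exact dvd_mul_right _ _

/-- a non-constant algebraic function of degree zero makes the Hilbert series that of a
smaller quotient -/
theorem exists_conductor (hf : ∀ n, FiniteDimensional k (𝒜 n)) {Λ : Type} [Field Λ] [Algebra k Λ]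
    (π : R →ₐ[k] Λ) (hP : (RingHom.ker π).IsHomogeneous 𝒜) {γ : Λ} (hγ : IsIntegral k γ)
    (hl : l ∣ (minpoly k γ).natDegree) {u v : R} {D : ℕ} (hu : u ∈ 𝒜 D) (hv : v ∈ 𝒜 D)
    (h0 : π v ≠ 0) (huv : π u = γ * π v) :
    ∃ I : Ideal R, RingHom.ker π < I ∧ I.IsHomogeneous 𝒜 ∧
      hq 𝒜 l (RingHom.ker π) = hq 𝒜 l I := by
  let I : Ideal R :=
    { carrier := {x | ∀ i : ℕ, ∃ y, γ ^ i * π x = π y}
      add_mem' := fun {a b} ha hb i => by
        obtain ⟨y, hy⟩ := ha i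
        obtain ⟨z, hz⟩ := hb i
        exact ⟨y + z, by rw [map_add, map_add, mul_add, hy, hz]⟩
      zero_mem' := fun i => ⟨0, by simp⟩
      smul_mem' := fun c x hx i => by
        obtain ⟨y, hy⟩ := hx i
        exact ⟨c * y, by rw [smul_eq_mul, map_mul, map_mul, ← hy]; ring⟩ }
  have hmem : ∀ x, x ∈ I ↔ ∀ i : ℕ, ∃ y, γ ^ i * π x = π y := fun _ => Iff.rfl
  have hle : RingHom.ker π ≤ I := fun x hx i => ⟨0, by rw [(RingHom.mem_ker).1 hx]; simp⟩
  have hcomp : ∀ (i n : ℕ) (x y : R), γ ^ i * π x = π y →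
      γ ^ i * π (decompose 𝒜 x n) = π (decompose 𝒜 y n) := by
    intro i n x y h
    have hui : u ^ i ∈ 𝒜 (i * D) := by simpa using SetLike.pow_mem_graded i hu
    have hvi : v ^ i ∈ 𝒜 (i * D) := by simpa using SetLike.pow_mem_graded i hv
    have h1 : x * u ^ i - y * v ^ i ∈ RingHom.ker π := by
      rw [RingHom.mem_ker, map_sub, map_mul, map_mul, map_pow, map_pow, huv, ← h]
      ring
    have h2 := hP (n + i * D) h1
    rw [decompose_sub, DirectSum.sub_apply, Submodule.coe_sub,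
      coe_decompose_mul_add_of_right_mem 𝒜 hui, coe_decompose_mul_add_of_right_mem 𝒜 hvi,
      RingHom.mem_ker, map_sub, map_mul, map_mul, map_pow, map_pow, huv] at h2
    refine mul_right_cancel₀ (pow_ne_zero i h0) ?_
    linear_combination h2
  have hI : I.IsHomogeneous 𝒜 := fun n x hx i => by
    obtain ⟨y, hy⟩ := hx i
    exact ⟨_, hcomp i n x y hy⟩
  refine ⟨I, lt_of_le_of_ne hle fun e => ?_, hI, ?_⟩
  · have hv' : v ^ (minpoly k γ).natDegree ∈ I := by
      intro i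
      have hm := minpoly.monic hγ
      have h1 : γ ^ i = Polynomial.aeval γ (Polynomial.X ^ i %ₘ minpoly k γ) := by
        rw [Polynomial.aeval_modByMonic_eq_self_of_root (minpoly.aeval k γ)]
        simp
      have h2 : (Polynomial.X ^ i %ₘ minpoly k γ).natDegree < (minpoly k γ).natDegree + 1 :=
        Nat.lt_succ_of_le (Polynomial.natDegree_modByMonic_le _ hm)
      refine ⟨∑ j ∈ Finset.range ((minpoly k γ).natDegree + 1),
        (Polynomial.X ^ i %ₘ minpoly k γ).coeff j •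
          (u ^ j * v ^ ((minpoly k γ).natDegree - j)), ?_⟩
      rw [h1, Polynomial.aeval_eq_sum_range' h2, map_sum, Finset.sum_mul]
      refine Finset.sum_congr rfl fun j hj => ?_
      have h3 : (minpoly k γ).natDegree = j + ((minpoly k γ).natDegree - j) := by
        have := Finset.mem_range.1 hj
        omega
      rw [map_smul, map_mul, map_pow, map_pow, map_pow, huv, smul_mul_assoc]
      congr 1
      conv_lhs => rw [h3]
      ring
    rw [← e, RingHom.mem_ker, map_pow] at hv'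
    exact pow_ne_zero _ h0 hv'
  · unfold hq
    congr 1
    ext n
    simp only [hs, PowerSeries.coeff_mk]
    have := pc_fin hf I n
    have h1 := LinearMap.finrank_range_add_finrank_ker (π.toLinearMap.domRestrict (pc 𝒜 I n))
    have h2 : finrank k (LinearMap.ker (π.toLinearMap.domRestrict (pc 𝒜 I n))) =
        finrank k (pc 𝒜 (RingHom.ker π) n) := by
      have h3 : pc 𝒜 (RingHom.ker π) n ≤ pc 𝒜 I n := fun x hx => ⟨hx.1, hle hx.2⟩
      have h4 : LinearMap.ker (π.toLinearMap.domRestrict (pc 𝒜 I n)) =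
          (pc 𝒜 (RingHom.ker π) n).comap (pc 𝒜 I n).subtype := by
        ext x
        exact ⟨fun h => ⟨x.2.1, h⟩, fun h => h.2⟩
      rw [← (Submodule.comapSubtypeEquivOfLe h3).finrank_eq, h4]
    have h4 := dvd_finrank hγ (LinearMap.range (π.toLinearMap.domRestrict (pc 𝒜 I n))) (by
      rintro _ ⟨x, rfl⟩
      obtain ⟨y, hy⟩ := x.2.2 1
      have h5 := hcomp 1 n x y hy
      rw [decompose_of_mem_same 𝒜 x.2.1, pow_one] at h5
      refine ⟨⟨decompose 𝒜 y n, Submodule.coe_mem _, fun i => ?_⟩, h5.symm⟩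
      obtain ⟨z, hz⟩ := x.2.2 (i + 1)
      exact ⟨z, by rw [← h5, ← hz]; ring⟩)
    rw [← h1, h2, Nat.cast_add, (ZMod.natCast_eq_zero_iff _ _).2 (hl.trans h4), zero_add]

variable (𝒜) in
/-- `x ↦ ∑ π (x n) Z ^ n` -/
noncomputable def spread {Λ : Type} [CommRing Λ] (π : R →+* Λ) : R →+* Λ[X] :=
  (DirectSum.toSemiring (fun i => ((Polynomial.monomial i).toAddMonoidHom.comp
      π.toAddMonoidHom).comp (𝒜 i).subtype.toAddMonoidHom) (by simp) (fun a b => by
        simp [Polynomial.monomial_mul_monomial])).comp (decomposeRingEquiv 𝒜).toRingHom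

theorem spread_of_mem {Λ : Type} [CommRing Λ] (π : R →+* Λ) {x : R} {n : ℕ} (hx : x ∈ 𝒜 n) :
    spread 𝒜 π x = Polynomial.monomial n (π x) := by
  have h : decomposeRingEquiv 𝒜 x = DirectSum.of (fun i => 𝒜 i) n ⟨x, hx⟩ :=
    decompose_of_mem 𝒜 hx
  unfold spread
  rw [RingHom.comp_apply, RingEquiv.toRingHom_eq_coe, RingHom.coe_coe, h, DirectSum.toSemiring_of]
  rfl

theorem coeff_spread {Λ : Type} [CommRing Λ] (π : R →+* Λ) (x : R) (n : ℕ) :
    (spread 𝒜 π x).coeff n = π (decompose 𝒜 x n) := by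
  induction x using Decomposition.inductionOn 𝒜 with
  | zero => simp
  | @homogeneous i m =>
    rw [spread_of_mem π m.2, Polynomial.coeff_monomial]
    by_cases h : i = n
    · subst h
      rw [if_pos rfl, decompose_of_mem_same 𝒜 m.2]
    · rw [if_neg h, decompose_of_mem_ne 𝒜 m.2 h, map_zero]
  | add x y hx hy =>
    rw [map_add, Polynomial.coeff_add, hx, hy, decompose_add, DirectSum.add_apply,
      Submodule.coe_add, map_add]

/-- an algebraic function on the cone gives an algebraic function of degree zero -/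
theorem exists_homog {P : Ideal R} [P.IsPrime] (hP : P.IsHomogeneous 𝒜)
    {Λ : Type} [Field Λ] [Algebra k Λ] [IsAlgClosed Λ] (π : R →ₐ[k] Λ) (hπ : RingHom.ker π = P)
    {β : FractionRing (R ⧸ P)} (hβ : IsIntegral k β) :
    ∃ (γ : Λ) (D : ℕ) (u v : R), IsIntegral k γ ∧ minpoly k γ = minpoly k β ∧ u ∈ 𝒜 D ∧
      v ∈ 𝒜 D ∧ π v ≠ 0 ∧ π u = γ * π v := by
  classical
  let Φ : R →ₐ[k] Λ[X] :=
    { spread 𝒜 (π : R →+* Λ) with
      commutes' := fun c => by
        change spread 𝒜 (π : R →+* Λ) _ = _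
        rw [spread_of_mem _ (SetLike.algebraMap_mem_graded 𝒜 c)]
        simp [Polynomial.algebraMap_apply] }
  have hΦ : ∀ x n, (Φ x).coeff n = π (decompose 𝒜 x n) := fun x n => coeff_spread _ x n
  have hker : ∀ x, Φ x = 0 ↔ x ∈ P := fun x => by
    rw [hP.mem_iff, Polynomial.ext_iff]
    refine forall_congr' fun n => ?_
    rw [hΦ, Polynomial.coeff_zero, ← hπ, RingHom.mem_ker]
  let g : (R ⧸ P) →ₐ[k] FractionRing Λ[X] := Ideal.Quotient.liftₐ P
    ((IsScalarTower.toAlgHom k Λ[X] (FractionRing Λ[X])).comp Φ) fun x hx => by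
      rw [AlgHom.comp_apply, (hker x).2 hx, map_zero]
  have hg : ∀ x, g (Ideal.Quotient.mk P x) = algebraMap Λ[X] (FractionRing Λ[X]) (Φ x) :=
    fun _ => rfl
  have hinj : Function.Injective g := by
    rw [injective_iff_map_eq_zero]
    intro x hx
    obtain ⟨x, rfl⟩ := Ideal.Quotient.mk_surjective x
    rw [hg, map_eq_zero_iff _ (IsFractionRing.injective _ _), hker] at hx
    exact Ideal.Quotient.eq_zero_iff_mem.2 hx
  let Ψ : FractionRing (R ⧸ P) →ₐ[k] FractionRing Λ[X] := IsFractionRing.liftAlgHom hinj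
  have hΨ : ∀ x, Ψ (algebraMap _ _ x) = g x := fun x => IsFractionRing.lift_algebraMap hinj x
  have h1 : IsIntegral k (Ψ β) := hβ.map Ψ
  have h2 : IsIntegral Λ (Ψ β) := h1.tower_top
  obtain ⟨γ, hγ⟩ := minpoly.mem_range_of_degree_eq_one Λ (Ψ β)
    (IsAlgClosed.degree_eq_one_of_irreducible Λ (minpoly.irreducible h2))
  have hγ' : IsScalarTower.toAlgHom k Λ (FractionRing Λ[X]) γ = Ψ β := hγ
  obtain ⟨a, b, hb, rfl⟩ := IsFractionRing.div_surjective (A := R ⧸ P) β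
  obtain ⟨a, rfl⟩ := Ideal.Quotient.mk_surjective a
  obtain ⟨b, rfl⟩ := Ideal.Quotient.mk_surjective b
  have hb' : Φ b ≠ 0 := fun h =>
    nonZeroDivisors.ne_zero hb (Ideal.Quotient.eq_zero_iff_mem.2 ((hker b).1 h))
  have h3 : Φ a = Polynomial.C γ * Φ b := by
    apply IsFractionRing.injective Λ[X] (FractionRing Λ[X])
    rw [map_div₀, hΨ, hΨ, hg, hg, eq_div_iff (by
      rwa [Ne, map_eq_zero_iff _ (IsFractionRing.injective _ _)])] at hγ
    rw [map_mul, ← hγ, IsScalarTower.algebraMap_apply Λ Λ[X] (FractionRing Λ[X])]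
    rfl
  obtain ⟨D, hD⟩ : ∃ D, (Φ b).coeff D ≠ 0 := by
    by_contra h
    push Not at h
    exact hb' (Polynomial.ext h)
  refine ⟨γ, D, decompose 𝒜 a D, decompose 𝒜 b D, ?_, ?_, Submodule.coe_mem _,
    Submodule.coe_mem _, by rwa [← hΦ], by rw [← hΦ, ← hΦ, h3, Polynomial.coeff_C_mul]⟩
  · rw [← hγ'] at h1
    exact (isIntegral_algHom_iff _ (algebraMap Λ (FractionRing Λ[X])).injective).1 h1
  · rw [← minpoly.algHom_eq (IsScalarTower.toAlgHom k Λ (FractionRing Λ[X]))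
      (algebraMap Λ (FractionRing Λ[X])).injective, hγ', minpoly.algHom_eq Ψ Ψ.injective]

/-- power series that are polynomials -/
noncomputable def PolyS (l : ℕ) : Subring (ZMod l)⟦X⟧ :=
  (Polynomial.coeToPowerSeries.ringHom (R := ZMod l)).range

theorem X_mem_PolyS : (PowerSeries.X : (ZMod l)⟦X⟧) ∈ PolyS l :=
  ⟨Polynomial.X, by simp⟩

theorem mem_PolyS {f : (ZMod l)⟦X⟧} {N : ℕ} (h : ∀ n, N ≤ n → PowerSeries.coeff n f = 0) :
    f ∈ PolyS l := by
  refine ⟨PowerSeries.trunc N f, ?_⟩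
  ext n
  rw [Polynomial.coeToPowerSeries.ringHom_apply, Polynomial.coeff_coe, PowerSeries.coeff_trunc]
  split_ifs with h1
  · rfl
  · exact (h n (not_lt.1 h1)).symm

/-- devissage -/
theorem devissage [IsDomain R] [IsNoetherianRing R] (hf : ∀ n, FiniteDimensional k (𝒜 n))
    {ι : Type} (f : ι → R) (d : ι → ℕ) (hd : ∀ i, f i ∈ 𝒜 (d i))
    (H : ∀ (P : Ideal R) [P.IsPrime], P.IsHomogeneous 𝒜 → (∀ i, f i ∈ P) →
      (∃ N, ∀ n, N ≤ n → ∀ x ∈ 𝒜 n, x ∈ P) ∨
      ∃ β : FractionRing (R ⧸ P), IsIntegral k β ∧ l ∣ (minpoly k β).natDegree)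
    (J : Ideal R) : J.IsHomogeneous 𝒜 → ∀ S : Finset ι, (∀ i, i ∉ S → f i ∈ J) →
      (∏ i ∈ S, (1 - PowerSeries.X ^ d i)) * hq 𝒜 l J ∈ PolyS l := by
  classical
  induction J using IsNoetherian.induction with
  | hgt J ih =>
  intro hJ S hS
  have hlt : ∀ a, a ∉ J → J < J ⊔ Ideal.span {a} := fun a ha =>
    lt_of_le_of_ne le_sup_left fun e => ha (e ▸ Ideal.mem_sup_right (Ideal.subset_span rfl))
  by_cases htop : J = ⊤
  · rw [htop, hq, sub_self, mul_zero]
    exact zero_mem _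
  by_cases hp : Ideal.IsPrime J
  swap
  · have h1 := mt (hJ.isPrime_of_homogeneous_mem_or_mem htop) hp
    push Not at h1
    obtain ⟨a, b, ⟨D, ha⟩, -, hab, ha', hb'⟩ := h1
    have h2 : J ≤ J.colon {a} := fun x hx =>
      Submodule.mem_colon_singleton.2 (Ideal.mul_mem_right a J hx)
    have h3 : J < J.colon {a} := lt_of_le_of_ne h2 fun e => hb' (by
      rw [e, Submodule.mem_colon_singleton, smul_eq_mul, mul_comm]
      exact hab)
    rw [hq_exact hf hJ ha (fun e => ha' (e ▸ J.zero_mem)), mul_add, mul_left_comm]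
    exact add_mem (ih _ (hlt a ha') (sup_hom hJ ha) S fun i hi => Ideal.mem_sup_left (hS i hi))
      (mul_mem (pow_mem X_mem_PolyS _) (ih _ h3 (colon_hom hJ ha) S fun i hi => h2 (hS i hi)))
  by_cases hall : ∀ i, f i ∈ J
  swap
  · push Not at hall
    obtain ⟨i, hi⟩ := hall
    have hiS : i ∈ S := by_contra fun h => hi (hS i h)
    have h1 : J.colon {f i} = J := by
      ext x
      rw [Submodule.mem_colon_singleton, smul_eq_mul]
      exact ⟨fun h => (hp.mem_or_mem h).resolve_right hi, fun h => Ideal.mul_mem_right _ J h⟩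
    have h2 := hq_exact (l := l) hf hJ (hd i) (fun e => hi (e ▸ J.zero_mem))
    rw [h1] at h2
    have h3 : (1 - PowerSeries.X ^ d i) * hq 𝒜 l J = hq 𝒜 l (J ⊔ Ideal.span {f i}) := by
      linear_combination h2
    rw [← Finset.prod_erase_mul _ _ hiS, mul_assoc, h3]
    refine ih _ (hlt _ hi) (sup_hom hJ (hd i)) _ fun j hj => ?_
    by_cases e : j = i
    · exact e ▸ Ideal.mem_sup_right (Ideal.subset_span rfl)
    · exact Ideal.mem_sup_left (hS j fun h => hj (Finset.mem_erase.2 ⟨e, h⟩))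
  rcases H J hJ hall with ⟨N, hN⟩ | ⟨β, hβ, hl⟩
  · refine mul_mem (prod_mem fun i _ => sub_mem (one_mem _) (pow_mem X_mem_PolyS _))
      (mem_PolyS (N := N) fun n hn => ?_)
    have h1 : pc 𝒜 (⊤ : Ideal R) n = pc 𝒜 J n :=
      le_antisymm (fun x hx => ⟨hx.1, hN n hn x hx.1⟩) fun x hx => ⟨hx.1, trivial⟩
    simp only [hq, hs, map_sub, PowerSeries.coeff_mk]
    rw [h1, sub_self]
  · let π : R →ₐ[k] AlgebraicClosure (FractionRing (R ⧸ J)) :=
      (IsScalarTower.toAlgHom k (R ⧸ J) _).comp (Ideal.Quotient.mkₐ k J)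
    have hπ : RingHom.ker π = J := by
      ext x
      rw [RingHom.mem_ker, ← Ideal.Quotient.eq_zero_iff_mem]
      change algebraMap (R ⧸ J) _ (Ideal.Quotient.mk J x) = 0 ↔ _
      rw [IsScalarTower.algebraMap_apply (R ⧸ J) (FractionRing (R ⧸ J)), map_eq_zero,
        map_eq_zero_iff _ (IsFractionRing.injective _ _)]
    obtain ⟨γ, D, u, v, hγ, hm, hu, hv, h0, huv⟩ := exists_homog hJ π hπ hβ
    obtain ⟨I, h1, h2, h3⟩ := exists_conductor (l := l) hf π (by rw [hπ]; exact hJ) hγ (hm ▸ hl) hu hv h0 huv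
    rw [hπ] at h1 h3
    rw [h3]
    exact ih I h1 h2 S fun i _ => h1.le (hall i)

end Pool.Agent.PrimeToL
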