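import Pool.Agent.Lib.MP_879916_ag.Pt

/-! Spaces of sections of bounded degree. -/

namespace Pool.Agent.PrimeToL

open Module MvPolynomial
open scoped IntermediateField Polynomial Pointwise

set_option linter.unusedSectionVars false

section coeff

variable {F K : Type} [Field F] [Field K] [Algebra F K]

/-- polynomials of degree at most `n` in `t` -/
def TT (F : Type) [Field F] [Algebra F K] (t : K) (n : ℕ) : Submodule F K :=
  Submodule.span F (Set.range fun a : Fin (n + 1) => t ^ (a : ℕ))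

theorem pow_mem_TT (t : K) {a n : ℕ} (h : a ≤ n) : t ^ a ∈ TT F t n :=
  Submodule.subset_span ⟨⟨a, Nat.lt_succ_of_le h⟩, rfl⟩

theorem TT_mul (t : K) {m n N : ℕ} (h : m + n ≤ N) : TT F t m * TT F t n ≤ TT F t N := by
  rw [TT, TT, Submodule.span_mul_span, Submodule.span_le]
  rintro _ ⟨_, ⟨a, rfl⟩, _, ⟨b, rfl⟩, rfl⟩
  have := a.2
  have := b.2
  change t ^ (a : ℕ) * t ^ (b : ℕ) ∈ TT F t N
  rw [← pow_add]
  exact pow_mem_TT t (by omega)

theorem aeval_mem_TT (t : K) {P : F[X]} {n : ℕ} (h : P.natDegree ≤ n) :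
    Polynomial.aeval t P ∈ TT F t n := by
  rw [Polynomial.aeval_eq_sum_range' (Nat.lt_succ_of_le h)]
  exact sum_mem fun i hi => Submodule.smul_mem _ _
    (pow_mem_TT t (Nat.le_of_lt_succ (Finset.mem_range.1 hi)))

theorem mul_mem_TT {τ : Type} (t : K) {m n N : ℕ} (h : m + n ≤ N) {Z Z' : Submodule F K}
    {f g : MvPolynomial τ K} (hf : f ∈ coeffsIn τ (TT F t m * Z))
    (hg : g ∈ coeffsIn τ (TT F t n * Z')) : f * g ∈ coeffsIn τ (TT F t N * (Z * Z')) := by
  have h1 := Submodule.mul_mem_mul hf hg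
  rw [← coeffsIn_mul, mul_mul_mul_comm] at h1
  exact fun i => mul_le_mul_left (TT_mul t h) _ (h1 i)

/-- the coefficients after substitution of sections of degree `e` have degree `d e + O(1)` -/
def Good {σ : Type} (t : K) (W : Submodule F K) (w : σ → ℕ) (f : MvPolynomial σ K) (d : ℕ) :
    Prop :=
  ∃ Z : Submodule F K, Z.FG ∧ ∀ (τ : Type) (e : ℕ) (y : σ → MvPolynomial τ K),
    (∀ j, y j ∈ coeffsIn τ (TT F t (w j * e) * W)) → aeval y f ∈ coeffsIn τ (TT F t (d * e) * Z)

variable {σ : Type} {t : K} {W : Submodule F K} {w : σ → ℕ}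

theorem Good.mul {f g : MvPolynomial σ K} {d d' : ℕ} (hf : Good t W w f d) (hg : Good t W w g d') :
    Good t W w (f * g) (d + d') := by
  obtain ⟨Z, h1, h2⟩ := hf
  obtain ⟨Z', h1', h2'⟩ := hg
  refine ⟨Z * Z', h1.mul h1', fun τ e y hy => ?_⟩
  rw [map_mul]
  exact mul_mem_TT t (add_mul d d' e).ge (h2 τ e y hy) (h2' τ e y hy)

theorem good_C (c : K) : Good t W w (C c) 0 := by
  refine ⟨Submodule.span F {c}, Submodule.fg_span_singleton c, fun τ e y _ => ?_⟩
  rw [aeval_C, algebraMap_eq, C_mem_coeffsIn]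
  simpa using Submodule.mul_mem_mul (pow_mem_TT (F := F) t (Nat.zero_le (0 * e)))
    (Submodule.mem_span_singleton_self c)

theorem good_of_homog (hW : W.FG) {f : MvPolynomial σ K} {d : ℕ}
    (hf : f.IsWeightedHomogeneous w d) : Good t W w f d := by
  have hX : ∀ j n, Good t W w (X j ^ n) (n * w j) := by
    intro j n
    induction n with
    | zero => simpa using good_C (t := t) (W := W) (w := w) 1
    | succ n ih =>
      rw [pow_succ, add_mul, one_mul]
      exact ih.mul ⟨W, hW, fun τ e y hy => by simpa using hy j⟩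
  have hm : ∀ m : σ →₀ ℕ, Good t W w (monomial m 1) (Finsupp.weight w m) := by
    intro m
    induction m using Finsupp.induction_linear with
    | zero => simpa using good_C (t := t) (W := W) (w := w) 1
    | add a b ha hb =>
      rw [map_add, ← mul_one (1 : K), ← monomial_mul]
      exact ha.mul hb
    | single j n =>
      rw [← X_pow_eq_monomial, Finsupp.weight_single, smul_eq_mul]
      exact hX j n
  induction hf using IsWeightedHomogeneous.induction_on with
  | zero => exact ⟨⊥, Submodule.fg_bot, fun τ e y _ => by rw [map_zero]; exact zero_mem _⟩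
  | add p q _ _ hp hq =>
    obtain ⟨Z, h1, h2⟩ := hp
    obtain ⟨Z', h1', h2'⟩ := hq
    refine ⟨Z ⊔ Z', h1.sup h1', fun τ e y hy i => ?_⟩
    rw [map_add, coeff_add]
    have h3 : TT F t (d * e) * Z ≤ TT F t (d * e) * (Z ⊔ Z') := mul_le_mul_right le_sup_left _
    have h4 : TT F t (d * e) * Z' ≤ TT F t (d * e) * (Z ⊔ Z') := mul_le_mul_right le_sup_right _
    exact add_mem (h3 (h2 τ e y hy i)) (h4 (h2' τ e y hy i))
  | monomial m c hc =>
    have h1 := (good_C c).mul (hm m)
    rwa [C_mul_monomial, mul_one, zero_add, hc] at h1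

theorem homog_aeval {τ : Type} {w' : τ → ℕ} {y : σ → MvPolynomial τ K}
    (hy : ∀ j, (y j).IsWeightedHomogeneous w' (w j)) {f : MvPolynomial σ K} {d : ℕ}
    (hf : f.IsWeightedHomogeneous w d) : (aeval y f).IsWeightedHomogeneous w' d := by
  induction hf using IsWeightedHomogeneous.induction_on with
  | zero => rw [map_zero]; exact isWeightedHomogeneous_zero K w' d
  | add p q _ _ hp hq => rw [map_add]; exact hp.add hq
  | monomial m c hc =>
    rw [aeval_monomial, algebraMap_eq, ← hc, Finsupp.weight_apply]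
    exact (IsWeightedHomogeneous.prod _ _ _ fun j _ => (hy j).pow _).C_mul c

/-- a form with coefficients in a finite dimensional space is a system of forms over `F` -/
theorem descend {τ : Type} {w' : τ → ℕ} {G : MvPolynomial τ K} {d : ℕ}
    (hG : G.IsWeightedHomogeneous w' d) {V : Submodule F K} [FiniteDimensional F V]
    (hV : G ∈ coeffsIn τ V) : ∃ H : Fin (finrank F V) → MvPolynomial τ F,
      (∀ β, (H β).IsWeightedHomogeneous w' d) ∧
      ∀ (Λ : Type) [Field Λ] [Algebra F Λ] [Algebra K Λ] [IsScalarTower F K Λ] (z : τ → Λ),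
        (∀ β, aeval z (H β) = 0) → aeval z G = 0 := by
  let b := Module.finBasis F V
  refine ⟨fun β => ∑ m ∈ G.support, monomial m (b.repr ⟨_, hV m⟩ β), fun β =>
    IsWeightedHomogeneous.sum _ _ _ fun m hm => isWeightedHomogeneous_monomial _ _ _
      (hG (MvPolynomial.mem_support_iff.1 hm)), fun Λ _ _ _ _ z hz => ?_⟩
  have h1 : ∑ β, algebraMap K Λ (b β) *
      aeval z (∑ m ∈ G.support, monomial m (b.repr ⟨_, hV m⟩ β)) = 0 :=
    Finset.sum_eq_zero fun β _ => by rw [hz β, mul_zero]
  rw [← h1]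
  conv_lhs => rw [G.as_sum]
  simp only [map_sum, Finset.mul_sum, aeval_monomial]
  rw [Finset.sum_comm]
  refine Finset.sum_congr rfl fun m _ => ?_
  have h2 := congrArg (fun v : V => algebraMap K Λ v) (b.sum_repr ⟨_, hV m⟩)
  simp only [Submodule.coe_sum, map_sum, Submodule.coe_smul, Algebra.smul_def, map_mul,
    ← IsScalarTower.algebraMap_apply] at h2
  rw [← h2, Finset.sum_mul]
  exact Finset.sum_congr rfl fun β _ => by ring

end coeff

section ff

variable {F K : Type} [Field F] [Field K] [Algebra F K] [Algebra (RatFunc F) K]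
  [IsScalarTower F (RatFunc F) K] {g : ℕ} (b : Basis (Fin g) (RatFunc F) K)

theorem alg_poly (P : F[X]) : algebraMap (RatFunc F) K (algebraMap F[X] (RatFunc F) P) =
    Polynomial.aeval (algebraMap (RatFunc F) K RatFunc.X) P := by
  rw [Polynomial.aeval_algebraMap_apply, RatFunc.aeval_X_left_eq_algebraMap]

theorem indep_sections : LinearIndependent F fun q : ℕ × Fin g =>
    algebraMap (RatFunc F) K RatFunc.X ^ q.1 * b q.2 := by
  have h1 : LinearIndependent F fun a : ℕ => (RatFunc.X : RatFunc F) ^ a := by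
    have h2 := (Polynomial.basisMonomials F).linearIndependent.map'
      (IsScalarTower.toAlgHom F F[X] (RatFunc F)).toLinearMap
      (LinearMap.ker_eq_bot.2 (IsFractionRing.injective F[X] (RatFunc F)))
    have h3 : (IsScalarTower.toAlgHom F F[X] (RatFunc F)).toLinearMap ∘
        Polynomial.basisMonomials F = fun a : ℕ => (RatFunc.X : RatFunc F) ^ a := by
      ext a
      simp [← Polynomial.X_pow_eq_monomial]
    rw [h3] at h2
    exact h2
  simpa [Algebra.smul_def] using linearIndependent_smul h1 b.linearIndependent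

theorem exists_den {Z : Submodule F K} (hZ : Z.FG) : ∃ (D : F[X]) (c : ℕ), D ≠ 0 ∧ ∀ z ∈ Z,
    Polynomial.aeval (algebraMap (RatFunc F) K RatFunc.X) D * z ∈
      TT F (algebraMap (RatFunc F) K RatFunc.X) c * Submodule.span F (Set.range b) := by
  have hup : ∀ (D : F[X]) (c N : ℕ) (z : K), D.natDegree + c ≤ N →
      z ∈ TT F (algebraMap (RatFunc F) K RatFunc.X) c * Submodule.span F (Set.range b) →
      Polynomial.aeval (algebraMap (RatFunc F) K RatFunc.X) D * z ∈
        TT F (algebraMap (RatFunc F) K RatFunc.X) N * Submodule.span F (Set.range b) := by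
    intro D c N z h hz
    have h1 := Submodule.mul_mem_mul (aeval_mem_TT (algebraMap (RatFunc F) K RatFunc.X)
      (le_refl D.natDegree)) hz
    rw [← mul_assoc] at h1
    exact mul_le_mul_left (TT_mul _ h) _ h1
  induction Z, hZ using Submodule.fg_induction with
  | singleton x =>
    obtain ⟨D, hD⟩ := IsLocalization.exist_integer_multiples_of_finite (nonZeroDivisors F[X])
      fun s => b.repr x s
    choose P hP using hD
    refine ⟨D, Finset.univ.sup fun s => (P s).natDegree, nonZeroDivisors.ne_zero D.2,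
      fun z hz => ?_⟩
    obtain ⟨a, rfl⟩ := Submodule.mem_span_singleton.1 hz
    rw [mul_smul_comm]
    refine Submodule.smul_mem _ _ ?_
    rw [← b.sum_repr x, Finset.mul_sum]
    refine sum_mem fun s _ => ?_
    rw [Algebra.smul_def, ← mul_assoc, ← alg_poly, ← map_mul, ← Algebra.smul_def (D : F[X]), ← hP,
      alg_poly]
    exact Submodule.mul_mem_mul (aeval_mem_TT _
      (Finset.le_sup (f := fun s => (P s).natDegree) (Finset.mem_univ s)))
      (Submodule.subset_span ⟨s, rfl⟩)
  | sup N₁ N₂ _ _ h1 h2 =>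
    obtain ⟨D, c, hD, h1⟩ := h1
    obtain ⟨D', c', hD', h2⟩ := h2
    refine ⟨D * D', D'.natDegree + c + (D.natDegree + c'), mul_ne_zero hD hD', fun z hz => ?_⟩
    obtain ⟨x, hx, y, hy, rfl⟩ := Submodule.mem_sup.1 hz
    rw [mul_add, map_mul]
    refine add_mem ?_ ?_
    · rw [mul_comm (Polynomial.aeval _ D), mul_assoc]
      exact hup _ _ _ _ (Nat.le_add_right _ _) (h1 x hx)
    · rw [mul_assoc]
      exact hup _ _ _ _ (Nat.le_add_left _ _) (h2 y hy)

include b in
theorem exists_bound {Z : Submodule F K} (hZ : Z.FG) : ∃ c : ℕ, ∀ n, ∃ V : Submodule F K,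
    FiniteDimensional F V ∧ finrank F V ≤ (n + c) * g ∧
      TT F (algebraMap (RatFunc F) K RatFunc.X) n * Z ≤ V := by
  obtain ⟨D, c, hD, h⟩ := exists_den b hZ
  have hD' : Polynomial.aeval (algebraMap (RatFunc F) K RatFunc.X) D ≠ 0 := by
    rw [← alg_poly, _root_.map_ne_zero]
    exact (map_ne_zero_iff _ (IsFractionRing.injective F[X] (RatFunc F))).2 hD
  generalize Polynomial.aeval (algebraMap (RatFunc F) K RatFunc.X) D = D' at h hD'
  generalize algebraMap (RatFunc F) K RatFunc.X = t at h ⊢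
  refine ⟨c + 1, fun n => ⟨Submodule.span F (Set.range fun q : Fin (n + c + 1) × Fin g =>
    D'⁻¹ * (t ^ (q.1 : ℕ) * b q.2)), FiniteDimensional.span_of_finite F (Set.finite_range _),
    (finrank_range_le_card _).trans (by simp [add_assoc]), ?_⟩⟩
  rw [Submodule.mul_le]
  intro x hx z hz
  have h1 := Submodule.mul_mem_mul hx (h z hz)
  rw [← mul_assoc] at h1
  have h2 := mul_le_mul_left (TT_mul t (le_refl (n + c))) _ h1
  rw [TT, Submodule.span_mul_span] at h2
  have h3 := Submodule.mem_map_of_mem (f := LinearMap.mulLeft F D'⁻¹) h2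
  rw [Submodule.map_span, LinearMap.mulLeft_apply, mul_left_comm, inv_mul_cancel_left₀ hD'] at h3
  refine Submodule.span_mono ?_ h3
  rintro _ ⟨_, ⟨_, ⟨a, rfl⟩, _, ⟨s, rfl⟩, rfl⟩, rfl⟩
  exact ⟨(a, s), rfl⟩

/-- The space of sections of large degree is cut out by few forms. -/
theorem exists_sections [FiniteDimensional (RatFunc F) K] (φ : ℕ → ℕ) {σ ι : Type} [Fintype σ]
    [Fintype ι] {w : σ → ℕ} {d : ι → ℕ} {f : ι → MvPolynomial σ K}
    (hf : ∀ i, (f i).IsWeightedHomogeneous w (d i))
    (hlt : ∑ i, d i * φ (d i) < ∑ j, w j * φ (w j)) :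
    ∃ (n : σ → ℕ) (N : ι → ℕ) (u : (j : σ) → Fin (n j) → K)
      (H : (i : ι) → Fin (N i) → MvPolynomial (Σ j, Fin (n j)) F),
      (∀ j, LinearIndependent F (u j)) ∧
      (∀ i β, (H i β).IsWeightedHomogeneous (fun q => w q.1) (d i)) ∧
      ∑ i, N i * φ (d i) < ∑ j, n j * φ (w j) ∧
      ∀ (Λ : Type) [Field Λ] [Algebra F Λ] [Algebra K Λ] [IsScalarTower F K Λ]
        (z : (Σ j, Fin (n j)) → Λ), (∀ i β, aeval z (H i β) = 0) →
        ∀ i, aeval (fun j => ∑ a, z ⟨j, a⟩ * algebraMap K Λ (u j a)) (f i) = 0 := by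
  obtain ⟨g, hg, ⟨b⟩⟩ : ∃ g, 0 < g ∧ Nonempty (Basis (Fin g) (RatFunc F) K) :=
    ⟨_, finrank_pos, ⟨Module.finBasis _ _⟩⟩
  have hW : (Submodule.span F (Set.range b)).FG := Submodule.fg_span (Set.finite_range _)
  choose Z hZ hZ' using fun i =>
    good_of_homog (t := algebraMap (RatFunc F) K RatFunc.X) hW (hf i)
  choose c hc using fun i => exists_bound b (hZ i)
  obtain ⟨e, he⟩ : ∃ e, ∑ i, c i * φ (d i) < e := ⟨_, Nat.lt_succ_self _⟩
  choose V hV hV' hV'' using fun i => hc i (d i * e)
  let u : (j : σ) → Fin ((w j * e + 1) * g) → K := fun j a =>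
    algebraMap (RatFunc F) K RatFunc.X ^ ((finProdFinEquiv.symm a).1 : ℕ) *
      b (finProdFinEquiv.symm a).2
  let y : σ → MvPolynomial (Σ j, Fin ((w j * e + 1) * g)) K := fun j => ∑ a, X ⟨j, a⟩ * C (u j a)
  have hy : ∀ j, (y j).IsWeightedHomogeneous (fun q => w q.1) (w j) := fun j =>
    IsWeightedHomogeneous.sum _ _ _ fun a _ => by
      rw [mul_comm]
      exact (isWeightedHomogeneous_X K (fun q : Σ j, Fin ((w j * e + 1) * g) => w q.1)
        ⟨j, a⟩).C_mul _
  have hy' : ∀ j, y j ∈ coeffsIn _ (TT F (algebraMap (RatFunc F) K RatFunc.X) (w j * e) *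
      Submodule.span F (Set.range b)) := fun j => sum_mem fun a _ => by
    rw [X_mul_mem_coeffsIn, C_mem_coeffsIn]
    exact Submodule.mul_mem_mul (pow_mem_TT _ (Nat.le_of_lt_succ (Fin.is_lt _)))
      (Submodule.subset_span ⟨_, rfl⟩)
  choose H hH hH' using fun i => descend (homog_aeval hy (hf i)) (V := V i)
    fun m => hV'' i (hZ' i _ e y hy' m)
  refine ⟨_, _, u, H, fun j => ?_, hH, ?_, fun Λ _ _ _ _ z hz i => ?_⟩
  · refine (indep_sections b).comp (fun a : Fin ((w j * e + 1) * g) =>
      (((finProdFinEquiv.symm a).1 : ℕ), (finProdFinEquiv.symm a).2)) fun a a' h => ?_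
    exact finProdFinEquiv.symm.injective (Prod.ext (Fin.ext (Prod.ext_iff.1 h).1)
      (Prod.ext_iff.1 h).2)
  · calc ∑ i, finrank F (V i) * φ (d i) ≤ ∑ i, (d i * e + c i) * g * φ (d i) :=
          Finset.sum_le_sum fun i _ => Nat.mul_le_mul_right _ (hV' i)
      _ = g * (e * ∑ i, d i * φ (d i) + ∑ i, c i * φ (d i)) := by
          rw [Finset.mul_sum, ← Finset.sum_add_distrib, Finset.mul_sum]
          exact Finset.sum_congr rfl fun i _ => by ring
      _ < g * (e * ∑ j, w j * φ (w j)) := by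
          refine Nat.mul_lt_mul_of_pos_left ?_ hg
          have := Nat.mul_le_mul_left e (Nat.succ_le_of_lt hlt)
          rw [Nat.mul_succ] at this
          omega
      _ ≤ _ := by
          rw [Finset.mul_sum, Finset.mul_sum]
          refine Finset.sum_le_sum fun j _ => ?_
          calc g * (e * (w j * φ (w j))) = w j * e * g * φ (w j) := by ring
            _ ≤ _ := Nat.mul_le_mul_right _ (Nat.mul_le_mul_right _ (Nat.le_succ _))
  · rw [← hH' i Λ z (hz i), ← AlgHom.comp_apply, comp_aeval]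
    simp [y]

end ff

end Pool.Agent.PrimeToL
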